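import Pool.Agent.H33.PT.Df
import Pool.Agent.H11.TS.Thr2

/-!
# POINTS THEOREM, Reg: boxes which span the field

`sp k g m`: the `k`-span of the monomials `g^a`, `a i ≤ m i` (any commutative `k`-algebra).
`sp_mul`: `sp k g m * sp k g m' = sp k g (m + m')`. PROOF: `Submodule.span_mul_span`, every `c ≤ m + m'` is a sum of `a ≤ m`, `b ≤ m'` (`a = min c m`).
`sp_fin`: finite-dimensional (finite set of exponents). `sp_mono`. `sp_le`: contained in `adjoin`.

`reg_box`. PROOF: `Fi := adjoin k (range g)`, `U_j := sp k g (2^j • m)`, `U_0 = sp k g m`, `U_(j+1) = U_j * U_j` (`sp_mul`). `1 ∈ U_j` (exponent `0`), `g i ∈ U_j` (`1 ≤ m i`), `U_j ≤ Fi`. Claim: for every `j` either `U_j = Fi` (as a submodule) or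
`3^j finrank U_0 ≤ 2^j finrank U_j`. Step: if `U_j = Fi` then `U_(j+1) = Fi` (contains `U_j` because `1 ∈ U_j`). Otherwise, if `3 finrank U_j ≤ 2 finrank U_(j+1)` fine; if not, `three_halves` (H11/TS/Thr2) for `U_j`: `U_(j+1)` is an intermediate field,
it contains the `g i`, so it is `≥ Fi`, `U_(j+1) = Fi`. Now `finrank U_j ≤ finrank Fi ≤ A finrank U_0`: if `2^j A < 3^j` then `U_j = Fi`. Choose `j` minimal with `2^j A < 3^j`: `j = 0` iff `A = 0` (impossible: `finrank Fi ≥ 1`), so `j ≥ 1`,
`3^(j-1) ≤ 2^(j-1) A`, i.e. `(3/2)^(j-1) ≤ A`, and `2^(j-1) ≤ (9/4)^(j-1) ≤ A^2`: `2^j ≤ 2 A^2`. So `sp k g ((2 A^2) • m) ≥ U_j = Fi`.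
-/

set_option autoImplicit false
set_option linter.unusedSectionVars false

namespace Pool.Agent.H33.PT

/-- the span of the monomials with exponents `a ≤ m` -/
def sp (k : Type) {A : Type} [Field k] [CommRing A] [Algebra k A] {n : ℕ} (g : Fin n → A)
    (m : Fin n → ℕ) : Submodule k A := Submodule.span k (mo g '' {a | ∀ i, a i ≤ m i})

theorem sp_mul (k : Type) {A : Type} [Field k] [CommRing A] [Algebra k A] {n : ℕ} (g : Fin n → A)
    (m m' : Fin n → ℕ) : sp k g m * sp k g m' = sp k g (m + m') := by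
  unfold sp
  rw [Submodule.span_mul_span]
  congr 1
  ext x
  constructor
  · rintro ⟨_, ⟨a, ha, rfl⟩, _, ⟨b, hb, rfl⟩, rfl⟩
    exact ⟨a + b, fun i => Nat.add_le_add (ha i) (hb i), mo_add g a b⟩
  · rintro ⟨c, hc, rfl⟩
    refine ⟨mo g (fun i => min (c i) (m i)), ⟨_, fun i => min_le_right _ _, rfl⟩,
      mo g (fun i => c i - min (c i) (m i)), ⟨_, fun i => ?_, rfl⟩, ?_⟩
    · have h1 : c i ≤ m i + m' i := hc i
      omega
    · show mo g (fun i => min (c i) (m i)) * mo g (fun i => c i - min (c i) (m i)) = mo g c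
      rw [← mo_add]
      congr 1
      funext i
      show min (c i) (m i) + (c i - min (c i) (m i)) = c i
      omega

theorem sp_fin (k : Type) {A : Type} [Field k] [CommRing A] [Algebra k A] {n : ℕ} (g : Fin n → A)
    (m : Fin n → ℕ) : FiniteDimensional k (sp k g m) := by
  have h : (mo g '' {a | ∀ i, a i ≤ m i}).Finite := by
    refine Set.Finite.image _ ?_
    exact Set.finite_Iic m
  exact FiniteDimensional.span_of_finite k h

theorem sp_mono (k : Type) {A : Type} [Field k] [CommRing A] [Algebra k A] {n : ℕ} (g : Fin n → A)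
    {m m' : Fin n → ℕ} (h : m ≤ m') : sp k g m ≤ sp k g m' :=
  Submodule.span_mono (Set.image_mono fun _ ha i => (ha i).trans (h i))

theorem one_mem_sp (k : Type) {A : Type} [Field k] [CommRing A] [Algebra k A] {n : ℕ} (g : Fin n → A)
    (m : Fin n → ℕ) : (1 : A) ∈ sp k g m :=
  Submodule.subset_span ⟨0, fun _ => Nat.zero_le _, mo_zero g⟩

theorem sp_le (k : Type) {F : Type} [Field k] [Field F] [Algebra k F] {n : ℕ} (g : Fin n → F)
    (m : Fin n → ℕ) :
    sp k g m ≤ Subalgebra.toSubmodule (IntermediateField.adjoin k (Set.range g)).toSubalgebra := by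
  unfold sp
  rw [Submodule.span_le]
  rintro _ ⟨a, _, rfl⟩
  show mo g a ∈ IntermediateField.adjoin k (Set.range g)
  unfold mo
  refine prod_mem fun i _ => pow_mem ?_ _
  exact IntermediateField.subset_adjoin k _ ⟨i, rfl⟩

theorem reg_box {k F : Type} [Field k] [Infinite k] [Field F] [Algebra k F] {n : ℕ} (g : Fin n → F)
    (m : Fin n → ℕ) (hm : ∀ i, 1 ≤ m i)
    (hfin : FiniteDimensional k (IntermediateField.adjoin k (Set.range g))) (A : ℕ)
    (h : Module.finrank k (IntermediateField.adjoin k (Set.range g)) ≤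
      A * Module.finrank k (sp k g m)) :
    sp k g ((2 * A ^ 2) • m) =
      Subalgebra.toSubmodule (IntermediateField.adjoin k (Set.range g)).toSubalgebra := by
  classical
  obtain ⟨K, hK⟩ : ∃ K : IntermediateField k F, K = IntermediateField.adjoin k (Set.range g) :=
    ⟨_, rfl⟩
  have hle : ∀ m', sp k g m' ≤ Subalgebra.toSubmodule K.toSubalgebra := by
    intro m'
    rw [hK]
    exact sp_le k g m'
  rw [← hK] at h hfin ⊢
  obtain ⟨Fi, hFi⟩ : ∃ Fi : Submodule k F, Fi = Subalgebra.toSubmodule K.toSubalgebra := ⟨_, rfl⟩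
  rw [← hFi] at hle ⊢
  have hmem : ∀ x, x ∈ Fi ↔ x ∈ K := by
    intro x
    rw [hFi]
    exact Iff.rfl
  have hfr : Module.finrank k Fi = Module.finrank k K := by
    rw [hFi, Subalgebra.finrank_toSubmodule, IntermediateField.finrank_eq_finrank_subalgebra]
  have hFfin : FiniteDimensional k Fi := by
    rw [hFi]
    exact hfin
  have hpos : 0 < Module.finrank k K := Module.finrank_pos
  have hU0 : 0 < Module.finrank k (sp k g m) := by
    by_contra h0
    have h1 : Module.finrank k (sp k g m) = 0 := by omega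
    rw [h1, Nat.mul_zero] at h
    omega
  have hUle : ∀ m', Module.finrank k (sp k g m') ≤ Module.finrank k Fi := by
    intro m'
    exact Submodule.finrank_mono (hle m')
  have hstep : ∀ j : ℕ, sp k g ((2 ^ j) • m) = Fi ∨
      3 ^ j * Module.finrank k (sp k g m) ≤ 2 ^ j * Module.finrank k (sp k g ((2 ^ j) • m)) := by
    intro j
    induction j with
    | zero =>
      right
      rw [pow_zero, pow_zero, one_smul]
    | succ j ih =>
      have hsq : sp k g ((2 ^ (j + 1)) • m) = sp k g ((2 ^ j) • m) * sp k g ((2 ^ j) • m) := by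
        rw [sp_mul, pow_succ, mul_two, add_smul]
      have hsub : sp k g ((2 ^ j) • m) ≤ sp k g ((2 ^ (j + 1)) • m) := by
        rw [hsq]
        intro x hx
        have := Submodule.mul_mem_mul hx (one_mem_sp k g ((2 ^ j) • m))
        rwa [mul_one] at this
      rcases ih with h1 | h1
      · left
        refine le_antisymm (hle _) ?_
        rw [← h1]
        exact hsub
      · by_cases h2 : 3 * Module.finrank k (sp k g ((2 ^ j) • m)) ≤
            2 * Module.finrank k (sp k g ((2 ^ (j + 1)) • m))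
        · right
          calc 3 ^ (j + 1) * Module.finrank k (sp k g m)
              = 3 * (3 ^ j * Module.finrank k (sp k g m)) := by ring
            _ ≤ 3 * (2 ^ j * Module.finrank k (sp k g ((2 ^ j) • m))) := Nat.mul_le_mul_left _ h1
            _ = 2 ^ j * (3 * Module.finrank k (sp k g ((2 ^ j) • m))) := by ring
            _ ≤ 2 ^ j * (2 * Module.finrank k (sp k g ((2 ^ (j + 1)) • m))) :=
                Nat.mul_le_mul_left _ h2
            _ = 2 ^ (j + 1) * Module.finrank k (sp k g ((2 ^ (j + 1)) • m)) := by ring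
        · left
          have := sp_fin k g ((2 ^ j) • m)
          have h3 : 2 * Module.finrank k
              (sp k g ((2 ^ j) • m) * sp k g ((2 ^ j) • m) : Submodule k F) <
              3 * Module.finrank k (sp k g ((2 ^ j) • m)) := by
            rw [← hsq]
            omega
          obtain ⟨H, hH⟩ := Pool.Agent.H11.TS.three_halves (sp k g ((2 ^ j) • m))
            (one_mem_sp k g _) h3
          refine le_antisymm (hle _) ?_
          intro x hx
          rw [hmem, hK] at hx
          rw [hsq, ← hH]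
          refine (IntermediateField.adjoin_le_iff.2 ?_) hx
          rintro _ ⟨i, rfl⟩
          show g i ∈ H
          rw [hH, ← hsq]
          refine hsub ?_
          refine Submodule.subset_span ⟨Pi.single i 1, ?_, ?_⟩
          · intro l
            by_cases hl : l = i
            · subst hl
              rw [Pi.single_eq_same]
              show 1 ≤ 2 ^ j * m l
              exact Nat.one_le_iff_ne_zero.2 (Nat.mul_ne_zero (by positivity)
                (Nat.one_le_iff_ne_zero.1 (hm l)))
            · rw [Pi.single_eq_of_ne hl]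
              exact Nat.zero_le _
          · unfold mo
            rw [Finset.prod_eq_single i]
            · rw [Pi.single_eq_same, pow_one]
            · intro l _ hl
              rw [Pi.single_eq_of_ne hl, pow_zero]
            · intro hi
              exact absurd (Finset.mem_univ i) hi
  have hex : ∃ j : ℕ, 2 ^ j * A < 3 ^ j := by
    obtain ⟨j, hj⟩ := pow_unbounded_of_one_lt (A : ℚ) (show (1 : ℚ) < 3 / 2 by norm_num)
    refine ⟨j, ?_⟩
    rw [div_pow, lt_div_iff₀ (by positivity)] at hj
    have : ((A * 2 ^ j : ℕ) : ℚ) < ((3 ^ j : ℕ) : ℚ) := by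
      push_cast
      exact hj
    have h2 := Nat.cast_lt.1 this
    rwa [mul_comm] at h2
  have hj := Nat.find_spec hex
  have hj2 : ∀ i < Nat.find hex, ¬ 2 ^ i * A < 3 ^ i := fun i hi => Nat.find_min hex hi
  generalize Nat.find hex = j at hj hj2
  have hA : 1 ≤ A := by
    by_contra h0
    have : A = 0 := by omega
    rw [this, Nat.zero_mul] at h
    omega
  have hj0 : j ≠ 0 := by
    rintro rfl
    rw [pow_zero, pow_zero] at hj
    omega
  obtain ⟨i, rfl⟩ := Nat.exists_eq_succ_of_ne_zero hj0
  have h4 : 3 ^ i ≤ 2 ^ i * A := not_lt.1 (hj2 i (Nat.lt_succ_self i))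
  have h5 : 2 ^ i ≤ A ^ 2 := by
    have h6 : (3 ^ i) ^ 2 ≤ (2 ^ i * A) ^ 2 := Nat.pow_le_pow_left h4 2
    have h7 : (3 ^ i) ^ 2 = 9 ^ i := by
      rw [← pow_mul, mul_comm i 2, pow_mul]
      norm_num
    have h8 : (2 ^ i * A) ^ 2 = 4 ^ i * A ^ 2 := by
      rw [mul_pow, ← pow_mul, mul_comm i 2, pow_mul]
      norm_num
    have h9 : 4 ^ i * 2 ^ i ≤ 9 ^ i := by
      rw [← mul_pow]
      exact Nat.pow_le_pow_left (by norm_num) i
    have h10 : 4 ^ i * 2 ^ i ≤ 4 ^ i * A ^ 2 := by
      rw [h7, h8] at h6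
      exact h9.trans h6
    exact Nat.le_of_mul_le_mul_left h10 (by positivity)
  have h11 : sp k g ((2 ^ (i + 1)) • m) = Fi := by
    rcases hstep (i + 1) with h12 | h12
    · exact h12
    · exfalso
      have h13 : 3 ^ (i + 1) * Module.finrank k (sp k g m) ≤
          2 ^ (i + 1) * A * Module.finrank k (sp k g m) := by
        calc 3 ^ (i + 1) * Module.finrank k (sp k g m)
            ≤ 2 ^ (i + 1) * Module.finrank k (sp k g ((2 ^ (i + 1)) • m)) := h12
          _ ≤ 2 ^ (i + 1) * Module.finrank k Fi := Nat.mul_le_mul_left _ (hUle _)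
          _ ≤ 2 ^ (i + 1) * (A * Module.finrank k (sp k g m)) := by
              rw [hfr]
              exact Nat.mul_le_mul_left _ h
          _ = 2 ^ (i + 1) * A * Module.finrank k (sp k g m) := by ring
      have h14 := Nat.le_of_mul_le_mul_right h13 hU0
      exact absurd hj (not_lt.2 h14)
  refine le_antisymm (hle _) ?_
  rw [← h11]
  refine sp_mono k g fun l => ?_
  show 2 ^ (i + 1) * m l ≤ 2 * A ^ 2 * m l
  refine Nat.mul_le_mul_right _ ?_
  rw [pow_succ]
  omega

end Pool.Agent.H33.PT
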