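import Pool.Agent.H33.PT.Gp

/-!
# POINTS THEOREM, Gpu: the theorem `gp` (file `Gp.lean`, proof by helper4) with constants which depend on nothing but `n`, `e` and `c`

The hypothesis for the dimensions `j < n` is `PtB L Λ j (1 + 1 / (e + 1)) (c / Z^3)`: a loss of a power of `Z` is allowed. Copy of the proof of `gp`.
-/

set_option autoImplicit false
set_option linter.unusedSectionVars false

open NumberField

namespace Pool.Agent.H33.PT

open Pool.Agent.H11.TS Pool.Agent.H11.TH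

private theorem ch_add {Ω : Type} [Field Ω] {n : ℕ} (a b : Fin n → ℤ) (x : Tor Ω n) :
    ch (a + b) x = ch a x * ch b x := by
  unfold ch
  rw [← Finset.prod_mul_distrib]
  exact Finset.prod_congr rfl fun l _ => zpow_add _ _ _

private theorem ch_zero {Ω : Type} [Field Ω] {n : ℕ} (x : Tor Ω n) : ch 0 x = 1 := by
  unfold ch
  exact Finset.prod_eq_one fun l _ => zpow_zero _

private theorem ch_smul {Ω : Type} [Field Ω] {n : ℕ} (c : ℤ) (a : Fin n → ℤ) (x : Tor Ω n) :
    ch (c • a) x = ch a x ^ c := by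
  unfold ch
  rw [← Finset.prod_zpow]
  exact Finset.prod_congr rfl fun l _ => by
    rw [Pi.smul_apply, smul_eq_mul, mul_comm, zpow_mul]

private theorem ch_sum {Ω : Type} [Field Ω] {n k : ℕ} (e : Fin k → Fin n → ℤ) (c : Fin k → ℤ)
    (s : Finset (Fin k)) (x : Tor Ω n) : ch (∑ i ∈ s, c i • e i) x = ∏ i ∈ s, ch (e i) x ^ c i := by
  classical
  induction s using Finset.induction_on with
  | empty => rw [Finset.sum_empty, Finset.prod_empty, ch_zero]
  | insert a s ha ih => rw [Finset.sum_insert ha, Finset.prod_insert ha, ch_add, ch_smul, ih]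

private theorem ch_single {Ω : Type} [Field Ω] {n : ℕ} (l : Fin n) (x : Tor Ω n) :
    ch (Pi.single l (1 : ℤ)) x = x l := by
  classical
  unfold ch
  rw [Finset.prod_eq_single l]
  · rw [Pi.single_eq_same, zpow_one]
  · intro b _ hb
    rw [Pi.single_eq_of_ne hb, zpow_zero]
  · intro h
    exact absurd (Finset.mem_univ l) h

/-- the polynomial of a relation between monomials -/
private theorem rel_poly {R Ω : Type} [Field R] [Field Ω] [Algebra R Ω] {n M : ℕ}
    (y : Fin n → Ω) (g : (Fin n → Fin (M + 1)) → R) (a₀ : Fin n → Fin (M + 1)) (h0 : g a₀ ≠ 0)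
    (hg : ∑ a, g a • mo y (fun i => (a i : ℕ)) = 0) :
    ∃ F : MvPolynomial (Fin n) R, F ≠ 0 ∧ (∀ i, F.degreeOf i ≤ M) ∧ MvPolynomial.aeval y F = 0 := by
  classical
  have hinj : ∀ a b : Fin n → Fin (M + 1),
      Finsupp.equivFunOnFinite.symm (fun i => (a i : ℕ)) =
        Finsupp.equivFunOnFinite.symm (fun i => (b i : ℕ)) → a = b := by
    intro a b h
    have h1 := Finsupp.equivFunOnFinite.symm.injective h
    funext i
    exact Fin.ext (congrFun h1 i)
  refine ⟨∑ a, MvPolynomial.monomial (Finsupp.equivFunOnFinite.symm (fun i => (a i : ℕ))) (g a),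
    ?_, ?_, ?_⟩
  · rw [MvPolynomial.ne_zero_iff]
    refine ⟨Finsupp.equivFunOnFinite.symm (fun i => (a₀ i : ℕ)), ?_⟩
    rw [MvPolynomial.coeff_sum, Finset.sum_eq_single a₀]
    · rw [MvPolynomial.coeff_monomial, if_pos rfl]
      exact h0
    · intro b _ hb
      rw [MvPolynomial.coeff_monomial, if_neg]
      intro h
      exact hb (hinj _ _ h)
    · intro h
      exact absurd (Finset.mem_univ _) h
  · intro i
    rw [MvPolynomial.degreeOf_le_iff]
    intro m hm
    rw [MvPolynomial.mem_support_iff, MvPolynomial.coeff_sum] at hm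
    obtain ⟨a, _, ha⟩ := Finset.exists_ne_zero_of_sum_ne_zero hm
    rw [MvPolynomial.coeff_monomial] at ha
    have h1 : Finsupp.equivFunOnFinite.symm (fun i => (a i : ℕ)) = m := by
      by_contra h
      rw [if_neg h] at ha
      exact ha rfl
    rw [← h1]
    exact Nat.lt_succ_iff.1 (a i).2
  · rw [map_sum]
    rw [← hg]
    refine Finset.sum_congr rfl fun a _ => ?_
    rw [MvPolynomial.aeval_monomial, Finsupp.prod_fintype _ _ (fun i => pow_zero _),
      Algebra.smul_def]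
    rfl

private theorem comb_ne {n k : ℕ} (e : Fin k → Fin n → ℤ) (h : LinearIndependent ℚ (fun i => rv (e i)))
    (a : Fin k → ℤ) (ha : a ≠ 0) : (∑ i, a i • e i) ≠ 0 := by
  intro h0
  apply ha
  funext i
  have h1 := Fintype.linearIndependent_iff.1 h (fun i => (a i : ℚ)) (by
    funext l
    rw [Finset.sum_apply, Pi.zero_apply]
    have h2 := congrFun h0 l
    rw [Finset.sum_apply, Pi.zero_apply] at h2
    have h3 : ((∑ i, (a i • e i) l : ℤ) : ℚ) = 0 := by
      rw [h2, Int.cast_zero]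
    rw [← h3]
    push_cast
    exact Finset.sum_congr rfl fun i _ => by
      simp [rv]) i
  exact_mod_cast h1

theorem gp_u (n e : ℕ) (hn : 1 ≤ n) (c : ℝ) (hc : 0 < c) : ∃ K₀ : ℕ, 1 ≤ K₀ ∧ ∀ (K Ω : Type)
    [Field K] [NumberField K] [Field Ω] [CharZero Ω] [IsAlgClosed Ω] [Algebra K Ω] [IsGalois K Ω]
    (L : IntermediateField K Ω) (Λ : Subgroup Ωˣ) (Z : ℕ), K₀ ≤ Z →
    (∀ j : ℕ, 1 ≤ j → j < n → PtB L Λ j (1 + 1 / ((e : ℝ) + 1)) (c / (Z : ℝ) ^ 3)) →
    ∀ γ : Fin n → Ωˣ, IndM Λ γ → degP L γ ≤ Z ^ e → ∀ h : ℝ,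
      (∀ i, absLogHeight₁ (γ i : Ω) ≤ h) →
      (Z : ℝ) ^ (10 * n ^ 3 + 10 * n) * ((degP L γ : ℝ) * h ^ n) ≤ 1 → ∀ M₁ : ℕ,
      M₁ ^ n * Z ^ (10 * n ^ 3 + 1) ≤ degP L γ →
      LinearIndependent L fun a : Fin n → Fin (M₁ + 1) =>
        mo (fun i => (γ i : Ω)) (fun i => (a i : ℕ)) := by
  classical
  obtain ⟨C, hC, hts⟩ := thm_ts n e
  have hε : (0 : ℝ) < 1 / ((e : ℝ) + 1) := by positivity
  have hfact : 1 ≤ n.factorial := Nat.one_le_iff_ne_zero.2 (Nat.factorial_ne_zero n)
  have hC1 : (1 : ℝ) ≤ C := by exact_mod_cast hC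
  refine ⟨C * n + n.factorial * C ^ (n + 1) + 1 + (⌈(C : ℝ) / c⌉₊ + 1) + C, by omega, ?_⟩
  intro K Ω _ _ _ _ _ _ _ L Λ Z hZ hlow' γ hind hdeg h hh hsmall M₁ hM₁
  have hZ1 : 1 ≤ Z := by omega
  have hZC : C ≤ Z := by omega
  have hZCn : C * n ≤ Z := by omega
  have hZf : n.factorial * C ^ (n + 1) < Z := by omega
  have hZc : (C : ℝ) < c * Z := by
    have h1 : ⌈(C : ℝ) / c⌉₊ + 1 ≤ Z := by omega
    have h2 := Nat.le_ceil ((C : ℝ) / c)
    rw [div_le_iff₀ hc] at h2
    have h3 : ((⌈(C : ℝ) / c⌉₊ : ℝ) + 1) ≤ Z := by exact_mod_cast h1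
    nlinarith
  have hZR : (1 : ℝ) ≤ Z := by exact_mod_cast hZ1
  have hZ0 : (0 : ℝ) < Z := by linarith
  have hh0 : 0 ≤ h := (Pool.Agent.H72.PB.ht_nonneg _).trans (hh ⟨0, hn⟩)
  rw [Fintype.linearIndependent_iff]
  intro g hg
  by_contra hne
  push Not at hne
  obtain ⟨a₀, ha₀⟩ := hne
  rcases Nat.eq_zero_or_pos M₁ with hM0 | hM0
  · subst hM0
    apply ha₀
    have h1 : ∀ a : Fin n → Fin (0 + 1), a = a₀ := fun a => funext fun i => Fin.ext (by
      have h2 := (a i).2
      have h3 := (a₀ i).2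
      omega)
    rw [Fintype.sum_eq_single a₀ (fun a ha => absurd (h1 a) ha)] at hg
    have h2 : mo (fun i => (γ i : Ω)) (fun i => ((a₀ i : Fin (0 + 1)) : ℕ)) = 1 := by
      have h3 : (fun i => ((a₀ i : Fin (0 + 1)) : ℕ)) = 0 := by
        funext i
        have := (a₀ i).2
        simp
      rw [h3, mo_zero]
    rw [h2] at hg
    rcases smul_eq_zero.1 hg with h4 | h4
    · exact h4
    · exact absurd h4 one_ne_zero
  obtain ⟨F, hF0, hFd, hFv⟩ := rel_poly (fun i => (γ i : Ω)) g a₀ ha₀ hg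
  have hcrd : (fun i => (γ i : Ω)) = crd γ := rfl
  rw [hcrd] at hFv
  have hidl : idl ({γ} : Set (Tor Ω n)) =
      RingHom.ker (MvPolynomial.aeval (crd γ) : MvPolynomial (Fin n) Ω →ₐ[Ω] Ω) := by
    ext f
    rw [Pool.Agent.H33.TR.mem_idl, RingHom.mem_ker]
    constructor
    · intro h1
      exact h1 γ rfl
    · rintro h1 x hx
      rw [Set.mem_singleton_iff.1 hx]
      exact h1
  have hprime : (idl ({γ} : Set (Tor Ω n))).IsPrime := by
    rw [hidl]
    exact RingHom.ker_isPrime _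
  have hvan : MvPolynomial.map (algebraMap L Ω) F ∈ idl ({γ} : Set (Tor Ω n)) := by
    rw [hidl, RingHom.mem_ker]
    exact (MvPolynomial.aeval_map_algebraMap Ω (crd γ) F).trans hFv
  have hMD : M₁ ≤ Z ^ e := by
    refine le_trans ?_ (hM₁.trans hdeg)
    calc M₁ ≤ M₁ ^ n := Nat.le_self_pow (by omega) _
      _ = M₁ ^ n * 1 := (mul_one _).symm
      _ ≤ M₁ ^ n * Z ^ (10 * n ^ 3 + 1) := Nat.mul_le_mul_left _ (Nat.one_le_pow _ _ hZ1)
  have hht : ht γ ≤ (n : ℝ) * h := by
    unfold ht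
    refine (Finset.sum_le_card_nsmul _ _ h (fun l _ => hh l)).trans (le_of_eq ?_)
    rw [Finset.card_univ, Fintype.card_fin, nsmul_eq_mul]
  -- the basic inequality
  obtain ⟨y, hy⟩ : ∃ y : ℝ, y = (M₁ : ℝ) * h * (Z : ℝ) ^ (10 * n ^ 2 + 10) := ⟨_, rfl⟩
  have hy0 : 0 ≤ y := by
    rw [hy]
    positivity
  have hy1 : y ≤ 1 := by
    rw [← pow_le_one_iff_of_nonneg hy0 (show n ≠ 0 by omega)]
    refine le_trans ?_ hsmall
    have h1 : ((M₁ : ℝ) ^ n) ≤ (degP L γ : ℝ) := by
      have h2 : M₁ ^ n ≤ degP L γ :=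
        le_trans (Nat.le_mul_of_pos_right _ (Nat.one_le_pow _ _ hZ1)) hM₁
      exact_mod_cast h2
    calc y ^ n = (Z : ℝ) ^ (10 * n ^ 3 + 10 * n) * ((M₁ : ℝ) ^ n * h ^ n) := by
          rw [hy, mul_pow, mul_pow, ← pow_mul,
            show (10 * n ^ 2 + 10) * n = 10 * n ^ 3 + 10 * n by ring]
          ring
      _ ≤ _ := by gcongr
  have hy9 : (C * n : ℝ) * y ≤ Z := by
    have h1 : (C * n : ℝ) ≤ Z := by exact_mod_cast hZCn
    have h2 : (0 : ℝ) ≤ C * n := by positivity
    nlinarith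
  rcases hts K Ω L {γ} hprime Z M₁ hZC hM0 hMD F hF0 hFd hvan (n * h)
    (fun x hx => by rw [Set.mem_singleton_iff.1 hx]; exact hht) with h1 | h1
  · -- case 1
    apply absurd h1
    rw [not_lt]
    push_cast
    have h2 : (C : ℝ) * (Z : ℝ) ^ (10 * n ^ 2 + 1) * M₁ * (n * h) * (Z : ℝ) ^ 9 = (C * n : ℝ) * y := by
      rw [hy, show 10 * n ^ 2 + 10 = (10 * n ^ 2 + 1) + 9 by ring, pow_add _ (10 * n ^ 2 + 1) 9]
      ring
    have h3 : (C : ℝ) * (Z : ℝ) ^ (10 * n ^ 2 + 1) * M₁ * (n * h) * (Z : ℝ) ^ 9 ≤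
        1 * (Z : ℝ) ^ 9 := by
      rw [h2, one_mul]
      exact hy9.trans (le_self_pow₀ hZR (by norm_num))
    exact le_of_mul_le_mul_right h3 (by positivity)
  · obtain ⟨k, N, ee, μ, γ', hk, hN, hli, heμ, hμ, hγX, hfd, hfin⟩ := h1
    have hγ' : (fun i => ch (ee i) γ) = γ' := by
      funext i
      exact hγX i γ rfl
    have hkn : k ≤ n := by
      have h2 := hli.fintype_card_le_finrank
      rwa [Fintype.card_fin, Module.finrank_fintype_fun_eq_card, Fintype.card_fin] at h2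
    rcases Nat.lt_or_ge k n with hlt | hge
    · -- case 2a
      have hind' : IndM Λ γ' := by
        intro b hb
        have h2 : (∏ i, γ' i ^ b i) = ch (∑ i, b i • ee i) γ := by
          rw [ch_sum, ← hγ']
        rw [h2]
        exact hind _ (comb_ne ee hli b hb)
      have h2 := hlow' k hk hlt γ' hind'
      have hint : ∀ x : Ω, IsIntegral L x := fun x =>
        ((Algebra.IsAlgebraic.isAlgebraic (R := K) x).isIntegral).tower_top
      have hfdγ : FiniteDimensional L
          (IntermediateField.adjoin L (Set.range fun i => (γ i : Ω))) :=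
        IntermediateField.finiteDimensional_adjoin fun x _ => hint x
      have hJD : degP L γ' ≤ degP L γ := by
        unfold degP
        have h3 : IntermediateField.adjoin L (Set.range fun i => (γ' i : Ω)) ≤
            IntermediateField.adjoin L (Set.range fun i => (γ i : Ω)) := by
          rw [IntermediateField.adjoin_le_iff]
          rintro _ ⟨i, rfl⟩
          rw [← hγ']
          show ((ch (ee i) γ : Ωˣ) : Ω) ∈ _
          unfold ch
          rw [Units.coe_prod]
          refine prod_mem fun l _ => ?_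
          rw [Units.val_zpow_eq_zpow_val]
          refine zpow_mem ?_ _
          exact IntermediateField.subset_adjoin _ _ ⟨l, rfl⟩
        exact Submodule.finrank_mono (M := Ω) (s := Subalgebra.toSubmodule
          (IntermediateField.adjoin L (Set.range fun i => (γ' i : Ω))).toSubalgebra)
          (t := Subalgebra.toSubmodule
          (IntermediateField.adjoin L (Set.range fun i => (γ i : Ω))).toSubalgebra) h3
      obtain ⟨J, hJ⟩ : ∃ J : ℕ, J = degP L γ' := ⟨_, rfl⟩
      have hJ0 : 0 < J := by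
        rw [hJ]
        exact Module.finrank_pos
      have hJR : (0 : ℝ) < J := by exact_mod_cast hJ0
      have hJe : (J : ℝ) ≤ (Z : ℝ) ^ e := by
        have h3 : J ≤ Z ^ e := by
          rw [hJ]
          exact hJD.trans hdeg
        exact_mod_cast h3
      have hJε : (J : ℝ) ^ (1 + 1 / ((e : ℝ) + 1)) ≤ J * Z := by
        rw [Real.rpow_add hJR, Real.rpow_one]
        refine mul_le_mul_of_nonneg_left ?_ hJR.le
        calc (J : ℝ) ^ (1 / ((e : ℝ) + 1)) ≤ ((Z : ℝ) ^ e) ^ (1 / ((e : ℝ) + 1)) :=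
              Real.rpow_le_rpow hJR.le hJe hε.le
          _ = (Z : ℝ) ^ ((e : ℝ) * (1 / ((e : ℝ) + 1))) := by
              rw [← Real.rpow_natCast, ← Real.rpow_mul hZ0.le]
          _ ≤ (Z : ℝ) ^ (1 : ℝ) := by
              refine Real.rpow_le_rpow_of_exponent_le hZR ?_
              rw [mul_one_div, div_le_one (by positivity)]
              linarith
          _ = Z := Real.rpow_one _
      have hhe : ∏ i, absLogHeight₁ (γ' i : Ω) ≤ ((∏ i, μ i : ℕ) : ℝ) * (n * h) ^ k := by
        have h3 : ∏ i, absLogHeight₁ (γ' i : Ω) ≤ ∏ i, ((μ i : ℝ) * (n * h)) := by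
          refine Finset.prod_le_prod (fun i _ => Pool.Agent.H72.PB.ht_nonneg _) fun i _ => ?_
          rw [← hγ']
          refine (ht_ch (K := K) (ee i) γ (μ i) ?_).trans
            (mul_le_mul_of_nonneg_left hht (Nat.cast_nonneg _))
          intro l
          have h4 : ((|ee i l| : ℤ) : ℝ) ≤ ((μ i : ℤ) : ℝ) := by exact_mod_cast heμ i l
          rw [Int.cast_abs] at h4
          exact_mod_cast h4
        refine h3.trans (le_of_eq ?_)
        rw [Finset.prod_mul_distrib, Finset.prod_const, Finset.card_univ, Fintype.card_fin]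
        push_cast
        rfl
      have hJμ : (J : ℝ) * ((∏ i, μ i : ℕ) : ℝ) ≤ C * (N : ℝ) ^ k := by
        have h3 : J * ∏ i, μ i ≤ C * N ^ k := by
          rw [hJ]
          exact hfin
        exact_mod_cast h3
      obtain ⟨w, hw⟩ : ∃ w : ℝ, w = (N : ℝ) * (n * h) := ⟨_, rfl⟩
      have hw0 : 0 ≤ w := by
        rw [hw]
        positivity
      have hw9 : w * (Z : ℝ) ^ 9 ≤ 1 := by
        have h3 : (N : ℝ) ≤ C * (Z : ℝ) ^ (10 * n ^ 2) * M₁ := by exact_mod_cast hN
        have h4 : w * (Z : ℝ) ^ 9 * Z ≤ 1 * Z := by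
          rw [one_mul]
          refine le_trans ?_ hy9
          calc w * (Z : ℝ) ^ 9 * Z
              ≤ (C * (Z : ℝ) ^ (10 * n ^ 2) * M₁) * (n * h) * (Z : ℝ) ^ 9 * Z := by
                rw [hw]
                gcongr
            _ = (C * n : ℝ) * y := by
                rw [hy, pow_add _ (10 * n ^ 2) 10]
                ring
        exact le_of_mul_le_mul_right h4 hZ0
      have hw1 : w ≤ 1 := by
        have h3 : (1 : ℝ) ≤ (Z : ℝ) ^ 9 := one_le_pow₀ hZR
        nlinarith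
      have hwk : w ^ k ≤ w := by
        calc w ^ k ≤ w ^ 1 := pow_le_pow_of_le_one hw0 hw1 hk
          _ = w := pow_one _
      have hcw : c / (Z : ℝ) ^ 3 ≤ C * w * Z := by
        rw [← hJ] at h2
        calc c / (Z : ℝ) ^ 3 ≤ (J : ℝ) ^ (1 + 1 / ((e : ℝ) + 1)) * ∏ i, absLogHeight₁ (γ' i : Ω) := h2
          _ ≤ (J * Z) * (((∏ i, μ i : ℕ) : ℝ) * (n * h) ^ k) := by
              refine mul_le_mul hJε hhe (Finset.prod_nonneg fun i _ => Pool.Agent.H72.PB.ht_nonneg _) (by positivity)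
          _ = ((J : ℝ) * ((∏ i, μ i : ℕ) : ℝ)) * ((n * h) ^ k * Z) := by ring
          _ ≤ (C * (N : ℝ) ^ k) * ((n * h) ^ k * Z) :=
              mul_le_mul_of_nonneg_right hJμ (by positivity)
          _ = C * w ^ k * Z := by
              rw [hw, mul_pow (N : ℝ)]
              ring
          _ ≤ C * w * Z := by gcongr
      have hfinal : c * Z ≤ C := by
        have h3 : (1 : ℝ) ≤ (Z : ℝ) ^ 4 := one_le_pow₀ hZR
        rw [div_le_iff₀ (by positivity)] at hcw
        calc c * Z ≤ (C * w * Z * (Z : ℝ) ^ 3) * Z := mul_le_mul_of_nonneg_right hcw hZ0.le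
          _ ≤ (C * w * Z * (Z : ℝ) ^ 3) * Z * (Z : ℝ) ^ 4 := le_mul_of_one_le_right (by positivity) h3
          _ = C * (w * (Z : ℝ) ^ 9) := by ring
          _ ≤ C * 1 := by gcongr
          _ = C := mul_one _
      linarith
    · -- case 2b
      obtain rfl : k = n := le_antisymm hkn hge
      have h2 := deg_chars L γ ee hli μ heμ
      rw [hγ'] at h2
      have h3 : degP L γ ≤ k.factorial * (C * (C * Z ^ (10 * k ^ 2) * M₁) ^ k) := by
        calc degP L γ ≤ degP L γ' * (k.factorial * ∏ i, μ i) := h2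
          _ = k.factorial * (degP L γ' * ∏ i, μ i) := by ring
          _ ≤ k.factorial * (C * N ^ k) := Nat.mul_le_mul_left _ hfin
          _ ≤ _ := Nat.mul_le_mul_left _ (Nat.mul_le_mul_left _ (Nat.pow_le_pow_left hN _))
      have h4 : (M₁ ^ k * Z ^ (10 * k ^ 3)) * Z ≤
          (M₁ ^ k * Z ^ (10 * k ^ 3)) * (k.factorial * C ^ (k + 1)) := by
        calc (M₁ ^ k * Z ^ (10 * k ^ 3)) * Z = M₁ ^ k * Z ^ (10 * k ^ 3 + 1) := by ring
          _ ≤ degP L γ := hM₁
          _ ≤ _ := h3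
          _ = (M₁ ^ k * Z ^ (10 * k ^ 3)) * (k.factorial * C ^ (k + 1)) := by
              rw [mul_pow, mul_pow, ← pow_mul, show 10 * k ^ 2 * k = 10 * k ^ 3 by ring]
              ring
      have h5 := Nat.le_of_mul_le_mul_left h4
        (Nat.mul_pos (Nat.pow_pos hM0) (Nat.pow_pos hZ1))
      omega


end Pool.Agent.H33.PT
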