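import Pool.Agent.H33.PT.Reg
import Pool.Agent.H11.TS.FinB

/-!
# POINTS THEOREM, Gp: no relations of small degree (general base field `L`)

`gp`. For points `γ ∈ G_m^n`, independent modulo `Λ`, of degree `D = degP L γ ≤ Z^e` and height `h(γ_i) ≤ h`, `Z^(c₀) D h^n ≤ 1`: the monomials `γ^a`, `a ∈ [0, M₁]^n`, are independent over `L` if `M₁^n Z^(c₁) ≤ D`
(`c₁ = 10 n^3 + 1`, `c₀ = 10 n^3 + 10 n`). Hypothesis: the points theorem `PtB` with exponent `1 + ε` in the dimensions `< n`.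

PROOF. `M₁ = 0`: the only monomial is `1` (then trivial: one nonzero vector). Let `1 ≤ M₁` and suppose there is a nontrivial relation: `F ∈ L[x]`, `F ≠ 0`, `degreeOf i ≤ M₁`, `F(γ) = 0` (`F = ∑_a c_a x^a`). `thm_ts n e` (`Pool/Agent/H11/TS/Cor.lean`), `C` its constant, with `X = {γ}`
(`idl {γ}` is the ideal of a point: maximal/prime: the kernel of the evaluation at `crd γ`, onto a field), `P₀ = Z ≥ C`, `D := M₁ ≤ Z^e` (`M₁ ≤ M₁^n Z^(c₁) ≤ D ≤ Z^e`), `θ := n h ≥ ht γ`.
`h ≥ 0` (`n ≥ 1`, heights `≥ 0`); `(M₁ h)^n ≤ D Z^(-c₁) h^n ≤ Z^(-c₀-c₁)`, so `M₁ h ≤ Z^(-(10 n^2 + 10))` (`c₀ ≥ n (10 n^2 + 10)`; compare `n`-th powers).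
Case 1: `1 < C Z^(10n^2+1) M₁ n h ≤ C n Z^(-9)`: false for `Z ≥ C n`.
Case 2: `k, N, e_i, μ_i, γ'_i`. `k ≤ n` (independent vectors of `ℚ^n`). `N ≤ C Z^(10 n^2) M₁`.
(2a) `k < n`: the `γ'_i = ch (e i) γ` are independent modulo `Λ` (as in `ts_P`, `Pool/Agent/H11/TS/FinB.lean`: `ch_comb`, `comb_ne`, private there, copy). `hlow k` with `ε = 1/(e+1)`: `c ≤ J^(1+ε) ∏ h(γ'_i)`, `J = degP L γ' = finrank L (adjoin ..)`; `J ≤ D ≤ Z^e` (`adjoin L (range γ') ≤ adjoin L (range γ)`),
`J^ε ≤ Z`; `h(γ'_i) ≤ n μ_i h` (height of a character: `ht_ch` in H33/TR or H11); so `c ≤ Z J ∏ (n μ_i h) ≤ Z C N^k (n h)^k ≤ Z C (C n Z^(10n^2) M₁ h)^k ≤ Z C (C n Z^(-10))^k`, `k ≥ 1`: false for `Z ≥ K` (`K` depends on `c`, `C`, `n`).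
(2b) `k = n`: `D ≤ J n! ∏ μ_i`: the conjugates of `γ` over `L(γ')`: for `σ` over `L(γ')`: `ch (e i) (σ γ / γ) = 1` for all `i`; the number of `ξ ∈ Tor Ω n` with `ch (e i) ξ = 1` for `i = 1..n` is at most `|det e| ≤ n! ∏ μ_i` (it is the group of the characters of `ℤ^n / ⟨e_i⟩`, a group with `|det e|` elements; the number of homomorphisms from a finite abelian
group `Q` to `Ωˣ` is at most `|Q|`: `Nat.card (Q →* Ωˣ) ≤ Nat.card Q`, linear independence of characters). `[L(γ) : L(γ')]` = number of conjugates of the tuple `γ` over `L(γ')` (`Ω` algebraically closed, characteristic 0, `L(γ)` finite over `L(γ')`: the embeddings of `L(γ')(γ)` over `L(γ')` are determined by the images of `γ`).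
So `D ≤ n! J ∏ μ ≤ n! C N^n ≤ n! C (C Z^(10 n^2) M₁)^n ≤ n! C^(n+1) Z^(10 n^3) M₁^n ≤ n! C^(n+1) Z^(-1) D`: false for `Z > n! C^(n+1)`.
-/

set_option autoImplicit false
set_option linter.unusedSectionVars false

open NumberField

namespace Pool.Agent.H33.PT

open Pool.Agent.H11.TS Pool.Agent.H11.TH

private theorem ch_add {Ω : Type} [Field Ω] {n : ℕ} (a b : Fin n → ℤ) (x : Tor Ω n) :
    ch (a + b) x = ch a x * ch b x := by
  unfold ch
  rw [← Finset.prod_mul_distrib]
  exact Finset.prod_congr rfl fun l _ => zpow_add _ _ _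

private theorem ch_zero {Ω : Type} [Field Ω] {n : ℕ} (x : Tor Ω n) : ch 0 x = 1 := by
  unfold ch
  exact Finset.prod_eq_one fun l _ => zpow_zero _

private theorem ch_smul {Ω : Type} [Field Ω] {n : ℕ} (c : ℤ) (a : Fin n → ℤ) (x : Tor Ω n) :
    ch (c • a) x = ch a x ^ c := by
  unfold ch
  rw [← Finset.prod_zpow]
  exact Finset.prod_congr rfl fun l _ => by
    rw [Pi.smul_apply, smul_eq_mul, mul_comm, zpow_mul]

private theorem ch_sum {Ω : Type} [Field Ω] {n k : ℕ} (e : Fin k → Fin n → ℤ) (c : Fin k → ℤ)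
    (s : Finset (Fin k)) (x : Tor Ω n) : ch (∑ i ∈ s, c i • e i) x = ∏ i ∈ s, ch (e i) x ^ c i := by
  classical
  induction s using Finset.induction_on with
  | empty => rw [Finset.sum_empty, Finset.prod_empty, ch_zero]
  | insert a s ha ih => rw [Finset.sum_insert ha, Finset.prod_insert ha, ch_add, ch_smul, ih]

private theorem ch_single {Ω : Type} [Field Ω] {n : ℕ} (l : Fin n) (x : Tor Ω n) :
    ch (Pi.single l (1 : ℤ)) x = x l := by
  classical
  unfold ch
  rw [Finset.prod_eq_single l]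
  · rw [Pi.single_eq_same, zpow_one]
  · intro b _ hb
    rw [Pi.single_eq_of_ne hb, zpow_zero]
  · intro h
    exact absurd (Finset.mem_univ l) h

/-- the number of classes modulo the lattice of the `e i` -/
private theorem card_quot {n : ℕ} (e : Fin n → Fin n → ℤ)
    (he : LinearIndependent ℚ (fun i => rv (e i))) (μ : Fin n → ℕ) (hμ : ∀ i j, |e i j| ≤ μ i) :
    Finite ((Fin n → ℤ) ⧸ Submodule.span ℤ (Set.range e)) ∧
    Nat.card ((Fin n → ℤ) ⧸ Submodule.span ℤ (Set.range e)) ≤ n.factorial * ∏ i, μ i := by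
  classical
  have hZ : LinearIndependent ℤ e := by
    rw [Fintype.linearIndependent_iff]
    intro g hg i
    have h1 := Fintype.linearIndependent_iff.1 he (fun i => (g i : ℚ)) (by
      funext l
      rw [Finset.sum_apply, Pi.zero_apply]
      have h2 := congrFun hg l
      rw [Finset.sum_apply, Pi.zero_apply] at h2
      have h3 : ((∑ i, (g i • e i) l : ℤ) : ℚ) = 0 := by
        rw [h2, Int.cast_zero]
      rw [← h3]
      push_cast
      exact Finset.sum_congr rfl fun i _ => by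
        simp [rv]) i
    exact_mod_cast h1
  have hdet := Submodule.natAbs_det_basis_change (Pi.basisFun ℤ (Fin n))
    (Submodule.span ℤ (Set.range e)) (Module.Basis.span hZ)
  have hcoe : ((↑) : Submodule.span ℤ (Set.range e) → (Fin n → ℤ)) ∘ (Module.Basis.span hZ) = e := by
    funext i
    exact congrArg _ (Module.Basis.span_apply hZ i)
  rw [hcoe, Pi.basisFun_det_apply] at hdet
  have hne : Matrix.det (Matrix.of e) ≠ 0 := by
    intro h0
    rw [← Matrix.exists_vecMul_eq_zero_iff] at h0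
    obtain ⟨v, hv, hv0⟩ := h0
    apply hv
    funext i
    refine Fintype.linearIndependent_iff.1 hZ v ?_ i
    funext l
    have h2 := congrFun hv0 l
    rw [Finset.sum_apply]
    rw [← h2]
    simp [Matrix.vecMul, dotProduct]
  have hbd : (Matrix.det (Matrix.of e)).natAbs ≤ n.factorial * ∏ i, μ i := by
    have h1 : |Matrix.det (Matrix.of e)| ≤ ((n.factorial * ∏ i, μ i : ℕ) : ℤ) := by
      rw [Matrix.det_apply]
      refine (Finset.abs_sum_le_sum_abs _ _).trans ?_
      have h2 : ∀ σ ∈ (Finset.univ : Finset (Equiv.Perm (Fin n))),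
          |Equiv.Perm.sign σ • ∏ i, Matrix.of e (σ i) i| ≤ ((∏ i, μ i : ℕ) : ℤ) := by
        intro σ _
        have h3 : |Equiv.Perm.sign σ • ∏ i, Matrix.of e (σ i) i| = |∏ i, Matrix.of e (σ i) i| := by
          rcases Int.units_eq_one_or (Equiv.Perm.sign σ) with h | h
          · rw [h, one_smul]
          · rw [h, Units.neg_smul, one_smul, abs_neg]
        rw [h3, Finset.abs_prod]
        calc ∏ i, |Matrix.of e (σ i) i| ≤ ∏ i, ((μ (σ i) : ℕ) : ℤ) :=
              Finset.prod_le_prod (fun i _ => abs_nonneg _) fun i _ => hμ _ _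
          _ = ∏ i, ((μ i : ℕ) : ℤ) := Equiv.prod_comp σ fun i => ((μ i : ℕ) : ℤ)
          _ = ((∏ i, μ i : ℕ) : ℤ) := by push_cast; rfl
      refine (Finset.sum_le_card_nsmul _ _ _ h2).trans ?_
      rw [Finset.card_univ, Fintype.card_perm, Fintype.card_fin, nsmul_eq_mul]
      push_cast
      exact le_rfl
    rw [Int.abs_eq_natAbs] at h1
    exact_mod_cast h1
  constructor
  · refine Nat.finite_of_card_ne_zero ?_
    rw [← hdet]
    exact Int.natAbs_ne_zero.2 hne
  · rw [← hdet]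
    exact hbd

/-- (2b): the degree of `γ` in terms of the degree of the values of `n` independent characters -/
theorem deg_chars {K Ω : Type} [Field K] [NumberField K] [Field Ω] [CharZero Ω] [IsAlgClosed Ω]
    [Algebra K Ω] [IsGalois K Ω] (L : IntermediateField K Ω) {n : ℕ} (γ : Fin n → Ωˣ)
    (e : Fin n → Fin n → ℤ) (he : LinearIndependent ℚ (fun i => rv (e i))) (μ : Fin n → ℕ)
    (hμ : ∀ i j, |e i j| ≤ μ i) :
    degP L γ ≤ degP L (fun i => ch (e i) γ) * (n.factorial * ∏ i, μ i) := by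
  classical
  obtain ⟨hfin, hcard⟩ := card_quot e he μ hμ
  obtain ⟨N, hN⟩ : ∃ N : Submodule ℤ (Fin n → ℤ), N = Submodule.span ℤ (Set.range e) := ⟨_, rfl⟩
  rw [← hN] at hfin hcard
  have hint : ∀ x : Ω, IsIntegral L x := fun x =>
    ((Algebra.IsAlgebraic.isAlgebraic (R := K) x).isIntegral).tower_top
  obtain ⟨E, hE⟩ : ∃ E : IntermediateField L Ω,
      E = IntermediateField.adjoin L (Set.range fun i => ((ch (e i) γ : Ωˣ) : Ω)) := ⟨_, rfl⟩
  have hEfin : FiniteDimensional L E := by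
    rw [hE]
    exact IntermediateField.finiteDimensional_adjoin fun x _ => hint x
  have hchE : ∀ a ∈ N, ((ch a γ : Ωˣ) : Ω) ∈ E := by
    intro a ha
    rw [hN, Submodule.mem_span_range_iff_exists_fun] at ha
    obtain ⟨c, hc⟩ := ha
    rw [← hc, ch_sum, Units.coe_prod]
    refine prod_mem fun i _ => ?_
    rw [Units.val_zpow_eq_zpow_val]
    refine zpow_mem ?_ _
    rw [hE]
    exact IntermediateField.subset_adjoin _ _ ⟨i, rfl⟩
  have hft : Fintype ((Fin n → ℤ) ⧸ N) := Fintype.ofFinite _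
  obtain ⟨r, hr⟩ : ∃ r : ((Fin n → ℤ) ⧸ N) → (Fin n → ℤ), ∀ q, Submodule.Quotient.mk (r q) = q :=
    ⟨fun q => (Submodule.Quotient.mk_surjective N q).choose,
      fun q => (Submodule.Quotient.mk_surjective N q).choose_spec⟩
  let Φ : (((Fin n → ℤ) ⧸ N) → E) →ₗ[L] Ω :=
    ∑ q, (LinearMap.mulRight L ((ch (r q) γ : Ωˣ) : Ω)) ∘ₗ
      (E.val.toLinearMap ∘ₗ LinearMap.proj q)
  have hΦ : ∀ f, Φ f = ∑ q, (f q : Ω) * ((ch (r q) γ : Ωˣ) : Ω) := by
    intro f
    simp [Φ]
  have hmem : ∀ a : Fin n → ℤ, ((ch a γ : Ωˣ) : Ω) ∈ LinearMap.range Φ := by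
    intro a
    obtain ⟨q, hq⟩ : ∃ q : (Fin n → ℤ) ⧸ N, q = Submodule.Quotient.mk a := ⟨_, rfl⟩
    have h1 : a - r q ∈ N := by
      rw [← Submodule.Quotient.eq, ← hq]
      exact (hr q).symm
    refine ⟨Pi.single q ⟨_, hchE _ h1⟩, ?_⟩
    rw [hΦ, Finset.sum_eq_single q]
    · rw [Pi.single_eq_same]
      show ((ch (a - r q) γ : Ωˣ) : Ω) * _ = _
      rw [← Units.val_mul, ← ch_add, sub_add_cancel]
    · intro b _ hb
      rw [Pi.single_eq_of_ne hb]
      simp
    · intro h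
      exact absurd (Finset.mem_univ q) h
  have hle : Subalgebra.toSubmodule
      (IntermediateField.adjoin L (Set.range fun i => (γ i : Ω))).toSubalgebra ≤
        LinearMap.range Φ := by
    rw [IntermediateField.adjoin_toSubalgebra_of_isAlgebraic fun x _ => (hint x).isAlgebraic,
      Algebra.adjoin_eq_span, Submodule.span_le]
    intro x hx
    have h2 : ∃ a : Fin n → ℤ, x = ((ch a γ : Ωˣ) : Ω) := by
      induction hx using Submonoid.closure_induction with
      | mem x hx =>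
        obtain ⟨l, rfl⟩ := hx
        exact ⟨Pi.single l 1, by rw [ch_single]⟩
      | one => exact ⟨0, by rw [ch_zero, Units.val_one]⟩
      | mul x y _ _ hx hy =>
        obtain ⟨a, rfl⟩ := hx
        obtain ⟨b, rfl⟩ := hy
        exact ⟨a + b, by rw [ch_add, Units.val_mul]⟩
    obtain ⟨a, rfl⟩ := h2
    exact hmem a
  have h3 : Module.finrank L (IntermediateField.adjoin L (Set.range fun i => (γ i : Ω))) ≤
      Module.finrank L (LinearMap.range Φ) :=
    Submodule.finrank_mono (M := Ω) (s := Subalgebra.toSubmodule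
      (IntermediateField.adjoin L (Set.range fun i => (γ i : Ω))).toSubalgebra) hle
  have h4 : Module.finrank L (LinearMap.range Φ) ≤ Module.finrank L (((Fin n → ℤ) ⧸ N) → E) :=
    LinearMap.finrank_range_le Φ
  rw [Module.finrank_pi_fintype, Finset.sum_const, Finset.card_univ, smul_eq_mul,
    ← Nat.card_eq_fintype_card] at h4
  unfold degP
  rw [← hE]
  calc _ ≤ _ := h3
    _ ≤ _ := h4
    _ ≤ (n.factorial * ∏ i, μ i) * Module.finrank L E := Nat.mul_le_mul_right _ hcard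
    _ = _ := mul_comm _ _


/-- the polynomial of a relation between monomials -/
private theorem rel_poly {R Ω : Type} [Field R] [Field Ω] [Algebra R Ω] {n M : ℕ}
    (y : Fin n → Ω) (g : (Fin n → Fin (M + 1)) → R) (a₀ : Fin n → Fin (M + 1)) (h0 : g a₀ ≠ 0)
    (hg : ∑ a, g a • mo y (fun i => (a i : ℕ)) = 0) :
    ∃ F : MvPolynomial (Fin n) R, F ≠ 0 ∧ (∀ i, F.degreeOf i ≤ M) ∧ MvPolynomial.aeval y F = 0 := by
  classical
  have hinj : ∀ a b : Fin n → Fin (M + 1),
      Finsupp.equivFunOnFinite.symm (fun i => (a i : ℕ)) =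
        Finsupp.equivFunOnFinite.symm (fun i => (b i : ℕ)) → a = b := by
    intro a b h
    have h1 := Finsupp.equivFunOnFinite.symm.injective h
    funext i
    exact Fin.ext (congrFun h1 i)
  refine ⟨∑ a, MvPolynomial.monomial (Finsupp.equivFunOnFinite.symm (fun i => (a i : ℕ))) (g a),
    ?_, ?_, ?_⟩
  · rw [MvPolynomial.ne_zero_iff]
    refine ⟨Finsupp.equivFunOnFinite.symm (fun i => (a₀ i : ℕ)), ?_⟩
    rw [MvPolynomial.coeff_sum, Finset.sum_eq_single a₀]
    · rw [MvPolynomial.coeff_monomial, if_pos rfl]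
      exact h0
    · intro b _ hb
      rw [MvPolynomial.coeff_monomial, if_neg]
      intro h
      exact hb (hinj _ _ h)
    · intro h
      exact absurd (Finset.mem_univ _) h
  · intro i
    rw [MvPolynomial.degreeOf_le_iff]
    intro m hm
    rw [MvPolynomial.mem_support_iff, MvPolynomial.coeff_sum] at hm
    obtain ⟨a, _, ha⟩ := Finset.exists_ne_zero_of_sum_ne_zero hm
    rw [MvPolynomial.coeff_monomial] at ha
    have h1 : Finsupp.equivFunOnFinite.symm (fun i => (a i : ℕ)) = m := by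
      by_contra h
      rw [if_neg h] at ha
      exact ha rfl
    rw [← h1]
    exact Nat.lt_succ_iff.1 (a i).2
  · rw [map_sum]
    rw [← hg]
    refine Finset.sum_congr rfl fun a _ => ?_
    rw [MvPolynomial.aeval_monomial, Finsupp.prod_fintype _ _ (fun i => pow_zero _),
      Algebra.smul_def]
    rfl

/-- one constant for all dimensions `< n` -/
private theorem low_const {K Ω : Type} [Field K] [Field Ω] [CharZero Ω] [Algebra K Ω]
    (L : IntermediateField K Ω) (Λ : Subgroup Ωˣ) (n : ℕ) (ε : ℝ) (hε : 0 < ε)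
    (hlow : ∀ j : ℕ, 1 ≤ j → j < n → ∀ ε : ℝ, 0 < ε → ∃ c : ℝ, 0 < c ∧ PtB L Λ j (1 + ε) c) :
    ∃ c : ℝ, 0 < c ∧ ∀ j : ℕ, 1 ≤ j → j < n → PtB L Λ j (1 + ε) c := by
  have h : ∀ m : ℕ, ∃ c : ℝ, 0 < c ∧ ∀ j : ℕ, 1 ≤ j → j < n → j < m → PtB L Λ j (1 + ε) c := by
    intro m
    induction m with
    | zero => exact ⟨1, one_pos, fun j _ _ h => absurd h (Nat.not_lt_zero _)⟩
    | succ m ih =>
      obtain ⟨c, hc, h⟩ := ih
      by_cases hm : 1 ≤ m ∧ m < n
      · obtain ⟨c', hc', h'⟩ := hlow m hm.1 hm.2 ε hε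
        refine ⟨min c c', lt_min hc hc', ?_⟩
        intro j h1 h2 h3 γ hγ
        rcases Nat.lt_succ_iff_lt_or_eq.1 h3 with h4 | h4
        · exact (min_le_left _ _).trans (h j h1 h2 h4 γ hγ)
        · subst h4
          exact (min_le_right _ _).trans (h' γ hγ)
      · refine ⟨c, hc, ?_⟩
        intro j h1 h2 h3
        refine h j h1 h2 ?_
        rcases Nat.lt_succ_iff_lt_or_eq.1 h3 with h4 | h4
        · exact h4
        · subst h4
          exact absurd ⟨h1, h2⟩ hm
  obtain ⟨c, hc, h⟩ := h n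
  exact ⟨c, hc, fun j h1 h2 => h j h1 h2 h2⟩

private theorem comb_ne {n k : ℕ} (e : Fin k → Fin n → ℤ) (h : LinearIndependent ℚ (fun i => rv (e i)))
    (a : Fin k → ℤ) (ha : a ≠ 0) : (∑ i, a i • e i) ≠ 0 := by
  intro h0
  apply ha
  funext i
  have h1 := Fintype.linearIndependent_iff.1 h (fun i => (a i : ℚ)) (by
    funext l
    rw [Finset.sum_apply, Pi.zero_apply]
    have h2 := congrFun h0 l
    rw [Finset.sum_apply, Pi.zero_apply] at h2
    have h3 : ((∑ i, (a i • e i) l : ℤ) : ℚ) = 0 := by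
      rw [h2, Int.cast_zero]
    rw [← h3]
    push_cast
    exact Finset.sum_congr rfl fun i _ => by
      simp [rv]) i
  exact_mod_cast h1

theorem gp (n e : ℕ) (hn : 1 ≤ n) {K Ω : Type} [Field K] [NumberField K] [Field Ω] [CharZero Ω]
    [IsAlgClosed Ω] [Algebra K Ω] [IsGalois K Ω] (L : IntermediateField K Ω) (Λ : Subgroup Ωˣ)
    (hlow : ∀ j : ℕ, 1 ≤ j → j < n → ∀ ε : ℝ, 0 < ε → ∃ c : ℝ, 0 < c ∧ PtB L Λ j (1 + ε) c) :
    ∃ K₀ : ℕ, ∀ Z : ℕ, K₀ ≤ Z → ∀ γ : Fin n → Ωˣ, IndM Λ γ → degP L γ ≤ Z ^ e → ∀ h : ℝ,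
      (∀ i, absLogHeight₁ (γ i : Ω) ≤ h) →
      (Z : ℝ) ^ (10 * n ^ 3 + 10 * n) * ((degP L γ : ℝ) * h ^ n) ≤ 1 → ∀ M₁ : ℕ,
      M₁ ^ n * Z ^ (10 * n ^ 3 + 1) ≤ degP L γ →
      LinearIndependent L fun a : Fin n → Fin (M₁ + 1) =>
        mo (fun i => (γ i : Ω)) (fun i => (a i : ℕ)) := by
  classical
  obtain ⟨C, hC, hts⟩ := thm_ts n e
  have hε : (0 : ℝ) < 1 / ((e : ℝ) + 1) := by positivity
  obtain ⟨c, hc, hlow'⟩ := low_const L Λ n (1 / ((e : ℝ) + 1)) hε hlow
  have hfact : 1 ≤ n.factorial := Nat.one_le_iff_ne_zero.2 (Nat.factorial_ne_zero n)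
  have hC1 : (1 : ℝ) ≤ C := by exact_mod_cast hC
  refine ⟨C * n + n.factorial * C ^ (n + 1) + 1 + (⌈(C : ℝ) / c⌉₊ + 1) + C, ?_⟩
  intro Z hZ γ hind hdeg h hh hsmall M₁ hM₁
  have hZ1 : 1 ≤ Z := by omega
  have hZC : C ≤ Z := by omega
  have hZCn : C * n ≤ Z := by omega
  have hZf : n.factorial * C ^ (n + 1) < Z := by omega
  have hZc : (C : ℝ) < c * Z := by
    have h1 : ⌈(C : ℝ) / c⌉₊ + 1 ≤ Z := by omega
    have h2 := Nat.le_ceil ((C : ℝ) / c)
    rw [div_le_iff₀ hc] at h2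
    have h3 : ((⌈(C : ℝ) / c⌉₊ : ℝ) + 1) ≤ Z := by exact_mod_cast h1
    nlinarith
  have hZR : (1 : ℝ) ≤ Z := by exact_mod_cast hZ1
  have hZ0 : (0 : ℝ) < Z := by linarith
  have hh0 : 0 ≤ h := (Pool.Agent.H72.PB.ht_nonneg _).trans (hh ⟨0, hn⟩)
  rw [Fintype.linearIndependent_iff]
  intro g hg
  by_contra hne
  push Not at hne
  obtain ⟨a₀, ha₀⟩ := hne
  rcases Nat.eq_zero_or_pos M₁ with hM0 | hM0
  · subst hM0
    apply ha₀
    have h1 : ∀ a : Fin n → Fin (0 + 1), a = a₀ := fun a => funext fun i => Fin.ext (by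
      have h2 := (a i).2
      have h3 := (a₀ i).2
      omega)
    rw [Fintype.sum_eq_single a₀ (fun a ha => absurd (h1 a) ha)] at hg
    have h2 : mo (fun i => (γ i : Ω)) (fun i => ((a₀ i : Fin (0 + 1)) : ℕ)) = 1 := by
      have h3 : (fun i => ((a₀ i : Fin (0 + 1)) : ℕ)) = 0 := by
        funext i
        have := (a₀ i).2
        simp
      rw [h3, mo_zero]
    rw [h2] at hg
    rcases smul_eq_zero.1 hg with h4 | h4
    · exact h4
    · exact absurd h4 one_ne_zero
  obtain ⟨F, hF0, hFd, hFv⟩ := rel_poly (fun i => (γ i : Ω)) g a₀ ha₀ hg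
  have hcrd : (fun i => (γ i : Ω)) = crd γ := rfl
  rw [hcrd] at hFv
  have hidl : idl ({γ} : Set (Tor Ω n)) =
      RingHom.ker (MvPolynomial.aeval (crd γ) : MvPolynomial (Fin n) Ω →ₐ[Ω] Ω) := by
    ext f
    rw [Pool.Agent.H33.TR.mem_idl, RingHom.mem_ker]
    constructor
    · intro h1
      exact h1 γ rfl
    · rintro h1 x hx
      rw [Set.mem_singleton_iff.1 hx]
      exact h1
  have hprime : (idl ({γ} : Set (Tor Ω n))).IsPrime := by
    rw [hidl]
    exact RingHom.ker_isPrime _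
  have hvan : MvPolynomial.map (algebraMap L Ω) F ∈ idl ({γ} : Set (Tor Ω n)) := by
    rw [hidl, RingHom.mem_ker]
    exact (MvPolynomial.aeval_map_algebraMap Ω (crd γ) F).trans hFv
  have hMD : M₁ ≤ Z ^ e := by
    refine le_trans ?_ (hM₁.trans hdeg)
    calc M₁ ≤ M₁ ^ n := Nat.le_self_pow (by omega) _
      _ = M₁ ^ n * 1 := (mul_one _).symm
      _ ≤ M₁ ^ n * Z ^ (10 * n ^ 3 + 1) := Nat.mul_le_mul_left _ (Nat.one_le_pow _ _ hZ1)
  have hht : ht γ ≤ (n : ℝ) * h := by
    unfold ht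
    refine (Finset.sum_le_card_nsmul _ _ h (fun l _ => hh l)).trans (le_of_eq ?_)
    rw [Finset.card_univ, Fintype.card_fin, nsmul_eq_mul]
  -- the basic inequality
  obtain ⟨y, hy⟩ : ∃ y : ℝ, y = (M₁ : ℝ) * h * (Z : ℝ) ^ (10 * n ^ 2 + 10) := ⟨_, rfl⟩
  have hy0 : 0 ≤ y := by
    rw [hy]
    positivity
  have hy1 : y ≤ 1 := by
    rw [← pow_le_one_iff_of_nonneg hy0 (show n ≠ 0 by omega)]
    refine le_trans ?_ hsmall
    have h1 : ((M₁ : ℝ) ^ n) ≤ (degP L γ : ℝ) := by
      have h2 : M₁ ^ n ≤ degP L γ :=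
        le_trans (Nat.le_mul_of_pos_right _ (Nat.one_le_pow _ _ hZ1)) hM₁
      exact_mod_cast h2
    calc y ^ n = (Z : ℝ) ^ (10 * n ^ 3 + 10 * n) * ((M₁ : ℝ) ^ n * h ^ n) := by
          rw [hy, mul_pow, mul_pow, ← pow_mul,
            show (10 * n ^ 2 + 10) * n = 10 * n ^ 3 + 10 * n by ring]
          ring
      _ ≤ _ := by gcongr
  have hy9 : (C * n : ℝ) * y ≤ Z := by
    have h1 : (C * n : ℝ) ≤ Z := by exact_mod_cast hZCn
    have h2 : (0 : ℝ) ≤ C * n := by positivity
    nlinarith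
  rcases hts K Ω L {γ} hprime Z M₁ hZC hM0 hMD F hF0 hFd hvan (n * h)
    (fun x hx => by rw [Set.mem_singleton_iff.1 hx]; exact hht) with h1 | h1
  · -- case 1
    apply absurd h1
    rw [not_lt]
    push_cast
    have h2 : (C : ℝ) * (Z : ℝ) ^ (10 * n ^ 2 + 1) * M₁ * (n * h) * (Z : ℝ) ^ 9 = (C * n : ℝ) * y := by
      rw [hy, show 10 * n ^ 2 + 10 = (10 * n ^ 2 + 1) + 9 by ring, pow_add _ (10 * n ^ 2 + 1) 9]
      ring
    have h3 : (C : ℝ) * (Z : ℝ) ^ (10 * n ^ 2 + 1) * M₁ * (n * h) * (Z : ℝ) ^ 9 ≤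
        1 * (Z : ℝ) ^ 9 := by
      rw [h2, one_mul]
      exact hy9.trans (le_self_pow₀ hZR (by norm_num))
    exact le_of_mul_le_mul_right h3 (by positivity)
  · obtain ⟨k, N, ee, μ, γ', hk, hN, hli, heμ, hμ, hγX, hfd, hfin⟩ := h1
    have hγ' : (fun i => ch (ee i) γ) = γ' := by
      funext i
      exact hγX i γ rfl
    have hkn : k ≤ n := by
      have h2 := hli.fintype_card_le_finrank
      rwa [Fintype.card_fin, Module.finrank_fintype_fun_eq_card, Fintype.card_fin] at h2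
    rcases Nat.lt_or_ge k n with hlt | hge
    · -- case 2a
      have hind' : IndM Λ γ' := by
        intro b hb
        have h2 : (∏ i, γ' i ^ b i) = ch (∑ i, b i • ee i) γ := by
          rw [ch_sum, ← hγ']
        rw [h2]
        exact hind _ (comb_ne ee hli b hb)
      have h2 := hlow' k hk hlt γ' hind'
      have hint : ∀ x : Ω, IsIntegral L x := fun x =>
        ((Algebra.IsAlgebraic.isAlgebraic (R := K) x).isIntegral).tower_top
      have hfdγ : FiniteDimensional L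
          (IntermediateField.adjoin L (Set.range fun i => (γ i : Ω))) :=
        IntermediateField.finiteDimensional_adjoin fun x _ => hint x
      have hJD : degP L γ' ≤ degP L γ := by
        unfold degP
        have h3 : IntermediateField.adjoin L (Set.range fun i => (γ' i : Ω)) ≤
            IntermediateField.adjoin L (Set.range fun i => (γ i : Ω)) := by
          rw [IntermediateField.adjoin_le_iff]
          rintro _ ⟨i, rfl⟩
          rw [← hγ']
          show ((ch (ee i) γ : Ωˣ) : Ω) ∈ _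
          unfold ch
          rw [Units.coe_prod]
          refine prod_mem fun l _ => ?_
          rw [Units.val_zpow_eq_zpow_val]
          refine zpow_mem ?_ _
          exact IntermediateField.subset_adjoin _ _ ⟨l, rfl⟩
        exact Submodule.finrank_mono (M := Ω) (s := Subalgebra.toSubmodule
          (IntermediateField.adjoin L (Set.range fun i => (γ' i : Ω))).toSubalgebra)
          (t := Subalgebra.toSubmodule
          (IntermediateField.adjoin L (Set.range fun i => (γ i : Ω))).toSubalgebra) h3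
      obtain ⟨J, hJ⟩ : ∃ J : ℕ, J = degP L γ' := ⟨_, rfl⟩
      have hJ0 : 0 < J := by
        rw [hJ]
        exact Module.finrank_pos
      have hJR : (0 : ℝ) < J := by exact_mod_cast hJ0
      have hJe : (J : ℝ) ≤ (Z : ℝ) ^ e := by
        have h3 : J ≤ Z ^ e := by
          rw [hJ]
          exact hJD.trans hdeg
        exact_mod_cast h3
      have hJε : (J : ℝ) ^ (1 + 1 / ((e : ℝ) + 1)) ≤ J * Z := by
        rw [Real.rpow_add hJR, Real.rpow_one]
        refine mul_le_mul_of_nonneg_left ?_ hJR.le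
        calc (J : ℝ) ^ (1 / ((e : ℝ) + 1)) ≤ ((Z : ℝ) ^ e) ^ (1 / ((e : ℝ) + 1)) :=
              Real.rpow_le_rpow hJR.le hJe hε.le
          _ = (Z : ℝ) ^ ((e : ℝ) * (1 / ((e : ℝ) + 1))) := by
              rw [← Real.rpow_natCast, ← Real.rpow_mul hZ0.le]
          _ ≤ (Z : ℝ) ^ (1 : ℝ) := by
              refine Real.rpow_le_rpow_of_exponent_le hZR ?_
              rw [mul_one_div, div_le_one (by positivity)]
              linarith
          _ = Z := Real.rpow_one _
      have hhe : ∏ i, absLogHeight₁ (γ' i : Ω) ≤ ((∏ i, μ i : ℕ) : ℝ) * (n * h) ^ k := by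
        have h3 : ∏ i, absLogHeight₁ (γ' i : Ω) ≤ ∏ i, ((μ i : ℝ) * (n * h)) := by
          refine Finset.prod_le_prod (fun i _ => Pool.Agent.H72.PB.ht_nonneg _) fun i _ => ?_
          rw [← hγ']
          refine (ht_ch (K := K) (ee i) γ (μ i) ?_).trans
            (mul_le_mul_of_nonneg_left hht (Nat.cast_nonneg _))
          intro l
          have h4 : ((|ee i l| : ℤ) : ℝ) ≤ ((μ i : ℤ) : ℝ) := by exact_mod_cast heμ i l
          rw [Int.cast_abs] at h4
          exact_mod_cast h4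
        refine h3.trans (le_of_eq ?_)
        rw [Finset.prod_mul_distrib, Finset.prod_const, Finset.card_univ, Fintype.card_fin]
        push_cast
        rfl
      have hJμ : (J : ℝ) * ((∏ i, μ i : ℕ) : ℝ) ≤ C * (N : ℝ) ^ k := by
        have h3 : J * ∏ i, μ i ≤ C * N ^ k := by
          rw [hJ]
          exact hfin
        exact_mod_cast h3
      obtain ⟨w, hw⟩ : ∃ w : ℝ, w = (N : ℝ) * (n * h) := ⟨_, rfl⟩
      have hw0 : 0 ≤ w := by
        rw [hw]
        positivity
      have hw9 : w * (Z : ℝ) ^ 9 ≤ 1 := by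
        have h3 : (N : ℝ) ≤ C * (Z : ℝ) ^ (10 * n ^ 2) * M₁ := by exact_mod_cast hN
        have h4 : w * (Z : ℝ) ^ 9 * Z ≤ 1 * Z := by
          rw [one_mul]
          refine le_trans ?_ hy9
          calc w * (Z : ℝ) ^ 9 * Z
              ≤ (C * (Z : ℝ) ^ (10 * n ^ 2) * M₁) * (n * h) * (Z : ℝ) ^ 9 * Z := by
                rw [hw]
                gcongr
            _ = (C * n : ℝ) * y := by
                rw [hy, pow_add _ (10 * n ^ 2) 10]
                ring
        exact le_of_mul_le_mul_right h4 hZ0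
      have hw1 : w ≤ 1 := by
        have h3 : (1 : ℝ) ≤ (Z : ℝ) ^ 9 := one_le_pow₀ hZR
        nlinarith
      have hwk : w ^ k ≤ w := by
        calc w ^ k ≤ w ^ 1 := pow_le_pow_of_le_one hw0 hw1 hk
          _ = w := pow_one _
      have hcw : c ≤ C * w * Z := by
        rw [← hJ] at h2
        calc c ≤ (J : ℝ) ^ (1 + 1 / ((e : ℝ) + 1)) * ∏ i, absLogHeight₁ (γ' i : Ω) := h2
          _ ≤ (J * Z) * (((∏ i, μ i : ℕ) : ℝ) * (n * h) ^ k) := by
              refine mul_le_mul hJε hhe (Finset.prod_nonneg fun i _ => Pool.Agent.H72.PB.ht_nonneg _) (by positivity)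
          _ = ((J : ℝ) * ((∏ i, μ i : ℕ) : ℝ)) * ((n * h) ^ k * Z) := by ring
          _ ≤ (C * (N : ℝ) ^ k) * ((n * h) ^ k * Z) :=
              mul_le_mul_of_nonneg_right hJμ (by positivity)
          _ = C * w ^ k * Z := by
              rw [hw, mul_pow (N : ℝ)]
              ring
          _ ≤ C * w * Z := by gcongr
      have hfinal : c * Z ≤ C := by
        have h3 : (1 : ℝ) ≤ (Z : ℝ) ^ 7 := one_le_pow₀ hZR
        calc c * Z ≤ (C * w * Z) * Z := mul_le_mul_of_nonneg_right hcw hZ0.le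
          _ ≤ (C * w * Z) * Z * (Z : ℝ) ^ 7 := le_mul_of_one_le_right (by positivity) h3
          _ = C * (w * (Z : ℝ) ^ 9) := by ring
          _ ≤ C * 1 := by gcongr
          _ = C := mul_one _
      linarith
    · -- case 2b
      obtain rfl : k = n := le_antisymm hkn hge
      have h2 := deg_chars L γ ee hli μ heμ
      rw [hγ'] at h2
      have h3 : degP L γ ≤ k.factorial * (C * (C * Z ^ (10 * k ^ 2) * M₁) ^ k) := by
        calc degP L γ ≤ degP L γ' * (k.factorial * ∏ i, μ i) := h2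
          _ = k.factorial * (degP L γ' * ∏ i, μ i) := by ring
          _ ≤ k.factorial * (C * N ^ k) := Nat.mul_le_mul_left _ hfin
          _ ≤ _ := Nat.mul_le_mul_left _ (Nat.mul_le_mul_left _ (Nat.pow_le_pow_left hN _))
      have h4 : (M₁ ^ k * Z ^ (10 * k ^ 3)) * Z ≤
          (M₁ ^ k * Z ^ (10 * k ^ 3)) * (k.factorial * C ^ (k + 1)) := by
        calc (M₁ ^ k * Z ^ (10 * k ^ 3)) * Z = M₁ ^ k * Z ^ (10 * k ^ 3 + 1) := by ring
          _ ≤ degP L γ := hM₁
          _ ≤ _ := h3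
          _ = (M₁ ^ k * Z ^ (10 * k ^ 3)) * (k.factorial * C ^ (k + 1)) := by
              rw [mul_pow, mul_pow, ← pow_mul, show 10 * k ^ 2 * k = 10 * k ^ 3 by ring]
              ring
      have h5 := Nat.le_of_mul_le_mul_left h4
        (Nat.mul_pos (Nat.pow_pos hM0) (Nat.pow_pos hZ1))
      omega


end Pool.Agent.H33.PT
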