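import Pool.Agent.H11.TS.FinB
import Pool.Agent.H72.RM.BaseB
import Pool.Agent.H72.PB.HNonneg

/-!
# POINTS THEOREM, Edx: the common part of `end_d` (Edd) and `end_e` (Ede)

`ed_core`: see the header of `Edd.lean`. `m` is any natural number with `C ≤ m θ`, `C = 1 + ∑_j h(b_j)`; `F` any intermediate field.
-/

set_option autoImplicit false
set_option linter.unusedSectionVars false

open NumberField IntermediateField

namespace Pool.Agent.H33.PT

open Pool.Agent.H72.RM Pool.Agent.H11.TS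

section

variable {K Ω : Type} [Field K] [NumberField K] [Field Ω] [CharZero Ω] [IsAlgClosed Ω]
  [Algebra K Ω] [IsGalois K Ω]

private theorem ex_one {s : ℕ} (b : Fin s → K) : (1 : Ω) ∈ DivG Ω b :=
  ⟨1, le_rfl, 0, by simp⟩

/-- the division group -/
private def exD (Ω : Type) [Field Ω] [CharZero Ω] [IsAlgClosed Ω]
    [Algebra K Ω] [IsGalois K Ω] {s : ℕ} (b : Fin s → K) : Subgroup Ωˣ where
  carrier := {u | (u : Ω) ∈ DivG Ω b}
  one_mem' := ex_one b
  mul_mem' := by
    intro u v hu hv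
    change ((u * v : Ωˣ) : Ω) ∈ DivG Ω b
    rw [Units.val_mul]
    exact div_mul hu hv
  inv_mem' := by
    rintro u ⟨N, hN, m, hm⟩
    refine ⟨N, hN, -m, ?_⟩
    rw [Units.val_inv_eq_inv_val, inv_pow, hm, ← Finset.prod_inv_distrib]
    refine Finset.prod_congr rfl fun i _ => ?_
    rw [Pi.neg_apply, zpow_neg]

private theorem exD_mem {s : ℕ} (b : Fin s → K) (u : Ωˣ) : u ∈ exD Ω b ↔ (u : Ω) ∈ DivG Ω b :=
  Iff.rfl

private theorem exD_tors {s : ℕ} (b : Fin s → K) (u : Ωˣ) (M : ℕ) (hM : 1 ≤ M) (h : u ^ M = 1) :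
    u ∈ exD Ω b := by
  refine ⟨M, hM, 0, ?_⟩
  have h1 := congrArg (fun z : Ωˣ => (z : Ω)) h
  simp only [Units.val_pow_eq_pow_val, Units.val_one] at h1
  rw [h1]
  simp

private theorem exD_root {s : ℕ} (b : Fin s → K) (u : Ωˣ) (m : ℕ) (hm : 1 ≤ m) (i : Fin s)
    (h : (u : Ω) ^ m = algebraMap K Ω (b i)) : u ∈ exD Ω b := by
  classical
  refine ⟨m, hm, fun l => if l = i then 1 else 0, ?_⟩
  rw [h, Finset.prod_eq_single i]
  · simp
  · intro l _ hl
    simp [hl]
  · intro h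
    exact absurd (Finset.mem_univ i) h

include K in
private theorem ex_int (x : Ω) : IsIntegral ℚ x := by
  have h1 : IsIntegral K x := IsGalois.integral K x
  exact isIntegral_trans x h1

include K in
private theorem ex_mul (x y : Ω) :
    absLogHeight₁ (x * y) ≤ absLogHeight₁ x + absLogHeight₁ y :=
  Pool.Agent.H4.RR.absLogHeight_mul_le Ω _ _ (ex_int (K := K) _) (ex_int (K := K) _)

include K in
private theorem ex_prod {ι : Type} (s : Finset ι) (f : ι → Ω) :
    absLogHeight₁ (∏ i ∈ s, f i) ≤ ∑ i ∈ s, absLogHeight₁ (f i) := by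
  classical
  induction s using Finset.induction_on with
  | empty =>
    have h := absLogHeight_zpow (1 : Ω) 0
    rw [zpow_zero] at h
    simp only [Int.cast_zero, abs_zero, zero_mul] at h
    simp [h]
  | insert a s ha ih =>
    rw [Finset.prod_insert ha, Finset.sum_insert ha]
    refine (ex_mul (K := K) _ _).trans ?_
    linarith

private theorem ex_pow (x : Ω) (m : ℕ) : absLogHeight₁ (x ^ m) = m * absLogHeight₁ x := by
  have h := absLogHeight_zpow x (m : ℤ)
  rw [zpow_natCast] at h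
  rw [h]
  congr 1
  push_cast
  exact abs_of_nonneg (Nat.cast_nonneg _)

private theorem ex_inv (x : Ω) : absLogHeight₁ x⁻¹ = absLogHeight₁ x := by
  have h := absLogHeight_zpow x (-1)
  rw [zpow_neg_one] at h
  rw [h]
  simp

end

theorem ed_core {K Ω : Type} [Field K] [NumberField K] [Field Ω] [CharZero Ω] [IsAlgClosed Ω]
    [Algebra K Ω] [IsGalois K Ω] (B : IntermediateField ℚ Ω) {s : ℕ} (b : Fin s → K)
    (hb : ∀ i, b i ≠ 0)
    (hind : ∀ N : ℕ, 1 ≤ N → ∀ (m : Fin s → ℤ) (y : K), y ^ N = ∏ i, (b i) ^ (m i) →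
      ∀ i, (N : ℤ) ∣ m i) (k : ℕ) (ε c₀ : ℝ)
    (hc₀ : PtB B (⊥ : Subgroup Ωˣ) (s + k) (1 + ε) c₀) (C : ℝ)
    (hC : C = 1 + ∑ j, absLogHeight₁ (algebraMap K Ω (b j))) (m : ℕ) (hm : 1 ≤ m)
    (F : IntermediateField K Ω) (w y : Fin k → Ωˣ)
    (hwy : ∀ i, ((w i / y i : Ωˣ) : Ω) ∈ DivG Ω b)
    (hw : ∀ a : Fin k → ℤ, a ≠ 0 → ((∏ i, w i ^ a i : Ωˣ) : Ω) ∉ DivG Ω b)
    (μ : Fin k → ℕ) (hμ : ∀ i, 1 ≤ μ i) (θ : ℝ) (hθ : 0 < θ) (hmθ : C ≤ m * θ)
    (hwθ : ∀ i, absLogHeight₁ (w i : Ω) ≤ μ i * θ) :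
    ∃ x : Fin s → Ωˣ, (∀ i, (x i : Ω) ^ m = algebraMap K Ω (b i)) ∧ ∃ γ : Fin (s + k) → Ωˣ,
      (∀ i, (γ i : Ω) ∈ IntermediateField.adjoin F
        ((Set.range fun i => (y i : Ω)) ∪ Set.range fun i => (x i : Ω))) ∧
      c₀ ≤ (degP B γ : ℝ) ^ (1 + ε) * ((C / m) ^ s * (2 ^ k * (∏ i, (μ i : ℝ)) * θ ^ k)) := by
  classical
  have hh0 : ∀ z : Ω, 0 ≤ absLogHeight₁ z := fun z => Pool.Agent.H72.PB.ht_nonneg z
  have hm0 : (0 : ℝ) < m := by exact_mod_cast hm
  have hhC : ∀ j, absLogHeight₁ (algebraMap K Ω (b j)) ≤ C := by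
    intro j
    have h1 := Finset.single_le_sum (f := fun j => absLogHeight₁ (algebraMap K Ω (b j)))
      (fun j _ => hh0 _) (Finset.mem_univ j)
    rw [hC]
    linarith
  have hβ0 : ∀ i, algebraMap K Ω (b i) ≠ 0 := fun i => (map_ne_zero _).2 (hb i)
  -- the roots
  have hx0 : ∀ i, ∃ x : Ωˣ, (x : Ω) ^ m = algebraMap K Ω (b i) := by
    intro i
    obtain ⟨z, hz⟩ := IsAlgClosed.exists_pow_nat_eq (algebraMap K Ω (b i)) (n := m) hm
    have hz0 : z ≠ 0 := by
      rintro rfl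
      rw [zero_pow (by omega)] at hz
      exact hβ0 i hz.symm
    exact ⟨Units.mk0 z hz0, hz⟩
  choose x hx using hx0
  -- the exponents
  choose N hN e he using hwy
  obtain ⟨a, ha⟩ : ∃ a : Fin k → Fin s → ℤ, a = fun i j => ((m : ℤ) * e i j) / (N i : ℤ) := ⟨_, rfl⟩
  obtain ⟨y', hy'⟩ : ∃ y' : Fin k → Ωˣ, y' = fun i => y i * ∏ j, x j ^ a i j := ⟨_, rfl⟩
  refine ⟨x, hx, Fin.append x y', ?_, ?_⟩
  · have hsub1 : ∀ j, (x j : Ω) ∈ IntermediateField.adjoin F
        ((Set.range fun i => (y i : Ω)) ∪ Set.range fun i => (x i : Ω)) := fun j =>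
      IntermediateField.subset_adjoin F _ (Or.inr ⟨j, rfl⟩)
    have hsub2 : ∀ j, (y j : Ω) ∈ IntermediateField.adjoin F
        ((Set.range fun i => (y i : Ω)) ∪ Set.range fun i => (x i : Ω)) := fun j =>
      IntermediateField.subset_adjoin F _ (Or.inl ⟨j, rfl⟩)
    intro i
    refine Fin.addCases (fun j => ?_) (fun j => ?_) i
    · rw [Fin.append_left]
      exact hsub1 j
    · rw [Fin.append_right, hy']
      simp only
      rw [Units.val_mul, Units.coe_prod]
      refine mul_mem (hsub2 j) (prod_mem fun l _ => ?_)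
      rw [Units.val_zpow_eq_zpow_val]
      exact zpow_mem (hsub1 l) _
  -- the quotients
  have hq : ∀ i, w i / y' i = (w i / y i) * ∏ j, x j ^ (-(a i j)) := by
    intro i
    rw [hy']
    simp only
    rw [← div_div, div_eq_mul_inv (w i / y i), ← Finset.prod_inv_distrib]
    congr 1
    refine Finset.prod_congr rfl fun j _ => ?_
    rw [zpow_neg]
  have hqpow : ∀ i, ((w i / y' i : Ωˣ) : Ω) ^ (N i * m) =
      ∏ j, (algebraMap K Ω (b j)) ^ (((m : ℤ) * e i j) % (N i : ℤ)) := by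
    intro i
    rw [hq, Units.val_mul, mul_pow, pow_mul, he, Units.coe_prod, ← Finset.prod_pow,
      ← Finset.prod_pow, ← Finset.prod_mul_distrib]
    refine Finset.prod_congr rfl fun j _ => ?_
    have h1 : ((x j ^ (-(a i j)) : Ωˣ) : Ω) ^ (N i * m) =
        (algebraMap K Ω (b j)) ^ (-(a i j) * (N i : ℤ)) := by
      rw [Units.val_zpow_eq_zpow_val, ← zpow_natCast, ← zpow_mul, ← hx j, ← zpow_natCast,
        ← zpow_mul]
      congr 1
      push_cast
      ring
    rw [h1, ← zpow_natCast, ← zpow_mul, ← zpow_add₀ (hβ0 j)]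
    congr 1
    rw [Int.emod_def, ha]
    ring
  have hqh : ∀ i, absLogHeight₁ ((w i / y' i : Ωˣ) : Ω) ≤ θ := by
    intro i
    have hN0 : (0 : ℝ) < N i := by exact_mod_cast hN i
    have h1 : ((N i * m : ℕ) : ℝ) * absLogHeight₁ ((w i / y' i : Ωˣ) : Ω) ≤ N i * C := by
      rw [← ex_pow, hqpow]
      refine (ex_prod (K := K) _ _).trans ?_
      have h2 : ∀ j ∈ (Finset.univ : Finset (Fin s)),
          absLogHeight₁ ((algebraMap K Ω (b j)) ^ (((m : ℤ) * e i j) % (N i : ℤ))) ≤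
            N i * absLogHeight₁ (algebraMap K Ω (b j)) := by
        intro j _
        rw [absLogHeight_zpow]
        refine mul_le_mul_of_nonneg_right ?_ (hh0 _)
        have h3 : 0 ≤ ((m : ℤ) * e i j) % (N i : ℤ) :=
          Int.emod_nonneg _ (by have := hN i; omega)
        have h4 : ((m : ℤ) * e i j) % (N i : ℤ) < (N i : ℤ) :=
          Int.emod_lt_of_pos _ (by have := hN i; omega)
        rw [abs_of_nonneg (by exact_mod_cast h3)]
        exact_mod_cast h4.le
      refine (Finset.sum_le_sum h2).trans ?_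
      rw [← Finset.mul_sum]
      refine mul_le_mul_of_nonneg_left ?_ hN0.le
      rw [hC]
      linarith
    have h5 : (m : ℝ) * absLogHeight₁ ((w i / y' i : Ωˣ) : Ω) ≤ m * θ := by
      refine le_trans ?_ hmθ
      rw [Nat.cast_mul, mul_assoc] at h1
      exact le_of_mul_le_mul_left h1 hN0
    exact le_of_mul_le_mul_left h5 hm0
  have hy'h : ∀ i, absLogHeight₁ ((y' i : Ωˣ) : Ω) ≤ 2 * (μ i * θ) := by
    intro i
    have h1 : ((y' i : Ωˣ) : Ω) = (w i : Ω) * (((w i / y' i : Ωˣ) : Ω))⁻¹ := by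
      rw [← Units.val_inv_eq_inv_val, ← Units.val_mul]
      congr 1
      rw [inv_div, mul_div_cancel]
    rw [h1]
    refine (ex_mul (K := K) _ _).trans ?_
    rw [ex_inv]
    have h2 := hqh i
    have h3 := hwθ i
    have h4 : (1 : ℝ) ≤ μ i := by exact_mod_cast hμ i
    nlinarith
  have hxh : ∀ j, absLogHeight₁ ((x j : Ωˣ) : Ω) ≤ C / m := by
    intro j
    rw [le_div_iff₀ hm0, mul_comm, ← ex_pow, hx]
    exact hhC j
  -- independence
  have hI : IndM (⊥ : Subgroup Ωˣ) (Fin.append x y') := by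
    intro t ht M hM hcon
    rw [Subgroup.mem_bot] at hcon
    apply ht
    obtain ⟨c, hc⟩ : ∃ c : Fin s → ℤ, c = fun j => t (Fin.castAdd k j) := ⟨_, rfl⟩
    obtain ⟨d, hd⟩ : ∃ d : Fin k → ℤ, d = fun i => t (Fin.natAdd s i) := ⟨_, rfl⟩
    have hsplit : ∏ i, Fin.append x y' i ^ t i = (∏ j, x j ^ c j) * ∏ i, y' i ^ d i := by
      rw [Fin.prod_univ_add]
      simp only [Fin.append_left, Fin.append_right, hc, hd]
    have hxD : ∀ j, x j ∈ exD Ω b := fun j => exD_root b _ m hm j (hx j)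
    have hγD : ∀ i, w i / y i ∈ exD Ω b := fun i => ⟨N i, hN i, e i, he i⟩
    have hprodD : (∏ j, x j ^ c j) * ∏ i, y' i ^ d i ∈ exD Ω b := by
      refine exD_tors b _ M hM ?_
      rw [← hsplit]
      exact hcon
    have hy'D : ∏ i, y' i ^ d i ∈ exD Ω b := by
      have h1 : ∏ j, x j ^ c j ∈ exD Ω b := prod_mem fun j _ => zpow_mem (hxD j) _
      exact (Subgroup.mul_mem_cancel_left _ h1).1 hprodD
    have hwD : ∏ i, w i ^ d i ∈ exD Ω b := by
      have h1 : ∏ i, w i ^ d i = (∏ i, (w i / y' i) ^ d i) * ∏ i, y' i ^ d i := by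
        rw [← Finset.prod_mul_distrib]
        refine Finset.prod_congr rfl fun i _ => ?_
        rw [← mul_zpow, div_mul_cancel]
      rw [h1]
      refine mul_mem (prod_mem fun i _ => zpow_mem ?_ _) hy'D
      rw [hq]
      exact mul_mem (hγD i) (prod_mem fun j _ => zpow_mem (hxD j) _)
    have hd0 : d = 0 := by
      by_contra hne
      exact hw d hne hwD
    have hc0 : ∀ j, c j = 0 := by
      have h1 : (∏ j, x j ^ c j) ^ M = 1 := by
        rw [hsplit, hd0] at hcon
        simpa using hcon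
      have h2 : ∏ j, (b j) ^ (c j * M) = 1 := by
        apply (algebraMap K Ω).injective
        rw [map_prod, map_one]
        have h3 : ((((∏ j, x j ^ c j) ^ M) ^ m : Ωˣ) : Ω) = 1 := by
          rw [h1, one_pow, Units.val_one]
        rw [← h3, Units.val_pow_eq_pow_val, Units.val_pow_eq_pow_val, Units.coe_prod,
          ← Finset.prod_pow, ← Finset.prod_pow]
        refine Finset.prod_congr rfl fun j _ => ?_
        rw [map_zpow₀, ← hx j, Units.val_zpow_eq_zpow_val, ← zpow_natCast, ← zpow_natCast,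
          ← zpow_natCast, ← zpow_mul, ← zpow_mul, ← zpow_mul]
        congr 1
        ring
      intro j
      have h4 := hind ((c j * M).natAbs + 1) (by omega) (fun j => c j * M) 1
        (by rw [one_pow]; exact h2.symm) j
      have h5 : c j * M = 0 := by
        refine Int.eq_zero_of_abs_lt_dvd h4 ?_
        push_cast
        rw [Int.abs_eq_natAbs]
        omega
      rcases mul_eq_zero.1 h5 with h | h
      · exact h
      · exfalso
        have : (M : ℤ) ≠ 0 := by omega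
        exact this h
    funext i
    refine Fin.addCases (fun j => ?_) (fun j => ?_) i
    · have := hc0 j
      rw [hc] at this
      exact this
    · have := congrFun hd0 j
      rw [hd] at this
      exact this
  -- the bound
  have hP := hc₀ _ hI
  refine hP.trans (mul_le_mul_of_nonneg_left ?_ (Real.rpow_nonneg (Nat.cast_nonneg _) _))
  rw [Fin.prod_univ_add]
  simp only [Fin.append_left, Fin.append_right]
  have h1 : ∏ j, absLogHeight₁ ((x j : Ωˣ) : Ω) ≤ (C / m) ^ s := by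
    calc ∏ j, absLogHeight₁ ((x j : Ωˣ) : Ω) ≤ ∏ _j : Fin s, C / m :=
          Finset.prod_le_prod (fun j _ => hh0 _) fun j _ => hxh j
      _ = (C / m) ^ s := by rw [Finset.prod_const, Finset.card_univ, Fintype.card_fin]
  have h2 : ∏ i, absLogHeight₁ ((y' i : Ωˣ) : Ω) ≤ 2 ^ k * (∏ i, (μ i : ℝ)) * θ ^ k := by
    calc ∏ i, absLogHeight₁ ((y' i : Ωˣ) : Ω) ≤ ∏ i, (2 * (μ i * θ)) :=
          Finset.prod_le_prod (fun j _ => hh0 _) fun j _ => hy'h j
      _ = 2 ^ k * (∏ i, (μ i : ℝ)) * θ ^ k := by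
        rw [Finset.prod_mul_distrib, Finset.prod_mul_distrib, Finset.prod_const, Finset.prod_const,
          Finset.card_univ, Fintype.card_fin]
        ring
  have hC0 : 0 ≤ C := by
    rw [hC]
    have := Finset.sum_nonneg fun j (_ : j ∈ (Finset.univ : Finset (Fin s))) =>
      hh0 (algebraMap K Ω (b j))
    linarith
  exact mul_le_mul h1 h2 (Finset.prod_nonneg fun i _ => hh0 _)
    (pow_nonneg (div_nonneg hC0 hm0.le) _)

end Pool.Agent.H33.PT
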