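import Pool.Agent.H33.PT.Dbh
import Pool.Agent.H33.PT.Edx

/-!
# POINTS THEOREM, Ede: the last step of PART IV, form with `R^(s ε)` instead of `R^(s (1 + ε))`

Setting and PROOF of `Edd.lean` (`end_d`), with `m := R ⌈C / (R θ)⌉` (a multiple of `R`, `m ≥ C / θ`, `m ≤ C / θ + R ≤ 2 C R / θ` because `C ≥ 1 ≥ θ`, `R ≥ 1`), and `deg_big'` (`Dbh.lean`): `degP B γ ≤ [K:ℚ] m^s D`.
So `c₀ ≤ ([K:ℚ] m^s D)^(1+ε) (C / m)^s ∏ (2 μ_i θ) = [K:ℚ]^(1+ε) C^s 2^k D^(1+ε) m^(s ε) ∏ μ_i θ^k` and `m^(s ε) ≤ (2 C)^(s ε) R^(s ε) θ^(-s ε)`.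
(`⌈C/(Rθ)⌉ ≥ 1`.) Copy of the proof of `end_d` with these two changes.
-/

set_option autoImplicit false
set_option linter.unusedSectionVars false

open NumberField IntermediateField

namespace Pool.Agent.H33.PT

open Pool.Agent.H72.RM Pool.Agent.H11.TS

private theorem ee_real {s k : ℕ} {ε C θ c₀ F D m R Q : ℝ} (hε : 0 < ε) (hC : 1 ≤ C)
    (hθ0 : 0 < θ) (hF : 0 < F) (hD : 0 ≤ D) (hm : 0 < m) (hR : 0 < R)
    (hm2 : m ≤ 2 * C * R / θ) (hQ : 0 ≤ Q)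
    (h : c₀ ≤ (F * m ^ s * D) ^ (1 + ε) * ((C / m) ^ s * (2 ^ k * Q * θ ^ k))) :
    c₀ / (F ^ (1 + ε) * C ^ s * 2 ^ k * (2 * C) ^ (s * ε)) ≤
      R ^ (s * ε) * D ^ (1 + ε) * Q * θ ^ ((k : ℝ) - s * ε) := by
  have hC0 : 0 < C := by linarith
  have hF1 : 0 < F ^ (1 + ε) := Real.rpow_pos_of_pos hF _
  have hC1 : 0 < (2 * C) ^ (s * ε) := Real.rpow_pos_of_pos (by linarith) _
  have hD1 : 0 ≤ D ^ (1 + ε) := Real.rpow_nonneg hD _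
  have hsε : 0 ≤ s * ε := by positivity
  rw [div_le_iff₀ (by positivity)]
  refine h.trans ?_
  have h1 : (F * m ^ s * D) ^ (1 + ε) = F ^ (1 + ε) * (m ^ s * m ^ (s * ε)) * D ^ (1 + ε) := by
    rw [Real.mul_rpow (by positivity) hD, Real.mul_rpow hF.le (by positivity)]
    congr 2
    rw [← Real.rpow_natCast, ← Real.rpow_mul hm.le, ← Real.rpow_add hm]
    congr 1
    ring
  have h2 : m ^ s * (C / m) ^ s = C ^ s := by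
    rw [← mul_pow, mul_div_cancel₀ _ hm.ne']
  have h3 : m ^ (s * ε) ≤ (2 * C) ^ (s * ε) * R ^ (s * ε) * θ ^ (-(s * ε)) := by
    calc m ^ (s * ε) ≤ (2 * C * R / θ) ^ (s * ε) := Real.rpow_le_rpow hm.le hm2 hsε
      _ = (2 * C) ^ (s * ε) * R ^ (s * ε) * θ ^ (-(s * ε)) := by
        rw [Real.div_rpow (by positivity) hθ0.le, Real.mul_rpow (by positivity) hR.le,
          Real.rpow_neg hθ0.le]
        rfl
  have h4 : θ ^ ((k : ℝ) - s * ε) = θ ^ k * θ ^ (-(s * ε)) := by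
    rw [sub_eq_add_neg, Real.rpow_add hθ0, Real.rpow_natCast]
  rw [h1, h4]
  calc F ^ (1 + ε) * (m ^ s * m ^ (s * ε)) * D ^ (1 + ε) * ((C / m) ^ s * (2 ^ k * Q * θ ^ k))
      = (F ^ (1 + ε) * D ^ (1 + ε) * (m ^ s * (C / m) ^ s) * (2 ^ k * Q * θ ^ k)) *
        m ^ (s * ε) := by ring
    _ = (F ^ (1 + ε) * D ^ (1 + ε) * C ^ s * (2 ^ k * Q * θ ^ k)) * m ^ (s * ε) := by rw [h2]
    _ ≤ (F ^ (1 + ε) * D ^ (1 + ε) * C ^ s * (2 ^ k * Q * θ ^ k)) *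
        ((2 * C) ^ (s * ε) * R ^ (s * ε) * θ ^ (-(s * ε))) :=
        mul_le_mul_of_nonneg_left h3 (by positivity)
    _ = _ := by ring

theorem end_e {K Ω : Type} [Field K] [NumberField K] [Field Ω] [CharZero Ω] [IsAlgClosed Ω]
    [Algebra K Ω] [IsGalois K Ω] (B : IntermediateField ℚ Ω)
    (hB : ∀ (x : Ω) (k : ℕ), 1 ≤ k → x ^ k = 1 → x ∈ B)
    (hQ : ∀ j : ℕ, 1 ≤ j → ∀ ε : ℝ, 0 < ε → ∃ c : ℝ, 0 < c ∧ PtB B (⊥ : Subgroup Ωˣ) j (1 + ε) c)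
    {s : ℕ} (b : Fin s → K) (hb : ∀ i, b i ≠ 0)
    (hind : ∀ N : ℕ, 1 ≤ N → ∀ (m : Fin s → ℤ) (y : K), y ^ N = ∏ i, (b i) ^ (m i) →
      ∀ i, (N : ℤ) ∣ m i) (k : ℕ) (hk : 1 ≤ k) (ε : ℝ) (hε : 0 < ε) :
    ∃ c : ℝ, 0 < c ∧ ∀ n' R : ℕ, 1 ≤ n' → 1 ≤ R → ∀ w y : Fin k → Ωˣ,
      (∀ i, ((w i / y i : Ωˣ) : Ω) ∈ DivG Ω b) →
      (∀ a : Fin k → ℤ, a ≠ 0 → ((∏ i, w i ^ a i : Ωˣ) : Ω) ∉ DivG Ω b) →
      ∀ μ : Fin k → ℕ, (∀ i, 1 ≤ μ i) → ∀ θ : ℝ, 0 < θ → θ ≤ 1 →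
      (∀ i, absLogHeight₁ (w i : Ω) ≤ μ i * θ) →
      c ≤ (R : ℝ) ^ (s * ε) * (degP (RF Ω b n' R) y : ℝ) ^ (1 + ε) * (∏ i, (μ i : ℝ)) *
        θ ^ ((k : ℝ) - s * ε) := by
  obtain ⟨C, hC⟩ : ∃ C : ℝ, C = 1 + ∑ j, absLogHeight₁ (algebraMap K Ω (b j)) := ⟨_, rfl⟩
  have hC1 : 1 ≤ C := by
    rw [hC]
    have := Finset.sum_nonneg fun j (_ : j ∈ (Finset.univ : Finset (Fin s))) =>
      Pool.Agent.H72.PB.ht_nonneg (algebraMap K Ω (b j))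
    linarith
  obtain ⟨c₀, hc₀, hPB⟩ := hQ (s + k) (by omega) ε hε
  have hF : (0 : ℝ) < Module.finrank ℚ K := by exact_mod_cast Module.finrank_pos (R := ℚ) (M := K)
  refine ⟨c₀ / ((Module.finrank ℚ K : ℝ) ^ (1 + ε) * C ^ s * 2 ^ k * (2 * C) ^ (s * ε)),
    by positivity, ?_⟩
  intro n' R hn' hR w y hwy hw μ hμ θ hθ0 hθ1 hwθ
  have hR0 : (0 : ℝ) < R := by exact_mod_cast hR
  have hR1 : (1 : ℝ) ≤ R := by exact_mod_cast hR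
  obtain ⟨z, hz⟩ : ∃ z : ℝ, z = C / (R * θ) := ⟨_, rfl⟩
  have hz0 : 0 < z := by
    rw [hz]
    positivity
  have hzR : z * (R * θ) = C := by
    rw [hz]
    field_simp
  obtain ⟨m, hm⟩ : ∃ m : ℕ, m = R * ⌈z⌉₊ := ⟨_, rfl⟩
  have hcz : 0 < ⌈z⌉₊ := Nat.ceil_pos.2 hz0
  have hm1 : 1 ≤ m := by
    rw [hm]
    exact Nat.mul_pos hR hcz
  have hmR : (m : ℝ) = R * (⌈z⌉₊ : ℝ) := by
    rw [hm]
    push_cast
    rfl
  have hmθ : C ≤ m * θ := by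
    rw [hmR, ← hzR]
    have h1 := Nat.le_ceil z
    have h2 : 0 ≤ (R : ℝ) * θ := by positivity
    nlinarith [mul_le_mul_of_nonneg_right h1 h2]
  have hm2 : (m : ℝ) ≤ 2 * C * R / θ := by
    have h1 := (Nat.ceil_lt_add_one hz0.le).le
    have h2 : (m : ℝ) ≤ R * (z + 1) := by
      rw [hmR]
      exact mul_le_mul_of_nonneg_left h1 hR0.le
    refine h2.trans ?_
    rw [le_div_iff₀ hθ0]
    have h3 : (R : ℝ) * (z + 1) * θ = C + R * θ := by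
      calc (R : ℝ) * (z + 1) * θ = z * (R * θ) + R * θ := by ring
        _ = C + R * θ := by rw [hzR]
    rw [h3]
    have h4 : (R : ℝ) * θ ≤ R * C := mul_le_mul_of_nonneg_left (hθ1.trans hC1) hR0.le
    have h5 : C * 1 ≤ C * R := mul_le_mul_of_nonneg_left hR1 (by linarith)
    linarith
  obtain ⟨x, hx, γ, hγ, hineq⟩ := ed_core B b hb hind k ε c₀ hPB C hC m hm1 (RF Ω b n' R) w y hwy hw μ
    hμ θ hθ0 hmθ hwθ
  have hdeg := deg_big' B hB b hb n' R m hn' hR hm1 (by rw [hm]; exact Dvd.intro _ rfl) x hx y γ hγ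
  refine ee_real hε hC1 hθ0 hF (Nat.cast_nonneg _) (by exact_mod_cast hm1) hR0 hm2
    (Finset.prod_nonneg fun i _ => Nat.cast_nonneg _) (hineq.trans ?_)
  refine mul_le_mul_of_nonneg_right ?_ ?_
  · refine Real.rpow_le_rpow (Nat.cast_nonneg _) ?_ (by linarith)
    exact_mod_cast hdeg
  · have h1 : 0 ≤ C / m := div_nonneg (by linarith) (Nat.cast_nonneg _)
    have h2 : 0 ≤ ∏ i, (μ i : ℝ) := Finset.prod_nonneg fun i _ => Nat.cast_nonneg _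
    positivity

end Pool.Agent.H33.PT
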