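import Pool.Agent.H33.PT.Df
import Pool.Agent.H11.TS.FinB

/-!
# POINTS THEOREM, Cnv: from the parameter `Z` to exponents `1/n + δ`

PROOF. `C` from the hypothesis. Given `δ > 0` choose `e ≥ 1` with `C ≤ n δ e`; `K₀` for this `e`, `K := max K₀ 1`. `D := degP L γ ≥ 1` (finite-dimensional: `Ω` is algebraic over `L`, `adjoin L (finite set)`), `s := ⌈D^(1/e)⌉`, `s ≤ 2 D^(1/e)`, `D ≤ s^e`, `Z := K s ≥ K₀`, `D ≤ Z^e`.
`h ≥ 0`. `1 < Z^C (D h^n) ≤ (2 K)^C D^(C/e) D h^n ≤ (2 K)^C D^(1 + n δ) h^n` (real powers). So `(2 K)^(-C) ≤ (D^(1/n + δ) h)^n`; `c := (2 K)^(-C/n)` (real power), or `c := (2 K)^(-C)` (`c ≤ 1`: if `D^(1/n+δ) h < c ≤ 1` then its `n`-th power is `≤` itself `< c`).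
(Model: `choose_P` in `Pool/Agent/H11/TS/FinB.lean`.)
-/

set_option autoImplicit false
set_option linter.unusedSectionVars false

open NumberField

namespace Pool.Agent.H33.PT

open Pool.Agent.H11.TS

private theorem cnv_choose (K e D : ℕ) (he : 1 ≤ e) (hK : 1 ≤ K) (hD : 1 ≤ D) :
    ∃ Z : ℕ, K ≤ Z ∧ D ≤ Z ^ e ∧ (Z : ℝ) ≤ 2 * K * (D : ℝ) ^ (1 / (e : ℝ)) := by
  obtain ⟨s, hs⟩ : ∃ s : ℕ, s = ⌈(D : ℝ) ^ (1 / (e : ℝ))⌉₊ := ⟨_, rfl⟩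
  have hD1 : (1 : ℝ) ≤ D := by exact_mod_cast hD
  have hD0 : (0 : ℝ) < D := by linarith
  have ha0 : (0 : ℝ) < e := by exact_mod_cast he
  have hr1 : (1 : ℝ) ≤ (D : ℝ) ^ (1 / (e : ℝ)) := Real.one_le_rpow hD1 (by positivity)
  have hs1 : (D : ℝ) ^ (1 / (e : ℝ)) ≤ s := by
    rw [hs]
    exact Nat.le_ceil _
  have hs1' : 1 ≤ s := by exact_mod_cast hr1.trans hs1
  have hs2 : (s : ℝ) ≤ 2 * (D : ℝ) ^ (1 / (e : ℝ)) := by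
    rw [hs]
    have := Nat.ceil_lt_add_one (show (0 : ℝ) ≤ (D : ℝ) ^ (1 / (e : ℝ)) by positivity)
    linarith
  have hDs : (D : ℝ) ≤ (s : ℝ) ^ e := by
    have h1 : (D : ℝ) = ((D : ℝ) ^ (1 / (e : ℝ))) ^ e := by
      rw [← Real.rpow_natCast, ← Real.rpow_mul hD0.le, one_div_mul_cancel ha0.ne', Real.rpow_one]
    calc (D : ℝ) = ((D : ℝ) ^ (1 / (e : ℝ))) ^ e := h1
      _ ≤ (s : ℝ) ^ e := pow_le_pow_left₀ (by positivity) hs1 _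
  refine ⟨K * s, Nat.le_mul_of_pos_right _ hs1', ?_, ?_⟩
  · have h1 : D ≤ s ^ e := by exact_mod_cast hDs
    exact h1.trans (Nat.pow_le_pow_left (Nat.le_mul_of_pos_left _ hK) _)
  · push_cast
    have hK0 : (0 : ℝ) ≤ K := Nat.cast_nonneg _
    nlinarith [mul_le_mul_of_nonneg_left hs2 hK0]

private theorem cnv_pos {K Ω : Type} [Field K] [Field Ω] [Algebra K Ω] [Algebra.IsAlgebraic K Ω]
    (L : IntermediateField K Ω) {n : ℕ} (γ : Fin n → Ωˣ) : 1 ≤ degP L γ := by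
  haveI : FiniteDimensional L (IntermediateField.adjoin L (Set.range fun i => (γ i : Ω))) := by
    refine IntermediateField.finiteDimensional_adjoin fun x _ => ?_
    exact ((Algebra.IsAlgebraic.isAlgebraic (R := K) x).tower_top L).isIntegral
  exact Module.finrank_pos

theorem cnv (n : ℕ) (hn : 1 ≤ n) {K Ω : Type} [Field K] [NumberField K] [Field Ω] [CharZero Ω]
    [IsAlgClosed Ω] [Algebra K Ω] [IsGalois K Ω] (L : IntermediateField K Ω) (Λ : Subgroup Ωˣ)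
    (hpu : ∃ C : ℕ, ∀ e : ℕ, ∃ K₀ : ℕ, ∀ Z : ℕ, K₀ ≤ Z → ∀ γ : Fin n → Ωˣ, IndM Λ γ →
      degP L γ ≤ Z ^ e → ∀ h : ℝ, (∀ i, absLogHeight₁ (γ i : Ω) ≤ h) →
      1 < (Z : ℝ) ^ C * ((degP L γ : ℝ) * h ^ n)) (δ : ℝ) (hδ : 0 < δ) :
    ∃ c : ℝ, 0 < c ∧ ∀ γ : Fin n → Ωˣ, IndM Λ γ → ∀ h : ℝ,
      (∀ i, absLogHeight₁ (γ i : Ω) ≤ h) → c ≤ (degP L γ : ℝ) ^ (1 / (n : ℝ) + δ) * h := by
  classical
  have halg : Algebra.IsAlgebraic K Ω := inferInstance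
  obtain ⟨C, hC⟩ := hpu
  have hn0 : (0 : ℝ) < n := by exact_mod_cast hn
  obtain ⟨e, he, hCe⟩ : ∃ e : ℕ, 1 ≤ e ∧ (C : ℝ) ≤ n * δ * e := by
    refine ⟨⌈(C : ℝ) / (n * δ)⌉₊ + 1, Nat.le_add_left _ _, ?_⟩
    have h1 := Nat.le_ceil ((C : ℝ) / (n * δ))
    rw [div_le_iff₀ (by positivity)] at h1
    have h2 : (0 : ℝ) < n * δ := by positivity
    push_cast
    nlinarith
  obtain ⟨K₀, hK⟩ := hC e
  obtain ⟨k, hk⟩ : ∃ k : ℕ, k = max K₀ 1 := ⟨_, rfl⟩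
  have hk1 : 1 ≤ k := by rw [hk]; exact le_max_right _ _
  have hk0 : K₀ ≤ k := by rw [hk]; exact le_max_left _ _
  have hk1' : (1 : ℝ) ≤ k := by exact_mod_cast hk1
  have hB1 : (1 : ℝ) ≤ (2 * (k : ℝ)) ^ C := one_le_pow₀ (by linarith)
  have hB0 : (0 : ℝ) < (2 * (k : ℝ)) ^ C := by linarith
  refine ⟨((2 * (k : ℝ)) ^ C)⁻¹, by positivity, ?_⟩
  intro γ hγ h hh
  obtain ⟨D, hD⟩ : ∃ D : ℕ, D = degP L γ := ⟨_, rfl⟩
  have hD1 : 1 ≤ D := by rw [hD]; exact cnv_pos L γ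
  have hD1' : (1 : ℝ) ≤ D := by exact_mod_cast hD1
  have hD0 : (0 : ℝ) < D := by linarith
  have hh0 : 0 ≤ h := (Pool.Agent.H72.PB.ht_nonneg _).trans (hh ⟨0, hn⟩)
  obtain ⟨Z, hZk, hDZ, hZ⟩ := cnv_choose k e D he hk1 hD1
  have h1 := hK Z (hk0.trans hZk) γ hγ (by rw [← hD]; exact hDZ) h hh
  rw [← hD] at h1 ⊢
  have he0 : (0 : ℝ) < e := by exact_mod_cast he
  have h2 : ((D : ℝ) ^ (1 / (e : ℝ))) ^ C ≤ (D : ℝ) ^ (n * δ) := by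
    rw [← Real.rpow_natCast, ← Real.rpow_mul hD0.le]
    refine Real.rpow_le_rpow_of_exponent_le hD1' ?_
    rw [one_div, inv_mul_le_iff₀ he0, mul_comm]
    exact hCe
  have h3 : (Z : ℝ) ^ C ≤ (2 * (k : ℝ)) ^ C * (D : ℝ) ^ (n * δ) := by
    calc (Z : ℝ) ^ C ≤ (2 * k * (D : ℝ) ^ (1 / (e : ℝ))) ^ C :=
          pow_le_pow_left₀ (Nat.cast_nonneg _) hZ _
      _ = (2 * (k : ℝ)) ^ C * ((D : ℝ) ^ (1 / (e : ℝ))) ^ C := mul_pow _ _ _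
      _ ≤ _ := mul_le_mul_of_nonneg_left h2 hB0.le
  obtain ⟨X, hX⟩ : ∃ X : ℝ, X = (D : ℝ) ^ (1 / (n : ℝ) + δ) * h := ⟨_, rfl⟩
  have hX0 : 0 ≤ X := by rw [hX]; positivity
  have hXn : X ^ n = (D : ℝ) ^ (n * δ) * ((D : ℝ) * h ^ n) := by
    rw [hX, mul_pow, ← Real.rpow_natCast, ← Real.rpow_mul hD0.le]
    have h4 : (1 / (n : ℝ) + δ) * n = n * δ + 1 := by
      rw [add_mul, one_div_mul_cancel hn0.ne']
      ring
    rw [h4, Real.rpow_add hD0, Real.rpow_one]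
    ring
  have h5 : 1 < (2 * (k : ℝ)) ^ C * X ^ n := by
    rw [hXn]
    calc 1 < (Z : ℝ) ^ C * ((D : ℝ) * h ^ n) := h1
      _ ≤ ((2 * (k : ℝ)) ^ C * (D : ℝ) ^ (n * δ)) * ((D : ℝ) * h ^ n) :=
        mul_le_mul_of_nonneg_right h3 (by positivity)
      _ = _ := by ring
  rw [← hX]
  by_contra hcon
  rw [not_le] at hcon
  have hc1 : ((2 * (k : ℝ)) ^ C)⁻¹ ≤ 1 := inv_le_one_of_one_le₀ hB1
  have hX1 : X ≤ 1 := hcon.le.trans hc1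
  have h6 : X ^ n ≤ X := by
    calc X ^ n ≤ X ^ 1 := pow_le_pow_of_le_one hX0 hX1 hn
      _ = X := pow_one X
  have h7 : (2 * (k : ℝ)) ^ C * X ^ n < 1 := by
    calc (2 * (k : ℝ)) ^ C * X ^ n ≤ (2 * (k : ℝ)) ^ C * X :=
          mul_le_mul_of_nonneg_left h6 hB0.le
      _ < (2 * (k : ℝ)) ^ C * ((2 * (k : ℝ)) ^ C)⁻¹ := mul_lt_mul_of_pos_left hcon hB0
      _ = 1 := mul_inv_cancel₀ hB0.ne'
  linarith

end Pool.Agent.H33.PT
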