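import Pool.Agent.H11.TS.Asm
import Pool.Agent.H33.PS.FinP

/-!
# POINTS THEOREM, Reu: the reduction `red` (proof by helper27) with the level `m`

`Nm K Λ S m`: the field generated over `K` by all `x` with `x^(m M) t ∈ Λ`, `M` composed of primes of `S`, `t` a root of unity.
`NSm Ω b S m`: the same for `⟨b⟩`.
-/

set_option autoImplicit false
set_option linter.unusedSectionVars false

open NumberField IntermediateField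

namespace Pool.Agent.H33.PT

open Pool.Agent.H72.RM Pool.Agent.H92.SR Pool.Agent.H11.TH Pool.Agent.H11.TS

section

/-- the `x` with `x^(m M) t ∈ Λ`, `M` composed of primes of `S`, `t` a root of unity -/
def SRm {Ω : Type} [Field Ω] (Λ : Subgroup Ωˣ) (S : Finset ℕ) (m : ℕ) : Set Ωˣ :=
  {x | ∃ M : ℕ, 1 ≤ M ∧ (∀ q : ℕ, q.Prime → q ∣ M → q ∈ S) ∧
    ∃ t : Ωˣ, (∃ k : ℕ, 1 ≤ k ∧ t ^ k = 1) ∧ x ^ (m * M) * t ∈ Λ}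

/-- the field generated over `K` by `SRm Λ S m` -/
noncomputable def Nm (K : Type) {Ω : Type} [Field K] [Field Ω] [Algebra K Ω] (Λ : Subgroup Ωˣ)
    (S : Finset ℕ) (m : ℕ) : IntermediateField K Ω := fld K (SRm Λ S m)

/-- the field generated over `K` by all `x` with `x^(m M) t ∈ ⟨b⟩`, `M` composed of primes of `S` -/
noncomputable def NSm {K : Type} (Ω : Type) [Field K] [Field Ω] [Algebra K Ω] {r : ℕ} (b : Fin r → K)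
    (S : Finset ℕ) (m : ℕ) : IntermediateField K Ω :=
  IntermediateField.adjoin K {x | ∃ M : ℕ, 1 ≤ M ∧ (∀ q : ℕ, q.Prime → q ∣ M → q ∈ S) ∧
    ∃ t : Ω, (∃ n : ℕ, 1 ≤ n ∧ t ^ n = 1) ∧
      ∃ e : Fin r → ℤ, x ^ (m * M) * t = ∏ i, (algebraMap K Ω (b i)) ^ (e i)}

variable {K Ω : Type} [Field K] [NumberField K] [Field Ω] [CharZero Ω] [IsAlgClosed Ω]
  [Algebra K Ω] [IsGalois K Ω]

private theorem fo_prod {r : ℕ} (b : Fin r → Kˣ) (m : Fin r → ℤ) :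
    algebraMap K Ω (((∏ i, b i ^ (m i) : Kˣ)) : K) =
      ∏ i, (algebraMap K Ω ((b i : Kˣ) : K)) ^ (m i) := by
  rw [Units.coe_prod, map_prod]
  refine Finset.prod_congr rfl fun i _ => ?_
  rw [Units.val_zpow_eq_zpow_val, map_zpow₀]

private theorem fo_dec {r : ℕ} (Λ Λ' : Subgroup Kˣ)
    (hΛ' : ∀ x : Kˣ, x ∈ Λ' ↔ ∃ N : ℕ, 1 ≤ N ∧ x ^ N ∈ Λ) (b : Fin r → Kˣ)
    (hgen : ∀ x ∈ Λ', ∃ m : Fin r → ℤ, IsOfFinOrder (x * (∏ i, b i ^ (m i))⁻¹))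
    {u : Kˣ} (hu : u ∈ Λ) :
    ∃ (m : Fin r → ℤ) (w : Ω) (k : ℕ), 1 ≤ k ∧ w ^ k = 1 ∧
      algebraMap K Ω ((u : Kˣ) : K) = w * ∏ i, (algebraMap K Ω ((b i : Kˣ) : K)) ^ (m i) := by
  have hu' : u ∈ Λ' := (hΛ' u).2 ⟨1, le_rfl, by rwa [pow_one]⟩
  obtain ⟨m, hm⟩ := hgen u hu'
  obtain ⟨k, hk, hk1⟩ := isOfFinOrder_iff_pow_eq_one.1 hm
  obtain ⟨v, hv⟩ : ∃ v, v = u * (∏ i, b i ^ (m i))⁻¹ := ⟨_, rfl⟩
  rw [← hv] at hk1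
  have huv : u = v * ∏ i, b i ^ (m i) := by
    rw [hv, inv_mul_cancel_right]
  refine ⟨m, algebraMap K Ω ((v : Kˣ) : K), k, hk, ?_, ?_⟩
  · rw [← map_pow, ← Units.val_pow_eq_pow_val, hk1, Units.val_one, map_one]
  · rw [← fo_prod, ← map_mul, ← Units.val_mul, ← huv]

private theorem fo_sg {r : ℕ} (Λ Λ' : Subgroup Kˣ)
    (hΛ' : ∀ x : Kˣ, x ∈ Λ' ↔ ∃ N : ℕ, 1 ≤ N ∧ x ^ N ∈ Λ) (b : Fin r → Kˣ)
    (hgen : ∀ x ∈ Λ', ∃ m : Fin r → ℤ, IsOfFinOrder (x * (∏ i, b i ^ (m i))⁻¹))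
    (S : Finset ℕ) (l : ℕ) (T : Set Ω)
    (hT : T = {x : Ω | ∃ u ∈ Λ, x = algebraMap K Ω ((u : Kˣ) : K)}) (x : Ω)
    (hx : ∃ M : ℕ, 1 ≤ M ∧ (∀ q : ℕ, q.Prime → q ∣ M → q ∈ S) ∧
      ∃ t : Ω, (∃ n : ℕ, 1 ≤ n ∧ t ^ n = 1) ∧ x ^ (l * M) * t ∈ T) :
    ∃ M : ℕ, 1 ≤ M ∧ (∀ q : ℕ, q.Prime → q ∣ M → q ∈ S) ∧
      ∃ t : Ω, (∃ n : ℕ, 1 ≤ n ∧ t ^ n = 1) ∧ ∃ e : Fin r → ℤ, x ^ (l * M) * t =
        ∏ i, (algebraMap K Ω ((b i : Kˣ) : K)) ^ (e i) := by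
  obtain ⟨N, hN, hNS, t, ⟨n, hn, htn⟩, hx⟩ := hx
  rw [hT] at hx
  obtain ⟨u, hu, hxu⟩ := hx
  obtain ⟨m, w, k, hk, hw, huw⟩ := fo_dec (Ω := Ω) Λ Λ' hΛ' b hgen hu
  have hw0 : w ≠ 0 := by
    rintro rfl
    rw [zero_pow (by omega)] at hw
    exact zero_ne_one hw
  refine ⟨N, hN, hNS, t * w⁻¹, ⟨n * k, Nat.mul_pos hn hk, ?_⟩, m, ?_⟩
  · rw [mul_pow, pow_mul, htn, one_pow, one_mul, inv_pow, mul_comm n k, pow_mul, hw, one_pow,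
      inv_one]
  · rw [← mul_assoc, hxu, huw, mul_comm w, mul_inv_cancel_right₀ hw0]

private theorem fo_div {r : ℕ} (Λ Λ' : Subgroup Kˣ)
    (hΛ' : ∀ x : Kˣ, x ∈ Λ' ↔ ∃ N : ℕ, 1 ≤ N ∧ x ^ N ∈ Λ) (b : Fin r → Kˣ)
    (hb : ∀ i, b i ∈ Λ')
    (T : Set Ω) (hT : T = {x : Ω | ∃ u ∈ Λ, x = algebraMap K Ω ((u : Kˣ) : K)}) :
    DivG Ω (fun i => ((b i : Kˣ) : K)) ⊆ DG T := by
  rintro x ⟨N, hN, m, hx⟩
  have h1 : ∏ i, b i ^ (m i) ∈ Λ' := Subgroup.prod_mem _ fun i _ => Subgroup.zpow_mem _ (hb i) _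
  obtain ⟨M, hM, hM1⟩ := (hΛ' _).1 h1
  refine ⟨N * M, Nat.mul_pos hN hM, ?_⟩
  rw [hT]
  refine ⟨_, hM1, ?_⟩
  rw [pow_mul, hx, Units.val_pow_eq_pow_val, map_pow, fo_prod]

private theorem srad_sg (Λ : Subgroup Ωˣ) (S : Finset ℕ) (l : ℕ) (x : Ωˣ) (hx : x ∈ SRm Λ S l) :
    ∃ M : ℕ, 1 ≤ M ∧ (∀ q : ℕ, q.Prime → q ∣ M → q ∈ S) ∧
      ∃ t : Ω, (∃ n : ℕ, 1 ≤ n ∧ t ^ n = 1) ∧
        (x : Ω) ^ (l * M) * t ∈ {y : Ω | ∃ u ∈ Λ, y = ((u : Ωˣ) : Ω)} := by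
  obtain ⟨N, hN, hNS, t, ⟨k, hk, hkt⟩, h⟩ := hx
  refine ⟨N, hN, hNS, (t : Ω), ⟨k, hk, ?_⟩, ⟨_, h, ?_⟩⟩
  · rw [← Units.val_pow_eq_pow_val, hkt, Units.val_one]
  · rw [Units.val_mul, Units.val_pow_eq_pow_val]

end

theorem red_u {K Ω : Type} [Field K] [NumberField K] [Field Ω] [CharZero Ω] [IsAlgClosed Ω]
    [Algebra K Ω] [IsGalois K Ω] (Λ : Subgroup Ωˣ) (hΛ : Λ.FG) (S : Finset ℕ)
    (k : ℕ) (hk : 1 ≤ k) (δ : ℝ) (hδ : 0 < δ)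
    (hNS : ∀ (K₁ : Type) [Field K₁] [NumberField K₁] [Algebra K₁ Ω] [IsGalois K₁ Ω] (r : ℕ)
      (b : Fin r → K₁), (∀ i, b i ≠ 0) →
      (∀ N : ℕ, 1 ≤ N → ∀ (m : Fin r → ℤ) (y : K₁), y ^ N = ∏ i, (b i) ^ (m i) →
        ∀ i, (N : ℤ) ∣ m i) →
      ∃ c : ℝ, 0 < c ∧ ∀ l : ℕ, 1 ≤ l → ∀ γ : Fin k → Ωˣ,
        (∀ a : Fin k → ℤ, a ≠ 0 → ((∏ i, γ i ^ a i : Ωˣ) : Ω) ∉ DivG Ω b) → ∀ h : ℝ,
        (∀ i, absLogHeight₁ (γ i : Ω) ≤ h) →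
        c ≤ (l : ℝ) ^ δ * ((degP (NSm Ω b S l) γ : ℝ) ^ (1 / (k : ℝ) + δ) * h)) :
    ∃ c : ℝ, 0 < c ∧ ∀ l : ℕ, 1 ≤ l → ∀ γ : Fin k → Ωˣ, IndM Λ γ → ∀ h : ℝ,
      (∀ i, absLogHeight₁ (γ i : Ω) ≤ h) →
      c ≤ (l : ℝ) ^ δ * ((degP (Nm K Λ S l) γ : ℝ) ^ (1 / (k : ℝ) + δ) * h) := by
  classical
  obtain ⟨T, hT⟩ : ∃ T : Set Ω, T = {x : Ω | ∃ u ∈ Λ, x = ((u : Ωˣ) : Ω)} := ⟨_, rfl⟩
  obtain ⟨T₁, hT₁⟩ := hΛ
  -- the field generated by `Λ`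
  let K₀ : IntermediateField K Ω :=
    IntermediateField.adjoin K ((fun x : Ωˣ => (x : Ω)) '' (T₁ : Set Ωˣ))
  have hfin : FiniteDimensional K K₀ := by
    have : Finite ((fun x : Ωˣ => (x : Ω)) '' (T₁ : Set Ωˣ)) := by
      have h1 : ((fun x : Ωˣ => (x : Ω)) '' (T₁ : Set Ωˣ)).Finite :=
        (Finset.finite_toSet T₁).image _
      exact h1.to_subtype
    exact IntermediateField.finiteDimensional_adjoin fun x _ => Algebra.IsIntegral.isIntegral x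
  have hfinQ : FiniteDimensional ℚ K₀ := Module.Finite.trans K K₀
  have hNF : NumberField K₀ := { to_charZero := inferInstance, to_finiteDimensional := hfinQ }
  have hmem : ∀ x ∈ T₁, (x : Ω) ∈ K₀ := fun x hx =>
    IntermediateField.subset_adjoin K _ ⟨x, hx, rfl⟩
  let f : K₀ˣ →* Ωˣ := Units.map (algebraMap K₀ Ω).toMonoidHom
  let lft : {y : Ωˣ // y ∈ T₁} → K₀ˣ := fun x =>
    Units.mk0 (⟨(x.1 : Ω), hmem x.1 x.2⟩ : K₀) (by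
      intro h
      exact x.1.ne_zero (congrArg (fun z : K₀ => (z : Ω)) h))
  have hlft : ∀ x, f (lft x) = x.1 := by
    intro x
    apply Units.ext
    rfl
  let T₀ : Finset K₀ˣ := T₁.attach.image lft
  let Λ₀ : Subgroup K₀ˣ := Subgroup.closure (T₀ : Set K₀ˣ)
  have hΛ₀ : Λ₀.FG := ⟨T₀, rfl⟩
  have himg : f '' (T₀ : Set K₀ˣ) = (T₁ : Set Ωˣ) := by
    ext y
    constructor
    · rintro ⟨x, hx, rfl⟩
      obtain ⟨z, -, rfl⟩ := Finset.mem_image.1 (Finset.mem_coe.1 hx)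
      rw [hlft]
      exact z.2
    · intro hy
      refine ⟨lft ⟨y, hy⟩, ?_, hlft _⟩
      exact Finset.mem_coe.2 (Finset.mem_image.2 ⟨⟨y, hy⟩, Finset.mem_attach _ _, rfl⟩)
  have hmap : Λ₀.map f = Λ := by
    rw [MonoidHom.map_closure, himg, hT₁]
  have hT' : T = {x : Ω | ∃ u ∈ Λ₀, x = algebraMap K₀ Ω ((u : K₀ˣ) : K₀)} := by
    rw [hT]
    ext x
    constructor
    · rintro ⟨u, hu, rfl⟩
      rw [← hmap] at hu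
      obtain ⟨v, hv, rfl⟩ := hu
      exact ⟨v, hv, rfl⟩
    · rintro ⟨v, hv, rfl⟩
      refine ⟨f v, ?_, rfl⟩
      rw [← hmap]
      exact ⟨v, hv, rfl⟩
  obtain ⟨Λ', hΛ'fg, hΛ'⟩ := sat_fg K₀ Λ₀ hΛ₀
  obtain ⟨r, b, hb, hgen, hind⟩ := sat_basis Λ' hΛ'fg
  have hb0 : ∀ i, (fun i => ((b i : K₀ˣ) : K₀)) i ≠ 0 := fun i => (b i).ne_zero
  obtain ⟨c, hc, hmain⟩ := hNS K₀ r (fun i => ((b i : K₀ˣ) : K₀)) hb0
    (fun N hN m y hy i => Pool.Agent.H72.RG.ind_all Λ₀ Λ' hΛ' b hb hgen hind N hN m y hy i)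
  refine ⟨c, hc, fun l hl γ hγ h hh => ?_⟩
  have hnd : ∀ a : Fin k → ℤ, a ≠ 0 →
      ((∏ i, γ i ^ a i : Ωˣ) : Ω) ∉ DivG Ω (fun i => ((b i : K₀ˣ) : K₀)) := by
    intro a ha hmem
    obtain ⟨m, hm, hmT⟩ := fo_div Λ₀ Λ' hΛ' b hb T hT' hmem
    rw [hT] at hmT
    obtain ⟨u, hu, hum⟩ := hmT
    have h1 : (∏ i, γ i ^ a i) ^ m = u := by
      apply Units.ext
      rw [Units.val_pow_eq_pow_val, hum]
    apply hγ a ha m hm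
    rw [h1]
    exact hu
  refine (hmain l hl γ hnd h hh).trans ?_
  have hh0 : 0 ≤ h := (Pool.Agent.H72.PB.ht_nonneg _).trans (hh ⟨0, hk⟩)
  have hle : Nm K Λ S l ≤ (NSm Ω (fun i => ((b i : K₀ˣ) : K₀)) S l).restrictScalars K := by
    unfold Nm fld
    rw [IntermediateField.adjoin_le_iff]
    rintro y ⟨x, hx, rfl⟩
    have h1 := srad_sg Λ S l x hx
    rw [← hT] at h1
    exact IntermediateField.subset_adjoin K₀ _ (fo_sg Λ₀ Λ' hΛ' b hgen S l T hT' (x : Ω) h1)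
  have hdeg : degP (NSm Ω (fun i => ((b i : K₀ˣ) : K₀)) S l) γ ≤ degP (Nm K Λ S l) γ :=
    degP_mono hle γ
  refine mul_le_mul_of_nonneg_left ?_ (by positivity)
  refine mul_le_mul_of_nonneg_right ?_ hh0
  refine Real.rpow_le_rpow (Nat.cast_nonneg _) (by exact_mod_cast hdeg) ?_
  have : (0 : ℝ) ≤ 1 / (k : ℝ) := by positivity
  linarith

end Pool.Agent.H33.PT
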