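import Pool.Agent.H28.PT4.CoU
import Pool.Agent.H33.PT.Reu
import Pool.Agent.H72.RM.Cover

/-!
# POINTS THEOREM, Cvs: the fields `NS Ω b S`, `NSm Ω b S m` are covered by level fields
-/

set_option autoImplicit false
set_option linter.unusedSectionVars false

open NumberField IntermediateField

namespace Pool.Agent.H33.PT

open Pool.Agent.H72.RM Pool.Agent.H92.SR Pool.Agent.H11.TH Pool.Agent.H11.TS Pool.Agent.H28.PT4

variable {K Ω : Type} [Field K] [NumberField K] [Field Ω] [CharZero Ω] [IsAlgClosed Ω]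
  [Algebra K Ω] [IsGalois K Ω] {r : ℕ}

/-- the numbers prime to `S` -/
def PrS (S : Finset ℕ) : Set ℕ := {n | 1 ≤ n ∧ ∀ q ∈ S, ¬ q ∣ n}

theorem snum_mul {S : Finset ℕ} {N M : ℕ} (hN : Snum S N) (hM : Snum S M) : Snum S (N * M) := by
  refine ⟨Nat.mul_pos hN.1 hM.1, fun q hq h => ?_⟩
  rcases (Nat.Prime.dvd_mul hq).1 h with h1 | h1
  · exact hN.2 q hq h1
  · exact hM.2 q hq h1

theorem snum_one {S : Finset ℕ} : Snum S 1 :=
  ⟨le_rfl, fun _ hq h => absurd (Nat.dvd_one.1 h) hq.one_lt.ne'⟩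

theorem prs_one {S : Finset ℕ} (hS : ∀ p ∈ S, p.Prime) : 1 ∈ PrS S :=
  ⟨le_rfl, fun q hq h => (hS q hq).one_lt.ne' (Nat.dvd_one.1 h)⟩

theorem prs_mul {S : Finset ℕ} (hS : ∀ p ∈ S, p.Prime) {n m : ℕ} (hn : n ∈ PrS S)
    (hm : m ∈ PrS S) : n * m ∈ PrS S := by
  refine ⟨Nat.mul_pos hn.1 hm.1, fun q hq h => ?_⟩
  rcases (Nat.Prime.dvd_mul (hS q hq)).1 h with h1 | h1
  · exact hn.2 q hq h1
  · exact hm.2 q hq h1

/-- every number is the product of an `S`-number and a number prime to `S` -/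
theorem split_S (S : Finset ℕ) (hS : ∀ p ∈ S, p.Prime) (m : ℕ) (hm : 1 ≤ m) :
    ∃ M N : ℕ, Snum S M ∧ N ∈ PrS S ∧ m = M * N := by
  classical
  induction m using Nat.strong_induction_on with
  | _ m ih =>
    by_cases h : ∃ q ∈ S, q ∣ m
    · obtain ⟨q, hq, l, hl⟩ := h
      have hq1 := (hS q hq).one_lt
      have hl1 : 1 ≤ l := by
        rcases Nat.eq_zero_or_pos l with h0 | h0
        · rw [h0, mul_zero] at hl
          omega
        · exact h0
      have hlm : l < m := by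
        rw [hl]
        nlinarith
      obtain ⟨M, N, hM, hN, h1⟩ := ih l hlm hl1
      refine ⟨q * M, N, snum_mul ⟨hq1.le, fun p hp hpq => ?_⟩ hM, hN, ?_⟩
      · rw [(Nat.prime_dvd_prime_iff_eq hp (hS q hq)).1 hpq]
        exact hq
      · rw [hl, h1, mul_assoc]
    · push Not at h
      exact ⟨1, m, snum_one, ⟨hm, h⟩, (one_mul m).symm⟩

theorem cov_NS (S : Finset ℕ) (hS : ∀ p ∈ S, p.Prime) (b : Fin r → K) (hb : ∀ i, b i ≠ 0) :
    Cov S b (PrS S) (NS Ω b S) where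
  pos := fun n hn => hn.1
  cop := fun n hn => hn.2
  one := prs_one hS
  mul := fun n hn m hm => prs_mul hS hn hm
  le := by
    intro n hn N hN
    unfold RF NS
    rw [IntermediateField.adjoin_le_iff]
    rintro x (hx | hx | ⟨i, hx⟩)
    · exact hasTor_NS b S x ⟨n, hn.1, hx⟩
    · exact hasTor_NS b S x ⟨N, hN.1, hx⟩
    · refine IntermediateField.subset_adjoin K _ ⟨N, hN.1, hN.2, 1, ⟨1, le_rfl, one_pow _⟩,
        Pi.single i 1, ?_⟩
      rw [mul_one, hx, Finset.prod_eq_single i]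
      · rw [Pi.single_eq_same, zpow_one]
      · intro j _ hj
        rw [Pi.single_eq_of_ne hj, zpow_zero]
      · intro h
        exact absurd (Finset.mem_univ i) h
  cov := by
    intro x hx
    obtain ⟨n, N, hn, hN, hnS, hNS, h⟩ :=
      rad_cover (S := (S : Set ℕ)) hb (GammaS Ω b (S : Set ℕ)) subset_rfl x hx
    exact ⟨n, ⟨hn, fun q hq => hnS q hq (hS q hq)⟩, N, ⟨hN, hNS⟩, h⟩

private theorem unit_split (S : Finset ℕ) (hS : ∀ p ∈ S, p.Prime) (t : Ω) (L : ℕ) (hL : 1 ≤ L)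
    (ht : t ^ L = 1) : ∃ t₁ t₂ : Ω, ∃ M N : ℕ, Snum S M ∧ N ∈ PrS S ∧ t₁ ^ M = 1 ∧ t₂ ^ N = 1 ∧
      t = t₁ * t₂ := by
  obtain ⟨M, N, hM, hN, hLe⟩ := split_S S hS L hL
  have hcop : Nat.Coprime M N := by
    rw [Nat.coprime_iff_gcd_eq_one]
    by_contra h
    obtain ⟨q, hq, hq1⟩ := Nat.exists_prime_and_dvd h
    exact hN.2 q (hM.2 q hq (hq1.trans (Nat.gcd_dvd_left M N))) (hq1.trans (Nat.gcd_dvd_right M N))
  have hb := Nat.gcd_eq_gcd_ab M N
  rw [hcop.gcd_eq_one] at hb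
  push_cast at hb
  have ht0 : t ≠ 0 := by
    rintro rfl
    rw [zero_pow (by omega)] at ht
    exact zero_ne_one ht
  have htz : t ^ ((M : ℤ) * N) = 1 := by
    have h1 : t ^ (((M * N : ℕ)) : ℤ) = 1 := by
      rw [zpow_natCast, ← hLe, ht]
    rwa [Nat.cast_mul] at h1
  refine ⟨t ^ ((N : ℤ) * Nat.gcdB M N), t ^ ((M : ℤ) * Nat.gcdA M N), M, N, hM, hN, ?_, ?_, ?_⟩
  · rw [← zpow_natCast, ← zpow_mul, show (N : ℤ) * Nat.gcdB M N * (M : ℤ) =
      ((M : ℤ) * N) * Nat.gcdB M N by ring, zpow_mul, htz, one_zpow]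
  · rw [← zpow_natCast, ← zpow_mul, show (M : ℤ) * Nat.gcdA M N * (N : ℤ) =
      ((M : ℤ) * N) * Nat.gcdA M N by ring, zpow_mul, htz, one_zpow]
  · rw [← zpow_add₀ ht0, add_comm, ← hb, zpow_one]

theorem covU_NSm (S : Finset ℕ) (hS : ∀ p ∈ S, p.Prime) (b : Fin r → K) (hb : ∀ i, b i ≠ 0)
    (m M₀ N₁ : ℕ) (hM₀ : Snum S M₀) (hN₁ : 1 ≤ N₁) (hm : m = M₀ * N₁) :
    CovU S b (PrS S) N₁ (NSm Ω b S m) where
  pos := fun n hn => hn.1
  cop := fun n hn => hn.2
  one := prs_one hS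
  mul := fun n hn m hm => prs_mul hS hn hm
  le := by
    have htor : ∀ (x : Ω) (L : ℕ), 1 ≤ L → x ^ L = 1 → x ∈ NSm Ω b S m := by
      intro x L hL hx
      have hx0 : x ≠ 0 := by
        rintro rfl
        rw [zero_pow (by omega)] at hx
        exact zero_ne_one hx
      refine IntermediateField.subset_adjoin K _ ⟨1, le_rfl, snum_one.2, (x ^ (m * 1))⁻¹,
        ⟨L, hL, ?_⟩, 0, ?_⟩
      · rw [inv_pow, ← pow_mul, mul_comm, pow_mul, hx, one_pow, inv_one]
      · rw [mul_inv_cancel₀ (pow_ne_zero _ hx0)]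
        simp
    intro n hn N hN
    unfold RF
    rw [IntermediateField.adjoin_le_iff]
    rintro x (hx | hx | ⟨i, hx⟩)
    · exact htor x n hn.1 hx
    · exact htor x (N * N₁) (Nat.mul_pos hN.1 hN₁) hx
    · refine IntermediateField.subset_adjoin K _ ⟨N, hN.1, hN.2, 1, ⟨1, le_rfl, one_pow _⟩,
        Pi.single i M₀, ?_⟩
      rw [mul_one, hm, show M₀ * N₁ * N = N * N₁ * M₀ by ring, pow_mul, hx,
        Finset.prod_eq_single i]
      · rw [Pi.single_eq_same, zpow_natCast]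
      · intro j _ hj
        rw [Pi.single_eq_of_ne hj, zpow_zero]
      · intro h
        exact absurd (Finset.mem_univ i) h
  cov := by
    have hgen : ∀ y : Ω, (∃ M : ℕ, 1 ≤ M ∧ (∀ q : ℕ, q.Prime → q ∣ M → q ∈ S) ∧
        ∃ t : Ω, (∃ n : ℕ, 1 ≤ n ∧ t ^ n = 1) ∧
        ∃ e : Fin r → ℤ, y ^ (m * M) * t = ∏ i, (algebraMap K Ω (b i)) ^ (e i)) →
        ∃ n ∈ PrS S, ∃ N : ℕ, Snum S N ∧ y ∈ RF Ω b n (N * N₁) := by
      rintro y ⟨M, hM, hMS, t, ⟨L, hL, ht⟩, e, hy⟩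
      have hP : 1 ≤ m * M := by
        rw [hm]
        exact Nat.mul_pos (Nat.mul_pos hM₀.1 hN₁) hM
      have hroot : ∀ i, ∃ x : Ω, x ^ (m * M) = algebraMap K Ω (b i) := fun i =>
        IsAlgClosed.exists_pow_nat_eq _ (by omega)
      choose x hx using hroot
      have hx0 : ∀ i, x i ≠ 0 := by
        intro i h0
        have h1 := hx i
        rw [h0, zero_pow (by omega)] at h1
        exact hb i ((map_eq_zero (algebraMap K Ω)).1 h1.symm)
      have ht0 : t ≠ 0 := by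
        rintro rfl
        rw [zero_pow (by omega)] at ht
        exact zero_ne_one ht
      obtain ⟨g, hg⟩ : ∃ g : Ω, g = ∏ i, x i ^ e i := ⟨_, rfl⟩
      have hg0 : g ≠ 0 := by
        rw [hg]
        exact Finset.prod_ne_zero_iff.2 fun i _ => zpow_ne_zero _ (hx0 i)
      have hgP : g ^ (m * M) = y ^ (m * M) * t := by
        rw [hg, hy, ← Finset.prod_pow]
        refine Finset.prod_congr rfl fun i _ => ?_
        rw [← zpow_natCast, ← zpow_mul, mul_comm, zpow_mul, zpow_natCast, hx]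
      obtain ⟨z, hz⟩ : ∃ z : Ω, z = y / g := ⟨_, rfl⟩
      have hy0 : y ≠ 0 := by
        rintro rfl
        rw [zero_pow (by omega), zero_mul] at hgP
        exact pow_ne_zero _ hg0 hgP
      have hzP : z ^ (m * M * L) = 1 := by
        rw [hz, pow_mul, div_pow, hgP, div_mul_eq_div_div,
          div_self (pow_ne_zero _ hy0), one_div, inv_pow, ht, inv_one]
      obtain ⟨t₁, t₂, M₂, N₂, hM₂, hN₂, h1, h2, h3⟩ :=
        unit_split S hS z (m * M * L) (Nat.mul_pos hP hL) hzP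
      refine ⟨N₂, hN₂, M₀ * M * M₂, snum_mul (snum_mul hM₀ ⟨hM, hMS⟩) hM₂, ?_⟩
      have hyz : y = t₁ * t₂ * g := by
        rw [← h3, hz, div_mul_cancel₀ _ hg0]
      have hpos : 1 ≤ M₀ * M * M₂ * N₁ :=
        Nat.mul_pos (Nat.mul_pos (Nat.mul_pos hM₀.1 hM) hM₂.1) hN₁
      rw [hyz]
      refine mul_mem (mul_mem ?_ ?_) ?_
      · refine IntermediateField.subset_adjoin K _ (Or.inr (Or.inl ?_))
        rw [show M₀ * M * M₂ * N₁ = M₂ * (M₀ * M * N₁) by ring, pow_mul, h1, one_pow]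
      · exact IntermediateField.subset_adjoin K _ (Or.inl h2)
      · rw [hg]
        refine prod_mem fun i _ => zpow_mem ?_ _
        have h4 : x i ∈ RF Ω b N₂ (m * M) :=
          IntermediateField.subset_adjoin K _ (Or.inr (Or.inr ⟨i, hx i⟩))
        refine rf_mono b N₂ (m * M) N₂ (M₀ * M * M₂ * N₁) (dvd_refl _) ?_ hN₂.1 hpos h4
        rw [hm]
        exact ⟨M₂, by ring⟩
    intro x hx
    obtain ⟨t, htT, hat⟩ := IntermediateField.exists_finset_of_mem_adjoin hx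
    classical
    have hfin : ∀ s : Finset Ω, (∀ y ∈ s, ∃ n ∈ PrS S, ∃ N : ℕ, Snum S N ∧ y ∈ RF Ω b n (N * N₁)) →
        ∃ n ∈ PrS S, ∃ N : ℕ, Snum S N ∧ ∀ y ∈ s, y ∈ RF Ω b n (N * N₁) := by
      intro s
      induction s using Finset.induction_on with
      | empty =>
        intro _
        exact ⟨1, prs_one hS, 1, snum_one, fun y hy => absurd hy (Finset.notMem_empty y)⟩
      | insert y s hys ih =>
        intro hs
        obtain ⟨n, hn, N, hN, hall⟩ := ih (fun z hz => hs z (Finset.mem_insert_of_mem hz))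
        obtain ⟨n', hn', N', hN', hy'⟩ := hs y (Finset.mem_insert_self y s)
        refine ⟨n * n', prs_mul hS hn hn', N * N', snum_mul hN hN', ?_⟩
        have hp1 : 1 ≤ n * n' := Nat.mul_pos hn.1 hn'.1
        have hp2 : 1 ≤ N * N' * N₁ := Nat.mul_pos (Nat.mul_pos hN.1 hN'.1) hN₁
        intro z hz
        rcases Finset.mem_insert.1 hz with rfl | hz
        · exact rf_mono b n' (N' * N₁) _ _ (Dvd.intro_left n rfl) ⟨N, by ring⟩ hp1 hp2 hy'
        · exact rf_mono b n (N * N₁) _ _ (Dvd.intro n' rfl) ⟨N', by ring⟩ hp1 hp2 (hall z hz)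
    obtain ⟨n, hn, N, hN, hall⟩ := hfin t (fun y hy => hgen y (htT hy))
    refine ⟨n, hn, N, hN, ?_⟩
    have h1 : IntermediateField.adjoin K (t : Set Ω) ≤ RF Ω b n (N * N₁) :=
      IntermediateField.adjoin_le_iff.2 (fun y hy => hall y hy)
    exact h1 hat

end Pool.Agent.H33.PT
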