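
import Pool.Agent.H33.PT.Ede
import Pool.Agent.H28.PT4.CoU
import Pool.Agent.H72.AD.FinAd

/-!
# POINTS THEOREM, Lsa: the last step of PART IV with the theorem over `ℚ(μ_∞)`
-/

set_option autoImplicit false
set_option linter.unusedSectionVars false

open NumberField IntermediateField

namespace Pool.Agent.H33.PT

open Pool.Agent.H72.RM Pool.Agent.H11.TS Pool.Agent.H28.PT4

variable {K Ω : Type} [Field K] [NumberField K] [Field Ω] [CharZero Ω] [IsAlgClosed Ω]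
  [Algebra K Ω] [IsGalois K Ω]

theorem gal_Q (K Ω : Type) [Field K] [NumberField K] [Field Ω] [CharZero Ω] [IsAlgClosed Ω]
    [Algebra K Ω] [IsGalois K Ω] : IsGalois ℚ Ω := by
  have halg : Algebra.IsAlgebraic K Ω := inferInstance
  have halgQ : Algebra.IsAlgebraic ℚ Ω := Algebra.IsAlgebraic.trans ℚ K Ω
  have : IsAlgClosure ℚ Ω := ⟨inferInstance, halgQ⟩
  exact IsAlgClosure.isGalois ℚ Ω

theorem mem_Ab (x : Ω) (k : ℕ) (hk : 1 ≤ k) (hx : x ^ k = 1) : x ∈ Pool.Agent.H72.AD.Ab Ω :=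
  IntermediateField.subset_adjoin ℚ _ ⟨k, hk, hx⟩

theorem endU_ab {s : ℕ} (b : Fin s → K) (hb : ∀ i, b i ≠ 0)
    (hind : ∀ N : ℕ, 1 ≤ N → ∀ (m : Fin s → ℤ) (y : K), y ^ N = ∏ i, (b i) ^ (m i) →
      ∀ i, (N : ℤ) ∣ m i) (NN : Set ℕ) (hNN : ∀ n ∈ NN, 1 ≤ n) (k : ℕ) (hk : 1 ≤ k) :
    EndU Ω b NN k := by
  have hgal := gal_Q K Ω
  intro ε hε
  obtain ⟨c, hc, h⟩ := end_e (K := K) (Pool.Agent.H72.AD.Ab Ω) mem_Ab
    (fun j hj ε hε => Pool.Agent.H72.AD.points_abP j hj ε hε) b hb hind k hk ε hε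
  refine ⟨c, hc, fun n' hn' R hR w y h1 h2 θ h3 h4 h5 => ?_⟩
  have h6 := h n' R (hNN n' hn') hR w y h1 h2 (fun _ => 1) (fun _ => le_rfl) θ h3 h4
    (fun i => by rw [Nat.cast_one, one_mul]; exact h5 i)
  simpa using h6

theorem endT_ab {s : ℕ} (b : Fin s → K) (hb : ∀ i, b i ≠ 0)
    (hind : ∀ N : ℕ, 1 ≤ N → ∀ (m : Fin s → ℤ) (y : K), y ^ N = ∏ i, (b i) ^ (m i) →
      ∀ i, (N : ℤ) ∣ m i) (NN : Set ℕ) (hNN : ∀ n ∈ NN, 1 ≤ n) (k : ℕ) (hk : 1 ≤ k) :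
    EndT Ω b NN k := by
  intro ε hε
  obtain ⟨c, hc, h⟩ := endU_ab (Ω := Ω) b hb hind NN hNN k hk ε hε
  refine ⟨c, hc, fun n' hn' R hR w y h1 h2 θ h3 h4 h5 => ?_⟩
  refine (h n' hn' R hR w y h1 h2 θ h3 h4 h5).trans ?_
  have hR1 : (1 : ℝ) ≤ R := by exact_mod_cast hR
  have hR0 : (0 : ℝ) ≤ R := by linarith
  refine mul_le_mul_of_nonneg_right ?_ (Real.rpow_nonneg h3.le _)
  rw [Real.mul_rpow (by positivity) (Nat.cast_nonneg _)]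
  refine mul_le_mul_of_nonneg_right ?_ (Real.rpow_nonneg (Nat.cast_nonneg _) _)
  rw [← Real.rpow_natCast, ← Real.rpow_mul hR0]
  refine Real.rpow_le_rpow_of_exponent_le hR1 ?_
  push_cast
  nlinarith [hε, (Nat.cast_nonneg s : (0 : ℝ) ≤ s)]

end Pool.Agent.H33.PT
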