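import Pool.Agent.H33.PT.Red
import Pool.Agent.H33.PT.Lsa
import Pool.Agent.H33.PT.Cvs
import Pool.Agent.H28.PT4.Fin
import Pool.Agent.H28.PT4.Tie

/-!
# POINTS THEOREM, Hpt: the points theorem over the fields `N₀ K Λ S`
-/

set_option autoImplicit false
set_option linter.unusedSectionVars false

open NumberField IntermediateField

namespace Pool.Agent.H33.PT

open Pool.Agent.H72.RM Pool.Agent.H92.SR Pool.Agent.H11.TH Pool.Agent.H11.TS Pool.Agent.H28.PT4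

/-- the group generated by `b` in `Ωˣ` -/
def grpB {K : Type} (Ω : Type) [Field K] [Field Ω] [Algebra K Ω] {r : ℕ} (b : Fin r → K)
    (hb : ∀ i, b i ≠ 0) : Subgroup Ωˣ where
  carrier := {x | ∃ e : Fin r → ℤ, (x : Ω) = ∏ i, (algebraMap K Ω (b i)) ^ (e i)}
  mul_mem' := by
    rintro x y ⟨e, he⟩ ⟨f, hf⟩
    refine ⟨e + f, ?_⟩
    rw [Units.val_mul, he, hf, ← Finset.prod_mul_distrib]
    refine Finset.prod_congr rfl fun i _ => ?_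
    rw [Pi.add_apply, zpow_add₀ ((map_ne_zero (algebraMap K Ω)).2 (hb i))]
  one_mem' := ⟨0, by simp⟩
  inv_mem' := by
    rintro x ⟨e, he⟩
    refine ⟨-e, ?_⟩
    rw [Units.val_inv_eq_inv_val, he, ← Finset.prod_inv_distrib]
    refine Finset.prod_congr rfl fun i _ => ?_
    rw [Pi.neg_apply, zpow_neg]

theorem mem_grpB {K Ω : Type} [Field K] [Field Ω] [Algebra K Ω] {r : ℕ} (b : Fin r → K)
    (hb : ∀ i, b i ≠ 0) (x : Ωˣ) :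
    (x : Ω) ∈ DivG Ω b ↔ ∃ m : ℕ, 1 ≤ m ∧ x ^ m ∈ grpB Ω b hb := by
  constructor
  · rintro ⟨N, hN, m, h⟩
    exact ⟨N, hN, m, by rw [Units.val_pow_eq_pow_val]; exact h⟩
  · rintro ⟨m, hm, e, h⟩
    exact ⟨m, hm, e, by rw [← Units.val_pow_eq_pow_val]; exact h⟩

theorem ind_grpB {K Ω : Type} [Field K] [Field Ω] [Algebra K Ω] {r k : ℕ} (b : Fin r → K)
    (hb : ∀ i, b i ≠ 0) (γ : Fin k → Ωˣ)
    (h : ∀ a : Fin k → ℤ, a ≠ 0 → ((∏ i, γ i ^ a i : Ωˣ) : Ω) ∉ DivG Ω b) :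
    IndM (grpB Ω b hb) γ := by
  intro a ha m hm hmem
  exact h a ha ((mem_grpB b hb _).2 ⟨m, hm, hmem⟩)

theorem hpt {K Ω : Type} [Field K] [NumberField K] [Field Ω] [CharZero Ω] [IsAlgClosed Ω]
    [Algebra K Ω] [IsGalois K Ω] (Λ : Subgroup Ωˣ) (hΛ : Λ.FG) (S : Finset ℕ)
    (hS : ∀ p ∈ S, p.Prime) (k : ℕ) (hk : 1 ≤ k) (δ : ℝ) (hδ : 0 < δ) :
    ∃ c : ℝ, 0 < c ∧ ∀ γ : Fin k → Ωˣ, IndM Λ γ → ∀ h : ℝ,
      (∀ i, absLogHeight₁ (γ i : Ω) ≤ h) →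
      c ≤ (degP (N₀ K Λ S) γ : ℝ) ^ (1 / (k : ℝ) + δ) * h := by
  refine red Λ hΛ S hS k hk δ hδ ?_
  intro K₁ _ _ _ _ r b hb hind
  obtain ⟨c, hc, h⟩ := fin_T (K := K₁) (Ω := Ω) S hS b (PrS S) (NS Ω b S) (cov_NS S hS b hb)
    (fun k _ => towT S hS b hb hind k)
    (fun k hk => endT_ab b hb hind (PrS S) (fun n hn => hn.1) k hk) (grpB Ω b hb)
    (mem_grpB b hb) k hk δ hδ
  exact ⟨c, hc, fun γ hγ => h γ (ind_grpB b hb γ hγ)⟩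

end Pool.Agent.H33.PT
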