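import Pool.Agent.H11.TS.FinB

/-!
# POINTS THEOREM, Rtu: `root_trick` (H11/TS/Rtt, helper11) with constants which do not depend on the fields

Copy of the proof. The constants `c / M`, `c' / M` in the hypotheses give `c'' / M^k`.
-/

set_option autoImplicit false
set_option linter.unusedSectionVars false

open NumberField

namespace Pool.Agent.H33.PT

open Pool.Agent.H33.TR Pool.Agent.H72.PB Pool.Agent.H11.TH Pool.Agent.H11.TS

private theorem rtt_one {E Ω : Type} [Field E] [Field Ω] [Algebra E Ω] (x : Ω) (t : ℕ)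
    (ht : 1 ≤ t) (y : E) (h : x ^ t = algebraMap E Ω y) :
    IsIntegral E x ∧ Module.finrank E (IntermediateField.adjoin E {x}) ≤ t := by
  have hm : (Polynomial.X ^ t - Polynomial.C y).Monic :=
    Polynomial.monic_X_pow_sub_C y (by omega)
  have h0 : Polynomial.aeval x (Polynomial.X ^ t - Polynomial.C y) = 0 := by
    simp [h]
  have hi : IsIntegral E x := ⟨_, hm, h0⟩
  refine ⟨hi, ?_⟩
  rw [IntermediateField.adjoin.finrank hi]
  have h1 := Polynomial.natDegree_le_natDegree (minpoly.min E x hm h0)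
  rwa [Polynomial.natDegree_X_pow_sub_C] at h1

private theorem rtt_fin {E Ω I : Type} [Field E] [Field Ω] [Algebra E Ω] [DecidableEq I]
    (x : I → Ω) (t : I → ℕ) (ht : ∀ i, 1 ≤ t i) (h : ∀ i, ∃ y : E, x i ^ t i = algebraMap E Ω y)
    (s : Finset I) :
    Module.finrank E (IntermediateField.adjoin E (x '' (s : Set I))) ≤ ∏ i ∈ s, t i := by
  induction s using Finset.induction_on with
  | empty =>
    rw [Finset.coe_empty, Set.image_empty, IntermediateField.adjoin_empty, Finset.prod_empty,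
      IntermediateField.finrank_bot]
  | insert i s hi ih =>
    rw [Finset.coe_insert, Set.image_insert_eq, Set.insert_eq, IntermediateField.adjoin_union,
      Finset.prod_insert hi]
    obtain ⟨y, hy⟩ := h i
    exact (IntermediateField.finrank_sup_le _ _).trans
      (Nat.mul_le_mul (rtt_one (x i) (t i) (ht i) y hy).2 ih)

private theorem rtt_deg {L Ω : Type} [Field L] [Field Ω] [Algebra L Ω] [Algebra.IsAlgebraic L Ω]
    {k : ℕ} (γ ρ : Fin k → Ω) (t : Fin k → ℕ) (ht : ∀ i, 1 ≤ t i) (h : ∀ i, ρ i ^ t i = γ i) :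
    Module.finrank L (IntermediateField.adjoin L (Set.range ρ)) ≤
      Module.finrank L (IntermediateField.adjoin L (Set.range γ)) * ∏ i, t i := by
  classical
  set E := IntermediateField.adjoin L (Set.range γ) with hE
  have hmem : ∀ i, γ i ∈ E := fun i => IntermediateField.subset_adjoin L _ ⟨i, rfl⟩
  have h1 := rtt_fin (E := E) ρ t ht (fun i => ⟨⟨γ i, hmem i⟩, h i⟩) Finset.univ
  rw [Finset.coe_univ, Set.image_univ] at h1
  set F := IntermediateField.adjoin E (Set.range ρ) with hF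
  have hfE : FiniteDimensional L E :=
    IntermediateField.finiteDimensional_adjoin fun x _ => (Algebra.IsAlgebraic.isAlgebraic x).isIntegral
  have hfF : FiniteDimensional E F :=
    IntermediateField.finiteDimensional_adjoin fun x hx => by
      obtain ⟨i, rfl⟩ := hx
      exact (rtt_one (E := E) (ρ i) (t i) (ht i) ⟨γ i, hmem i⟩ (h i)).1
  have hfL : FiniteDimensional L F := FiniteDimensional.trans L E F
  have hle : IntermediateField.adjoin L (Set.range ρ) ≤ F.restrictScalars L := by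
    rw [IntermediateField.adjoin_le_iff]
    intro x hx
    exact IntermediateField.subset_adjoin E _ hx
  have h2 : Module.finrank L (IntermediateField.adjoin L (Set.range ρ)) ≤ Module.finrank L F := by
    have hf' : FiniteDimensional L (F.restrictScalars L) := hfL
    exact LinearMap.finrank_le_finrank_of_injective
      (f := (IntermediateField.inclusion hle).toLinearMap)
      (IntermediateField.inclusion_injective hle)
  calc _ ≤ Module.finrank L F := h2
    _ = Module.finrank L E * Module.finrank E F := (Module.finrank_mul_finrank L E F).symm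
    _ ≤ _ := Nat.mul_le_mul le_rfl h1

private theorem rtt_mono {L Ω : Type} [Field L] [Field Ω] [Algebra L Ω] [Algebra.IsAlgebraic L Ω]
    {k : ℕ} (γ : Fin k → Ω) (i : Fin k) :
    Module.finrank L (IntermediateField.adjoin L (Set.range fun _ : Fin 1 => γ i)) ≤
      Module.finrank L (IntermediateField.adjoin L (Set.range γ)) := by
  have hfE : FiniteDimensional L (IntermediateField.adjoin L (Set.range γ)) :=
    IntermediateField.finiteDimensional_adjoin fun x _ => (Algebra.IsAlgebraic.isAlgebraic x).isIntegral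
  have hle : IntermediateField.adjoin L (Set.range fun _ : Fin 1 => γ i) ≤
      IntermediateField.adjoin L (Set.range γ) := by
    refine IntermediateField.adjoin.mono _ _ _ ?_
    rintro _ ⟨_, rfl⟩
    exact ⟨i, rfl⟩
  exact LinearMap.finrank_le_finrank_of_injective
    (f := (IntermediateField.inclusion hle).toLinearMap)
    (IntermediateField.inclusion_injective hle)

private theorem rtt_pos {L Ω : Type} [Field L] [Field Ω] [Algebra L Ω] [Algebra.IsAlgebraic L Ω]
    {k : ℕ} (γ : Fin k → Ω) :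
    1 ≤ Module.finrank L (IntermediateField.adjoin L (Set.range γ)) := by
  have hfE : FiniteDimensional L (IntermediateField.adjoin L (Set.range γ)) :=
    IntermediateField.finiteDimensional_adjoin fun x _ => (Algebra.IsAlgebraic.isAlgebraic x).isIntegral
  exact Module.finrank_pos

private theorem rtt_ind {Ω : Type} [Field Ω] (Λ : Subgroup Ωˣ) {k : ℕ} {γ : Fin k → Ωˣ}
    (h : IndM Λ γ) (i : Fin k) : IndM Λ fun _ : Fin 1 => γ i := by
  intro a ha m hm hmem
  have ha0 : a 0 ≠ 0 := by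
    intro h0
    apply ha
    funext j
    rw [Subsingleton.elim j 0]
    exact h0
  refine h (Pi.single i (a 0)) ?_ m hm ?_
  · intro h0
    apply ha0
    have h1 := congrFun h0 i
    rwa [Pi.single_eq_same] at h1
  · have h1 : (∏ j, γ j ^ (Pi.single i (a 0) : Fin k → ℤ) j) = γ i ^ a 0 := by
      rw [Finset.prod_eq_single i]
      · rw [Pi.single_eq_same]
      · intro j _ hj
        rw [Pi.single_eq_of_ne hj, zpow_zero]
      · intro h2
        exact absurd (Finset.mem_univ i) h2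
    rw [h1]
    rwa [Fin.prod_univ_one] at hmem

private theorem rtt_root {Ω : Type} [Field Ω] (Λ : Subgroup Ωˣ) {k : ℕ} {γ ρ : Fin k → Ωˣ}
    (h : IndM Λ γ) (t : Fin k → ℕ) (ht : ∀ i, 1 ≤ t i) (hρ : ∀ i, ρ i ^ t i = γ i) :
    IndM Λ ρ := by
  intro a ha m hm hmem
  refine h (fun i => a i * ∏ j ∈ Finset.univ.erase i, (t j : ℤ)) ?_ m hm ?_
  · intro h0
    apply ha
    funext i
    have h1 := congrFun h0 i
    have h2 : (∏ j ∈ Finset.univ.erase i, (t j : ℤ)) ≠ 0 := by
      refine Finset.prod_ne_zero_iff.2 fun j _ => ?_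
      have := ht j
      omega
    exact (mul_eq_zero.1 h1).resolve_right h2
  · have h1 : (∏ i, γ i ^ (a i * ∏ j ∈ Finset.univ.erase i, (t j : ℤ))) =
        (∏ i, ρ i ^ a i) ^ (∏ j, t j) := by
      rw [← Finset.prod_pow]
      refine Finset.prod_congr rfl fun i _ => ?_
      rw [← hρ i, ← zpow_natCast (ρ i) (t i), ← zpow_mul, ← zpow_natCast (ρ i ^ a i), ← zpow_mul]
      congr 1
      push_cast
      rw [← Finset.mul_prod_erase Finset.univ (fun j => (t j : ℤ)) (Finset.mem_univ i)]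
      ring
    rw [h1, ← pow_mul, mul_comm, pow_mul]
    exact pow_mem hmem _

private theorem rtt_num (k : ℕ) (hk : 1 ≤ k) (c c' δ ε : ℝ) (hc0 : 0 < c) (hc'0 : 0 < c')
    (hδ : 0 < δ) (hε : 2 * (k : ℝ) ^ 2 * δ ≤ ε) (A h₀ : ℝ) (hA : 1 ≤ A) (hh₀ : 0 < h₀)
    (h : Fin k → ℝ) (t : Fin k → ℕ) (hh : ∀ i, 0 < h i) (ht1 : ∀ i, 1 ≤ t i)
    (ht : ∀ i, (t i : ℝ) ≤ 2 * (h i / h₀)) (hc : c ≤ A ^ (2 : ℝ) * h₀)
    (hc' : c' ≤ (A * ∏ i, (t i : ℝ)) ^ (1 / (k : ℝ) + δ) * h₀) :
    Real.exp ((Real.log c' + k * δ * Real.log c) / (1 / (k : ℝ) + δ) - k * Real.log 2) ≤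
      A ^ (1 + ε) * ∏ i, h i := by
  have hk0 : (0 : ℝ) < k := by exact_mod_cast hk
  have hA0 : 0 < A := by linarith
  have hH : 0 < ∏ i, h i := Finset.prod_pos fun i _ => hh i
  have hT : 0 < ∏ i, (t i : ℝ) := Finset.prod_pos fun i _ => by
    have := ht1 i
    exact_mod_cast this
  set s := 1 / (k : ℝ) + δ with hs
  have hs0 : 0 < s := by positivity
  have hs1 : 1 / (k : ℝ) ≤ s := by linarith
  -- logarithms
  have e1 : Real.log (∏ i, (t i : ℝ)) ≤ k * Real.log 2 + Real.log (∏ i, h i) - k * Real.log h₀ := by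
    have h1 : ∏ i, (t i : ℝ) ≤ ∏ i, (2 * (h i / h₀)) :=
      Finset.prod_le_prod (fun i _ => Nat.cast_nonneg _) fun i _ => ht i
    have h2 : ∏ i, (2 * (h i / h₀)) = 2 ^ k * ((∏ i, h i) / h₀ ^ k) := by
      rw [Finset.prod_mul_distrib, Finset.prod_div_distrib, Finset.prod_const, Finset.prod_const,
        Finset.card_univ, Fintype.card_fin]
    have h3 := Real.log_le_log hT h1
    rw [h2, Real.log_mul (by positivity) (by positivity), Real.log_div hH.ne' (by positivity),
      Real.log_pow, Real.log_pow] at h3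
    linarith
  have e2 : Real.log c ≤ 2 * Real.log A + Real.log h₀ := by
    have h1 := Real.log_le_log hc0 hc
    rwa [Real.log_mul (by positivity) hh₀.ne', Real.log_rpow hA0] at h1
  have e3 : Real.log c' ≤ s * (Real.log A + Real.log (∏ i, (t i : ℝ))) + Real.log h₀ := by
    have h1 := Real.log_le_log hc'0 hc'
    rwa [Real.log_mul (by positivity) hh₀.ne', Real.log_rpow (by positivity),
      Real.log_mul hA0.ne' hT.ne'] at h1
  have hlA : 0 ≤ Real.log A := Real.log_nonneg hA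
  have hks : (k : ℝ) * s = 1 + k * δ := by
    rw [hs]
    field_simp
  have e4 : Real.log c' + k * δ * Real.log c ≤
      s * (Real.log A + k * Real.log 2 + Real.log (∏ i, h i)) + 2 * (k * δ) * Real.log A := by
    have h1 := mul_le_mul_of_nonneg_left e1 hs0.le
    have h2 := mul_le_mul_of_nonneg_left e2 (by positivity : 0 ≤ (k : ℝ) * δ)
    have h3 : s * (k * Real.log h₀) = Real.log h₀ + k * δ * Real.log h₀ := by
      rw [← mul_assoc, mul_comm s, hks]
      ring
    nlinarith [h1, h2, h3, e3]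
  have e5 : 2 * (k * δ) ≤ s * ε := by
    have h1 : 2 * (k * δ) = 1 / (k : ℝ) * (2 * (k : ℝ) ^ 2 * δ) := by
      field_simp
    rw [h1]
    exact mul_le_mul hs1 hε (by positivity) hs0.le
  have e6 : (Real.log c' + k * δ * Real.log c) / s - k * Real.log 2 ≤
      (1 + ε) * Real.log A + Real.log (∏ i, h i) := by
    have h1 : (Real.log c' + k * δ * Real.log c) / s ≤
        Real.log A + k * Real.log 2 + Real.log (∏ i, h i) + ε * Real.log A := by
      rw [div_le_iff₀ hs0]
      have h2 := mul_le_mul_of_nonneg_right e5 hlA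
      nlinarith [e4, h2]
    linarith
  have e7 : Real.log (A ^ (1 + ε) * ∏ i, h i) = (1 + ε) * Real.log A + Real.log (∏ i, h i) := by
    rw [Real.log_mul (by positivity) hH.ne', Real.log_rpow hA0]
  rw [← Real.le_log_iff_exp_le (by positivity), e7]
  exact e6

theorem root_trick_u (k : ℕ) (hk1 : 1 ≤ k) (ε : ℝ) (hε : 0 < ε) (c₁ c₂ : ℝ) (hc₁ : 0 < c₁)
    (hc₂ : 0 < c₂) : ∃ c₃ : ℝ, 0 < c₃ ∧ ∀ (K Ω : Type) [Field K] [NumberField K] [Field Ω]
    [CharZero Ω] [IsAlgClosed Ω] [Algebra K Ω] [IsGalois K Ω] (L : IntermediateField K Ω)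
    (Λ : Subgroup Ωˣ) (M : ℝ) (_ : 1 ≤ M)
    (_ : ∀ γ : Fin 1 → Ωˣ, IndM Λ γ →
      c₁ / M ≤ (degP L γ : ℝ) ^ (2 : ℝ) * absLogHeight₁ (γ 0 : Ω))
    (_ : ∀ γ : Fin k → Ωˣ, IndM Λ γ → ∀ h : ℝ, (∀ i, absLogHeight₁ (γ i : Ω) ≤ h) →
      c₂ / M ≤ (degP L γ : ℝ) ^ (1 / (k : ℝ) + ε / (2 * (k : ℝ) ^ 2)) * h),
    PtB L Λ k (1 + ε) (c₃ / M ^ k) := by
  have hk0 : (0 : ℝ) < k := by exact_mod_cast hk1
  have hne : Nonempty (Fin k) := ⟨⟨0, hk1⟩⟩
  set δ : ℝ := ε / (2 * (k : ℝ) ^ 2) with hδ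
  have hδ0 : 0 < δ := by positivity
  refine ⟨_, Real.exp_pos ((Real.log c₂ + k * δ * Real.log c₁) / (1 / (k : ℝ) + δ) -
    k * Real.log 2), ?_⟩
  intro K Ω _ _ _ _ _ _ _ L Λ M hM hc hc' γ hγ
  have halg : Algebra.IsAlgebraic L Ω := Algebra.IsAlgebraic.tower_top (K := K) L
  have hM0 : 0 < M := by linarith
  obtain ⟨c, hcd⟩ : ∃ c : ℝ, c = c₁ / M := ⟨_, rfl⟩
  obtain ⟨c', hcd'⟩ : ∃ c : ℝ, c = c₂ / M := ⟨_, rfl⟩
  have hc0 : 0 < c := by rw [hcd]; positivity
  have hc'0 : 0 < c' := by rw [hcd']; positivity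
  rw [← hcd] at hc
  rw [← hcd'] at hc'
  have hconst : Real.exp ((Real.log c₂ + k * δ * Real.log c₁) / (1 / (k : ℝ) + δ) -
      k * Real.log 2) / M ^ k = Real.exp ((Real.log c' + k * δ * Real.log c) / (1 / (k : ℝ) + δ) -
      k * Real.log 2) := by
    have h1 : M ^ k = Real.exp (k * Real.log M) := by
      rw [← Real.log_pow, Real.exp_log (by positivity)]
    rw [h1, ← Real.exp_sub, hcd, hcd', Real.log_div hc₂.ne' hM0.ne', Real.log_div hc₁.ne' hM0.ne']
    congr 1
    have h2 : 1 / (k : ℝ) + δ = (1 + k * δ) / k := by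
      field_simp
    rw [h2]
    have h3 : (0 : ℝ) < 1 + k * δ := by positivity
    field_simp
    ring
  rw [hconst]
  set A : ℝ := (degP L γ : ℝ) with hA
  have hA1 : 1 ≤ A := by
    have h2 : 1 ≤ degP L γ := rtt_pos fun i => (γ i : Ω)
    exact Nat.one_le_cast.2 h2
  have hlow : ∀ i, c ≤ A ^ (2 : ℝ) * absLogHeight₁ (γ i : Ω) := by
    intro i
    refine (hc (fun _ => γ i) (rtt_ind Λ hγ i)).trans ?_
    refine mul_le_mul_of_nonneg_right ?_ (ht_nonneg _)
    refine Real.rpow_le_rpow (Nat.cast_nonneg _) ?_ (by norm_num)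
    have h2 : degP L (fun _ : Fin 1 => γ i) ≤ degP L γ := rtt_mono (fun i => (γ i : Ω)) i
    exact Nat.cast_le.2 h2
  have hpos : ∀ i, 0 < absLogHeight₁ (γ i : Ω) := by
    intro i
    have h2 := hlow i
    by_contra h3
    have h4 : absLogHeight₁ (γ i : Ω) = 0 := le_antisymm (not_lt.1 h3) (ht_nonneg _)
    rw [h4, mul_zero] at h2
    linarith
  obtain ⟨j, -, hj⟩ := Finset.exists_min_image Finset.univ
    (fun i => absLogHeight₁ (γ i : Ω)) Finset.univ_nonempty
  set h₀ := absLogHeight₁ (γ j : Ω) with hh₀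
  have h₀0 : 0 < h₀ := hpos j
  set t : Fin k → ℕ := fun i => ⌈absLogHeight₁ (γ i : Ω) / h₀⌉₊ with htdef
  have hq : ∀ i, 1 ≤ absLogHeight₁ (γ i : Ω) / h₀ := by
    intro i
    rw [le_div_iff₀ h₀0, one_mul]
    exact hj i (Finset.mem_univ i)
  have ht1 : ∀ i, 1 ≤ t i := by
    intro i
    exact Nat.one_le_iff_ne_zero.2 (Nat.pos_iff_ne_zero.1 (Nat.ceil_pos.2 (by
      have := hq i
      linarith)))
  have ht2 : ∀ i, (t i : ℝ) ≤ 2 * (absLogHeight₁ (γ i : Ω) / h₀) := by
    intro i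
    have h2 := Nat.ceil_lt_add_one (by
      have := hq i
      linarith : 0 ≤ absLogHeight₁ (γ i : Ω) / h₀)
    have h3 := hq i
    have h4 : (t i : ℝ) = (⌈absLogHeight₁ (γ i : Ω) / h₀⌉₊ : ℝ) := rfl
    rw [h4]
    linarith
  have ht3 : ∀ i, absLogHeight₁ (γ i : Ω) ≤ t i * h₀ := by
    intro i
    have h2 := Nat.le_ceil (absLogHeight₁ (γ i : Ω) / h₀)
    rw [div_le_iff₀ h₀0] at h2
    exact h2
  -- the roots
  have hex : ∀ i, ∃ z : Ωˣ, z ^ t i = γ i := by
    intro i
    obtain ⟨z, hz⟩ := IsAlgClosed.exists_pow_nat_eq (γ i : Ω) (Nat.lt_of_lt_of_le Nat.zero_lt_one (ht1 i))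
    have hz0 : z ≠ 0 := by
      rintro rfl
      rw [zero_pow (Nat.one_le_iff_ne_zero.1 (ht1 i))] at hz
      exact (γ i).ne_zero hz.symm
    refine ⟨Units.mk0 z hz0, Units.ext ?_⟩
    rw [Units.val_pow_eq_pow_val, Units.val_mk0, hz]
  choose ρ hρ using hex
  have hρh : ∀ i, absLogHeight₁ (ρ i : Ω) ≤ h₀ := by
    intro i
    have h2 := Pool.Agent.H4.RR.absLogHeight_pow Ω (ρ i : Ω) (int_all K _) (t i)
    rw [← Units.val_pow_eq_pow_val, hρ i] at h2
    have h3 := ht3 i
    rw [h2] at h3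
    have h4 : (0 : ℝ) < t i := by
      have := ht1 i
      exact_mod_cast this
    exact le_of_mul_le_mul_left h3 h4
  have hd : (degP L ρ : ℝ) ≤ A * ∏ i, (t i : ℝ) := by
    have h2 : degP L ρ ≤ degP L γ * ∏ i, t i :=
      rtt_deg (fun i => (γ i : Ω)) (fun i => (ρ i : Ω)) t ht1 fun i => by
        rw [← Units.val_pow_eq_pow_val, hρ i]
    have h3 : ((degP L γ * ∏ i, t i : ℕ) : ℝ) = A * ∏ i, (t i : ℝ) := by
      push_cast
      rfl
    rw [← h3]
    exact_mod_cast h2
  have hfin := hc' ρ (rtt_root Λ hγ t ht1 hρ) h₀ hρh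
  have hs0 : (0 : ℝ) ≤ 1 / (k : ℝ) + δ := by positivity
  have hc'' : c' ≤ (A * ∏ i, (t i : ℝ)) ^ (1 / (k : ℝ) + δ) * h₀ :=
    hfin.trans (mul_le_mul_of_nonneg_right (Real.rpow_le_rpow (Nat.cast_nonneg _) hd hs0) h₀0.le)
  refine rtt_num k hk1 c c' δ ε hc0 hc'0 hδ0 ?_ A h₀ hA1 h₀0 _ t hpos ht1 ht2 (hlow j) hc''
  rw [hδ]
  field_simp
  exact le_rfl

end Pool.Agent.H33.PT
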