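import Pool.Agent.H11.TS.Asm
import Pool.Agent.H33.PT.Rtu

/-!
# POINTS THEOREM, Asu: `asm` (H11/TS/Asm, helper11) uniformly for a sequence of fields `L₀ m` with a loss `m^ε`
-/

set_option autoImplicit false
set_option linter.unusedSectionVars false

open NumberField

namespace Pool.Agent.H33.PT

open Pool.Agent.H33.TR Pool.Agent.H72.PB Pool.Agent.H11.TH Pool.Agent.H11.TS

private theorem degP_one {K Ω : Type} [Field K] [Field Ω] [Algebra K Ω]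
    [Algebra.IsAlgebraic K Ω] (L : IntermediateField K Ω) {k : ℕ} (γ : Fin k → Ωˣ) :
    1 ≤ degP L γ := by
  have halg : Algebra.IsAlgebraic L Ω := Algebra.IsAlgebraic.tower_top (K := K) L
  have hfin : FiniteDimensional L (IntermediateField.adjoin L (Set.range fun i => (γ i : Ω))) :=
    IntermediateField.finiteDimensional_adjoin fun x _ => Algebra.IsIntegral.isIntegral x
  exact Module.finrank_pos

/-- the product form, uniformly in `m` -/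
theorem ptb_u {K Ω : Type} [Field K] [NumberField K] [Field Ω] [CharZero Ω] [IsAlgClosed Ω]
    [Algebra K Ω] [IsGalois K Ω] (Λ : Subgroup Ωˣ) (L₀ : ℕ → IntermediateField K Ω)
    (hPT : ∀ k : ℕ, 1 ≤ k → ∀ δ : ℝ, 0 < δ → ∃ c : ℝ, 0 < c ∧ ∀ m : ℕ, 1 ≤ m →
      ∀ γ : Fin k → Ωˣ, IndM Λ γ → ∀ h : ℝ, (∀ i, absLogHeight₁ (γ i : Ω) ≤ h) →
        c ≤ (m : ℝ) ^ δ * ((degP (L₀ m) γ : ℝ) ^ (1 / (k : ℝ) + δ) * h))
    (k : ℕ) (hk : 1 ≤ k) (ε : ℝ) (hε : 0 < ε) : ∃ c : ℝ, 0 < c ∧ ∀ m : ℕ, 1 ≤ m →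
      PtB (L₀ m) Λ k (1 + ε) (c / (m : ℝ) ^ ε) := by
  have halg : Algebra.IsAlgebraic K Ω := inferInstance
  have hk0 : (0 : ℝ) < k := by exact_mod_cast hk
  obtain ⟨δ, hδ⟩ : ∃ δ : ℝ, δ = min 1 (min (ε / (2 * (k : ℝ) ^ 2)) (ε / k)) := ⟨_, rfl⟩
  have hδ0 : 0 < δ := by
    rw [hδ]
    exact lt_min one_pos (lt_min (by positivity) (by positivity))
  have hδ1 : δ ≤ 1 := by
    rw [hδ]
    exact min_le_left _ _
  have hδ2 : δ ≤ ε / (2 * (k : ℝ) ^ 2) := by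
    rw [hδ]
    exact (min_le_right _ _).trans (min_le_left _ _)
  have hδ3 : k * δ ≤ ε := by
    have h1 : δ ≤ ε / k := by
      rw [hδ]
      exact (min_le_right _ _).trans (min_le_right _ _)
    rw [le_div_iff₀ hk0] at h1
    linarith
  obtain ⟨c₁, hc₁, h1⟩ := hPT 1 le_rfl δ hδ0
  obtain ⟨c₂, hc₂, h2⟩ := hPT k hk δ hδ0
  obtain ⟨c₃, hc₃, h3⟩ := root_trick_u k hk ε hε c₁ c₂ hc₁ hc₂
  refine ⟨c₃, hc₃, fun m hm => ?_⟩
  have hm1 : (1 : ℝ) ≤ m := by exact_mod_cast hm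
  have hm0 : (0 : ℝ) < m := by linarith
  have hM : (1 : ℝ) ≤ (m : ℝ) ^ δ := Real.one_le_rpow hm1 hδ0.le
  have hM0 : (0 : ℝ) < (m : ℝ) ^ δ := by linarith
  have h4 := h3 K Ω (L₀ m) Λ ((m : ℝ) ^ δ) hM (fun γ hγ => by
    rw [div_le_iff₀ hM0, mul_comm]
    refine (h1 m hm γ hγ (absLogHeight₁ (γ 0 : Ω)) (fun i => by
      rw [Subsingleton.elim i 0])).trans (mul_le_mul_of_nonneg_left ?_ hM0.le)
    refine mul_le_mul_of_nonneg_right ?_ (ht_nonneg _)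
    refine Real.rpow_le_rpow_of_exponent_le ?_ ?_
    · exact_mod_cast degP_one (L₀ m) γ
    · push_cast
      linarith) (fun γ hγ h hh => by
    rw [div_le_iff₀ hM0, mul_comm]
    refine (h2 m hm γ hγ h hh).trans (mul_le_mul_of_nonneg_left ?_ hM0.le)
    have hh0 : 0 ≤ h := (ht_nonneg _).trans (hh ⟨0, hk⟩)
    refine mul_le_mul_of_nonneg_right ?_ hh0
    refine Real.rpow_le_rpow_of_exponent_le ?_ (by linarith)
    exact_mod_cast degP_one (L₀ m) γ)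
  intro γ hγ
  refine le_trans ?_ (h4 γ hγ)
  refine div_le_div_of_nonneg_left hc₃.le (by positivity) ?_
  rw [← Real.rpow_natCast, ← Real.rpow_mul hm0.le]
  refine Real.rpow_le_rpow_of_exponent_le hm1 ?_
  rw [mul_comm]
  exact hδ3

theorem asm_u {K Ω : Type} [Field K] [NumberField K] [Field Ω] [CharZero Ω] [IsAlgClosed Ω]
    [Algebra K Ω] [IsGalois K Ω] (Λ : Subgroup Ωˣ) (L₀ : ℕ → IntermediateField K Ω)
    (hPT : ∀ k : ℕ, 1 ≤ k → ∀ δ : ℝ, 0 < δ → ∃ c : ℝ, 0 < c ∧ ∀ m : ℕ, 1 ≤ m →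
      ∀ γ : Fin k → Ωˣ, IndM Λ γ → ∀ h : ℝ, (∀ i, absLogHeight₁ (γ i : Ω) ≤ h) →
        c ≤ (m : ℝ) ^ δ * ((degP (L₀ m) γ : ℝ) ^ (1 / (k : ℝ) + δ) * h))
    (n : ℕ) (ε : ℝ) (hε : 0 < ε) : ∃ c : ℝ, 0 < c ∧
    ∀ (m : ℕ) (_ : 1 ≤ m) (L : IntermediateField K Ω) (_ : L ≤ L₀ m)
      (Γ : Subgroup (Tor Ω n)) (_ : ∀ x : Tor Ω n, (∀ l, x l ∈ Λ) → x ∈ Γ)
      (V : Set (Tor Ω n)) (_ : (idl V).IsPrime) (_ : Transv K Γ V)
      (Z : Set (Tor Ω n)) (d' : ℕ) (δ ω : ℝ) (_ : ClosedOver L Z) (_ : Z ≠ Set.univ)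
      (_ : Equidim Z d') (_ : HasDeg Z d' δ) (_ : V ⊆ Z) (_ : δ ^ (1 / ((n : ℝ) - d')) ≤ ω)
      (θ : ℝ) (_ : idl {x | x ∈ V ∧ ht x ≤ θ} ≤ idl V),
      1 ≤ ω ∧ c ≤ (m : ℝ) ^ ε * (ω ^ (1 + ε) * θ) := by
  classical
  have halg : Algebra.IsAlgebraic K Ω := inferInstance
  obtain ⟨ε₁, hε₁⟩ : ∃ ε₁ : ℝ, ε₁ = min (ε / 3) 1 := ⟨_, rfl⟩
  have he0 : 0 < ε₁ := by
    rw [hε₁]
    exact lt_min (by linarith) one_pos
  have he1 : ε₁ ≤ 1 := by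
    rw [hε₁]
    exact min_le_right _ _
  have he3 : ε₁ ≤ ε / 3 := by
    rw [hε₁]
    exact min_le_left _ _
  have hsq : (1 + ε₁) * (1 + ε₁) ≤ 1 + ε := by nlinarith
  have hk : ∀ k : ℕ, ∃ c : ℝ, 0 < c ∧ (1 ≤ k → ∀ m : ℕ, 1 ≤ m →
      PtB (L₀ m) Λ k (1 + ε₁) (c / (m : ℝ) ^ ε₁)) := by
    intro k
    by_cases hk1 : 1 ≤ k
    · obtain ⟨c, hc, h⟩ := ptb_u Λ L₀ hPT k hk1 ε₁ he0
      exact ⟨c, hc, fun _ => h⟩
    · exact ⟨1, one_pos, fun h => absurd h hk1⟩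
  choose cf hcf hcP using hk
  obtain ⟨c₁, hc₁, hc₁le⟩ : ∃ c₁ : ℝ, 0 < c₁ ∧ ∀ k ≤ n, c₁ ≤ cf k := by
    obtain ⟨k₀, -, hmin⟩ := Finset.exists_min_image (Finset.range (n + 1)) cf
      ⟨0, Finset.mem_range.2 (Nat.succ_pos n)⟩
    exact ⟨cf k₀, hcf k₀, fun k hkn => hmin k (Finset.mem_range.2 (by omega))⟩
  obtain ⟨κ, hκ, hmain⟩ := ts_PZ n (1 + ε₁) ε₁ (by linarith) he0
  refine ⟨κ * min 1 c₁, mul_pos hκ (lt_min one_pos hc₁), ?_⟩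
  intro m hm L hL Γ hΓ V hV htr Z d' δ ω hZ hZne hZd hZδ hVZ hω θ hθ
  have hm1 : (1 : ℝ) ≤ m := by exact_mod_cast hm
  have hm0 : (0 : ℝ) < m := by linarith
  have hM : (1 : ℝ) ≤ (m : ℝ) ^ ε₁ := Real.one_le_rpow hm1 he0.le
  have hM0 : (0 : ℝ) < (m : ℝ) ^ ε₁ := by linarith
  have h2 := hmain K Ω (c₁ / (m : ℝ) ^ ε₁) (by positivity) Λ L (fun k hk1 hkn γ hγ => by
    have h3 := hcP k hk1 m hm γ hγ
    have h4 : (degP (L₀ m) γ : ℝ) ≤ degP L γ := by exact_mod_cast degP_mono hL γ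
    have h5 : (0 : ℝ) ≤ ∏ i, absLogHeight₁ (γ i : Ω) :=
      Finset.prod_nonneg fun i _ => ht_nonneg _
    calc c₁ / (m : ℝ) ^ ε₁ ≤ cf k / (m : ℝ) ^ ε₁ :=
          div_le_div_of_nonneg_right (hc₁le k hkn) hM0.le
      _ ≤ (degP (L₀ m) γ : ℝ) ^ (1 + ε₁) * ∏ i, absLogHeight₁ (γ i : Ω) := h3
      _ ≤ (degP L γ : ℝ) ^ (1 + ε₁) * ∏ i, absLogHeight₁ (γ i : Ω) :=
        mul_le_mul_of_nonneg_right (Real.rpow_le_rpow (Nat.cast_nonneg _) h4 (by linarith)) h5)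
    Γ hΓ V hV htr Z d' δ ω hZ hZne hZd hZδ hVZ hω θ hθ
  obtain ⟨hω1, h3⟩ := h2
  refine ⟨hω1, ?_⟩
  have hθ0 : 0 ≤ θ := by
    obtain ⟨x, hx⟩ : {x | x ∈ V ∧ ht x ≤ θ}.Nonempty := by
      by_contra hcon
      rw [Set.not_nonempty_iff_eq_empty] at hcon
      rw [hcon] at hθ
      apply hV.ne_top
      rw [eq_top_iff]
      refine le_trans ?_ hθ
      intro f _
      rw [mem_idl]
      intro x hx
      exact absurd hx (Set.notMem_empty x)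
    refine le_trans ?_ hx.2
    unfold ht
    exact Finset.sum_nonneg fun l _ => ht_nonneg _
  have h4 : min 1 c₁ / (m : ℝ) ^ ε₁ ≤ min 1 (c₁ / (m : ℝ) ^ ε₁) := by
    refine le_min ?_ (div_le_div_of_nonneg_right (min_le_right _ _) hM0.le)
    rw [div_le_one hM0]
    exact (min_le_left _ _).trans hM
  have h5 : κ * (min 1 c₁ / (m : ℝ) ^ ε₁) ≤ ω ^ ((1 + ε₁) * (1 + ε₁)) * θ :=
    (mul_le_mul_of_nonneg_left h4 hκ.le).trans h3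
  have h6 : κ * min 1 c₁ ≤ (m : ℝ) ^ ε₁ * (ω ^ ((1 + ε₁) * (1 + ε₁)) * θ) := by
    have h7 := mul_le_mul_of_nonneg_left h5 hM0.le
    have h8 : (m : ℝ) ^ ε₁ * (κ * (min 1 c₁ / (m : ℝ) ^ ε₁)) = κ * min 1 c₁ := by
      field_simp
    rwa [h8] at h7
  refine h6.trans ?_
  have hω0 : (0 : ℝ) < ω := by linarith
  refine mul_le_mul (Real.rpow_le_rpow_of_exponent_le hm1 (by linarith)) ?_ (by positivity)
    (by positivity)
  exact mul_le_mul_of_nonneg_right (Real.rpow_le_rpow_of_exponent_le hω1 hsq) hθ0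

end Pool.Agent.H33.PT
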