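import Pool.Agent.H33.PT.Df

/-!
# POINTS THEOREM, Bas: a basis of the integers of `E` and the discriminant

`exists_theta`. PROOF: `integralBasis E` (or `RingOfIntegers.basis E`) reindexed by an equivalence of its index type with `E →ₐ[ℚ] M` (same cardinality, `hE`, `finrank_eq_card_basis`). `(det (h θ_k))^2 = discr E`:
`ψ : M → ℂ` a ring homomorphism (`M` is a number field); `h ↦ ψ ∘ h` is a bijection from `E →ₐ[ℚ] M` to `E →ₐ[ℚ] ℂ` (injective, both have `finrank ℚ E` elements: `AlgHom.card`);
`Algebra.discr_eq_det_embeddingsMatrixReindex_pow_two`, `NumberField.coe_discr`/`discr_eq_discr` (`algebraMap ℚ ℂ (discr) = (det (..))^2`), so `ψ ((det)^2) = ψ (discr E)`.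
-/

set_option autoImplicit false
set_option linter.unusedSectionVars false

open NumberField

namespace Pool.Agent.H33.PT

variable {E M : Type} [Field E] [Field M] [NumberField E] [NumberField M]

/-- a `ℤ`-basis of the ring of integers of `E`, indexed by the embeddings in `M` -/
structure Tht (E M : Type) [Field E] [Field M] [NumberField E] [NumberField M]
    (θ : (E →ₐ[ℚ] M) → E) : Prop where
  int : ∀ k, IsIntegral ℤ (θ k)
  span : ∀ x : E, IsIntegral ℤ x → ∃ m : (E →ₐ[ℚ] M) → ℤ, x = ∑ k, (m k : E) * θ k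
  det : ∀ [DecidableEq (E →ₐ[ℚ] M)],
    (Matrix.det (Matrix.of fun h k : E →ₐ[ℚ] M => h (θ k))) ^ 2 = ((discr E : ℤ) : M)

theorem exists_theta (hE : Fintype.card (E →ₐ[ℚ] M) = Module.finrank ℚ E) :
    ∃ θ : (E →ₐ[ℚ] M) → E, Tht E M θ := by
  classical
  have hc : Fintype.card (Module.Free.ChooseBasisIndex ℤ (𝓞 E)) = Fintype.card (E →ₐ[ℚ] M) := by
    rw [hE, Module.finrank_eq_card_basis (integralBasis E)]
  obtain ⟨e⟩ := Fintype.card_eq.mp hc
  refine ⟨fun k => integralBasis E (e.symm k), ?_, ?_, ?_⟩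
  · intro k
    rw [integralBasis_apply]
    exact RingOfIntegers.isIntegral_coe _
  · intro x hx
    refine ⟨fun k => (RingOfIntegers.basis E).repr ⟨x, hx⟩ (e.symm k), ?_⟩
    have h1 := congrArg (algebraMap (𝓞 E) E) ((RingOfIntegers.basis E).sum_repr ⟨x, hx⟩)
    rw [map_sum] at h1
    have h2 : (algebraMap (𝓞 E) E) ⟨x, hx⟩ = x := rfl
    rw [h2] at h1
    refine h1.symm.trans ?_
    rw [← Equiv.sum_comp e.symm]
    refine Finset.sum_congr rfl fun k _ => ?_
    rw [zsmul_eq_mul, map_mul, map_intCast, integralBasis_apply]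
  · intro inst
    have hi : inst = Classical.decEq _ := Subsingleton.elim _ _
    subst hi
    let ψ : M →ₐ[ℚ] ℂ := IsAlgClosed.lift
    have hinj : Function.Injective ψ := ψ.toRingHom.injective
    have fb : Function.Bijective (fun h : E →ₐ[ℚ] M => ψ.comp h) := by
      rw [Fintype.bijective_iff_injective_and_card]
      constructor
      · intro h k hk
        ext x
        exact hinj (by have := congrArg (fun (g : E →ₐ[ℚ] ℂ) => g x) hk; simpa using this)
      · rw [hE, AlgHom.card]
    let f : (E →ₐ[ℚ] M) ≃ (E →ₐ[ℚ] ℂ) := Equiv.ofBijective _ fb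
    have key := Algebra.discr_eq_det_embeddingsMatrixReindex_pow_two ℚ ℂ
      (fun k => integralBasis E (e.symm k)) f
    have h3 : Algebra.discr ℚ (fun k => integralBasis E (e.symm k)) = ((discr E : ℤ) : ℚ) := by
      rw [NumberField.coe_discr]
      exact Algebra.discr_reindex ℚ (integralBasis E) e
    rw [h3] at key
    apply hinj
    rw [map_pow, map_intCast]
    have h4 : ψ (Matrix.det (Matrix.of fun h k : E →ₐ[ℚ] M =>
        h (integralBasis E (e.symm k)))) =
        (Algebra.embeddingsMatrixReindex ℚ ℂ (fun k => integralBasis E (e.symm k)) f).det := by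
      rw [← Matrix.det_transpose, AlgHom.map_det]
      congr 1
    rw [h4, ← key]
    simp

end Pool.Agent.H33.PT
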