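import Pool.Agent.H33.PT.Reg

/-!
# POINTS THEOREM, Bch: separators over a splitting field

PROOF. `Rw := (E →ₐ[k] M) × ι`, `Cl := Fin n → Fin (X + 1)`, `A : Matrix Rw Cl M`, `A (h, j) a = mo (fun i => h (y j i)) a = h (mo (y j) a)`. The rows are independent over `M`: let `∑_(h, j) α (h, j) h (mo (y j) a) = 0` for all `a`; then `∑_(h, j) α (h, j) h (u j) = 0` for all `u` in the span of the vectors
`fun j => mo (y j) a` (the sum is additive in `u`, and `k`-homogeneous as the `h` fix `k`), i.e. for all `u : ι → E` (`hsp`). With `u = Pi.single j x`: `∑_h α (h, j) h x = 0` for all `x ∈ E`: the `h` are different ring homomorphisms, independent (`linearIndependent_monoidHom`,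
Dedekind), so `α = 0`. Hence the linear map `M^Cl → M^Rw`, `c ↦ A c`, is onto (`Matrix.rank`, or: the range is a subspace not contained in any hyperplane), so `Pi.single (h₀, j₀) 1` is in the range.
-/

set_option autoImplicit false
set_option linter.unusedSectionVars false

namespace Pool.Agent.H33.PT

theorem separators {k E M : Type} [Field k] [Field E] [Field M] [Algebra k E] [Algebra k M]
    [Fintype (E →ₐ[k] M)] {ι : Type} [Fintype ι] {n : ℕ} (y : ι → Fin n → E) (X : ℕ)
    (hsp : sp k (fun i => (fun j => y j i : ι → E)) (fun _ => X) = ⊤) (h₀ : E →ₐ[k] M) (j₀ : ι) :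
    ∃ c : (Fin n → Fin (X + 1)) → M,
      ∑ a, c a * mo (fun i => h₀ (y j₀ i)) (fun i => (a i : ℕ)) = 1 ∧
      ∀ (h : E →ₐ[k] M) (j : ι), (h ≠ h₀ ∨ j ≠ j₀) →
        ∑ a, c a * mo (fun i => h (y j i)) (fun i => (a i : ℕ)) = 0 := by
  classical
  let φ : ((Fin n → Fin (X + 1)) → M) →ₗ[M] ((E →ₐ[k] M) × ι → M) :=
    { toFun := fun c r => ∑ a, c a * mo (fun i => r.1 (y r.2 i)) (fun i => (a i : ℕ))
      map_add' := fun c c' => by
        funext r
        simp only [Pi.add_apply, add_mul, Finset.sum_add_distrib]
      map_smul' := fun m c => by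
        funext r
        simp only [Pi.smul_apply, smul_eq_mul, RingHom.id_apply, Finset.mul_sum, mul_assoc] }
  have hφ : ∀ c r, φ c r = ∑ a, c a * mo (fun i => r.1 (y r.2 i)) (fun i => (a i : ℕ)) :=
    fun c r => rfl
  have key : LinearMap.range φ = ⊤ := by
    by_contra hne
    obtain ⟨f, hf, hle⟩ := Submodule.exists_le_ker_of_lt_top _ (lt_top_iff_ne_top.mpr hne)
    let α : (E →ₐ[k] M) × ι → M := fun r => f (Pi.single r 1)
    have hfs : ∀ v, f v = ∑ r, v r * α r := by
      intro v
      conv_lhs => rw [pi_eq_sum_univ' v]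
      rw [map_sum]
      refine Finset.sum_congr rfl fun r _ => ?_
      rw [map_smul, smul_eq_mul]
    have h0 : ∀ a : Fin n → Fin (X + 1),
        ∑ r : (E →ₐ[k] M) × ι, α r * r.1 (mo (y r.2) (fun i => (a i : ℕ))) = 0 := by
      intro a
      have h1 : f (φ (Pi.single a 1)) = 0 := hle ⟨_, rfl⟩
      rw [hfs] at h1
      rw [← h1]
      refine Finset.sum_congr rfl fun r _ => ?_
      rw [hφ, Finset.sum_eq_single a, Pi.single_eq_same, one_mul, mul_comm]
      · congr 1
        exact mo_map r.1.toRingHom (y r.2) _
      · intro b _ hb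
        rw [Pi.single_eq_of_ne hb, zero_mul]
      · intro h
        exact absurd (Finset.mem_univ a) h
    let T : (ι → E) →ₗ[k] M :=
      { toFun := fun u => ∑ r : (E →ₐ[k] M) × ι, α r * r.1 (u r.2)
        map_add' := fun u u' => by
          simp only [Pi.add_apply, map_add, mul_add, Finset.sum_add_distrib]
        map_smul' := fun m u => by
          simp only [Pi.smul_apply, map_smul, RingHom.id_apply, Finset.smul_sum, mul_smul_comm] }
    have hT0 : ∀ u, T u = 0 := by
      intro u
      have hu : u ∈ sp k (fun i => (fun j => y j i : ι → E)) (fun _ => X) := by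
        rw [hsp]
        exact Submodule.mem_top
      have hle2 : sp k (fun i => (fun j => y j i : ι → E)) (fun _ => X) ≤ LinearMap.ker T := by
        unfold sp
        rw [Submodule.span_le]
        rintro _ ⟨a, ha, rfl⟩
        show T _ = 0
        have h2 := h0 (fun i => ⟨a i, Nat.lt_succ_of_le (ha i)⟩)
        refine Eq.trans (Finset.sum_congr rfl fun r _ => ?_) h2
        congr 2
        unfold mo
        rw [Finset.prod_apply]
        rfl
      exact hle2 hu
    have hind : LinearIndependent M (fun h : E →ₐ[k] M => (fun x => h x : E → M)) := by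
      have h3 := (linearIndependent_monoidHom E M).comp
        (fun h : E →ₐ[k] M => ((h : E →+* M) : E →* M)) (by
          intro h h' hh
          ext x
          exact DFunLike.congr_fun hh x)
      exact h3
    apply hf
    apply LinearMap.ext
    intro v
    rw [hfs]
    refine Finset.sum_eq_zero fun r _ => ?_
    obtain ⟨h, j⟩ := r
    have h4 : ∑ g : E →ₐ[k] M, α (g, j) • (fun x => g x : E → M) = 0 := by
      funext x
      have h5 := hT0 (Pi.single j x)
      have h6 : T (Pi.single j x) = ∑ g : E →ₐ[k] M, α (g, j) * g x := by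
        show ∑ r : (E →ₐ[k] M) × ι, α r * r.1 ((Pi.single j x : ι → E) r.2) = _
        rw [Fintype.sum_prod_type]
        refine Finset.sum_congr rfl fun g _ => ?_
        rw [Finset.sum_eq_single j]
        · rw [Pi.single_eq_same]
        · intro b _ hb
          show α (g, b) * g ((Pi.single j x : ι → E) b) = 0
          rw [Pi.single_eq_of_ne hb, map_zero, mul_zero]
        · intro h
          exact absurd (Finset.mem_univ j) h
      rw [Finset.sum_apply]
      simp only [Pi.smul_apply, smul_eq_mul, Pi.zero_apply]
      rw [← h6, h5]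
    have h7 := Fintype.linearIndependent_iff.mp hind (fun g => α (g, j)) h4 h
    rw [h7, mul_zero]
  have hm : (Pi.single (h₀, j₀) 1 : (E →ₐ[k] M) × ι → M) ∈ LinearMap.range φ := by
    rw [key]
    exact Submodule.mem_top
  obtain ⟨c, hc⟩ := hm
  refine ⟨c, ?_, ?_⟩
  · have := congrFun hc (h₀, j₀)
    rw [hφ, Pi.single_eq_same] at this
    exact this
  · intro h j hne
    have := congrFun hc (h, j)
    rw [hφ, Pi.single_eq_of_ne] at this
    · exact this
    · intro he
      rcases hne with h1 | h1
      · exact h1 (Prod.ext_iff.mp he).1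
      · exact h1 (Prod.ext_iff.mp he).2

end Pool.Agent.H33.PT
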