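import Pool.Agent.H33.TH2.Chb

/-!
# POINTS THEOREM, Chs: choice of the primes

PROOF. `many` (`Pool/Agent/H33/TH2/Chb.lean`) with `P₀ := s`, `s = ⌊√Z⌋ / 32` (`Nat.sqrt Z / 32`), `x := s` (for `Z ≥ K`: `1 ≤ s`): a set `A` of `s` primes `p > s`, `p ≤ 64 (2 s)^2 = 256 s^2 ≤ Z`. `Z ≤ p^3` since `p^3 > s^3 ≥ Z` for large `Z` (`s ≥ √Z/64`, `s^3 ≥ Z^(3/2) / 64^3`, `Z ≥ 64^6`; with care for the floors).
`2^(card B) ≤ Z^e` gives `card B ≤ e * (log_2 Z + 1)`; `A \ B` has at least `s - e (Nat.log 2 Z + 1) ≥ N` elements for `Z ≥ K(e, N)`; take a subset with `N` elements (`Finset.exists_subset_card_eq`).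
-/

set_option autoImplicit false

namespace Pool.Agent.H33.PT

private theorem sq_le_two_pow (t : ℕ) (ht : 4 ≤ t) : t * t ≤ 2 ^ t := by
  induction t, ht using Nat.le_induction with
  | base => norm_num
  | succ n hn ih =>
    rw [pow_succ]
    nlinarith

theorem choose_primes (e N : ℕ) : ∃ K : ℕ, ∀ Z : ℕ, K ≤ Z → ∀ B : Finset ℕ, 2 ^ B.card ≤ Z ^ e →
    ∃ LL : Finset ℕ, LL.card = N ∧ ∀ l ∈ LL, l.Prime ∧ l ∉ B ∧ Z ≤ l ^ 3 ∧ l ≤ Z := by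
  classical
  obtain ⟨R, hR⟩ : ∃ R : ℕ, R = 64 * e + 32 * N + 32 * 1025 := ⟨_, rfl⟩
  obtain ⟨T0, hT0⟩ : ∃ T0 : ℕ, T0 = 64 * e + R + 4 := ⟨_, rfl⟩
  refine ⟨2 ^ (2 * T0), fun Z hZ B hB => ?_⟩
  have hZ0 : Z ≠ 0 := by
    have : 0 < 2 ^ (2 * T0) := by positivity
    omega
  obtain ⟨L, hL⟩ : ∃ L : ℕ, L = Nat.log 2 Z := ⟨_, rfl⟩
  have hL1 : 2 ^ L ≤ Z := by rw [hL]; exact Nat.pow_log_le_self 2 hZ0
  have hL2 : Z < 2 ^ (L + 1) := by rw [hL]; exact Nat.lt_pow_succ_log_self (by norm_num) Z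
  have hL3 : 2 * T0 ≤ L := by
    rw [hL]
    exact Nat.le_log_of_pow_le (by norm_num) hZ
  obtain ⟨t, ht⟩ : ∃ t : ℕ, t = L / 2 := ⟨_, rfl⟩
  have ht0 : T0 ≤ t := by omega
  have hLt : L ≤ 2 * t + 1 := by omega
  have htL : 2 * t ≤ L := by omega
  -- the square root
  obtain ⟨r, hr⟩ : ∃ r : ℕ, r = Nat.sqrt Z := ⟨_, rfl⟩
  have hr1 : r * r ≤ Z := by rw [hr]; exact Nat.sqrt_le Z
  have hr2 : Z < (r + 1) * (r + 1) := by rw [hr]; exact Nat.lt_succ_sqrt Z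
  have hr3 : 2 ^ t ≤ r := by
    rw [hr, Nat.le_sqrt, ← pow_add]
    calc 2 ^ (t + t) ≤ 2 ^ L := Nat.pow_le_pow_right (by norm_num) (by omega)
      _ ≤ Z := hL1
  have hB1 : B.card ≤ e * (L + 1) := by
    have h1 : 2 ^ B.card ≤ 2 ^ ((L + 1) * e) := by
      rw [pow_mul]
      exact hB.trans (Nat.pow_le_pow_left hL2.le e)
    have h2 := (Nat.pow_le_pow_iff_right (by norm_num)).1 h1
    rwa [mul_comm] at h2
  have hbig : 32 * (e * (L + 1) + N + 1025) ≤ r := by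
    have h1 : t * t ≤ 2 ^ t := sq_le_two_pow t (by omega)
    have h2 : e * (L + 1) ≤ e * (2 * t + 2) := Nat.mul_le_mul_left e (by omega)
    have h3 : (64 * e + R) * t ≤ t * t := Nat.mul_le_mul_right t (by omega)
    have h4 : R * 1 ≤ R * t := Nat.mul_le_mul_left R (by omega)
    nlinarith
  obtain ⟨s, hs⟩ : ∃ s : ℕ, s = r / 32 := ⟨_, rfl⟩
  have hs1 : 32 * s ≤ r := by omega
  have hs2 : r < 32 * (s + 1) := by omega
  have hs3 : e * (L + 1) + N + 1025 ≤ s := by omega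
  obtain ⟨A, hA, hA2⟩ := Pool.Agent.H33.TH2.many s s (by omega)
  have hcard : N ≤ (A \ B).card := by
    have := Finset.le_card_sdiff B A
    omega
  obtain ⟨LL, hLL, hLL2⟩ := Finset.exists_subset_card_eq hcard
  refine ⟨LL, hLL2, fun l hl => ?_⟩
  have hl' := Finset.mem_sdiff.1 (hLL hl)
  obtain ⟨h1, h2, h3⟩ := hA2 l hl'.1
  refine ⟨h1, hl'.2, ?_, ?_⟩
  · have h4 : r + 1 ≤ 32 * l := by omega
    have h5 : (r + 1) * (r + 1) ≤ (32 * l) * (32 * l) := Nat.mul_le_mul h4 h4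
    have h6 : 1024 ≤ l := by omega
    calc Z ≤ (32 * l) * (32 * l) := (hr2.trans_le h5).le
      _ = 1024 * (l * l) := by ring
      _ ≤ l * (l * l) := Nat.mul_le_mul_right _ h6
      _ = l ^ 3 := by ring
  · calc l ≤ 64 * (s + s) ^ 2 := h3
      _ = 256 * (s * s) := by ring
      _ ≤ (32 * s) * (32 * s) := by nlinarith
      _ ≤ r * r := Nat.mul_le_mul hs1 hs1
      _ ≤ Z := hr1

end Pool.Agent.H33.PT
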