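import Pool.Agent.H33.PT.Df

/-!
# POINTS THEOREM, Cng: the Frobenius congruence at an unramified place

PROOF. `r := v l`, `0 ≤ r < 1` (if `v l = 0` nothing changes: then `v` of elements of `S` with `v x < 1` is `0`; the argument below also works).
(A) For `v u ≤ 1`, `v b ≤ 1`: `v (u^l - b^l) ≤ max r (v (u - b) ^ l)`: `u = b + π`, `u^l - b^l = π^l + ∑_(0<k<l) (l choose k) π^k b^(l-k)`, the
binomials are divisible by `l` (`Nat.Prime.dvd_choose_self`, or `add_pow_le_pow_mul_pow_of_add_eq..`, `(Commute.all ..).add_pow_prime_eq`);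
`v` of a natural number is `≤ 1` (`hv`: nonarchimedean). (B) Iterate: `v (u^(l^j) - b^(l^j)) ≤ max r (ρ^(l^j))`, `ρ = v (u - b) < 1`; more simply: there is
`j₀` with `v (u^(l^j) - b^(l^j)) ≤ r` for all `j ≥ j₀`, if `0 < r`: once `≤ r` it stays `≤ r` (`max r (r^l) = r`), and `ρ^(l^j) → 0`. If `r = 0`: `l = 0` in `M`..
not possible as `M` has characteristic 0 (`hr0`: given).
(C) `f ≥ 1` with `g^f = 1`, `q := l^f`. For all `x` with `v x ≤ 1`: `v (g^k x - x^(l^k)) < 1` (induction, `g` isometric; `v (g x - x^l) < 1` implies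
`v ((g x)^l' - ..) < 1` by `v (a^m - b^m) ≤ v (a - b)` for integral `a, b`), so `v (x - x^q) < 1`; for `x ∈ S`: `x - x^q ∈ S`, so `v (x - x^q) ≤ r`.
(D) `x ∈ S`, `v x ≤ 1`, `u := g x`, `a := x^l`. `v (u - u^q) = v (g (x - x^q)) ≤ r`; hence `v (u - u^(q^k)) ≤ r` for all `k` (induction: `v (u^(q^k) - u^(q^(k+1))) =
v (u^(q^k) - (u^q)^(q^k)) ≤ v (u - u^q)`), the same for `x` and for `a = x^l`: `v (a - a^(q^k)) ≤ v (x - x^(q^k)) ≤ r`. For large `k`
(`q^k = l^(f k)`) `v (u^(q^k) - a^(q^k)) ≤ r` by (B), as `v (u - a) < 1`. Ultrametric: `v (u - a) ≤ r`.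
-/

set_option autoImplicit false
set_option linter.unusedSectionVars false

namespace Pool.Agent.H33.PT

/-- The valuation ring. -/
private def cngO {M : Type} [Field M] (v : AbsoluteValue M ℝ) (hv : IsNonarchimedean v) :
    Subring M where
  carrier := {x | v x ≤ 1}
  mul_mem' := by
    intro a b ha hb
    simp only [Set.mem_ofPred_eq] at *
    rw [map_mul]
    exact mul_le_one₀ ha (v.nonneg _) hb
  one_mem' := by simp
  add_mem' := by
    intro a b ha hb
    simp only [Set.mem_ofPred_eq] at *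
    exact (hv a b).trans (max_le ha hb)
  zero_mem' := by simp
  neg_mem' := by
    intro a ha
    simp only [Set.mem_ofPred_eq] at *
    rwa [v.map_neg]

private theorem cng_add {M : Type} [Field M] (v : AbsoluteValue M ℝ) (hv : IsNonarchimedean v)
    {a b : M} {d : ℝ} (ha : v a ≤ d) (hb : v b ≤ d) : v (a + b) ≤ d :=
  (hv a b).trans (max_le ha hb)

private theorem cng_pow {M : Type} [Field M] (v : AbsoluteValue M ℝ) (hv : IsNonarchimedean v)
    {a b : M} (ha : v a ≤ 1) (hb : v b ≤ 1) (m : ℕ) : v (a ^ m - b ^ m) ≤ v (a - b) := by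
  obtain ⟨c, hc⟩ := sub_dvd_pow_sub_pow (⟨a, ha⟩ : cngO v hv) (⟨b, hb⟩ : cngO v hv) m
  have h1 : a ^ m - b ^ m = (a - b) * (c : M) := by
    have := congrArg (Subtype.val) hc
    simpa using this
  rw [h1, map_mul]
  exact mul_le_of_le_one_right (v.nonneg _) c.2

private theorem cng_A {M : Type} [Field M] (v : AbsoluteValue M ℝ) (hv : IsNonarchimedean v)
    (l : ℕ) (hl : l.Prime) {u b : M} (hu : v u ≤ 1) (hb : v b ≤ 1) :
    v (u ^ l - b ^ l) ≤ max (v (l : M)) (v (u - b) ^ l) := by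
  have hpi : v (u - b) ≤ 1 := by
    rw [sub_eq_add_neg]
    exact cng_add v hv hu (by rwa [v.map_neg])
  obtain ⟨r, hr⟩ := exists_add_pow_prime_eq hl (⟨b, hb⟩ : cngO v hv) (⟨u - b, hpi⟩ : cngO v hv)
  have h1 : (b + (u - b)) ^ l = b ^ l + (u - b) ^ l + (l : M) * (b * (u - b) * (r : M)) := by
    have h0 := congrArg (Subtype.val) hr
    push_cast at h0
    rw [h0]
    ring
  have h2 : u ^ l - b ^ l = (u - b) ^ l + (l : M) * (b * (u - b) * (r : M)) := by
    have h3 : b + (u - b) = u := by ring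
    rw [h3] at h1
    rw [h1]
    ring
  rw [h2]
  refine cng_add v hv ?_ ?_
  · rw [map_pow]
    exact le_max_right _ _
  · rw [map_mul]
    refine le_trans ?_ (le_max_left _ _)
    refine mul_le_of_le_one_right (v.nonneg _) ?_
    rw [map_mul, map_mul]
    exact mul_le_one₀ (mul_le_one₀ hb (v.nonneg _) hpi) (v.nonneg _) r.2

private theorem cng_B {M : Type} [Field M] (v : AbsoluteValue M ℝ) (hv : IsNonarchimedean v)
    (l : ℕ) (hl : l.Prime) (hr1 : v (l : M) < 1) {u b : M} (hu : v u ≤ 1) (hb : v b ≤ 1) (j : ℕ) :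
    v (u ^ (l ^ j) - b ^ (l ^ j)) ≤ max (v (l : M)) (v (u - b) ^ (l ^ j)) := by
  induction j with
  | zero => simp
  | succ j ih =>
    have hu' : v (u ^ (l ^ j)) ≤ 1 := by
      rw [map_pow]
      exact pow_le_one₀ (v.nonneg _) hu
    have hb' : v (b ^ (l ^ j)) ≤ 1 := by
      rw [map_pow]
      exact pow_le_one₀ (v.nonneg _) hb
    have h1 := cng_A v hv l hl hu' hb'
    rw [pow_succ, pow_mul, pow_mul, pow_mul]
    refine h1.trans (max_le (le_max_left _ _) ?_)
    have h2 := pow_le_pow_left₀ (v.nonneg _) ih l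
    refine h2.trans ?_
    rcases le_total (v (l : M)) (v (u - b) ^ (l ^ j)) with h | h
    · rw [max_eq_right h]
      exact le_max_right _ _
    · rw [max_eq_left h]
      refine le_trans ?_ (le_max_left _ _)
      exact pow_le_of_le_one (v.nonneg _) hr1.le hl.ne_zero

theorem frob_cong {M : Type} [Field M] (v : AbsoluteValue M ℝ) (hv : IsNonarchimedean v) (l : ℕ)
    (hl : l.Prime) (hr0 : 0 < v (l : M)) (hr1 : v (l : M) < 1) (g : M ≃+* M) (f : ℕ) (hf : 1 ≤ f)
    (hgf : ∀ x, (g : M → M)^[f] x = x) (hgv : ∀ x, v (g x) = v x)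
    (hg : ∀ x, v x ≤ 1 → v (g x - x ^ l) < 1) (S : Subring M)
    (hS : ∀ x ∈ S, v x < 1 → v x ≤ v (l : M)) (x : M) (hx : x ∈ S) (hx1 : v x ≤ 1) :
    v (g x - x ^ l) ≤ v (l : M) := by
  have hgk : ∀ (k : ℕ) (y : M), v ((g : M → M)^[k] y) = v y := by
    intro k
    induction k with
    | zero => intro y; rfl
    | succ k ih =>
      intro y
      rw [Function.iterate_succ_apply', hgv, ih]
  -- (C)
  have hC : ∀ (k : ℕ), 1 ≤ k → v ((g : M → M)^[k] x - x ^ (l ^ k)) < 1 := by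
    intro k hk
    induction k, hk using Nat.le_induction with
    | base => simpa using hg x hx1
    | succ k hk ih =>
      have h1 : (g : M → M)^[k + 1] x - x ^ (l ^ (k + 1))
          = (g ((g : M → M)^[k] x) - ((g : M → M)^[k] x) ^ l)
            + (((g : M → M)^[k] x) ^ l - (x ^ (l ^ k)) ^ l) := by
        rw [Function.iterate_succ_apply', ← pow_mul, ← pow_succ]
        ring
      rw [h1]
      refine lt_of_le_of_lt (hv _ _) (max_lt (hg _ (by rw [hgk]; exact hx1)) ?_)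
      refine lt_of_le_of_lt (cng_pow v hv (by rw [hgk]; exact hx1) ?_ l) ih
      rw [map_pow]
      exact pow_le_one₀ (v.nonneg _) hx1
  obtain ⟨q, hq⟩ : ∃ q : ℕ, q = l ^ f := ⟨_, rfl⟩
  obtain ⟨r, hr⟩ : ∃ r : ℝ, r = v (l : M) := ⟨_, rfl⟩
  rw [← hr] at hr0 hr1 hS ⊢
  have hxq : v (x - x ^ q) ≤ r := by
    have h1 := hC f hf
    rw [hgf, ← hq] at h1
    exact hS _ (S.sub_mem hx (S.pow_mem hx _)) h1
  -- powers
  have hpow : ∀ (y : M), v y ≤ 1 → v (y - y ^ q) ≤ r → ∀ k : ℕ, v (y - y ^ (q ^ k)) ≤ r := by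
    intro y hy hyq k
    induction k with
    | zero =>
      simp only [pow_zero, pow_one, sub_self, map_zero]
      exact hr0.le
    | succ k ih =>
      have h1 : y - y ^ (q ^ (k + 1)) = (y - y ^ (q ^ k)) + (y ^ (q ^ k) - (y ^ q) ^ (q ^ k)) := by
        rw [← pow_mul, ← pow_succ']
        ring
      rw [h1]
      refine cng_add v hv ih ?_
      refine (cng_pow v hv hy ?_ _).trans hyq
      rw [map_pow]
      exact pow_le_one₀ (v.nonneg _) hy
  have hu1 : v (g x) ≤ 1 := by rw [hgv]; exact hx1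
  have ha1 : v (x ^ l) ≤ 1 := by
    rw [map_pow]
    exact pow_le_one₀ (v.nonneg _) hx1
  have huq : v (g x - (g x) ^ q) ≤ r := by
    have h1 : g x - (g x) ^ q = g (x - x ^ q) := by
      rw [map_sub, map_pow]
    rw [h1, hgv]
    exact hxq
  have hrho := hg x hx1
  obtain ⟨k, hk⟩ := exists_pow_lt_of_lt_one hr0 hrho
  have hu2 := hpow (g x) hu1 huq k
  have hx2 := hpow x hx1 hxq k
  have ha2 : v (x ^ l - (x ^ l) ^ (q ^ k)) ≤ r := by
    have h1 : (x ^ l) ^ (q ^ k) = (x ^ (q ^ k)) ^ l := by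
      rw [← pow_mul, ← pow_mul, mul_comm]
    rw [h1]
    refine (cng_pow v hv hx1 ?_ l).trans hx2
    rw [map_pow]
    exact pow_le_one₀ (v.nonneg _) hx1
  have hB : v ((g x) ^ (q ^ k) - (x ^ l) ^ (q ^ k)) ≤ r := by
    have h1 := cng_B v hv l hl (hr ▸ hr1) hu1 ha1 (f * k)
    have h2 : l ^ (f * k) = q ^ k := by rw [hq, pow_mul]
    rw [h2, ← hr] at h1
    refine h1.trans (max_le le_rfl ?_)
    have h3 : k ≤ q ^ k := by
      have h4 : 2 ≤ q := by
        calc 2 ≤ l := hl.two_le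
          _ = l ^ 1 := (pow_one l).symm
          _ ≤ l ^ f := Nat.pow_le_pow_right hl.pos hf
          _ = q := hq.symm
      exact (Nat.lt_pow_self (by omega)).le
    exact (pow_le_pow_of_le_one (v.nonneg _) hrho.le h3).trans hk.le
  have h5 : g x - x ^ l = (g x - (g x) ^ (q ^ k))
      + (((g x) ^ (q ^ k) - (x ^ l) ^ (q ^ k)) + -(x ^ l - (x ^ l) ^ (q ^ k))) := by ring
  rw [h5]
  refine cng_add v hv hu2 (cng_add v hv hB ?_)
  rwa [v.map_neg]

end Pool.Agent.H33.PT
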