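import Pool.Agent.H11.TS.Asm
import Pool.Agent.H72.RM.PData

/-!
# POINTS THEOREM, Dbg: degrees over a field `B` which contains all roots of unity (PART IV, last step)

`B` an intermediate field of `Ω / ℚ` containing all roots of unity, `F = RF Ω b n' R = K(μ_n', μ_R, b^(1/R))`, `x_i^m = b_i`. PROOF. Tower: `B ⊂ B₁ = B(K) ⊂ B₂ = B₁(u : u^R = b_i for some i) ⊂ B₃ = B₂(y) ⊂ B₄ = B₃(x)` (all as intermediate fields of `Ω / ℚ`, or of `Ω / B`; `K` means the image of `algebraMap K Ω`).
`[B₁ : B] ≤ [K : ℚ]` (the `B`-span of the images of a `ℚ`-basis of `K` is a subring containing `K`; `IntermediateField.finrank_sup_le`, or `relfinrank`), `[B₂ : B₁] ≤ R^s`: `B₂` is generated over `B₁` by one `R`-th root of each `b_i` (the others differ by `R`-th roots of unity, which are in `B`), each of degree `≤ R`, one after the other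
(model: root_trick in `Pool/Agent/H11/TS/Rtt.lean`). As sets `F ⊆ B₂` (the generators of `F`: roots of unity are in `B`, the images of `K` in `B₁`). `[B₃ : B₂] ≤ degP F y`: `degP_mono` (H11/TS/Asm; for intermediate fields of `Ω / K`: `B₂` contains the image of `K`, so it is the restriction of scalars of one), `[B₄ : B₃] ≤ m^s`.
The `γ i` are in `B₄`: `adjoin B (range γ) ≤ B₄`, `finrank` is monotone (finite-dimensional).
Remark: it may be easier to do everything with spans: the `B`-span of the products `κ_e ∏ u_i^(a_i) ∏ x_i^(c_i) t_l` (`κ_e` a basis of `K / ℚ`, `a_i < R`, `c_i < m`, `t_l` a basis of `adjoin F (range y)` over `F`) contains `1`, is closed under multiplication by `B`, `K`, `u_i`, `x_i`, `F`, `y_i`, so it contains `adjoin B (range γ)`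
(a subalgebra generated by algebraic elements is a field: `IntermediateField.adjoin_toSubalgebra_of_isAlgebraic`); model: the proof of `degP_mono`.
-/

set_option autoImplicit false
set_option linter.unusedSectionVars false

open NumberField IntermediateField

namespace Pool.Agent.H33.PT

open Pool.Agent.H72.RM Pool.Agent.H11.TS

private def dbgP (E : Type) {Ω : Type} [Field E] [Field Ω] [Algebra E Ω] (S : Set Ω) (d : ℕ) :
    Prop :=
  FiniteDimensional E (IntermediateField.adjoin E S) ∧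
    Module.finrank E (IntermediateField.adjoin E S) ≤ d

private theorem dbg_step {E Ω : Type} [Field E] [Field Ω] [Algebra E Ω] (T S : Set Ω) (a d : ℕ)
    (h1 : dbgP E T a) (h2 : dbgP (IntermediateField.adjoin E T) S d) : dbgP E S (a * d) := by
  obtain ⟨h1f, h1d⟩ := h1
  obtain ⟨h2f, h2d⟩ := h2
  set F := IntermediateField.adjoin E T with hF
  set G := IntermediateField.adjoin F S with hG
  have hfL : FiniteDimensional E G := FiniteDimensional.trans E F G
  have hle : IntermediateField.adjoin E S ≤ G.restrictScalars E := by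
    rw [IntermediateField.adjoin_le_iff]
    intro x hx
    exact IntermediateField.subset_adjoin F _ hx
  have hf' : FiniteDimensional E (G.restrictScalars E) := hfL
  refine ⟨FiniteDimensional.of_injective (IntermediateField.inclusion hle).toLinearMap
    (IntermediateField.inclusion_injective hle), ?_⟩
  calc _ ≤ Module.finrank E G :=
        LinearMap.finrank_le_finrank_of_injective
          (f := (IntermediateField.inclusion hle).toLinearMap)
          (IntermediateField.inclusion_injective hle)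
    _ = Module.finrank E F * Module.finrank F G := (Module.finrank_mul_finrank E F G).symm
    _ ≤ _ := Nat.mul_le_mul h1d h2d

private theorem dbg_root {E Ω : Type} [Field E] [Field Ω] [Algebra E Ω] (x : Ω) (t : ℕ)
    (ht : 1 ≤ t) (y : E) (h : x ^ t = algebraMap E Ω y) : dbgP E {x} t := by
  have hm : (Polynomial.X ^ t - Polynomial.C y).Monic :=
    Polynomial.monic_X_pow_sub_C y (by omega)
  have h0 : Polynomial.aeval x (Polynomial.X ^ t - Polynomial.C y) = 0 := by
    simp [h]
  have hi : IsIntegral E x := ⟨_, hm, h0⟩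
  refine ⟨IntermediateField.adjoin.finiteDimensional hi, ?_⟩
  rw [IntermediateField.adjoin.finrank hi]
  have h1 := Polynomial.natDegree_le_natDegree (minpoly.min E x hm h0)
  rwa [Polynomial.natDegree_X_pow_sub_C] at h1

private theorem dbg_roots {E Ω I : Type} [Field E] [Field Ω] [Algebra E Ω] [DecidableEq I]
    (x : I → Ω) (t : ℕ) (ht : 1 ≤ t) (h : ∀ i, ∃ y : E, x i ^ t = algebraMap E Ω y)
    (s : Finset I) : dbgP E (x '' (s : Set I)) (t ^ s.card) := by
  induction s using Finset.induction_on with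
  | empty =>
    rw [Finset.coe_empty, Set.image_empty, Finset.card_empty, pow_zero]
    unfold dbgP
    rw [IntermediateField.adjoin_empty, IntermediateField.finrank_bot]
    exact ⟨inferInstance, le_rfl⟩
  | insert i s hi ih =>
    rw [Finset.coe_insert, Set.image_insert_eq, Set.insert_eq, Finset.card_insert_of_notMem hi,
      pow_succ']
    obtain ⟨y, hy⟩ := h i
    obtain ⟨h1, h2⟩ := dbg_root (x i) t ht y hy
    obtain ⟨h3, h4⟩ := ih
    unfold dbgP
    rw [IntermediateField.adjoin_union]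
    exact ⟨IntermediateField.finiteDimensional_sup _ _, (IntermediateField.finrank_sup_le _ _).trans
      (Nat.mul_le_mul h2 h4)⟩

private theorem dbg_mono {E₁ E₂ Ω : Type} [Field E₁] [Field E₂] [Field Ω] [Algebra E₁ Ω]
    [Algebra E₂ Ω] [Algebra.IsAlgebraic E₂ Ω]
    (h : ∀ x : E₁, ∃ y : E₂, algebraMap E₂ Ω y = algebraMap E₁ Ω x) (T : Set Ω)
    (hfin : FiniteDimensional E₁ (IntermediateField.adjoin E₁ T)) :
    dbgP E₂ T (Module.finrank E₁ (IntermediateField.adjoin E₁ T)) := by
  classical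
  obtain ⟨r, hr⟩ : ∃ r, r = Module.finrank E₁ (IntermediateField.adjoin E₁ T) := ⟨_, rfl⟩
  let b := Module.finBasis E₁ (IntermediateField.adjoin E₁ T)
  rw [← hr]
  obtain ⟨S, hS⟩ : ∃ S : Submodule E₂ Ω,
      S = Submodule.span E₂ (IntermediateField.adjoin E₁ T : Set Ω) := ⟨_, rfl⟩
  have hSb : S ≤ Submodule.span E₂
      (Set.range fun i => ((b i : IntermediateField.adjoin E₁ T) : Ω)) := by
    rw [hS, Submodule.span_le]
    intro x hx
    have h1 := b.sum_repr ⟨x, hx⟩
    have h2 : x = ∑ i, algebraMap E₁ Ω (b.repr ⟨x, hx⟩ i) *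
        ((b i : IntermediateField.adjoin E₁ T) : Ω) := by
      have h3 := congrArg (fun z : IntermediateField.adjoin E₁ T => (z : Ω)) h1
      simp only at h3
      refine h3.symm.trans ?_
      rw [AddSubmonoidClass.coe_finset_sum]
      refine Finset.sum_congr rfl fun i _ => ?_
      rw [IntermediateField.coe_smul, Algebra.smul_def]
    rw [h2]
    refine Submodule.sum_mem _ fun i _ => ?_
    obtain ⟨c, hc⟩ := h (b.repr ⟨x, hx⟩ i)
    rw [← hc, ← Algebra.smul_def]
    exact Submodule.smul_mem _ _ (Submodule.subset_span ⟨i, rfl⟩)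
  have hSS : ∀ x ∈ S, ∀ y ∈ S, x * y ∈ S := by
    intro x hx y hy
    have h1 : x * y ∈ S * S := Submodule.mul_mem_mul hx hy
    rw [hS, Submodule.span_mul_span] at h1
    rw [hS]
    refine Submodule.span_mono ?_ h1
    rintro _ ⟨u, hu, w, hw, rfl⟩
    exact (IntermediateField.adjoin E₁ T).mul_mem hu hw
  have h1S : (1 : Ω) ∈ S := by
    rw [hS]
    exact Submodule.subset_span (IntermediateField.adjoin E₁ T).one_mem
  let A : Subalgebra E₂ Ω :=
    { carrier := S
      mul_mem' := fun {x y} hx hy => hSS x hx y hy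
      one_mem' := h1S
      add_mem' := fun {x y} hx hy => S.add_mem hx hy
      zero_mem' := S.zero_mem
      algebraMap_mem' := fun c => by
        have h1 : algebraMap E₂ Ω c = c • (1 : Ω) := by rw [Algebra.smul_def, mul_one]
        rw [h1]
        exact S.smul_mem c h1S }
  have hTA : Algebra.adjoin E₂ T ≤ A := by
    rw [Algebra.adjoin_le_iff]
    intro x hx
    change x ∈ S
    rw [hS]
    exact Submodule.subset_span (IntermediateField.subset_adjoin E₁ T hx)
  have hle : Subalgebra.toSubmodule (IntermediateField.adjoin E₂ T).toSubalgebra ≤ S := by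
    rw [IntermediateField.adjoin_toSubalgebra_of_isAlgebraic (F := E₂) (E := Ω) fun x _ =>
      Algebra.IsAlgebraic.isAlgebraic x]
    intro x hx
    exact hTA hx
  have hfinS : Module.Finite E₂ (Submodule.span E₂ (Set.range fun i =>
      ((b i : IntermediateField.adjoin E₁ T) : Ω))) := by
    exact FiniteDimensional.span_of_finite E₂ (Set.finite_range _)
  have h5 : Module.finrank E₂ (Submodule.span E₂ (Set.range fun i =>
      ((b i : IntermediateField.adjoin E₁ T) : Ω))) ≤ r := by
    refine (finrank_range_le_card _).trans ?_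
    rw [Fintype.card_fin, hr]
  refine ⟨?_, le_trans ?_ h5⟩
  · exact Submodule.finiteDimensional_of_le (hle.trans hSb)
  · exact Submodule.finrank_mono (hle.trans hSb)

theorem deg_big {K Ω : Type} [Field K] [NumberField K] [Field Ω] [CharZero Ω] [IsAlgClosed Ω]
    [Algebra K Ω] [IsGalois K Ω] (B : IntermediateField ℚ Ω)
    (hB : ∀ (x : Ω) (k : ℕ), 1 ≤ k → x ^ k = 1 → x ∈ B) {s : ℕ} (b : Fin s → K)
    (hb : ∀ i, b i ≠ 0) (n' R m : ℕ) (hn' : 1 ≤ n') (hR : 1 ≤ R) (hm : 1 ≤ m) (x : Fin s → Ωˣ)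
    (hx : ∀ i, (x i : Ω) ^ m = algebraMap K Ω (b i)) {k j : ℕ} (y : Fin k → Ωˣ) (γ : Fin j → Ωˣ)
    (hγ : ∀ i, (γ i : Ω) ∈ IntermediateField.adjoin (RF Ω b n' R)
      ((Set.range fun i => (y i : Ω)) ∪ Set.range fun i => (x i : Ω))) :
    degP B γ ≤ Module.finrank ℚ K * R ^ s * m ^ s * degP (RF Ω b n' R) y := by
  classical
  have halgQ : Algebra.IsAlgebraic ℚ Ω := Algebra.IsAlgebraic.trans ℚ K Ω
  have halgB : Algebra.IsAlgebraic B Ω := Algebra.IsAlgebraic.tower_top (K := ℚ) B
  -- the first field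
  obtain ⟨T₁, hT₁⟩ : ∃ T₁ : Set Ω, T₁ = Set.range (algebraMap K Ω) := ⟨_, rfl⟩
  have hQT : FiniteDimensional ℚ (IntermediateField.adjoin ℚ T₁) ∧
      Module.finrank ℚ (IntermediateField.adjoin ℚ T₁) = Module.finrank ℚ K := by
    have h1 : IntermediateField.adjoin ℚ T₁ = (IsScalarTower.toAlgHom ℚ K Ω).fieldRange := by
      apply le_antisymm
      · rw [IntermediateField.adjoin_le_iff, hT₁]
        rintro _ ⟨z, rfl⟩
        exact ⟨z, rfl⟩
      · rintro _ ⟨z, rfl⟩
        refine IntermediateField.subset_adjoin ℚ _ ?_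
        rw [hT₁]
        exact ⟨z, rfl⟩
    rw [h1]
    have e := (AlgEquiv.ofInjectiveField (IsScalarTower.toAlgHom ℚ K Ω)).toLinearEquiv
    exact ⟨FiniteDimensional.of_surjective e.toLinearMap e.surjective, e.finrank_eq.symm⟩
  have hP1 : dbgP B T₁ (Module.finrank ℚ K) := by
    rw [← hQT.2]
    exact dbg_mono (fun q => ⟨algebraMap ℚ B q, rfl⟩) T₁ hQT.1
  obtain ⟨E₁, hE₁⟩ : ∃ E₁ : IntermediateField B Ω, E₁ = IntermediateField.adjoin B T₁ := ⟨_, rfl⟩
  have hKE : ∀ z : K, algebraMap K Ω z ∈ E₁ := by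
    intro z
    rw [hE₁]
    refine IntermediateField.subset_adjoin B _ ?_
    rw [hT₁]
    exact ⟨z, rfl⟩
  have hBE : ∀ z ∈ B, z ∈ E₁ := fun z hz => IntermediateField.algebraMap_mem E₁ ⟨z, hz⟩
  have halg1 : Algebra.IsAlgebraic E₁ Ω := Algebra.IsAlgebraic.tower_top (K := B) E₁
  -- the second field
  have hu : ∀ i, ∃ u : Ω, u ^ R = algebraMap K Ω (b i) := fun i =>
    IsAlgClosed.exists_pow_nat_eq _ (by omega)
  choose u hu using hu
  have hP2 : dbgP E₁ (Set.range u) (R ^ s) := by
    have h1 := dbg_roots (E := E₁) u R hR (fun i => ⟨⟨_, hKE (b i)⟩, hu i⟩) Finset.univ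
    rwa [Finset.coe_univ, Set.image_univ, Finset.card_univ, Fintype.card_fin] at h1
  obtain ⟨E₂, hE₂⟩ : ∃ E₂ : IntermediateField E₁ Ω, E₂ = IntermediateField.adjoin E₁ (Set.range u) :=
    ⟨_, rfl⟩
  have h12 : ∀ z ∈ E₁, z ∈ E₂ := fun z hz => IntermediateField.algebraMap_mem E₂ ⟨z, hz⟩
  have hu2 : ∀ i, u i ∈ E₂ := fun i => by
    rw [hE₂]
    exact IntermediateField.subset_adjoin E₁ _ ⟨i, rfl⟩
  have halg2 : Algebra.IsAlgebraic E₂ Ω := Algebra.IsAlgebraic.tower_top (K := E₁) E₂
  have hRF : ∀ z ∈ RF Ω b n' R, z ∈ E₂ := by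
    have h1 : RF Ω b n' R ≤ E₂.toSubfield.toIntermediateField (K := K) (fun z => h12 _ (hKE z)) := by
      unfold RF
      rw [IntermediateField.adjoin_le_iff]
      rintro z (hz | hz | ⟨i, hz⟩)
      · exact h12 _ (hBE _ (hB z n' hn' hz))
      · exact h12 _ (hBE _ (hB z R hR hz))
      · have hui : u i ≠ 0 := by
          intro h0
          have h2 := hu i
          rw [h0, zero_pow (by omega)] at h2
          exact hb i ((map_eq_zero (algebraMap K Ω)).1 h2.symm)
        have h2 : (z / u i) ^ R = 1 := by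
          rw [div_pow, hz, hu i, div_self]
          exact fun h0 => hb i ((map_eq_zero (algebraMap K Ω)).1 h0)
        have h3 : z = z / u i * u i := by rw [div_mul_cancel₀ _ hui]
        change z ∈ E₂
        rw [h3]
        exact mul_mem (h12 _ (hBE _ (hB _ R hR h2))) (hu2 i)
    intro z hz
    exact h1 hz
  -- the third field
  have halgK : Algebra.IsAlgebraic (RF Ω b n' R) Ω :=
    Algebra.IsAlgebraic.tower_top (K := K) (RF Ω b n' R)
  have hfy : FiniteDimensional (RF Ω b n' R)
      (IntermediateField.adjoin (RF Ω b n' R) (Set.range fun i => (y i : Ω))) :=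
    IntermediateField.finiteDimensional_adjoin fun x _ =>
      (Algebra.IsAlgebraic.isAlgebraic x).isIntegral
  have hP3 : dbgP E₂ (Set.range fun i => (y i : Ω)) (degP (RF Ω b n' R) y) :=
    dbg_mono (fun z => ⟨⟨(z : Ω), hRF z z.2⟩, rfl⟩) _ hfy
  obtain ⟨E₃, hE₃⟩ : ∃ E₃ : IntermediateField E₂ Ω,
      E₃ = IntermediateField.adjoin E₂ (Set.range fun i => (y i : Ω)) := ⟨_, rfl⟩
  have h23 : ∀ z ∈ E₂, z ∈ E₃ := fun z hz => IntermediateField.algebraMap_mem E₃ ⟨z, hz⟩
  have hy3 : ∀ i, (y i : Ω) ∈ E₃ := fun i => by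
    rw [hE₃]
    exact IntermediateField.subset_adjoin E₂ _ ⟨i, rfl⟩
  -- the fourth field
  have hP4 : dbgP E₃ (Set.range fun i => (x i : Ω)) (m ^ s) := by
    have h1 := dbg_roots (E := E₃) (fun i => (x i : Ω)) m hm
      (fun i => ⟨⟨_, h23 _ (h12 _ (hKE (b i)))⟩, hx i⟩) Finset.univ
    rwa [Finset.coe_univ, Set.image_univ, Finset.card_univ, Fintype.card_fin] at h1
  obtain ⟨E₄, hE₄⟩ : ∃ E₄ : IntermediateField E₃ Ω,
      E₄ = IntermediateField.adjoin E₃ (Set.range fun i => (x i : Ω)) := ⟨_, rfl⟩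
  have h34 : ∀ z ∈ E₃, z ∈ E₄ := fun z hz => IntermediateField.algebraMap_mem E₄ ⟨z, hz⟩
  have hx4 : ∀ i, (x i : Ω) ∈ E₄ := fun i => by
    rw [hE₄]
    exact IntermediateField.subset_adjoin E₃ _ ⟨i, rfl⟩
  have hγ4 : ∀ i, (γ i : Ω) ∈ E₄ := by
    intro i
    have h1 : IntermediateField.adjoin (RF Ω b n' R)
        ((Set.range fun i => (y i : Ω)) ∪ Set.range fun i => (x i : Ω)) ≤
        E₄.toSubfield.toIntermediateField (K := RF Ω b n' R)
          (fun z => h34 _ (h23 _ (hRF _ z.2))) := by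
      rw [IntermediateField.adjoin_le_iff]
      rintro z (⟨j, rfl⟩ | ⟨j, rfl⟩)
      · exact h34 _ (hy3 j)
      · exact hx4 j
    exact h1 (hγ i)
  have hP5 : dbgP E₄ (Set.range fun i => (γ i : Ω)) 1 := by
    have h1 : IntermediateField.adjoin E₄ (Set.range fun i => (γ i : Ω)) = ⊥ := by
      rw [eq_bot_iff, IntermediateField.adjoin_le_iff]
      rintro _ ⟨i, rfl⟩
      exact IntermediateField.mem_bot.2 ⟨⟨_, hγ4 i⟩, rfl⟩
    unfold dbgP
    rw [h1, IntermediateField.finrank_bot]
    exact ⟨inferInstance, le_rfl⟩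
  subst hE₄
  have hQ4 := dbg_step _ _ _ _ hP4 hP5
  subst hE₃
  have hQ3 := dbg_step _ _ _ _ hP3 hQ4
  subst hE₂
  have hQ2 := dbg_step _ _ _ _ hP2 hQ3
  subst hE₁
  have hQ1 := dbg_step _ _ _ _ hP1 hQ2
  refine (hQ1.2).trans (le_of_eq ?_)
  ring

end Pool.Agent.H33.PT
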