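import Pool.Agent.H33.PT.Dbg

/-!
# POINTS THEOREM, Dbh: degrees over `B`, sharper form of `Dbg` when `R` divides `m`

Setting of `Dbg.lean`. If `R ∣ m` then `u^R = b_i` implies `u = t x_i^(m/R)` with `t^R = 1`, `t ∈ B`: so `F = RF Ω b n' R ⊆ B₂ := B(K)(x)`, `[B₂ : B] ≤ [K : ℚ] m^s`, and `[B₂(y) : B₂] ≤ degP F y`. No factor `R^s`. PROOF: as `deg_big` (same file structure; the spanning set is `κ_e ∏ x_i^(c_i) t_l` with `c_i < m`).
-/

set_option autoImplicit false
set_option linter.unusedSectionVars false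

open NumberField IntermediateField

namespace Pool.Agent.H33.PT

open Pool.Agent.H72.RM Pool.Agent.H11.TS

private theorem adj_sub' {k Ω : Type} [Field k] [Field Ω] [Algebra k Ω] [Algebra.IsAlgebraic k Ω]
    (T P : Set Ω) (hadd : ∀ x ∈ P, ∀ y ∈ P, x + y ∈ P) (hmul : ∀ x ∈ P, ∀ y ∈ P, x * y ∈ P)
    (hk : ∀ c : k, algebraMap k Ω c ∈ P) (hT : T ⊆ P) (x : Ω)
    (hx : x ∈ IntermediateField.adjoin k T) : x ∈ P := by
  have h1 : x ∈ Algebra.adjoin k T := by
    rw [← IntermediateField.adjoin_toSubalgebra_of_isAlgebraic (F := k) (E := Ω) fun x _ =>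
      Algebra.IsAlgebraic.isAlgebraic x]
    exact hx
  clear hx
  induction h1 using Algebra.adjoin_induction with
  | mem x hx => exact hT hx
  | algebraMap r => exact hk r
  | add x y _ _ h1 h2 => exact hadd _ h1 _ h2
  | mul x y _ _ h1 h2 => exact hmul _ h1 _ h2

private theorem span_deg' {Ω : Type} [Field Ω] [CharZero Ω] [Algebra.IsAlgebraic ℚ Ω]
    (B : IntermediateField ℚ Ω) (S : Submodule B Ω) (h1 : (1 : Ω) ∈ S)
    (hmul : ∀ x ∈ S, ∀ y ∈ S, x * y ∈ S) {I : Type} [Fintype I] (t : I → Ω)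
    (hS : S ≤ Submodule.span B (Set.range t)) {j : ℕ} (γ : Fin j → Ωˣ)
    (hγ : ∀ i, (γ i : Ω) ∈ S) : degP B γ ≤ Fintype.card I := by
  classical
  have halg : Algebra.IsAlgebraic B Ω := Algebra.IsAlgebraic.tower_top (K := ℚ) B
  have hk : ∀ c : B, algebraMap B Ω c ∈ S := fun c => by
    have h2 : algebraMap B Ω c = c • (1 : Ω) := by rw [Algebra.smul_def, mul_one]
    rw [h2]
    exact S.smul_mem c h1
  unfold degP
  have h5 : Module.finrank B (Submodule.span B (Set.range t)) ≤ Fintype.card I :=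
    finrank_range_le_card _
  refine le_trans ?_ h5
  have hfin : Module.Finite B (Submodule.span B (Set.range t)) :=
    FiniteDimensional.span_of_finite B (Set.finite_range _)
  have hle : Subalgebra.toSubmodule
      (IntermediateField.adjoin B (Set.range fun i => (γ i : Ω))).toSubalgebra ≤ S := by
    intro x hx
    refine adj_sub' (k := B) (Set.range fun i => (γ i : Ω)) (S : Set Ω)
      (fun x hx y hy => S.add_mem hx hy) hmul hk ?_ x hx
    rintro _ ⟨i, rfl⟩
    exact hγ i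
  exact Submodule.finrank_mono (hle.trans hS)

theorem deg_big' {K Ω : Type} [Field K] [NumberField K] [Field Ω] [CharZero Ω] [IsAlgClosed Ω]
    [Algebra K Ω] [IsGalois K Ω] (B : IntermediateField ℚ Ω)
    (hB : ∀ (x : Ω) (k : ℕ), 1 ≤ k → x ^ k = 1 → x ∈ B) {s : ℕ} (b : Fin s → K)
    (hb : ∀ i, b i ≠ 0) (n' R m : ℕ) (hn' : 1 ≤ n') (hR : 1 ≤ R) (hm : 1 ≤ m) (hRm : R ∣ m)
    (x : Fin s → Ωˣ) (hx : ∀ i, (x i : Ω) ^ m = algebraMap K Ω (b i)) {k j : ℕ} (y : Fin k → Ωˣ)
    (γ : Fin j → Ωˣ)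
    (hγ : ∀ i, (γ i : Ω) ∈ IntermediateField.adjoin (RF Ω b n' R)
      ((Set.range fun i => (y i : Ω)) ∪ Set.range fun i => (x i : Ω))) :
    degP B γ ≤ Module.finrank ℚ K * m ^ s * degP (RF Ω b n' R) y := by
  classical
  have halgK : Algebra.IsAlgebraic K Ω := inferInstance
  have halgQ : Algebra.IsAlgebraic ℚ Ω := Algebra.IsAlgebraic.trans ℚ K Ω
  obtain ⟨F, hF⟩ : ∃ F : IntermediateField K Ω, F = RF Ω b n' R := ⟨_, rfl⟩
  rw [← hF] at hγ ⊢
  have halgF : Algebra.IsAlgebraic F Ω := Algebra.IsAlgebraic.tower_top (K := K) F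
  -- the images of a basis of `K`
  let κ := Module.finBasis ℚ K
  obtain ⟨PK, hPK⟩ : ∃ PK : Submodule B Ω, PK = Submodule.span B (Set.range fun e =>
      algebraMap K Ω (κ e)) := ⟨_, rfl⟩
  have hKP : ∀ c : K, algebraMap K Ω c ∈ PK := by
    intro c
    have h1 : algebraMap K Ω c = ∑ e, (κ.repr c e) • algebraMap K Ω (κ e) := by
      conv_lhs => rw [← κ.sum_repr c]
      rw [map_sum]
      refine Finset.sum_congr rfl fun e _ => ?_
      rw [Algebra.smul_def, map_mul, Algebra.smul_def]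
      congr 1
      rw [eq_ratCast, eq_ratCast, map_ratCast]
    rw [h1]
    refine Submodule.sum_mem _ fun e _ => ?_
    have h2 : (κ.repr c e) • algebraMap K Ω (κ e) =
        (algebraMap ℚ B (κ.repr c e)) • algebraMap K Ω (κ e) := by
      rw [algebraMap_smul]
    rw [h2, hPK]
    exact Submodule.smul_mem _ _ (Submodule.subset_span ⟨e, rfl⟩)
  have hPKmul : PK * PK ≤ PK := by
    conv_lhs => rw [hPK]
    rw [Submodule.span_mul_span, Submodule.span_le]
    rintro _ ⟨_, ⟨e, rfl⟩, _, ⟨e', rfl⟩, rfl⟩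
    show algebraMap K Ω (κ e) * algebraMap K Ω (κ e') ∈ PK
    rw [← map_mul]
    exact hKP _
  -- monomials in the `x_i`
  obtain ⟨PX, hPX⟩ : ∃ PX : Submodule B Ω, PX = Submodule.span B (Set.range fun c : Fin s → Fin m =>
      ∏ i, (x i : Ω) ^ (c i : ℕ)) := ⟨_, rfl⟩
  obtain ⟨A, hA⟩ : ∃ A : Submodule B Ω, A = PK * PX := ⟨_, rfl⟩
  have hmon : ∀ a : Fin s → ℕ, ∏ i, (x i : Ω) ^ a i ∈ A := by
    intro a
    have h1 : ∏ i, (x i : Ω) ^ a i = algebraMap K Ω (∏ i, b i ^ (a i / m)) *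
        ∏ i, (x i : Ω) ^ (((⟨a i % m, Nat.mod_lt _ hm⟩ : Fin m) : ℕ)) := by
      rw [map_prod, ← Finset.prod_mul_distrib]
      refine Finset.prod_congr rfl fun i _ => ?_
      rw [map_pow, ← hx i, ← pow_mul, ← pow_add]
      congr 1
      exact (Nat.div_add_mod (a i) m).symm
    rw [h1, hA]
    refine Submodule.mul_mem_mul (hKP _) ?_
    rw [hPX]
    exact Submodule.subset_span ⟨fun i => ⟨a i % m, Nat.mod_lt _ hm⟩, rfl⟩
  have h1A : (1 : Ω) ∈ A := by
    have h1 := hmon fun _ => 0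
    simpa using h1
  have hPXmul : PX * PX ≤ A := by
    rw [hPX, Submodule.span_mul_span, Submodule.span_le]
    rintro _ ⟨_, ⟨c, rfl⟩, _, ⟨c', rfl⟩, rfl⟩
    show (∏ i, (x i : Ω) ^ (c i : ℕ)) * (∏ i, (x i : Ω) ^ (c' i : ℕ)) ∈ A
    rw [← Finset.prod_mul_distrib]
    have h1 := hmon fun i => (c i : ℕ) + c' i
    simp only [pow_add] at h1
    exact h1
  have hAA : A * A ≤ A := by
    calc A * A = (PK * PK) * (PX * PX) := by rw [hA, mul_mul_mul_comm]
      _ ≤ PK * A := mul_le_mul' hPKmul hPXmul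
      _ = (PK * PK) * PX := by rw [hA, mul_assoc]
      _ ≤ A := by rw [hA]; exact mul_le_mul' hPKmul le_rfl
  have hAmul : ∀ u ∈ A, ∀ w ∈ A, u * w ∈ A := fun u hu w hw => hAA (Submodule.mul_mem_mul hu hw)
  have hKA : ∀ c : K, algebraMap K Ω c ∈ A := by
    intro c
    have h1 := hmon fun _ => 0
    have h2 : (∏ i, (x i : Ω) ^ (((⟨0, hm⟩ : Fin m) : ℕ))) ∈ PX := by
      rw [hPX]
      exact Submodule.subset_span ⟨fun i => ⟨0, hm⟩, rfl⟩
    have h3 := Submodule.mul_mem_mul (hKP c) h2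
    rw [← hA] at h3
    simpa using h3
  have hBA : ∀ u ∈ B, u ∈ A := by
    intro u hu
    have h2 : u = (⟨u, hu⟩ : B) • (1 : Ω) := by
      rw [Algebra.smul_def, mul_one]
      rfl
    rw [h2]
    exact A.smul_mem _ h1A
  have hxA : ∀ (i : Fin s) (a : ℕ), (x i : Ω) ^ a ∈ A := by
    intro i a
    have h1 := hmon fun l => if l = i then a else 0
    have h2 : ∏ l, (x l : Ω) ^ (if l = i then a else 0) = (x i : Ω) ^ a := by
      rw [Finset.prod_eq_single i]
      · rw [if_pos rfl]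
      · intro l _ hl
        rw [if_neg hl, pow_zero]
      · intro h
        exact absurd (Finset.mem_univ i) h
    rwa [h2] at h1
  -- `F` is contained in `A`
  have hFA : ∀ u ∈ F, u ∈ A := by
    intro u hu
    rw [hF] at hu
    refine adj_sub' (k := K) _ (A : Set Ω) (fun x hx y hy => A.add_mem hx hy) hAmul hKA ?_ u hu
    rintro w (hw | hw | ⟨i, hw⟩)
    · exact hBA w (hB w n' hn' hw)
    · exact hBA w (hB w R hR hw)
    · obtain ⟨c, hc⟩ := hRm
      have hx0 : (x i : Ω) ^ c ≠ 0 := pow_ne_zero _ (x i).ne_zero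
      have h1 : (w / (x i : Ω) ^ c) ^ R = 1 := by
        rw [div_pow, hw, ← hx i, ← pow_mul, mul_comm c R, ← hc]
        exact div_self (pow_ne_zero _ (x i).ne_zero)
      have h2 : w = (w / (x i : Ω) ^ c) * (x i : Ω) ^ c := by
        rw [div_mul_cancel₀ _ hx0]
      rw [h2]
      exact hAmul _ (hBA _ (hB _ R hR h1)) _ (hxA i c)
  -- the field generated by the `y`
  obtain ⟨T, hT⟩ : ∃ T : Set Ω, T = Set.range fun i => (y i : Ω) := ⟨_, rfl⟩
  have hdeg : degP F y = Module.finrank F (IntermediateField.adjoin F T) := by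
    unfold degP
    rw [hT]
  have hTfin : T.Finite := by
    rw [hT]
    exact Set.finite_range _
  have hfin : FiniteDimensional F (IntermediateField.adjoin F T) := by
    have : Finite T := hTfin
    exact IntermediateField.finiteDimensional_adjoin fun x _ =>
      Algebra.IsIntegral.isIntegral x
  let t := Module.finBasis F (IntermediateField.adjoin F T)
  obtain ⟨PT, hPT⟩ : ∃ PT : Submodule B Ω, PT = Submodule.span B (Set.range fun l =>
      ((t l : IntermediateField.adjoin F T) : Ω)) := ⟨_, rfl⟩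
  obtain ⟨S, hS⟩ : ∃ S : Submodule B Ω, S = A * PT := ⟨_, rfl⟩
  have hES : ∀ u ∈ IntermediateField.adjoin F T, u ∈ S := by
    intro u hu
    have h1 := t.sum_repr ⟨u, hu⟩
    have h2 : u = ∑ i, ((t.repr ⟨u, hu⟩ i : F) : Ω) *
        ((t i : IntermediateField.adjoin F T) : Ω) := by
      have h3 := congrArg (fun z : IntermediateField.adjoin F T => (z : Ω)) h1
      simp only at h3
      refine h3.symm.trans ?_
      rw [AddSubmonoidClass.coe_finsetSum]
      refine Finset.sum_congr rfl fun i _ => ?_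
      rw [IntermediateField.coe_smul, Algebra.smul_def]
      rfl
    rw [h2]
    refine Submodule.sum_mem _ fun i _ => ?_
    rw [hS]
    refine Submodule.mul_mem_mul (hFA _ (t.repr ⟨u, hu⟩ i).2) ?_
    rw [hPT]
    exact Submodule.subset_span ⟨i, rfl⟩
  have hAS : A * S ≤ S := by
    rw [hS, ← mul_assoc]
    exact mul_le_mul' hAA le_rfl
  have hSS : ∀ u ∈ S, ∀ w ∈ S, u * w ∈ S := by
    intro u hu w hw
    have h1 : u * w ∈ S * S := Submodule.mul_mem_mul hu hw
    have h2 : PT * PT ≤ S := by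
      rw [hPT, Submodule.span_mul_span, Submodule.span_le]
      rintro _ ⟨_, ⟨l, rfl⟩, _, ⟨l', rfl⟩, rfl⟩
      exact hES _ ((IntermediateField.adjoin F T).mul_mem (t l).2 (t l').2)
    have h3 : S * S ≤ S := by
      calc S * S = (A * A) * (PT * PT) := by rw [hS, mul_mul_mul_comm]
        _ ≤ A * S := mul_le_mul' hAA h2
        _ ≤ S := hAS
    exact h3 h1
  have h1S : (1 : Ω) ∈ S := hES _ (IntermediateField.adjoin F T).one_mem
  have hAleS : ∀ u ∈ A, u ∈ S := by
    intro u hu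
    have h1 : u * 1 ∈ A * S := Submodule.mul_mem_mul hu h1S
    rw [mul_one] at h1
    exact hAS h1
  have hγS : ∀ i, (γ i : Ω) ∈ S := by
    intro i
    refine adj_sub' (k := F) _ (S : Set Ω) (fun x hx y hy => S.add_mem hx hy) hSS
      (fun c => hAleS _ (hFA _ c.2)) ?_ _ (hγ i)
    rintro _ (⟨l, rfl⟩ | ⟨l, rfl⟩)
    · refine hES _ (IntermediateField.subset_adjoin F T ?_)
      rw [hT]
      exact ⟨l, rfl⟩
    · have h1 := hxA l 1
      rw [pow_one] at h1
      exact hAleS _ h1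
  have hfinal := span_deg' B S h1S hSS
    (fun q : (Fin (Module.finrank ℚ K) × (Fin s → Fin m)) ×
      Fin (Module.finrank F (IntermediateField.adjoin F T)) =>
      (algebraMap K Ω (κ q.1.1) * ∏ i, (x i : Ω) ^ (q.1.2 i : ℕ)) *
        ((t q.2 : IntermediateField.adjoin F T) : Ω)) (by
      rw [hS, hA, hPK, hPX, hPT, Submodule.span_mul_span, Submodule.span_mul_span,
        Submodule.span_le]
      rintro _ ⟨_, ⟨_, ⟨e, rfl⟩, _, ⟨c, rfl⟩, rfl⟩, _, ⟨l, rfl⟩, rfl⟩
      exact Submodule.subset_span ⟨((e, c), l), rfl⟩) γ hγS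
  rw [hdeg]
  refine hfinal.trans (le_of_eq ?_)
  rw [Fintype.card_prod, Fintype.card_prod, Fintype.card_fun, Fintype.card_fin, Fintype.card_fin,
    Fintype.card_fin, Fintype.card_fin]

end Pool.Agent.H33.PT
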