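import Pool.Agent.H72.PL.PF
import Pool.Agent.H11.TH.Defs

/-!
# POINTS THEOREM (MP_187c26_nt; think 1778): definitions for the determinants

* `mo y a = ∏ y_i ^ a_i`, `bc a t = ∏ (a_i choose t_i)`, `TT n T`: the exponents `t ∈ ℕ^n` with `∑ t_i < T`.
* `row y s a`: for `s = t ∈ TT n T` the coefficient `bc a t * mo y a` of `ε^t` in `mo (y (1 + ε)) a`, for `s = l ∈ LL` the number `mo y (l a)`.
-/

set_option autoImplicit false
set_option linter.unusedSectionVars false

open NumberField

namespace Pool.Agent.H33.PT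

/-- the monomial `∏ y_i ^ a_i` -/
def mo {F : Type} [CommMonoid F] {n : ℕ} (y : Fin n → F) (a : Fin n → ℕ) : F := ∏ i, y i ^ a i

/-- the product of the binomial coefficients `a_i choose t_i` -/
def bc {n : ℕ} (a t : Fin n → ℕ) : ℕ := ∏ i, (a i).choose (t i)

/-- the exponents `t` with `∑ t_i < T` -/
def TT (n T : ℕ) : Type := {t : Fin n → Fin T // ∑ i, (t i : ℕ) < T}

instance (n T : ℕ) : Fintype (TT n T) := by unfold TT; infer_instance

instance (n T : ℕ) : DecidableEq (TT n T) := by unfold TT; infer_instance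

/-- the exponents of `t : TT n T` -/
def tv {n T : ℕ} (t : TT n T) : Fin n → ℕ := fun i => (t.1 i : ℕ)

/-- a row of the matrix: the coefficients of the jets at `y` and the values at `y^l`, `l ∈ LL` -/
def row {M : Type} [Field M] {n T : ℕ} {LL : Finset ℕ} (y : Fin n → M) :
    TT n T ⊕ LL → (Fin n → ℕ) → M
  | Sum.inl t, a => (bc a (tv t) : M) * mo y a
  | Sum.inr l, a => mo y fun i => (l : ℕ) * a i

theorem mo_add {F : Type} [CommMonoid F] {n : ℕ} (y : Fin n → F) (a a' : Fin n → ℕ) :
    mo y (a + a') = mo y a * mo y a' := by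
  unfold mo
  rw [← Finset.prod_mul_distrib]
  exact Finset.prod_congr rfl fun i _ => pow_add _ _ _

theorem mo_zero {F : Type} [CommMonoid F] {n : ℕ} (y : Fin n → F) : mo y 0 = 1 := by
  unfold mo
  simp

theorem mo_map {F F' : Type} [CommSemiring F] [CommSemiring F'] (f : F →+* F') {n : ℕ} (y : Fin n → F)
    (a : Fin n → ℕ) : f (mo y a) = mo (fun i => f (y i)) a := by
  unfold mo
  rw [map_prod]
  exact Finset.prod_congr rfl fun i _ => map_pow _ _ _

theorem mo_pow {F : Type} [CommMonoid F] {n : ℕ} (y : Fin n → F) (l : ℕ) (a : Fin n → ℕ) :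
    mo y (fun i => l * a i) = mo (fun i => y i ^ l) a := by
  unfold mo
  exact Finset.prod_congr rfl fun i _ => pow_mul _ _ _

/-- there are at least `T` exponents in `TT n T` for `1 ≤ n` -/
theorem card_TT_ge (n T : ℕ) (hn : 1 ≤ n) : T ≤ Fintype.card (TT n T) := by
  classical
  obtain ⟨m, rfl⟩ : ∃ m, n = m + 1 := ⟨n - 1, by omega⟩
  rcases Nat.eq_zero_or_pos T with rfl | hT
  · exact Nat.zero_le _
  have h0 : ∀ s : Fin T, ∑ i, ((Function.update (fun _ : Fin (m + 1) => (⟨0, hT⟩ : Fin T)) 0 s) i : ℕ) = s := by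
    intro s
    rw [Fin.sum_univ_succ, Function.update_self]
    have : ∑ i : Fin m, ((Function.update (fun _ : Fin (m + 1) => (⟨0, hT⟩ : Fin T)) 0 s) i.succ : ℕ) = 0 := by
      refine Finset.sum_eq_zero fun i _ => ?_
      rw [Function.update_of_ne (Fin.succ_ne_zero i)]
    rw [this, add_zero]
  let f : Fin T → TT (m + 1) T := fun s =>
    ⟨Function.update (fun _ => (⟨0, hT⟩ : Fin T)) 0 s, by rw [h0]; exact s.2⟩
  have hf : Function.Injective f := by
    intro s s' h
    have h1 := congrFun (congrArg Subtype.val h) 0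
    simpa [f] using h1
  have := Fintype.card_le_of_injective f hf
  rwa [Fintype.card_fin] at this

theorem card_TT_le (n T : ℕ) : Fintype.card (TT n T) ≤ T ^ n := by
  have h := Fintype.card_subtype_le (fun t : Fin n → Fin T => ∑ i, (t i : ℕ) < T)
  rw [Fintype.card_fun, Fintype.card_fin, Fintype.card_fin] at h
  refine le_trans (le_of_eq ?_) h
  exact Fintype.card_congr (Equiv.refl _)

end Pool.Agent.H33.PT
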