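import Pool.Agent.H33.PT.Dbg
import Pool.Agent.H33.PT.Edx

/-!
# POINTS THEOREM, Edd: the last step of PART IV: from the level `R` to `ℚ(μ_∞)`

NEW STATEMENT (06:05): `B` contains the `n'`-th roots of unity only, `R^(s+1)` in the place of `R^s` (below: `deg_big` with `R^(s+1)`).

PROOF. `C := 1 + ∑_j h(b_j)` (`h` of the image of `b_j` in `Ω`), `c₀` from `hQ (s + k) ε`. `γ_i := w_i / y_i`: `γ_i^(N_i) = ∏_j b_j^(m_ij)`. `m := ⌈C / θ⌉`, so `C ≤ m θ`, `m ≤ 2 C / θ` (`C ≥ 1 ≥ θ`). `x_j` an `m`-th root of `b_j` (`Ω` algebraically closed). `a_ij := round (m m_ij / N_i)`, so `|m m_ij - N_i a_ij| ≤ N_i`.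
`y''_i := y_i ∏_j x_j^(a_ij)`. `(w_i / y''_i)^(N_i m) = ∏_j b_j^(m m_ij - N_i a_ij)`, so `h(w_i / y''_i) ≤ (1 / (N_i m)) ∑_j N_i h(b_j) ≤ C / m ≤ θ` (heights of powers and products: `ht_pow`, `ht_mul`.. in H72/PB, H33/TR), `h(y''_i) ≤ h(w_i) + h(w_i / y''_i) ≤ (μ_i + 1) θ ≤ 2 μ_i θ`. `h(x_j) = h(b_j) / m ≤ C / m`.
`γ := Fin.append x y''` is independent modulo `⊥`: let `(∏ x_j^(c_j) ∏ y''_i^(a_i))^M = 1`, `M ≥ 1`. `DivG Ω b` is closed under products, inverses (powers), contains the roots of unity, the `b_j`, the `x_j`, `γ_i`. So `∏ w_i^(a_i) = ∏ (γ_i ∏_j x_j^(-a_ij))^(a_i) * ∏ y''_i^(a_i) ∈ DivG`: `a = 0`. Then `(∏ x_j^(c_j))^M = 1`, its `m`-th power: `∏ b_j^(c_j M) = 1` (in `K`: `algebraMap` injective);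
`hind` with `y = 1` for every `N`: `N ∣ c_j M` for all `N`, so `c_j M = 0`, `c_j = 0`.
`hQ`: `c₀ ≤ (degP B γ)^(1+ε) ∏_j h(x_j) ∏_i h(y''_i)` (`Fin.prod_univ_add`, `Fin.append_left/right`). `deg_big` (`γ i` is in the adjoin: `y''_i = y_i ∏ x_j^(a_ij)`): `degP B γ ≤ [K:ℚ] R^s m^s D`, `D = degP F y ≥ 1`.
So `c₀ ≤ ([K:ℚ] R^s D)^(1+ε) m^(s(1+ε)) (C / m)^s ∏ (2 μ_i θ) = [K:ℚ]^(1+ε) C^s 2^k (R^s D)^(1+ε) m^(s ε) ∏ μ_i θ^k`, and `m^(s ε) ≤ (2 C)^(s ε) θ^(-s ε)`.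
-/

set_option autoImplicit false
set_option linter.unusedSectionVars false

open NumberField IntermediateField

namespace Pool.Agent.H33.PT

open Pool.Agent.H72.RM Pool.Agent.H11.TS

private theorem dd_real {s k : ℕ} {ε C θ c₀ F D m Q : ℝ} (hε : 0 < ε) (hC : 1 ≤ C)
    (hθ0 : 0 < θ) (hF : 0 < F) (hD : 0 ≤ D) (hm : 0 < m)
    (hm2 : m ≤ 2 * C / θ) (hQ : 0 ≤ Q)
    (h : c₀ ≤ (F * m ^ s * D) ^ (1 + ε) * ((C / m) ^ s * (2 ^ k * Q * θ ^ k))) :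
    c₀ / (F ^ (1 + ε) * C ^ s * 2 ^ k * (2 * C) ^ (s * ε)) ≤
      D ^ (1 + ε) * Q * θ ^ ((k : ℝ) - s * ε) := by
  have hC0 : 0 < C := by linarith
  have hF1 : 0 < F ^ (1 + ε) := Real.rpow_pos_of_pos hF _
  have hC1 : 0 < (2 * C) ^ (s * ε) := Real.rpow_pos_of_pos (by linarith) _
  have hD1 : 0 ≤ D ^ (1 + ε) := Real.rpow_nonneg hD _
  have hsε : 0 ≤ s * ε := by positivity
  rw [div_le_iff₀ (by positivity)]
  refine h.trans ?_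
  have h1 : (F * m ^ s * D) ^ (1 + ε) = F ^ (1 + ε) * (m ^ s * m ^ (s * ε)) * D ^ (1 + ε) := by
    rw [Real.mul_rpow (by positivity) hD, Real.mul_rpow hF.le (by positivity)]
    congr 2
    rw [← Real.rpow_natCast, ← Real.rpow_mul hm.le, ← Real.rpow_add hm]
    congr 1
    ring
  have h2 : m ^ s * (C / m) ^ s = C ^ s := by
    rw [← mul_pow, mul_div_cancel₀ _ hm.ne']
  have h3 : m ^ (s * ε) ≤ (2 * C) ^ (s * ε) * θ ^ (-(s * ε)) := by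
    calc m ^ (s * ε) ≤ (2 * C / θ) ^ (s * ε) := Real.rpow_le_rpow hm.le hm2 hsε
      _ = (2 * C) ^ (s * ε) * θ ^ (-(s * ε)) := by
        rw [Real.div_rpow (by positivity) hθ0.le, Real.rpow_neg hθ0.le]
        rfl
  have h4 : θ ^ ((k : ℝ) - s * ε) = θ ^ k * θ ^ (-(s * ε)) := by
    rw [sub_eq_add_neg, Real.rpow_add hθ0, Real.rpow_natCast]
  rw [h1, h4]
  calc F ^ (1 + ε) * (m ^ s * m ^ (s * ε)) * D ^ (1 + ε) * ((C / m) ^ s * (2 ^ k * Q * θ ^ k))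
      = (F ^ (1 + ε) * D ^ (1 + ε) * (m ^ s * (C / m) ^ s) * (2 ^ k * Q * θ ^ k)) *
        m ^ (s * ε) := by ring
    _ = (F ^ (1 + ε) * D ^ (1 + ε) * C ^ s * (2 ^ k * Q * θ ^ k)) * m ^ (s * ε) := by rw [h2]
    _ ≤ (F ^ (1 + ε) * D ^ (1 + ε) * C ^ s * (2 ^ k * Q * θ ^ k)) *
        ((2 * C) ^ (s * ε) * θ ^ (-(s * ε))) :=
        mul_le_mul_of_nonneg_left h3 (by positivity)
    _ = _ := by ring

theorem end_d {K Ω : Type} [Field K] [NumberField K] [Field Ω] [CharZero Ω] [IsAlgClosed Ω]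
    [Algebra K Ω] [IsGalois K Ω] (B : IntermediateField ℚ Ω)
    (hQ : ∀ j : ℕ, 1 ≤ j → ∀ ε : ℝ, 0 < ε → ∃ c : ℝ, 0 < c ∧ PtB B (⊥ : Subgroup Ωˣ) j (1 + ε) c)
    {s : ℕ} (b : Fin s → K) (hb : ∀ i, b i ≠ 0)
    (hind : ∀ N : ℕ, 1 ≤ N → ∀ (m : Fin s → ℤ) (y : K), y ^ N = ∏ i, (b i) ^ (m i) →
      ∀ i, (N : ℤ) ∣ m i) (k : ℕ) (hk : 1 ≤ k) (ε : ℝ) (hε : 0 < ε) :
    ∃ c : ℝ, 0 < c ∧ ∀ n' R : ℕ, 1 ≤ n' → 1 ≤ R → (∀ x : Ω, x ^ n' = 1 → x ∈ B) →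
      ∀ w y : Fin k → Ωˣ,
      (∀ i, ((w i / y i : Ωˣ) : Ω) ∈ DivG Ω b) →
      (∀ a : Fin k → ℤ, a ≠ 0 → ((∏ i, w i ^ a i : Ωˣ) : Ω) ∉ DivG Ω b) →
      ∀ μ : Fin k → ℕ, (∀ i, 1 ≤ μ i) → ∀ θ : ℝ, 0 < θ → θ ≤ 1 →
      (∀ i, absLogHeight₁ (w i : Ω) ≤ μ i * θ) →
      c ≤ ((R : ℝ) ^ (s + 1) * degP (RF Ω b n' R) y) ^ (1 + ε) * (∏ i, (μ i : ℝ)) *
        θ ^ ((k : ℝ) - s * ε) := by
  obtain ⟨C, hC⟩ : ∃ C : ℝ, C = 1 + ∑ j, absLogHeight₁ (algebraMap K Ω (b j)) := ⟨_, rfl⟩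
  have hC1 : 1 ≤ C := by
    rw [hC]
    have := Finset.sum_nonneg fun j (_ : j ∈ (Finset.univ : Finset (Fin s))) =>
      Pool.Agent.H72.PB.ht_nonneg (algebraMap K Ω (b j))
    linarith
  obtain ⟨c₀, hc₀, hPB⟩ := hQ (s + k) (by omega) ε hε
  have hF : (0 : ℝ) < Module.finrank ℚ K := by exact_mod_cast Module.finrank_pos (R := ℚ) (M := K)
  refine ⟨c₀ / ((Module.finrank ℚ K : ℝ) ^ (1 + ε) * C ^ s * 2 ^ k * (2 * C) ^ (s * ε)),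
    by positivity, ?_⟩
  intro n' R hn' hR hB w y hwy hw μ hμ θ hθ0 hθ1 hwθ
  obtain ⟨z, hz⟩ : ∃ z : ℝ, z = C / θ := ⟨_, rfl⟩
  have hz0 : 0 < z := by
    rw [hz]
    positivity
  have hzR : z * θ = C := by
    rw [hz]
    field_simp
  obtain ⟨m, hm⟩ : ∃ m : ℕ, m = ⌈z⌉₊ := ⟨_, rfl⟩
  have hm1 : 1 ≤ m := by
    rw [hm]
    exact Nat.ceil_pos.2 hz0
  have hmθ : C ≤ m * θ := by
    rw [hm, ← hzR]
    exact mul_le_mul_of_nonneg_right (Nat.le_ceil z) hθ0.le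
  have hm2 : (m : ℝ) ≤ 2 * C / θ := by
    have h1 := (Nat.ceil_lt_add_one hz0.le).le
    rw [← hm] at h1
    rw [le_div_iff₀ hθ0]
    have h2 : (m : ℝ) * θ ≤ (z + 1) * θ := mul_le_mul_of_nonneg_right h1 hθ0.le
    rw [add_mul, hzR, one_mul] at h2
    linarith
  obtain ⟨x, hx, γ, hγ, hineq⟩ := ed_core B b hb hind k ε c₀ hPB C hC m hm1 (RF Ω b n' R) w y hwy hw μ
    hμ θ hθ0 hmθ hwθ
  have hdeg := deg_big B b hb n' R m hn' hR hm1 hB x hx y γ hγ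
  have hdeg' : (degP B γ : ℝ) ≤ (Module.finrank ℚ K : ℝ) * (m : ℝ) ^ s *
      ((R : ℝ) ^ (s + 1) * degP (RF Ω b n' R) y) := by
    have h1 : (degP B γ : ℝ) ≤ (Module.finrank ℚ K : ℝ) * (R : ℝ) ^ (s + 1) * (m : ℝ) ^ s *
        degP (RF Ω b n' R) y := by exact_mod_cast hdeg
    refine h1.trans (le_of_eq ?_)
    ring
  refine dd_real hε hC1 hθ0 hF (by positivity) (by exact_mod_cast hm1) hm2
    (Finset.prod_nonneg fun i _ => Nat.cast_nonneg _) (hineq.trans ?_)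
  refine mul_le_mul_of_nonneg_right ?_ ?_
  · exact Real.rpow_le_rpow (Nat.cast_nonneg _) hdeg' (by linarith)
  · have h1 : 0 ≤ C / m := div_nonneg (by linarith) (Nat.cast_nonneg _)
    have h2 : 0 ≤ ∏ i, (μ i : ℝ) := Finset.prod_nonneg fun i _ => Nat.cast_nonneg _
    positivity

end Pool.Agent.H33.PT
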