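import Pool.Agent.H33.PT.Df
import Pool.Agent.H11.TS.FinB

/-!
# POINTS THEOREM, Emb: the field of the point and a splitting field; heights

`emb_field`. PROOF: `M := IntermediateField.normalClosure ℚ E Ω` (finite-dimensional over `ℚ` (instance for the normal closure), normal, so Galois (characteristic 0)). The embeddings `E →ₐ[ℚ] M` correspond to the embeddings `E →ₐ[ℚ] Ω` (compose with the inclusion; every embedding `f : E →ₐ[ℚ] Ω` has range in `M`:
`IntermediateField.normalClosure_le_iff`/`AlgHom.fieldRange_le_normalClosure`), and the number of those is `finrank ℚ E` (`AlgHom.card`).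
`adj_bot`: both are the smallest subfield of `Ω` which contains `S` (and the image of `K`): `IntermediateField.restrictScalars_adjoin`, or two inclusions. `degP_bot`: from `adj_bot`, and `finrank ⊥ V = finrank K V` (`IntermediateField.botEquiv`, `finrank_mul_finrank` with `finrank K ⊥ = 1`).
`no_auto`: heights are invariant under `φ : E ≃ₐ[ℚ] E` (`absLogHeight₁_conj`, or the lemma of H33/TR, H36 on `absLogHeight₁` of the image under a ring homomorphism) and `h(x^l) = l h(x)` (`ht_pow` etc.). So `l h(x) = l' h(x)`, `h(x) > 0` since `x` is not a root of unity and not `0` (Kronecker: the lemma used in `Pool/Agent/H33/TR` or `H11/TS`: `absLogHeight₁ = 0` iff zero or root of unity), contradiction.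
-/

set_option autoImplicit false
set_option linter.unusedSectionVars false

open NumberField

namespace Pool.Agent.H33.PT

open Pool.Agent.H11.TS

theorem emb_field {Ω : Type} [Field Ω] [CharZero Ω] [IsAlgClosed Ω] (E : IntermediateField ℚ Ω)
    (hE : FiniteDimensional ℚ E) : ∃ M : IntermediateField ℚ Ω, FiniteDimensional ℚ M ∧
      IsGalois ℚ M ∧ Nat.card (E →ₐ[ℚ] M) = Module.finrank ℚ E := by
  have halg : Algebra.IsAlgebraic ℚ E := Algebra.IsAlgebraic.of_finite ℚ E
  have h : IsNormalClosure ℚ E (IntermediateField.normalClosure ℚ E Ω) :=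
    Algebra.IsAlgebraic.isNormalClosure_normalClosure (fun x => IsAlgClosed.splits _)
  have hN : Normal ℚ (IntermediateField.normalClosure ℚ E Ω) := h.normal
  refine ⟨IntermediateField.normalClosure ℚ E Ω, inferInstance, {}, ?_⟩
  refine (Nat.card_congr (normalClosure.algHomEquiv ℚ E Ω)).trans ?_
  rw [Nat.card_eq_fintype_card]
  exact AlgHom.card ℚ E Ω

private theorem adj_bot_eq {K Ω : Type} [Field K] [Field Ω] [Algebra K Ω] (S : Set Ω) :
    (IntermediateField.adjoin (⊥ : IntermediateField K Ω) S).restrictScalars K =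
      IntermediateField.adjoin K S := by
  apply le_antisymm
  · rw [IntermediateField.restrictScalars_adjoin, IntermediateField.adjoin_le_iff]
    refine Set.union_subset ?_ (IntermediateField.subset_adjoin K S)
    exact SetLike.coe_subset_coe.2 bot_le
  · rw [IntermediateField.adjoin_le_iff]
    intro x hx
    exact IntermediateField.subset_adjoin (⊥ : IntermediateField K Ω) S hx

theorem adj_bot {K Ω : Type} [Field K] [Field Ω] [Algebra K Ω] (S : Set Ω) (x : Ω) :
    x ∈ IntermediateField.adjoin (⊥ : IntermediateField K Ω) S ↔ x ∈ IntermediateField.adjoin K S := by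
  rw [← adj_bot_eq (K := K) S, IntermediateField.mem_restrictScalars]

theorem degP_bot {K Ω : Type} [Field K] [Field Ω] [Algebra K Ω] {n : ℕ} (γ : Fin n → Ωˣ) :
    degP (⊥ : IntermediateField K Ω) γ =
      Module.finrank K (IntermediateField.adjoin K (Set.range fun i => (γ i : Ω))) := by
  unfold degP
  have h1 := Module.finrank_mul_finrank K (⊥ : IntermediateField K Ω)
    (IntermediateField.adjoin (⊥ : IntermediateField K Ω) (Set.range fun i => (γ i : Ω)))
  rw [IntermediateField.finrank_bot, one_mul] at h1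
  rw [h1, ← adj_bot_eq (K := K)]
  rfl

private theorem fin_order {E : Type} [Field E] [NumberField E] (x : E) (hx0 : x ≠ 0)
    (h : absLogHeight₁ x = 0) : ∃ m : ℕ, 1 ≤ m ∧ x ^ m = 1 := by
  have h1 := Pool.Agent.H4.RR.absLogHeight_eq E E (RingHom.id E) x
  rw [RingHom.id_apply, h] at h1
  have hf : (0 : ℝ) < (Module.finrank ℚ E : ℝ) := by exact_mod_cast Module.finrank_pos
  have h2 : Height.logHeight₁ x = 0 := by
    rcases div_eq_zero_iff.1 h1.symm with h | h
    · exact h
    · exact absurd h hf.ne'
  have h3 := NumberField.finite_setOfPred_logHeight₁_le (K := E) 0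
  have h4 : ¬ Function.Injective (fun m : ℕ => x ^ m) := by
    intro hinj
    refine Set.infinite_of_injective_forall_mem hinj (s := {x : E | Height.logHeight₁ x ≤ 0}) ?_ h3
    intro m
    show Height.logHeight₁ (x ^ m) ≤ 0
    rw [Height.logHeight₁_pow, h2, mul_zero]
  rw [Function.Injective] at h4
  push Not at h4
  obtain ⟨a, b, hab, hne⟩ := h4
  rcases lt_or_gt_of_ne hne with hlt | hlt
  · refine ⟨b - a, by omega, ?_⟩
    have h5 : x ^ a * x ^ (b - a) = x ^ a * 1 := by
      rw [← pow_add, Nat.add_sub_cancel' hlt.le, mul_one]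
      exact hab.symm
    exact mul_left_cancel₀ (pow_ne_zero a hx0) h5
  · refine ⟨a - b, by omega, ?_⟩
    have h5 : x ^ b * x ^ (a - b) = x ^ b * 1 := by
      rw [← pow_add, Nat.add_sub_cancel' hlt.le, mul_one]
      exact hab
    exact mul_left_cancel₀ (pow_ne_zero b hx0) h5

/-- no automorphism maps `x^l'` to `x^l`, `l ≠ l'`, if `x` is not a root of unity -/
theorem no_auto {E : Type} [Field E] [NumberField E] (x : E) (hx0 : x ≠ 0)
    (hx : ∀ m : ℕ, 1 ≤ m → x ^ m ≠ 1) (l l' : ℕ) (h : l ≠ l') (φ : E ≃ₐ[ℚ] E) :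
    x ^ l ≠ φ (x ^ l') := by
  intro h1
  have hint : ∀ y : E, IsIntegral ℚ y := fun y => Algebra.IsIntegral.isIntegral y
  have h2 : absLogHeight₁ (φ (x ^ l')) = absLogHeight₁ (x ^ l') :=
    Pool.Agent.H4.RR.absLogHeight_eq_of_minpoly_eq E (φ (x ^ l')) (x ^ l') (hint _)
      (minpoly.algEquiv_eq φ (x ^ l'))
  rw [← h1, Pool.Agent.H4.RR.absLogHeight_pow E x (hint x) l,
    Pool.Agent.H4.RR.absLogHeight_pow E x (hint x) l'] at h2
  have h3 : ((l : ℝ) - l') * absLogHeight₁ x = 0 := by linarith
  rcases mul_eq_zero.1 h3 with h4 | h4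
  · exact h (by exact_mod_cast sub_eq_zero.1 h4)
  · obtain ⟨m, hm, h5⟩ := fin_order x hx0 h4
    exact hx m hm h5

end Pool.Agent.H33.PT
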