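import Pool.Agent.H28.PT4.CorU
import Pool.Agent.H33.PT.Asu

/-!
# POINTS THEOREM, FiU: the points theorem over fields of radicals, uniformly in the level `N₁`
-/

set_option autoImplicit false
set_option linter.unusedSectionVars false

open NumberField IntermediateField

namespace Pool.Agent.H33.PT

open Pool.Agent.H72.RM Pool.Agent.H72.PB Pool.Agent.H11.TS Pool.Agent.H28.PT4

private theorem degP_one {K Ω : Type} [Field K] [Field Ω] [Algebra K Ω]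
    [Algebra.IsAlgebraic K Ω] (L : IntermediateField K Ω) {k : ℕ} (γ : Fin k → Ωˣ) :
    1 ≤ degP L γ := by
  have halg : Algebra.IsAlgebraic L Ω := Algebra.IsAlgebraic.tower_top (K := K) L
  have hfin : FiniteDimensional L (IntermediateField.adjoin L (Set.range fun i => (γ i : Ω))) :=
    IntermediateField.finiteDimensional_adjoin fun x _ => Algebra.IsIntegral.isIntegral x
  exact Module.finrank_pos

private theorem cnv_choose (K e D : ℕ) (he : 1 ≤ e) (hK : 1 ≤ K) (hD : 1 ≤ D) :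
    ∃ Z : ℕ, K ≤ Z ∧ D ≤ Z ^ e ∧ (Z : ℝ) ≤ 2 * K * (D : ℝ) ^ (1 / (e : ℝ)) := by
  obtain ⟨s, hs⟩ : ∃ s : ℕ, s = ⌈(D : ℝ) ^ (1 / (e : ℝ))⌉₊ := ⟨_, rfl⟩
  have hD1 : (1 : ℝ) ≤ D := by exact_mod_cast hD
  have hD0 : (0 : ℝ) < D := by linarith
  have ha0 : (0 : ℝ) < e := by exact_mod_cast he
  have hr1 : (1 : ℝ) ≤ (D : ℝ) ^ (1 / (e : ℝ)) := Real.one_le_rpow hD1 (by positivity)
  have hs1 : (D : ℝ) ^ (1 / (e : ℝ)) ≤ s := by
    rw [hs]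
    exact Nat.le_ceil _
  have hs1' : 1 ≤ s := by exact_mod_cast hr1.trans hs1
  have hs2 : (s : ℝ) ≤ 2 * (D : ℝ) ^ (1 / (e : ℝ)) := by
    rw [hs]
    have := Nat.ceil_lt_add_one (show (0 : ℝ) ≤ (D : ℝ) ^ (1 / (e : ℝ)) by positivity)
    linarith
  have hDs : (D : ℝ) ≤ (s : ℝ) ^ e := by
    have h1 : (D : ℝ) = ((D : ℝ) ^ (1 / (e : ℝ))) ^ e := by
      rw [← Real.rpow_natCast, ← Real.rpow_mul hD0.le, one_div_mul_cancel ha0.ne', Real.rpow_one]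
    calc (D : ℝ) = ((D : ℝ) ^ (1 / (e : ℝ))) ^ e := h1
      _ ≤ (s : ℝ) ^ e := pow_le_pow_left₀ (by positivity) hs1 _
  refine ⟨K * s, Nat.le_mul_of_pos_right _ hs1', ?_, ?_⟩
  · have h1 : D ≤ s ^ e := by exact_mod_cast hDs
    exact h1.trans (Nat.pow_le_pow_left (Nat.le_mul_of_pos_left _ hK) _)
  · push_cast
    have hK0 : (0 : ℝ) ≤ K := Nat.cast_nonneg _
    nlinarith [mul_le_mul_of_nonneg_left hs2 hK0]

/-- the equal height form in dimension `k` for a family of fields `L i` with weights `M i` -/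
def PtHu {K Ω I : Type} [Field K] [Field Ω] [CharZero Ω] [Algebra K Ω]
    (L : I → IntermediateField K Ω) (M : I → ℝ) (Λ : Subgroup Ωˣ) (k : ℕ) : Prop :=
  ∀ δ : ℝ, 0 < δ → ∃ c : ℝ, 0 < c ∧ ∀ i : I, ∀ γ : Fin k → Ωˣ, IndM Λ γ → ∀ h : ℝ,
    (∀ i, absLogHeight₁ (γ i : Ω) ≤ h) →
    c ≤ M i ^ δ * ((degP (L i) γ : ℝ) ^ (1 / (k : ℝ) + δ) * h)

/-- the product form for a family of fields -/
theorem ptb_g {K Ω I : Type} [Field K] [NumberField K] [Field Ω] [CharZero Ω] [IsAlgClosed Ω]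
    [Algebra K Ω] [IsGalois K Ω] (Λ : Subgroup Ωˣ) (L : I → IntermediateField K Ω) (M : I → ℝ)
    (hM : ∀ i, 1 ≤ M i) (hP1 : PtHu L M Λ 1) (k : ℕ) (hk : 1 ≤ k) (hPk : PtHu L M Λ k)
    (ε : ℝ) (hε : 0 < ε) : ∃ c : ℝ, 0 < c ∧ ∀ i, PtB (L i) Λ k (1 + ε) (c / M i ^ ε) := by
  have halg : Algebra.IsAlgebraic K Ω := inferInstance
  have hk0 : (0 : ℝ) < k := by exact_mod_cast hk
  obtain ⟨δ, hδ⟩ : ∃ δ : ℝ, δ = min 1 (min (ε / (2 * (k : ℝ) ^ 2)) (ε / k)) := ⟨_, rfl⟩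
  have hδ0 : 0 < δ := by
    rw [hδ]
    exact lt_min one_pos (lt_min (by positivity) (by positivity))
  have hδ1 : δ ≤ 1 := by
    rw [hδ]
    exact min_le_left _ _
  have hδ2 : δ ≤ ε / (2 * (k : ℝ) ^ 2) := by
    rw [hδ]
    exact (min_le_right _ _).trans (min_le_left _ _)
  have hδ3 : k * δ ≤ ε := by
    have h1 : δ ≤ ε / k := by
      rw [hδ]
      exact (min_le_right _ _).trans (min_le_right _ _)
    rw [le_div_iff₀ hk0] at h1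
    linarith
  obtain ⟨c₁, hc₁, h1⟩ := hP1 δ hδ0
  obtain ⟨c₂, hc₂, h2⟩ := hPk δ hδ0
  obtain ⟨c₃, hc₃, h3⟩ := root_trick_u k hk ε hε c₁ c₂ hc₁ hc₂
  refine ⟨c₃, hc₃, fun i => ?_⟩
  have hm1 : 1 ≤ M i := hM i
  have hm0 : 0 < M i := by linarith
  have hMM : (1 : ℝ) ≤ M i ^ δ := Real.one_le_rpow hm1 hδ0.le
  have hM0 : (0 : ℝ) < M i ^ δ := by linarith
  have h4 := h3 K Ω (L i) Λ (M i ^ δ) hMM (fun γ hγ => by
    rw [div_le_iff₀ hM0, mul_comm]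
    refine (h1 i γ hγ (absLogHeight₁ (γ 0 : Ω)) (fun i => by
      rw [Subsingleton.elim i 0])).trans (mul_le_mul_of_nonneg_left ?_ hM0.le)
    refine mul_le_mul_of_nonneg_right ?_ (ht_nonneg _)
    refine Real.rpow_le_rpow_of_exponent_le ?_ ?_
    · exact_mod_cast degP_one (L i) γ
    · push_cast
      linarith) (fun γ hγ h hh => by
    rw [div_le_iff₀ hM0, mul_comm]
    refine (h2 i γ hγ h hh).trans (mul_le_mul_of_nonneg_left ?_ hM0.le)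
    have hh0 : 0 ≤ h := (ht_nonneg _).trans (hh ⟨0, hk⟩)
    refine mul_le_mul_of_nonneg_right ?_ hh0
    refine Real.rpow_le_rpow_of_exponent_le ?_ (by linarith)
    exact_mod_cast degP_one (L i) γ)
  intro γ hγ
  refine le_trans ?_ (h4 γ hγ)
  refine div_le_div_of_nonneg_left hc₃.le (by positivity) ?_
  rw [← Real.rpow_natCast, ← Real.rpow_mul hm0.le]
  refine Real.rpow_le_rpow_of_exponent_le hm1 ?_
  rw [mul_comm]
  exact hδ3

/-- the index set of the family: levels prime to `S` and the fields covered by them -/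
structure LvU {K : Type} (Ω : Type) [Field K] [Field Ω] [Algebra K Ω] {r : ℕ} (S : Finset ℕ)
    (b : Fin r → K) (NN : Set ℕ) : Type where
  N : ℕ
  L : IntermediateField K Ω
  one : 1 ≤ N
  cop : ∀ q ∈ S, ¬ q ∣ N
  cov : CovU S b NN N L

theorem fin_U {K Ω : Type} [Field K] [NumberField K] [Field Ω] [CharZero Ω] [IsAlgClosed Ω]
    [Algebra K Ω] [IsGalois K Ω] {r : ℕ} (S : Finset ℕ)
    (hS : ∀ p ∈ S, p.Prime) (b : Fin r → K) (NN : Set ℕ)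
    (hTow : ∀ k : ℕ, 1 ≤ k → TowU Ω S b k)
    (hEnd : ∀ k : ℕ, 1 ≤ k → EndU Ω b NN k) (Λ : Subgroup Ωˣ)
    (hΛ : ∀ x : Ωˣ, (x : Ω) ∈ DivG Ω b ↔ ∃ m : ℕ, 1 ≤ m ∧ x ^ m ∈ Λ) :
    ∀ n : ℕ, 1 ≤ n → PtHu (fun i : LvU Ω S b NN => i.L) (fun i => (i.N : ℝ)) Λ n := by
  classical
  have halg : Algebra.IsAlgebraic K Ω := inferInstance
  intro n
  induction n using Nat.strong_induction_on with
  | _ n ih =>
    intro hn δ hδ
    obtain ⟨C, hC⟩ := coreU (K := K) (Ω := Ω) n hn S hS b NN (hTow n hn) (hEnd n hn) Λ hΛ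
    have hn0 : (0 : ℝ) < n := by exact_mod_cast hn
    obtain ⟨e, he, hCe⟩ : ∃ e : ℕ, 1 ≤ e ∧ (C : ℝ) ≤ n * δ * e := by
      refine ⟨⌈(C : ℝ) / (n * δ)⌉₊ + 1, Nat.le_add_left _ _, ?_⟩
      have h1 := Nat.le_ceil ((C : ℝ) / (n * δ))
      rw [div_le_iff₀ (by positivity)] at h1
      have h2 : (0 : ℝ) < n * δ := by positivity
      push_cast
      nlinarith
    have he0 : (0 : ℝ) < e := by exact_mod_cast he
    -- the constants below `n`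
    obtain ⟨ε, hε⟩ : ∃ ε : ℝ, ε = 1 / (((e + 1 : ℕ) : ℝ) + 1) := ⟨_, rfl⟩
    have hε0 : 0 < ε := by
      rw [hε]
      positivity
    have hεe : e * ε ≤ 1 := by
      rw [hε, mul_one_div, div_le_one (by positivity)]
      push_cast
      linarith
    have hk : ∀ k : ℕ, ∃ c : ℝ, 0 < c ∧ (1 ≤ k → k < n → ∀ i : LvU Ω S b NN,
        PtB i.L Λ k (1 + ε) (c / (i.N : ℝ) ^ ε)) := by
      intro k
      by_cases hk1 : 1 ≤ k ∧ k < n
      · obtain ⟨c, hc, h⟩ := ptb_g Λ (fun i : LvU Ω S b NN => i.L) (fun i => (i.N : ℝ))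
          (fun i => by exact_mod_cast i.one) (ih 1 (by omega) le_rfl) k hk1.1
          (ih k hk1.2 hk1.1) ε hε0
        exact ⟨c, hc, fun _ _ => h⟩
      · exact ⟨1, one_pos, fun h1 h2 => absurd ⟨h1, h2⟩ hk1⟩
    choose cf hcf hcP using hk
    obtain ⟨c₀, hc₀, hc₀le⟩ : ∃ c₀ : ℝ, 0 < c₀ ∧ ∀ k ≤ n, c₀ ≤ cf k := by
      obtain ⟨k₀, -, hmin⟩ := Finset.exists_min_image (Finset.range (n + 1)) cf
        ⟨0, Finset.mem_range.2 (Nat.succ_pos n)⟩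
      exact ⟨cf k₀, hcf k₀, fun k hkn => hmin k (Finset.mem_range.2 (by omega))⟩
    obtain ⟨K₀, hK⟩ := hC e c₀ hc₀
    obtain ⟨k, hk⟩ : ∃ k : ℕ, k = max K₀ 1 := ⟨_, rfl⟩
    have hk1 : 1 ≤ k := by rw [hk]; exact le_max_right _ _
    have hk0 : K₀ ≤ k := by rw [hk]; exact le_max_left _ _
    have hk1' : (1 : ℝ) ≤ k := by exact_mod_cast hk1
    have hB1 : (1 : ℝ) ≤ (2 * (k : ℝ)) ^ C := one_le_pow₀ (by linarith)
    have hB0 : (0 : ℝ) < (2 * (k : ℝ)) ^ C := by linarith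
    refine ⟨((2 * (k : ℝ)) ^ C)⁻¹, by positivity, ?_⟩
    intro i γ hγ h hh
    obtain ⟨N₁, hN₁⟩ : ∃ N₁ : ℕ, N₁ = i.N := ⟨_, rfl⟩
    obtain ⟨D, hD⟩ : ∃ D : ℕ, D = degP i.L γ := ⟨_, rfl⟩
    have hD1 : 1 ≤ D := by rw [hD]; exact degP_one i.L γ
    have hN1 : 1 ≤ N₁ := by rw [hN₁]; exact i.one
    have hD1' : (1 : ℝ) ≤ D := by exact_mod_cast hD1
    have hD0 : (0 : ℝ) < D := by linarith
    have hN1' : (1 : ℝ) ≤ N₁ := by exact_mod_cast hN1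
    have hN0 : (0 : ℝ) < N₁ := by linarith
    have hDN1 : (1 : ℝ) ≤ (D : ℝ) * N₁ := by nlinarith
    have hh0 : 0 ≤ h := (ht_nonneg _).trans (hh ⟨0, hn⟩)
    obtain ⟨Z, hZk, hDZ, hZ⟩ := cnv_choose k e (D * N₁) he hk1 (Nat.mul_pos hD1 hN1)
    have hZ1 : 1 ≤ Z := hk1.trans hZk
    have hZ1' : (1 : ℝ) ≤ Z := by exact_mod_cast hZ1
    have hDZ1 : D ≤ Z ^ e := (Nat.le_mul_of_pos_right D hN1).trans hDZ
    have hNZ1 : N₁ ≤ Z ^ e := (Nat.le_mul_of_pos_left N₁ hD1).trans hDZ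
    have hlow : ∀ j : ℕ, 1 ≤ j → j < n →
        PtB i.L Λ j (1 + 1 / (((e + 1 : ℕ) : ℝ) + 1)) (c₀ / (Z : ℝ) ^ 3) := by
      intro j hj hjn
      rw [← hε]
      intro γ' hγ'
      refine le_trans ?_ (hcP j hj hjn i γ' hγ')
      rw [← hN₁]
      refine div_le_div₀ (hcf j).le (hc₀le j hjn.le) (by positivity) ?_
      calc (N₁ : ℝ) ^ ε ≤ ((Z : ℝ) ^ e) ^ ε :=
            Real.rpow_le_rpow hN0.le (by exact_mod_cast hNZ1) hε0.le
        _ = (Z : ℝ) ^ ((e : ℝ) * ε) := by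
            rw [← Real.rpow_natCast, ← Real.rpow_mul (by positivity)]
        _ ≤ (Z : ℝ) ^ ((3 : ℕ) : ℝ) := by
            refine Real.rpow_le_rpow_of_exponent_le hZ1' ?_
            push_cast
            linarith
        _ = (Z : ℝ) ^ 3 := Real.rpow_natCast _ _
    have h1 := hK Z (hk0.trans hZk) N₁ hN1 (by rw [hN₁]; exact i.cop) hNZ1 i.L
      (by rw [hN₁]; exact i.cov) hlow γ hγ (by rw [← hD]; exact hDZ1) h hh
    rw [← hD] at h1 ⊢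
    show ((2 * (k : ℝ)) ^ C)⁻¹ ≤ (i.N : ℝ) ^ δ * ((D : ℝ) ^ (1 / (n : ℝ) + δ) * h)
    rw [← hN₁]
    have h2 : (((D * N₁ : ℕ) : ℝ) ^ (1 / (e : ℝ))) ^ C ≤
        (N₁ : ℝ) ^ (n * δ) * (D : ℝ) ^ (n * δ) := by
      push_cast
      rw [← Real.rpow_natCast, ← Real.rpow_mul (by positivity),
        ← Real.mul_rpow hN0.le hD0.le, mul_comm (N₁ : ℝ)]
      refine Real.rpow_le_rpow_of_exponent_le hDN1 ?_
      rw [one_div, inv_mul_le_iff₀ he0, mul_comm]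
      exact hCe
    have h3 : (Z : ℝ) ^ C ≤ (2 * (k : ℝ)) ^ C * ((N₁ : ℝ) ^ (n * δ) * (D : ℝ) ^ (n * δ)) := by
      calc (Z : ℝ) ^ C ≤ (2 * k * ((D * N₁ : ℕ) : ℝ) ^ (1 / (e : ℝ))) ^ C :=
            pow_le_pow_left₀ (Nat.cast_nonneg _) hZ _
        _ = (2 * (k : ℝ)) ^ C * (((D * N₁ : ℕ) : ℝ) ^ (1 / (e : ℝ))) ^ C := mul_pow _ _ _
        _ ≤ _ := mul_le_mul_of_nonneg_left h2 hB0.le
    obtain ⟨X, hX⟩ : ∃ X : ℝ, X = (N₁ : ℝ) ^ δ * ((D : ℝ) ^ (1 / (n : ℝ) + δ) * h) := ⟨_, rfl⟩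
    have hX0 : 0 ≤ X := by rw [hX]; positivity
    have hXn : X ^ n = ((N₁ : ℝ) ^ (n * δ) * (D : ℝ) ^ (n * δ)) * ((D : ℝ) * h ^ n) := by
      rw [hX, mul_pow, mul_pow, ← Real.rpow_natCast, ← Real.rpow_mul hN0.le, ← Real.rpow_natCast,
        ← Real.rpow_mul hD0.le]
      have h4 : (1 / (n : ℝ) + δ) * n = n * δ + 1 := by
        rw [add_mul, one_div_mul_cancel hn0.ne']
        ring
      rw [h4, Real.rpow_add hD0, Real.rpow_one, mul_comm δ]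
      ring
    have h5 : 1 < (2 * (k : ℝ)) ^ C * X ^ n := by
      rw [hXn]
      calc 1 < (Z : ℝ) ^ C * ((D : ℝ) * h ^ n) := h1
        _ ≤ ((2 * (k : ℝ)) ^ C * ((N₁ : ℝ) ^ (n * δ) * (D : ℝ) ^ (n * δ))) *
            ((D : ℝ) * h ^ n) := mul_le_mul_of_nonneg_right h3 (by positivity)
        _ = _ := by ring
    rw [← hX]
    by_contra hcon
    rw [not_le] at hcon
    have hc1 : ((2 * (k : ℝ)) ^ C)⁻¹ ≤ 1 := inv_le_one_of_one_le₀ hB1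
    have hX1 : X ≤ 1 := hcon.le.trans hc1
    have h6 : X ^ n ≤ X := by
      calc X ^ n ≤ X ^ 1 := pow_le_pow_of_le_one hX0 hX1 hn
        _ = X := pow_one X
    have h7 : (2 * (k : ℝ)) ^ C * X ^ n < 1 := by
      calc (2 * (k : ℝ)) ^ C * X ^ n ≤ (2 * (k : ℝ)) ^ C * X :=
            mul_le_mul_of_nonneg_left h6 hB0.le
        _ < (2 * (k : ℝ)) ^ C * ((2 * (k : ℝ)) ^ C)⁻¹ := mul_lt_mul_of_pos_left hcon hB0
        _ = 1 := mul_inv_cancel₀ hB0.ne'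
    linarith

end Pool.Agent.H33.PT
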