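import Pool.Agent.H33.PT.Hpt
import Pool.Agent.H33.PT.FiU
import Pool.Agent.H33.PT.Reu

/-!
# POINTS THEOREM, Hpv: the points theorem over the fields `Nm K Λ S m`, uniformly in `m`
-/

set_option autoImplicit false
set_option linter.unusedSectionVars false

open NumberField IntermediateField

namespace Pool.Agent.H33.PT

open Pool.Agent.H72.RM Pool.Agent.H72.PB Pool.Agent.H92.SR Pool.Agent.H11.TH Pool.Agent.H11.TS
  Pool.Agent.H28.PT4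

theorem hpt_u {K Ω : Type} [Field K] [NumberField K] [Field Ω] [CharZero Ω] [IsAlgClosed Ω]
    [Algebra K Ω] [IsGalois K Ω] (Λ : Subgroup Ωˣ) (hΛ : Λ.FG) (S : Finset ℕ)
    (hS : ∀ p ∈ S, p.Prime) (k : ℕ) (hk : 1 ≤ k) (δ : ℝ) (hδ : 0 < δ) :
    ∃ c : ℝ, 0 < c ∧ ∀ m : ℕ, 1 ≤ m → ∀ γ : Fin k → Ωˣ, IndM Λ γ → ∀ h : ℝ,
      (∀ i, absLogHeight₁ (γ i : Ω) ≤ h) →
      c ≤ (m : ℝ) ^ δ * ((degP (Nm K Λ S m) γ : ℝ) ^ (1 / (k : ℝ) + δ) * h) := by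
  refine red_u Λ hΛ S k hk δ hδ ?_
  intro K₁ _ _ _ _ r b hb hind
  obtain ⟨c, hc, h⟩ := fin_U (K := K₁) (Ω := Ω) S hS b (PrS S)
    (fun k _ => towU S hS b hb hind k)
    (fun k hk => endU_ab b hb hind (PrS S) (fun n hn => hn.1) k hk) (grpB Ω b hb)
    (mem_grpB b hb) k hk δ hδ
  refine ⟨c, hc, fun m hm γ hγ t ht => ?_⟩
  obtain ⟨M₀, N₁, hM₀, hN₁, hmN⟩ := split_S S hS m hm
  have h1 := h ⟨N₁, NSm Ω b S m, hN₁.1, hN₁.2, covU_NSm S hS b hb m M₀ N₁ hM₀ hN₁.1 hmN⟩ γ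
    (ind_grpB b hb γ hγ) t ht
  have ht0 : 0 ≤ t := (ht_nonneg _).trans (ht ⟨0, hk⟩)
  refine h1.trans (mul_le_mul_of_nonneg_right ?_
    (mul_nonneg (Real.rpow_nonneg (Nat.cast_nonneg _) _) ht0))
  refine Real.rpow_le_rpow (Nat.cast_nonneg _) ?_ hδ.le
  have h2 : N₁ ≤ m := by
    rw [hmN]
    exact Nat.le_mul_of_pos_left N₁ hM₀.1
  show (N₁ : ℝ) ≤ (m : ℝ)
  exact_mod_cast h2

end Pool.Agent.H33.PT
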