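import Pool.Agent.H11.TH.FinC
import Pool.Agent.H11.TS.Asm

/-!
# POINTS THEOREM, Spu: the bound for subvarieties of sparse hypersurfaces, uniformly for a family of fields

`thm_sparse` (H11/TH/FinC, helper11) for a family of fields `L₀ m` with weights `W m`.
-/

set_option autoImplicit false
set_option linter.unusedSectionVars false

open NumberField MvPolynomial

namespace Pool.Agent.H33.PT

open Pool.Agent.H72.PB Pool.Agent.H11.TH Pool.Agent.H11.TS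

variable {K Ω : Type} [Field K] [NumberField K] [Field Ω] [CharZero Ω] [IsAlgClosed Ω]
  [Algebra K Ω] [IsGalois K Ω]

theorem sparse_g (Λ : Subgroup Ωˣ) (L₀ : ℕ → IntermediateField K Ω) (W : ℕ → ℝ)
    (hW : ∀ m : ℕ, 1 ≤ m → 1 ≤ W m)
    (hb : ∀ C : ℕ, ∃ c : ℝ, 0 < c ∧ ∀ m : ℕ, 1 ≤ m → ∀ γ : Ωˣ, (∀ k : ℕ, 1 ≤ k → γ ^ k ∉ Λ) →
      dg (L₀ m) (γ : Ω) ≤ C → c ≤ W m * absLogHeight₁ (γ : Ω))
    (N d : ℕ) :
    ∃ c : ℝ, 0 < c ∧ ∀ l : ℕ, 1 ≤ l → ∀ (n : ℕ) (Γ : Subgroup (Tor Ω n)),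
      (∀ x : Tor Ω n, (∀ l, x l ∈ Λ) → x ∈ Γ) →
      ∀ V : Set (Tor Ω n), (idl V).IsPrime → Transv K Γ V →
      ∀ (D : ℕ) (m : Fin N → Fin n → ℕ) (g : Fin N → Ω), (∀ j l, m j l ≤ D) →
      (∀ j, dg (L₀ l) (g j) ≤ d) →
      (∑ j, term (m j) (g j)) ≠ 0 → (∑ j, term (m j) (g j)) ∈ idl V →
      ∀ θ : ℝ, idl {x | x ∈ V ∧ ht x ≤ θ} ≤ idl V → c ≤ W l * (D * θ) := by
  classical
  obtain ⟨ε, Q, C, hε, hQ, hP⟩ := prop_P K Ω N d
  obtain ⟨c₁, hc₁, hbdd⟩ := hb C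
  have hQr : (0 : ℝ) < Q := by exact_mod_cast hQ
  refine ⟨min ε (c₁ / Q), lt_min hε (div_pos hc₁ hQr), ?_⟩
  intro lv hlv n Γ hΓ1 V hV htr D m g hm hg hp0 hpV θ hθ
  obtain ⟨X, hX⟩ : ∃ X : Set (Tor Ω n), X = {x | x ∈ V ∧ ht x ≤ θ} := ⟨_, rfl⟩
  rw [← hX] at hθ
  have hXV : X ⊆ V := by
    rw [hX]
    exact fun x hx => hx.1
  obtain ⟨x₁, hx₁⟩ : X.Nonempty := by
    by_contra hcon
    rw [Set.not_nonempty_iff_eq_empty] at hcon
    apply hV.ne_top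
    rw [eq_top_iff]
    refine le_trans ?_ hθ
    intro p _
    unfold idl
    rw [mem_vanishingIdeal_iff]
    rintro _ ⟨x, hx, rfl⟩
    rw [hcon] at hx
    exact absurd hx (Set.notMem_empty x)
  have hxθ : ∀ x ∈ X, ht x ≤ θ := by
    rw [hX]
    exact fun x hx => hx.2
  have hθ0 : 0 ≤ θ := by
    refine le_trans ?_ (hxθ x₁ hx₁)
    unfold ht
    exact Finset.sum_nonneg fun i _ => ht_nonneg _
  have hWl := hW lv hlv
  have hDθ : 0 ≤ (D : ℝ) * θ := by positivity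
  by_contra hcon
  rw [not_le] at hcon
  have h1 : (D : ℝ) * θ ≤ ε := by
    refine le_trans ?_ (hcon.trans_le (min_le_left _ _)).le
    nlinarith
  -- the terms with nonzero coefficients
  have hsum : pol (fun j : {j : Fin N // g j ≠ 0} => m j.1)
      (fun j : {j : Fin N // g j ≠ 0} => Units.mk0 (g j.1) j.2) = ∑ j, term (m j) (g j) := by
    unfold pol
    have h2 : ∀ j : Fin N, j ∉ Finset.univ.filter (fun j => g j ≠ 0) →
        term (m j) (g j) = (0 : MvPolynomial (Fin n) Ω) := by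
      intro j hj
      have h3 : g j = 0 := by
        by_contra h4
        exact hj (Finset.mem_filter.2 ⟨Finset.mem_univ _, h4⟩)
      unfold term
      rw [h3, map_zero]
    rw [← Finset.sum_subset (Finset.filter_subset (fun j => g j ≠ 0) Finset.univ)
      (fun j _ hj => h2 j hj)]
    exact (Finset.sum_subtype (Finset.univ.filter (fun j => g j ≠ 0))
      (fun j => by simp) (fun j => (term (m j) (g j) : MvPolynomial (Fin n) Ω))).symm
  obtain ⟨e, γ, he0, heQ, heV, heC⟩ := hP (L₀ lv) n V X hV hXV hθ {j : Fin N // g j ≠ 0}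
    ((Fintype.card_subtype_le _).trans (by rw [Fintype.card_fin])) (fun j => m j.1) D
    (fun j l => hm j.1 l)
    (fun x hx => (mul_le_mul_of_nonneg_left (hxθ x hx) (Nat.cast_nonneg D)).trans h1)
    (fun j => Units.mk0 (g j.1) j.2) 1 le_rfl (fun j => by
      rw [pow_one]
      exact hg j.1) (by rw [hsum]; exact hp0) (by rw [hsum]; exact hpV)
  rw [pow_one] at heC
  have hsat := not_sat (K := K) Λ Γ hΓ1 V hV htr e he0 γ heV
  have h2 := hbdd lv hlv γ hsat heC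
  have h3 : absLogHeight₁ (γ : Ω) ≤ (Q * D : ℝ) * θ := by
    rw [← heV x₁ (hXV hx₁)]
    refine (ht_ch (K := K) e x₁ (Q * D : ℝ) ?_).trans
      (mul_le_mul_of_nonneg_left (hxθ x₁ hx₁) (by positivity))
    intro l
    have h4 := heQ l
    have h5 : ((|e l| : ℤ) : ℝ) ≤ (((Q : ℤ) * (D : ℤ) : ℤ) : ℝ) := by exact_mod_cast h4
    push_cast at h5
    exact h5
  have h4 := hcon.trans_le (min_le_right _ _)
  rw [lt_div_iff₀ hQr] at h4
  have h5 : W lv * absLogHeight₁ (γ : Ω) ≤ W lv * ((Q * D : ℝ) * θ) :=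
    mul_le_mul_of_nonneg_left h3 (by linarith)
  nlinarith

/-- `[L(y) : L]` is at most the number of conjugates -/
theorem degP_one_le {L : IntermediateField K Ω} (γ : Ωˣ) :
    degP L (fun _ : Fin 1 => γ) ≤ dg L (γ : Ω) := by
  have halg : Algebra.IsAlgebraic K Ω := inferInstance
  have halgL : Algebra.IsAlgebraic L Ω := Algebra.IsAlgebraic.tower_top (K := K) L
  have h1 : (Set.range fun i : Fin 1 => (((fun _ : Fin 1 => γ) i : Ωˣ) : Ω)) = {(γ : Ω)} := by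
    ext y
    constructor
    · rintro ⟨i, rfl⟩
      rfl
    · intro h
      exact ⟨0, (Set.mem_singleton_iff.1 h).symm⟩
  unfold degP
  rw [h1, IntermediateField.adjoin.finrank (Algebra.IsIntegral.isIntegral _)]
  exact natDegree_le_dg L (γ : Ω)

/-- the form with a loss `m^ε` -/
theorem sparse_u (Λ : Subgroup Ωˣ) (L₀ : ℕ → IntermediateField K Ω)
    (hPT : ∀ δ : ℝ, 0 < δ → ∃ c : ℝ, 0 < c ∧ ∀ m : ℕ, 1 ≤ m →
      ∀ γ : Fin 1 → Ωˣ, IndM Λ γ → ∀ h : ℝ, (∀ i, absLogHeight₁ (γ i : Ω) ≤ h) →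
        c ≤ (m : ℝ) ^ δ * ((degP (L₀ m) γ : ℝ) ^ (1 / ((1 : ℕ) : ℝ) + δ) * h))
    (N d : ℕ) (ε : ℝ) (hε : 0 < ε) :
    ∃ c : ℝ, 0 < c ∧ ∀ l : ℕ, 1 ≤ l → ∀ (n : ℕ) (Γ : Subgroup (Tor Ω n)),
      (∀ x : Tor Ω n, (∀ l, x l ∈ Λ) → x ∈ Γ) →
      ∀ V : Set (Tor Ω n), (idl V).IsPrime → Transv K Γ V →
      ∀ (D : ℕ) (m : Fin N → Fin n → ℕ) (g : Fin N → Ω), (∀ j l, m j l ≤ D) →
      (∀ j, dg (L₀ l) (g j) ≤ d) →
      (∑ j, term (m j) (g j)) ≠ 0 → (∑ j, term (m j) (g j)) ∈ idl V →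
      ∀ θ : ℝ, idl {x | x ∈ V ∧ ht x ≤ θ} ≤ idl V → c ≤ (l : ℝ) ^ ε * (D * θ) := by
  refine sparse_g Λ L₀ (fun m => (m : ℝ) ^ ε)
    (fun m hm => Real.one_le_rpow (by exact_mod_cast hm) hε.le) ?_ N d
  intro C
  obtain ⟨c, hc, h⟩ := hPT ε hε
  have hC0 : (0 : ℝ) < ((C + 1 : ℕ) : ℝ) ^ (1 / ((1 : ℕ) : ℝ) + ε) := by positivity
  refine ⟨c / ((C + 1 : ℕ) : ℝ) ^ (1 / ((1 : ℕ) : ℝ) + ε), by positivity, fun m hm γ hγ hd => ?_⟩
  have hind : IndM Λ (fun _ : Fin 1 => γ) := by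
    intro a ha k hk hmem
    rw [Fin.prod_univ_one, ← zpow_natCast, ← zpow_mul] at hmem
    have ha0 : a 0 * (k : ℤ) ≠ 0 := by
      refine mul_ne_zero ?_ (by exact_mod_cast (by omega : k ≠ 0))
      intro h0
      apply ha
      funext i
      rw [Subsingleton.elim i 0]
      exact h0
    rcases Int.natAbs_eq (a 0 * (k : ℤ)) with h1 | h1
    · rw [h1, zpow_natCast] at hmem
      exact hγ _ (Int.natAbs_pos.2 ha0) hmem
    · rw [h1, zpow_neg, zpow_natCast] at hmem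
      exact hγ _ (Int.natAbs_pos.2 ha0) ((Subgroup.inv_mem_iff Λ).1 hmem)
  have h2 := h m hm (fun _ => γ) hind (absLogHeight₁ (γ : Ω)) (fun _ => le_rfl)
  rw [div_le_iff₀ hC0]
  refine h2.trans ?_
  have hm0 : (0 : ℝ) ≤ (m : ℝ) ^ ε := Real.rpow_nonneg (Nat.cast_nonneg _) _
  rw [mul_assoc]
  refine mul_le_mul_of_nonneg_left ?_ hm0
  rw [mul_comm (absLogHeight₁ (γ : Ω))]
  refine mul_le_mul_of_nonneg_right ?_ (ht_nonneg _)
  refine Real.rpow_le_rpow (Nat.cast_nonneg _) ?_ (by positivity)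
  have h3 := degP_one_le (L := L₀ m) γ
  exact_mod_cast (by omega : degP (L₀ m) (fun _ : Fin 1 => γ) ≤ C + 1)

end Pool.Agent.H33.PT
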