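import Pool.Agent.H11.TH.FinC
import Pool.Agent.H33.PT.Hpv
import Pool.Agent.H33.PT.Spu

/-!
# The weak form of Rémond's conjecture for all subvarieties of tori and radicals with finitely many primes

`G = 𝔾_m^n`. Let `K` be a number field, `Λ ⊂ K̄*` finitely generated and `S` a finite set of primes. For `l ≥ 1` let `R_l` be the group of
all `x` with `x^(l M) t ∈ Λ` for a root of unity `t` and an integer `M ≥ 1` all of whose prime factors lie in `S`. So `R_1` is the group
of all `S`-radicals of `Λ` and every torsion point and every finite extension of `Λ` in its saturation is in some `R_l`.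
* For all `k` and `ε > 0` there is `c > 0` with `l^ε [K(R_l)(γ) : K(R_l)]^(1+ε) h(γ_1) ... h(γ_k) ≥ c` for all `l ≥ 1` and all
  `γ ∈ 𝔾_m^k` whose coordinates are multiplicatively independent modulo the saturation of `Λ`.
* For all `N`, `d` and `ε > 0` there is `c > 0`, independent of `n`, with `l^ε D μ_ess(V) ≥ c` for all `l ≥ 1`, all `Γ ≥ Λ^n` and all
  `Γ`-transverse subvarieties `V` of `𝔾_m^n` on which some nonzero sum of `N` terms `g_j x^(m_j)` vanishes, `m_j ≤ D`,
  `g_j` of degree at most `d` over `K(R_l)`.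
* For all `n` and `ε > 0` there is `c > 0` with `l^ε ω_L(V)^(1+ε) μ_ess(V) ≥ c` for all `l ≥ 1`, all fields `K ⊂ L ⊂ K(R_l)`, all groups
  `Γ ≥ Λ^n` and all `Γ`-transverse subvarieties `V ≠ 𝔾_m^n` of any dimension; in particular with `L = K(Γ)` for all groups
  `Λ^n ≤ Γ ≤ R_l^n`.
-/

set_option autoImplicit false
set_option linter.unusedSectionVars false

open MvPolynomial Filter Topology

namespace Pool.Agent.Results.MP_187c26_nt.EpsilonLehmer

/-- The group of points over the algebraic closure of `K` of the torus `𝔾_m^n`. -/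
abbrev Torus (K : Type) [Field K] (n : ℕ) : Type := Fin n → (AlgebraicClosure K)ˣ

section Definitions

variable {K : Type} [Field K] [NumberField K] {n : ℕ}

/-- The coordinate vector of a point of `𝔾_m^n`. -/
def coords (x : Torus K n) : Fin n → AlgebraicClosure K := fun i => (x i : AlgebraicClosure K)

/-- The canonical height `h_G(x) = ∑ h(x_i)`, with `h` the absolute logarithmic Weil height. -/
noncomputable def height (x : Torus K n) : ℝ := ∑ i, NumberField.absLogHeight₁ (coords x i)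

/-- The ideal of all polynomials over the algebraic closure vanishing on `V`. -/
noncomputable def idealOf (V : Set (Torus K n)) :
    Ideal (MvPolynomial (Fin n) (AlgebraicClosure K)) :=
  vanishingIdeal (AlgebraicClosure K) (coords '' V)

/-- `Z` is a Zariski closed subset of `𝔾_m^n` defined over `L`. -/
def IsClosedOver (L : IntermediateField K (AlgebraicClosure K)) (Z : Set (Torus K n)) : Prop :=
  ∃ J : Ideal (MvPolynomial (Fin n) L), Z = {x | coords x ∈ zeroLocus (AlgebraicClosure K) J}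

/-- Subvarieties: irreducible closed subsets (over the algebraic closure). -/
def IsSubvariety (V : Set (Torus K n)) : Prop := IsClosedOver ⊤ V ∧ (idealOf V).IsPrime

/-- All irreducible components of `Z` have dimension `d`. -/
def IsEquidimensional (Z : Set (Torus K n)) (d : ℕ) : Prop :=
  Z.Nonempty ∧ ∀ P ∈ (idealOf Z).minimalPrimes,
    ringKrullDim (MvPolynomial (Fin n) (AlgebraicClosure K) ⧸ P) = d

/-- The space of functions on `Z` that are restrictions of polynomials of degree at most `m`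
in each variable, that is, of global sections of `O(m,...,m)` on `(ℙ^1)^n`. -/
noncomputable def sections (Z : Set (Torus K n)) (m : ℕ) :
    Submodule (AlgebraicClosure K) (Z → AlgebraicClosure K) :=
  (restrictDegree (Fin n) (AlgebraicClosure K) m).map
    (LinearMap.pi fun z : Z => (aeval (coords (z : Torus K n))).toLinearMap)

/-- `Z`, of pure dimension `d`, has degree `δ` with respect to `O(1,...,1)` on `(ℙ^1)^n`:
its Hilbert function is asymptotic to `δ m^d / d!`. -/
def HasDegree (Z : Set (Torus K n)) (d : ℕ) (δ : ℝ) : Prop :=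
  Tendsto (fun m : ℕ => (d.factorial : ℝ) *
    (Module.finrank (AlgebraicClosure K) (sections Z m) : ℝ) / (m : ℝ) ^ d) atTop (𝓝 δ)

/-- `ω = deg(Z)^(1/(n - dim Z))` for some equidimensional Zariski closed `Z ⊊ 𝔾_m^n` defined over `L` and
containing `V`. The obstruction index `ω_L(V)` is the minimum of these `ω`. -/
def ObstructionValue (L : IntermediateField K (AlgebraicClosure K)) (V : Set (Torus K n))
    (ω : ℝ) : Prop :=
  ∃ (Z : Set (Torus K n)) (d : ℕ) (δ : ℝ), IsClosedOver L Z ∧ Z ≠ Set.univ ∧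
    IsEquidimensional Z d ∧ V ⊆ Z ∧ HasDegree Z d δ ∧ ω = δ ^ (1 / ((n : ℝ) - d))

/-- The points of height at most `θ` are Zariski dense in `V`. The essential minimum `μ_ess(V)` is the
infimum of these `θ`. -/
def EssentialBound (V : Set (Torus K n)) (θ : ℝ) : Prop :=
  idealOf {x | x ∈ V ∧ height x ≤ θ} ≤ idealOf V

/-- The saturation of `Γ`. -/
def sat (Γ : Subgroup (Torus K n)) : Set (Torus K n) := {x | ∃ m : ℕ, 1 ≤ m ∧ x ^ m ∈ Γ}

/-- `V` is `Γ`-transverse: no proper `Γ`-torsion subvariety `B γ`, with `B` a connected algebraic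
subgroup and `γ` in the saturation of `Γ`, contains `V`. -/
def IsTransverse (Γ : Subgroup (Torus K n)) (V : Set (Torus K n)) : Prop :=
  ∀ (B : Subgroup (Torus K n)) (γ : Torus K n), IsSubvariety (B : Set (Torus K n)) → γ ∈ sat Γ →
    (fun b => b * γ) '' (B : Set (Torus K n)) ≠ Set.univ →
    ¬ V ⊆ (fun b => b * γ) '' (B : Set (Torus K n))

/-- The field `K(R_l)` generated over `K` by all `x` with `x^(l M) t ∈ Λ` for a root of unity `t` and an integer `M ≥ 1` all of whose
prime factors lie in `S`. -/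
noncomputable def radicalField (Λ : Subgroup (AlgebraicClosure K)ˣ) (S : Finset ℕ) (l : ℕ) :
    IntermediateField K (AlgebraicClosure K) :=
  IntermediateField.adjoin K {y | ∃ x : (AlgebraicClosure K)ˣ,
    (∃ M : ℕ, 1 ≤ M ∧ (∀ q : ℕ, q.Prime → q ∣ M → q ∈ S) ∧
      ∃ t : (AlgebraicClosure K)ˣ, (∃ k : ℕ, 1 ≤ k ∧ t ^ k = 1) ∧ x ^ (l * M) * t ∈ Λ) ∧
    y = (x : AlgebraicClosure K)}

/-- `y` has degree at most `d` over `L`. -/
def DegreeLE (L : IntermediateField K (AlgebraicClosure K)) (d : ℕ)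
    (y : AlgebraicClosure K) : Prop :=
  ∃ P : Polynomial L, P ≠ 0 ∧ P.natDegree ≤ d ∧ Polynomial.aeval y P = 0

end Definitions

/-- The bound for points of `𝔾_m^k` whose coordinates are multiplicatively independent modulo the
saturation of `Λ`. -/
def PointBound {K : Type} [Field K] [NumberField K] (Λ : Subgroup (AlgebraicClosure K)ˣ)
    (S : Finset ℕ) (k : ℕ) (ε c : ℝ) : Prop :=
  ∀ l : ℕ, 1 ≤ l → ∀ γ : Torus K k,
    (∀ a : Fin k → ℤ, a ≠ 0 → ∀ m : ℕ, 1 ≤ m → (∏ i, γ i ^ a i) ^ m ∉ Λ) →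
    c ≤ (l : ℝ) ^ ε *
      ((Module.finrank (radicalField Λ S l : IntermediateField K (AlgebraicClosure K))
        (IntermediateField.adjoin (radicalField Λ S l : IntermediateField K (AlgebraicClosure K))
          (Set.range (coords γ))) : ℝ) ^ (1 + ε) * ∏ i, NumberField.absLogHeight₁ (coords γ i))

/-- The bound for subvarieties on which a sum of `N` terms vanishes. -/
def SparseBound {K : Type} [Field K] [NumberField K] (Λ : Subgroup (AlgebraicClosure K)ˣ)
    (S : Finset ℕ) (N d : ℕ) (ε c : ℝ) : Prop :=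
  ∀ l : ℕ, 1 ≤ l → ∀ (n : ℕ) (Γ : Subgroup (Torus K n)),
    (∀ x : Torus K n, (∀ i, x i ∈ Λ) → x ∈ Γ) →
    ∀ V : Set (Torus K n), IsSubvariety V → IsTransverse Γ V →
    ∀ (D : ℕ) (m : Fin N → Fin n → ℕ) (g : Fin N → AlgebraicClosure K),
    (∀ j i, m j i ≤ D) → (∀ j, DegreeLE (radicalField Λ S l) d (g j)) →
    (∑ j, MvPolynomial.C (g j) * ∏ i, X i ^ m j i) ≠ 0 →
    (∑ j, MvPolynomial.C (g j) * ∏ i, X i ^ m j i) ∈ idealOf V →
    ∀ θ : ℝ, EssentialBound V θ → c ≤ (l : ℝ) ^ ε * (D * θ)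

/-- The bound for all subvarieties of `𝔾_m^n`. -/
def VarietyBound {K : Type} [Field K] [NumberField K] (Λ : Subgroup (AlgebraicClosure K)ˣ)
    (S : Finset ℕ) (n : ℕ) (ε c : ℝ) : Prop :=
  ∀ l : ℕ, 1 ≤ l → ∀ L : IntermediateField K (AlgebraicClosure K), L ≤ radicalField Λ S l →
    ∀ Γ : Subgroup (Torus K n), (∀ x : Torus K n, (∀ i, x i ∈ Λ) → x ∈ Γ) →
    ∀ V : Set (Torus K n), IsSubvariety V → IsTransverse Γ V →
    ∀ ω : ℝ, ObstructionValue L V ω → ∀ θ : ℝ, EssentialBound V θ →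
      1 ≤ ω ∧ c ≤ (l : ℝ) ^ ε * (ω ^ (1 + ε) * θ)

private theorem field_eq (K : Type) [Field K] [NumberField K]
    (Λ : Subgroup (AlgebraicClosure K)ˣ) (S : Finset ℕ) (l : ℕ) :
    (radicalField Λ S l : IntermediateField K (AlgebraicClosure K)) =
      Pool.Agent.H33.PT.Nm K Λ (S.filter Nat.Prime) l := by
  unfold radicalField Pool.Agent.H33.PT.Nm Pool.Agent.H11.TH.fld Pool.Agent.H33.PT.SRm
  congr 1
  ext y
  constructor
  · rintro ⟨x, ⟨M, hM, hMS, ht⟩, rfl⟩
    exact ⟨x, ⟨M, hM, fun q hq hqM => Finset.mem_filter.2 ⟨hMS q hq hqM, hq⟩, ht⟩, rfl⟩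
  · rintro ⟨x, ⟨M, hM, hMS, ht⟩, rfl⟩
    exact ⟨x, ⟨M, hM, fun q hq hqM => (Finset.mem_filter.1 (hMS q hq hqM)).1, ht⟩, rfl⟩

open Pool.Agent.H11.TH in
private theorem sparse (K : Type) [Field K] [NumberField K]
    (Λ : Subgroup (AlgebraicClosure K)ˣ) (hΛ : Λ.FG) (S : Finset ℕ) (N d : ℕ) (ε : ℝ)
    (hε : 0 < ε) : ∃ c : ℝ, 0 < c ∧ SparseBound Λ S N d ε c := by
  classical
  obtain ⟨c, hc, h⟩ := Pool.Agent.H33.PT.sparse_u (K := K) Λ
    (fun l => Pool.Agent.H33.PT.Nm K Λ (S.filter Nat.Prime) l)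
    (fun δ hδ => Pool.Agent.H33.PT.hpt_u (K := K) Λ hΛ (S.filter Nat.Prime)
      (fun p hp => (Finset.mem_filter.1 hp).2) 1 le_rfl δ hδ) N d ε hε
  refine ⟨c, hc, ?_⟩
  intro l hl n Γ hΓ V hV htr D m g hm hg hne hmem θ hθ
  have hterm : ∀ j, term (m j) (g j) = C (g j) * ∏ i, X i ^ m j i := by
    intro j
    unfold term
    rw [monomial_eq]
    congr 1
    rw [Finsupp.prod_fintype _ _ (fun i => pow_zero _)]
    rfl
  have h1 : (∑ j, term (m j) (g j)) = ∑ j, C (g j) * ∏ i, X i ^ m j i :=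
    Finset.sum_congr rfl fun j _ => hterm j
  refine h l hl n Γ hΓ V hV.2 ?_ D m g hm ?_ (by rw [h1]; exact hne) (by rw [h1]; exact hmem) θ hθ
  · intro B γ hB1 hB2 hγ hne' hsub
    exact htr B γ ⟨hB1, hB2⟩ hγ hne' hsub
  · intro j
    obtain ⟨P, hP0, hPd, hP⟩ := hg j
    show Pool.Agent.H72.PB.dg (Pool.Agent.H33.PT.Nm K Λ (S.filter Nat.Prime) l) (g j) ≤ d
    rw [← field_eq]
    refine (Pool.Agent.H72.PB.dg_le_of_poly (P.map (algebraMap _ (AlgebraicClosure K)))
      ?_ ?_ ?_).trans ?_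
    · rw [Ne, Polynomial.map_eq_zero]
      exact hP0
    · intro i
      rw [Polynomial.coeff_map]
      exact (P.coeff i).2
    · rw [Polynomial.eval_map_algebraMap]
      exact hP
    · rw [Polynomial.natDegree_map]
      exact hPd

/-- **The weak form of Rémond's conjecture for tori and radicals with finitely many primes.** For a finitely generated group `Λ`, a
finite set of primes `S` and the fields `K(R_l)`: the relative Lehmer problem with exponent `1 + ε` for points and for all subvarieties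
of `𝔾_m^n`, with a loss of only `l^ε` in the level `l`. -/
theorem result (K : Type) [Field K] [NumberField K] (Λ : Subgroup (AlgebraicClosure K)ˣ)
    (hΛ : Λ.FG) (S : Finset ℕ) (ε : ℝ) (hε : 0 < ε) :
    (∀ k : ℕ, ∃ c : ℝ, 0 < c ∧ PointBound Λ S k ε c) ∧
    (∀ N d : ℕ, ∃ c : ℝ, 0 < c ∧ SparseBound Λ S N d ε c) ∧
    ∀ n : ℕ, ∃ c : ℝ, 0 < c ∧ VarietyBound Λ S n ε c := by
  have hPT := fun (k : ℕ) (hk : 1 ≤ k) (δ : ℝ) (hδ : 0 < δ) =>
    Pool.Agent.H33.PT.hpt_u (K := K) Λ hΛ (S.filter Nat.Prime)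
      (fun p hp => (Finset.mem_filter.1 hp).2) k hk δ hδ
  refine ⟨fun k => ?_, fun N d => sparse K Λ hΛ S N d ε hε, fun n => ?_⟩
  · rcases Nat.eq_zero_or_pos k with rfl | hk
    · refine ⟨1, one_pos, fun l hl γ _ => ?_⟩
      rw [Finset.univ_eq_empty, Finset.prod_empty, mul_one]
      have hl1 : (1 : ℝ) ≤ (l : ℝ) ^ ε := Real.one_le_rpow (by exact_mod_cast hl) hε.le
      refine one_le_mul_of_one_le_of_one_le hl1 (Real.one_le_rpow ?_ (by linarith))
      have hfd : FiniteDimensional (radicalField Λ S l : IntermediateField K (AlgebraicClosure K))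
          (IntermediateField.adjoin (radicalField Λ S l : IntermediateField K (AlgebraicClosure K))
            (Set.range (coords γ))) := by
        have : Finite (Set.range (coords γ)) := Set.finite_range _ |>.to_subtype
        exact IntermediateField.finiteDimensional_adjoin fun x _ => Algebra.IsIntegral.isIntegral x
      exact_mod_cast Module.finrank_pos
    · obtain ⟨c, hc, h⟩ := Pool.Agent.H33.PT.ptb_u (K := K) Λ
        (fun l => Pool.Agent.H33.PT.Nm K Λ (S.filter Nat.Prime) l) hPT k hk ε hε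
      refine ⟨c, hc, fun l hl γ hγ => ?_⟩
      have h4 := h l hl γ hγ
      have hl0 : (0 : ℝ) < (l : ℝ) ^ ε :=
        Real.rpow_pos_of_pos (by exact_mod_cast hl) _
      rw [div_le_iff₀ hl0, mul_comm _ ((l : ℝ) ^ ε)] at h4
      change c ≤ (l : ℝ) ^ ε * ((Pool.Agent.H11.TS.degP
        (Pool.Agent.H33.PT.Nm K Λ (S.filter Nat.Prime) l) γ : ℝ) ^ (1 + ε) *
          ∏ i, NumberField.absLogHeight₁ (γ i : AlgebraicClosure K)) at h4
      rw [← field_eq] at h4
      exact h4
  · obtain ⟨c, hc, h⟩ := Pool.Agent.H33.PT.asm_u (K := K) Λ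
      (fun l => Pool.Agent.H33.PT.Nm K Λ (S.filter Nat.Prime) l) hPT n ε hε
    refine ⟨c, hc, ?_⟩
    intro l hl L hL Γ hΓ V hV htr ω hω θ hθ
    obtain ⟨Z, d', δ, hZ, hZne, hZd, hVZ, hZδ, rfl⟩ := hω
    rw [field_eq] at hL
    refine h l hl L hL Γ hΓ V hV.2 ?_ Z d' δ _ hZ hZne hZd hZδ hVZ le_rfl θ hθ
    intro B γ hB1 hB2 hγ hne hsub
    exact htr B γ ⟨hB1, hB2⟩ hγ hne hsub

end Pool.Agent.Results.MP_187c26_nt.EpsilonLehmer
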