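import Pool.Agent.H33.PT.Df
import Pool.Agent.H11.TS.FinB
import Pool.Agent.H84.PT2.Exc

/-!
# POINTS THEOREM, Exq: few exceptional primes

PROOF. `exc_primes` (H84/PT2/Exc) with `G := Ω ≃ₐ[L] Ω` acting on `A := Fin n → Ωˣ` (instances: `MulDistribMulAction G Ωˣ` (Units of a `MulSemiringAction`) and `Pi`; if there is no convenient instance define it locally, or use the group of the automorphisms of `Ω` over `K` which fix `L` and `mv`). `ρ = γ`. For `l ∈ P`: `adjoin L (γ^l) ≠ adjoin L γ`:
if every `σ` over `L` with `σ (γ^l) = γ^l` fixed `γ`, then `γ_i ∈ adjoin L (γ^l)` (Galois correspondence: `Ω / adjoin L (γ^l)` is Galois (algebraic closure, characteristic 0): `IntermediateField.fixedField_fixingSubgroup`/`InfiniteGalois.fixedField_fixingSubgroup`), contradiction; so there is `σ` with `(σ γ)^l = γ^l`, `σ γ ≠ γ`.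
The orbit of `γ` has `degP L γ` elements: it is in bijection with the `L`-embeddings `adjoin L (range γ) → Ω` (an embedding is determined by the images of the `γ_i` and extends to `Ω`), whose number is `finrank` (`AlgHom.card`, separable, `Ω` algebraically closed). Finite.
-/

set_option autoImplicit false
set_option linter.unusedSectionVars false

open NumberField

namespace Pool.Agent.H33.PT

open Pool.Agent.H11.TS

/-- the action of the automorphisms on the points -/
@[instance_reducible] private def ptAct {L₀ Ω : Type} [Field L₀] [Field Ω] [Algebra L₀ Ω] (n : ℕ) :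
    MulDistribMulAction (Ω ≃ₐ[L₀] Ω) (Fin n → Ωˣ) where
  smul σ x := fun i => Units.map ((σ : Ω →+* Ω) : Ω →* Ω) (x i)
  one_smul x := by
    funext i
    apply Units.ext
    rfl
  mul_smul σ τ x := by
    funext i
    apply Units.ext
    rfl
  smul_mul σ x y := by
    funext i
    exact map_mul (Units.map ((σ : Ω →+* Ω) : Ω →* Ω)) (x i) (y i)
  smul_one σ := by
    funext i
    exact map_one (Units.map ((σ : Ω →+* Ω) : Ω →* Ω))

private theorem exc_aux {L₀ Ω : Type} [Field L₀] [CharZero L₀] [Field Ω] [IsAlgClosed Ω]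
    [Algebra L₀ Ω] [IsGalois L₀ Ω] {n : ℕ} (γ : Fin n → Ωˣ)
    (P : Finset ℕ) (hP : ∀ l ∈ P, l.Prime)
    (h : ∀ l ∈ P, IntermediateField.adjoin L₀ (Set.range fun i => (γ i : Ω) ^ l) ≠
      IntermediateField.adjoin L₀ (Set.range fun i => (γ i : Ω))) :
    2 ^ P.card ≤ Module.finrank L₀ (IntermediateField.adjoin L₀ (Set.range fun i => (γ i : Ω))) := by
  classical
  let act : MulDistribMulAction (Ω ≃ₐ[L₀] Ω) (Fin n → Ωˣ) := ptAct n
  set E := IntermediateField.adjoin L₀ (Set.range fun i => (γ i : Ω)) with hE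
  have hmem : ∀ i, (γ i : Ω) ∈ E := fun i => IntermediateField.subset_adjoin L₀ _ ⟨i, rfl⟩
  have hfd : FiniteDimensional L₀ E := by
    rw [hE]
    have : Finite (Set.range fun i => (γ i : Ω)) := (Set.finite_range _).to_subtype
    exact IntermediateField.finiteDimensional_adjoin fun x _ => Algebra.IsIntegral.isIntegral x
  -- the orbit
  let Θ : (E →ₐ[L₀] Ω) → (Fin n → Ωˣ) := fun f i =>
    Units.mk0 (f ⟨(γ i : Ω), hmem i⟩) (by
      rw [Ne, map_eq_zero]
      intro h0
      exact (γ i).ne_zero (congrArg Subtype.val h0))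
  have horb : MulAction.orbit (Ω ≃ₐ[L₀] Ω) γ ⊆ Set.range Θ := by
    rintro _ ⟨σ, rfl⟩
    refine ⟨(σ : Ω →ₐ[L₀] Ω).comp E.val, ?_⟩
    funext i
    apply Units.ext
    rfl
  have : Finite (E →ₐ[L₀] Ω) := inferInstance
  have hfin : (MulAction.orbit (Ω ≃ₐ[L₀] Ω) γ).Finite :=
    (Set.finite_range Θ).subset horb
  have hcard : (MulAction.orbit (Ω ≃ₐ[L₀] Ω) γ).ncard ≤
      Module.finrank L₀ E := by
    refine (Set.ncard_le_ncard horb (Set.finite_range Θ)).trans ?_
    rw [← Set.image_univ]
    refine (Set.ncard_image_le Set.finite_univ).trans ?_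
    rw [Set.ncard_univ, Nat.card_eq_fintype_card, AlgHom.card]
  refine (Pool.Agent.H84.PT2.exc_primes γ P hP ?_ hfin).trans hcard
  intro l hl
  by_contra hcon
  push Not at hcon
  refine h l hl (le_antisymm ?_ ?_)
  · rw [IntermediateField.adjoin_le_iff]
    rintro _ ⟨i, rfl⟩
    exact pow_mem (hmem i) l
  · rw [hE, IntermediateField.adjoin_le_iff]
    rintro _ ⟨i, rfl⟩
    have h1 := InfiniteGalois.fixedField_fixingSubgroup
      (IntermediateField.adjoin L₀ (Set.range fun i => (γ i : Ω) ^ l))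
    show (γ i : Ω) ∈ IntermediateField.adjoin L₀ (Set.range fun i => (γ i : Ω) ^ l)
    rw [← h1, IntermediateField.mem_fixedField_iff]
    intro σ hσ
    rw [IntermediateField.mem_fixingSubgroup_iff] at hσ
    have h2 : (σ • γ) ^ l = γ ^ l := by
      funext j
      apply Units.ext
      have h3 : (((σ • γ) ^ l) j : Ωˣ) = ((σ • γ) j) ^ l := rfl
      rw [h3, Units.val_pow_eq_pow_val, Pi.pow_apply, Units.val_pow_eq_pow_val]
      have h4 : (((σ • γ) j : Ωˣ) : Ω) = σ (γ j : Ω) := rfl
      rw [h4, ← map_pow]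
      exact hσ _ (IntermediateField.subset_adjoin L₀ _ ⟨j, rfl⟩)
    have h5 := hcon σ h2
    exact congrArg Units.val (congrFun h5 i)

theorem exc_deg {K Ω : Type} [Field K] [NumberField K] [Field Ω] [CharZero Ω] [IsAlgClosed Ω]
    [Algebra K Ω] [IsGalois K Ω] (L : IntermediateField K Ω) {n : ℕ} (γ : Fin n → Ωˣ)
    (P : Finset ℕ) (hP : ∀ l ∈ P, l.Prime)
    (h : ∀ l ∈ P, IntermediateField.adjoin L (Set.range fun i => (γ i : Ω) ^ l) ≠
      IntermediateField.adjoin L (Set.range fun i => (γ i : Ω))) :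
    2 ^ P.card ≤ degP L γ := by
  unfold degP
  exact exc_aux γ P hP h

end Pool.Agent.H33.PT
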