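import Pool.Agent.H33.PT.Mai
import Pool.Agent.H33.PT.Cnv
import Pool.Agent.H11.TS.Rtt

/-!
# POINTS THEOREM, Fin: the theorem over `ℚ` in all dimensions

PROOF. Strong induction on `n`: `points_P` for all `j < n` gives `hlow` of `pu`, `cnv` gives the bound with `1 / n + δ`, and `root_trick` gives `PtB .. n (1 + ε) c`; its hypothesis `h1` is `n = 1` of the bound (`pu 1`: `hlow` is empty; `cnv` with `δ = 1`: exponent `1 / 1 + 1 = 2`; `h := absLogHeight₁ (γ 0)`). `[IsGalois ℚ Ω]`, `[NumberField ℚ]` (instance).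
-/

set_option autoImplicit false
set_option linter.unusedSectionVars false

open NumberField

namespace Pool.Agent.H33.PT

open Pool.Agent.H11.TS

private theorem step {Ω : Type} [Field Ω] [CharZero Ω] [IsAlgClosed Ω] [IsGalois ℚ Ω] (n : ℕ)
    (hn : 1 ≤ n)
    (hlow : ∀ j : ℕ, 1 ≤ j → j < n → ∀ ε : ℝ, 0 < ε →
      ∃ c : ℝ, 0 < c ∧ PtB (⊥ : IntermediateField ℚ Ω) (⊥ : Subgroup Ωˣ) j (1 + ε) c)
    (δ : ℝ) (hδ : 0 < δ) :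
    ∃ c : ℝ, 0 < c ∧ ∀ γ : Fin n → Ωˣ, IndM (⊥ : Subgroup Ωˣ) γ → ∀ h : ℝ,
      (∀ i, absLogHeight₁ (γ i : Ω) ≤ h) →
      c ≤ (degP (⊥ : IntermediateField ℚ Ω) γ : ℝ) ^ (1 / (n : ℝ) + δ) * h :=
  cnv n hn (⊥ : IntermediateField ℚ Ω) (⊥ : Subgroup Ωˣ) (pu n hn hlow) δ hδ

theorem points_P {Ω : Type} [Field Ω] [CharZero Ω] [IsAlgClosed Ω] [IsGalois ℚ Ω] (n : ℕ)
    (hn : 1 ≤ n) (ε : ℝ) (hε : 0 < ε) :
    ∃ c : ℝ, 0 < c ∧ PtB (⊥ : IntermediateField ℚ Ω) (⊥ : Subgroup Ωˣ) n (1 + ε) c := by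
  induction n using Nat.strong_induction_on generalizing ε with
  | _ n ih =>
    refine root_trick (⊥ : IntermediateField ℚ Ω) (⊥ : Subgroup Ωˣ) n hn ?_ ?_ ε hε
    · obtain ⟨c, hc, hc'⟩ := step (Ω := Ω) 1 le_rfl (fun j hj hj' => by omega) 1 one_pos
      refine ⟨c, hc, fun γ hγ => ?_⟩
      have h1 := hc' γ hγ (absLogHeight₁ (γ 0 : Ω)) (fun i => by rw [Subsingleton.elim i 0])
      have e : (1 / ((1 : ℕ) : ℝ) + 1) = 2 := by norm_num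
      rwa [e] at h1
    · exact fun δ hδ => step n hn (fun j hj hjn ε hε => ih j hjn hj ε hε) δ hδ

theorem points_h {Ω : Type} [Field Ω] [CharZero Ω] [IsAlgClosed Ω] [IsGalois ℚ Ω] (n : ℕ)
    (hn : 1 ≤ n) (δ : ℝ) (hδ : 0 < δ) :
    ∃ c : ℝ, 0 < c ∧ ∀ γ : Fin n → Ωˣ, IndM (⊥ : Subgroup Ωˣ) γ → ∀ h : ℝ,
      (∀ i, absLogHeight₁ (γ i : Ω) ≤ h) →
      c ≤ (degP (⊥ : IntermediateField ℚ Ω) γ : ℝ) ^ (1 / (n : ℝ) + δ) * h :=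
  step n hn (fun j hj _ ε hε => points_P j hj ε hε) δ hδ

end Pool.Agent.H33.PT
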