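import Pool.Agent.H33.PT.Df

/-!
# POINTS THEOREM, Fro: a Frobenius automorphism at a finite place

PROOF. `Q := w.maximalIdeal.asIdeal`, a prime of `𝓞 M`; `G := M ≃ₐ[ℚ] M` acts on `𝓞 M` (Mathlib instance; `Algebra.IsInvariant ℤ (𝓞 M) G` or
`IsGaloisGroup`), `IsArithFrobAt.exists_of_isInvariant` (Mathlib/RingTheory/Frobenius.lean) gives `g` with
`g x - x ^ (Nat.card (ℤ ⧸ Q.under ℤ)) ∈ Q` for `x ∈ 𝓞 M`; `Q.under ℤ = (l)` because `l ∈ Q` (`w l < 1`: `FinitePlace.norm_lt_one_iff_mem` and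
its versions for `w`; models: `Pool/Agent/H92/SR`, `Pool/Agent/H72/BE/Fro.lean`), so the exponent is `l`.
(1) `x ∈ Q ↔ g x ∈ Q` (from the congruence, or `IsArithFrobAt.mem_stabilizer`), so `g` maps `Q` onto `Q`, hence `Q^k` onto `Q^k`, and
`w (g x) = w x`: for `x ∈ 𝓞 M`, `w x` is determined by the largest `k` with `x ∈ Q^k` (`HeightOneSpectrum` valuation, or:
`w' := w ∘ g` is a finite place with the same maximal ideal; `FinitePlace.maximalIdeal_inj`); for general `x = a / b` multiplicativity.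
(2) `w x ≤ 1`: `x = a / b` with `a b ∈ 𝓞 M`, `b ∉ Q` (localization at `Q`; `w b = 1`). `g x - x^l = (g a * b^l - a^l * g b) / (g b * b^l)` and
`g a * b^l - a^l * g b = (g a - a^l) b^l - a^l (g b - b^l)`, all in `Q`-integers: `w < 1` (ultrametric, `FinitePlace.add_le`).
(To find `a / b`: `IsDedekindDomain` localization `HeightOneSpectrum.exists_...`, or weak approximation; or: `x ∈ M`, the ideal
`{d ∈ 𝓞 M | d x ∈ 𝓞 M}` is not contained in `Q` if `w x ≤ 1`. See the Mathlib lemmas on `HeightOneSpectrum.valuation_le_one`/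
`IsLocalization.AtPrime`.)
-/

set_option autoImplicit false
set_option linter.unusedSectionVars false

open NumberField

namespace Pool.Agent.H33.PT

open scoped Pointwise in
private theorem frob_int {M : Type} [Field M] [NumberField M] (w : FinitePlace M)
    (g : M ≃ₐ[ℚ] M) (hg : g ∈ MulAction.stabilizer (M ≃ₐ[ℚ] M) w.maximalIdeal.asIdeal) (x : 𝓞 M) :
    w ((g • x : 𝓞 M) : M) = w (x : M) := by
  have hP : g • w.maximalIdeal.asIdeal = w.maximalIdeal.asIdeal := hg
  have hpow : ∀ (n : ℕ), g • x ∈ w.maximalIdeal.asIdeal ^ n ↔ x ∈ w.maximalIdeal.asIdeal ^ n := by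
    intro n
    have h1 : g • (w.maximalIdeal.asIdeal ^ n) = w.maximalIdeal.asIdeal ^ n := by
      rw [smul_pow', hP]
    conv_lhs => rw [← h1]
    exact Ideal.smul_mem_pointwise_smul_iff
  by_cases hx : x = 0
  · rw [hx, smul_zero]
  have hx' : g • x ≠ 0 := by
    intro h
    apply hx
    have h1 : g⁻¹ • (g • x) = 0 := by rw [h, smul_zero]
    rwa [inv_smul_smul] at h1
  have h1 := w.apply_mul_absNorm_pow_eq_one hx
  have h2 := w.apply_mul_absNorm_pow_eq_one hx'
  have h3 : emultiplicity w.maximalIdeal.asIdeal (Ideal.span {g • x}) =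
      emultiplicity w.maximalIdeal.asIdeal (Ideal.span {x}) := by
    refine emultiplicity_eq_emultiplicity_iff.2 fun n => ?_
    rw [Ideal.dvd_span_singleton, Ideal.dvd_span_singleton]
    exact hpow n
  have h4 : multiplicity w.maximalIdeal.asIdeal (Ideal.span {g • x}) =
      multiplicity w.maximalIdeal.asIdeal (Ideal.span {x}) := by
    unfold multiplicity
    rw [h3]
  rw [h4] at h2
  have h5 := h2.trans h1.symm
  refine mul_right_cancel₀ ?_ h5
  intro h
  rw [h, mul_zero] at h1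
  exact zero_ne_one h1

private theorem frob_all {M : Type} [Field M] [NumberField M] (w : FinitePlace M)
    (g : M ≃ₐ[ℚ] M) (hg : ∀ x : 𝓞 M, w ((g • x : 𝓞 M) : M) = w (x : M)) (x : M) :
    w (g x) = w x := by
  obtain ⟨a, b, hb, hab⟩ := IsFractionRing.div_surjective (A := 𝓞 M) x
  have h1 : g x = ((g • a : 𝓞 M) : M) / ((g • b : 𝓞 M) : M) := by
    rw [← hab, map_div₀]
    rfl
  rw [h1, map_div₀, hg, hg, ← hab, map_div₀]

private theorem frob_frac {M : Type} [Field M] [NumberField M] (w : FinitePlace M) (x : M)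
    (hx : w x ≤ 1) : ∃ a b : 𝓞 M, w (b : M) = 1 ∧ x = (a : M) / (b : M) := by
  have h1 : w.maximalIdeal.valuation M x ≤ 1 := by
    rw [← FinitePlace.norm_embedding_eq, FinitePlace.norm_embedding'] at hx
    have h2 : WithZeroMulInt.toNNReal (HeightOneSpectrum.absNorm_ne_zero w.maximalIdeal)
        (w.maximalIdeal.valuation M x) ≤ 1 := by exact_mod_cast hx
    have hm := WithZeroMulInt.toNNReal_strictMono
      (HeightOneSpectrum.one_lt_absNorm_nnreal w.maximalIdeal)
    rw [← map_one (WithZeroMulInt.toNNReal (HeightOneSpectrum.absNorm_ne_zero w.maximalIdeal))] at h2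
    exact hm.le_iff_le.1 h2
  obtain ⟨a, ⟨b, hb⟩, hab⟩ :=
    IsDedekindDomain.HeightOneSpectrum.exists_primeCompl_mul_eq_of_integer w.maximalIdeal x h1
  have hb1 : w (b : M) = 1 := by
    rw [← FinitePlace.norm_embedding_eq]
    exact (FinitePlace.norm_eq_one_iff_notMem M w.maximalIdeal b).2 hb
  refine ⟨a, b, hb1, ?_⟩
  have hb0 : (b : M) ≠ 0 := by
    intro h
    rw [h, map_zero] at hb1
    exact zero_ne_one hb1
  rw [eq_div_iff hb0]
  exact hab

theorem frob_place {M : Type} [Field M] [NumberField M] [IsGalois ℚ M] (w : FinitePlace M) (l : ℕ)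
    (hl : l.Prime) (hw : w (l : M) < 1) :
    ∃ g : M ≃ₐ[ℚ] M, (∀ x, w (g x) = w x) ∧ ∀ x, w x ≤ 1 → w (g x - x ^ l) < 1 := by
  classical
  have hmem : ∀ x : 𝓞 M, w (x : M) < 1 ↔ x ∈ w.maximalIdeal.asIdeal := by
    intro x
    rw [← FinitePlace.norm_embedding_eq]
    exact FinitePlace.norm_lt_one_iff_mem M w.maximalIdeal x
  have hint : ∀ x : 𝓞 M, w (x : M) ≤ 1 := by
    intro x
    rw [← FinitePlace.norm_embedding_eq]
    exact FinitePlace.norm_le_one M w.maximalIdeal x
  have hqP : (l : 𝓞 M) ∈ w.maximalIdeal.asIdeal := by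
    rw [← hmem]
    simpa using hw
  have hPp : w.maximalIdeal.asIdeal.IsPrime := w.maximalIdeal.isPrime
  have hfin : Finite (𝓞 M ⧸ w.maximalIdeal.asIdeal) :=
    Ideal.finiteQuotientOfFreeOfNeBot _ w.maximalIdeal.ne_bot
  obtain ⟨g, hg⟩ := IsArithFrobAt.exists_of_isInvariant ℤ (M ≃ₐ[ℚ] M) w.maximalIdeal.asIdeal
  have hunder : w.maximalIdeal.asIdeal.under ℤ = Ideal.span {(l : ℤ)} := by
    have h1 : Ideal.span {(l : ℤ)} ≤ w.maximalIdeal.asIdeal.under ℤ := by
      rw [Ideal.span_singleton_le_iff_mem, Ideal.mem_comap, eq_intCast, Int.cast_natCast]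
      exact hqP
    have h2 : (Ideal.span {(l : ℤ)}).IsMaximal :=
      PrincipalIdealRing.isMaximal_of_irreducible (Nat.prime_iff_prime_int.1 hl).irreducible
    exact (h2.eq_of_le (Ideal.IsPrime.ne_top inferInstance) h1).symm
  have hcard : Nat.card (ℤ ⧸ w.maximalIdeal.asIdeal.under ℤ) = l := by
    rw [hunder]
    have h1 := Int.quotientSpanNatEquivZMod l
    rw [Nat.card_congr h1.toEquiv, Nat.card_zmod]
  have hg1 : ∀ x : 𝓞 M, g • x - x ^ l ∈ w.maximalIdeal.asIdeal := by
    intro x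
    have h1 := hg x
    rw [hcard] at h1
    exact h1
  have hiso : ∀ x, w (g x) = w x := frob_all w g (frob_int w g hg.mem_stabilizer)
  refine ⟨g, hiso, fun x hx => ?_⟩
  obtain ⟨a, b, hb, hab⟩ := frob_frac w x hx
  have hb0 : (b : M) ≠ 0 := by
    intro h
    rw [h, map_zero] at hb
    exact zero_ne_one hb
  have hgb : w (g (b : M)) = 1 := by rw [hiso, hb]
  have hgb0 : g (b : M) ≠ 0 := by
    intro h
    rw [h, map_zero] at hgb
    exact zero_ne_one hgb
  have hA : w (g (a : M) - (a : M) ^ l) < 1 := by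
    have h1 := (hmem _).2 (hg1 a)
    have h2 : ((g • a - a ^ l : 𝓞 M) : M) = g (a : M) - (a : M) ^ l := by
      rfl
    rwa [h2] at h1
  have hB : w (g (b : M) - (b : M) ^ l) < 1 := by
    have h1 := (hmem _).2 (hg1 b)
    have h2 : ((g • b - b ^ l : 𝓞 M) : M) = g (b : M) - (b : M) ^ l := by
      rfl
    rwa [h2] at h1
  have e1 : g x - x ^ l = ((g (a : M) - (a : M) ^ l) * (b : M) ^ l +
      (-((a : M) ^ l * (g (b : M) - (b : M) ^ l)))) / (g (b : M) * (b : M) ^ l) := by
    rw [hab, map_div₀, div_pow, div_sub_div _ _ hgb0 (pow_ne_zero l hb0)]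
    congr 1
    ring
  rw [e1, map_div₀, map_mul w (g (b : M)), map_pow w, hgb, hb, one_pow, one_mul, div_one]
  refine (FinitePlace.add_le w _ _).trans_lt (max_lt ?_ ?_)
  · rw [map_mul, map_pow, hb, one_pow, mul_one]
    exact hA
  · rw [map_neg_eq_map, map_mul, map_pow]
    have h3 : w (a : M) ^ l ≤ 1 := pow_le_one₀ (apply_nonneg w _) (hint a)
    calc w (a : M) ^ l * w (g (b : M) - (b : M) ^ l)
        ≤ 1 * w (g (b : M) - (b : M) ^ l) := mul_le_mul_of_nonneg_right h3 (apply_nonneg w _)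
      _ < 1 := by rw [one_mul]; exact hB

end Pool.Agent.H33.PT
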