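import Pool.Agent.H33.PT.Loc

/-!
# POINTS THEOREM, Glb: the global inequality

PROOF. `Δ := det`, apply `Pool.Agent.H72.PL.pf_ineq` (see `glo_E` in `Pool/Agent/H33/TH2/Glo.lean`) to `Δ^4`, index set `(E →ₐ[ℚ] M) × Fin n`, `a (h, i) = h (r i)`, `b (h, i) = (h (r i))⁻¹`, `m = 4 X S + 4 T`, `w = 4 T`, `S = #TT + ∑ l'`,
`C = (R ! * (X + 1)^(T * D * #TT))^4`, `R = D (#TT + #LL)`, `e p = ∏_(l ∈ LL) p(l)^(T D)`.
Infinite places `v`: `det_arch` (private in `TH2/Glo.lean`, copy): `v (row (h, inl t)) ≤ (X + 1)^T ∏_i max 1 (v (h r_i))^X` (`bc a t ≤ ∏ (a i + 1)^(t i) ≤ (X+1)^(∑ t i)`, `∑ t i ≤ T`), `v (row (h, inr l)) ≤ ∏_i max 1 (v (h r_i))^(l X)`; the product over the rows of the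
`max` factors is `∏_h ∏_i max 1 (..)^(X S)`, to the fourth power `≤` the required one (all factors `≥ 1`).
Finite places `p`: if `p(l) < 1` for some `l ∈ LL`: `p(l') = 1` for the other primes `l'` (a place with `p(l) < 1` and `p(l') < 1` for two primes gives `p(1) < 1`), so `e p = p(l)^(T D)` and `loc_det`. Otherwise `e p = 1` and the ultrametric bound (all natural numbers have `p ≤ 1`).
`e` has finite multiplicative support and `∏ᶠ e = ∏_(l ∈ LL) (l^[M:ℚ])⁻¹^(T D)` (as at the end of `glo_E`, for each `l`; `finprod_prod..`/induction on `LL`).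
Heights: `logHeight₁ (h (r i)) = [M : ℚ] absLogHeight₁ (r i)` (`Pool.Agent.H4.RR.absLogHeight_eq`, invariance under `h`: `absLogHeight₁` is invariant under ring homomorphisms, a lemma in H33/TR, H72/PB or H36), the same for the inverse: `absLogHeight₁ (x⁻¹) = absLogHeight₁ x`.
So `0 ≤ [M:ℚ] (4 log (R !) + 4 T D #TT log (X+1)) + D ∑_i [M:ℚ] h(r_i) (4 X S + 8 T) - T D [M:ℚ] ∑ log l`; divide by `D [M:ℚ]`; `log (R !) ≤ R log R` (`Nat.factorial_le_pow`/`Nat.factorial_lt_self_pow`), `R / D = #TT + #LL`.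
-/

set_option autoImplicit false
set_option linter.unusedSectionVars false

open NumberField

namespace Pool.Agent.H33.PT

private theorem gl_sum_le {E : Type} [Field E] (v : AbsoluteValue E ℝ) (hv : IsNonarchimedean v)
    {I : Type} (s : Finset I) (f : I → E) (r : ℝ) (hr : 0 ≤ r) (h : ∀ i ∈ s, v (f i) ≤ r) :
    v (∑ i ∈ s, f i) ≤ r := by
  rcases s.eq_empty_or_nonempty with rfl | hs
  · rw [Finset.sum_empty, map_zero]
    exact hr
  · obtain ⟨i, hi, hle⟩ := hv.finset_image_add_of_nonempty f hs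
    exact hle.trans (h i hi)

private theorem gl_term {E : Type} [Field E] (v : AbsoluteValue E ℝ) {B : Type} [Fintype B]
    [DecidableEq B] (A : Matrix B B E) (h : B → ℝ) (hA : ∀ i j, v (A i j) ≤ h i)
    (π : Equiv.Perm B) : v ((((Equiv.Perm.sign π : ℤˣ) : ℤ) : E) * ∏ i, A (π i) i) ≤ ∏ i, h i := by
  have h2 : v (((Equiv.Perm.sign π : ℤˣ) : ℤ) : E) = 1 := by
    rcases Int.units_eq_one_or (Equiv.Perm.sign π) with h | h
    · rw [h]; simp
    · rw [h]; simp
  rw [map_mul, h2, one_mul, map_prod, ← Equiv.prod_comp π h]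
  exact Finset.prod_le_prod (fun i _ => v.nonneg _) fun i _ => hA _ _

private theorem gl_arch {E : Type} [Field E] (v : AbsoluteValue E ℝ) {B : Type} [Fintype B]
    [DecidableEq B] (A : Matrix B B E) (h : B → ℝ) (hA : ∀ i j, v (A i j) ≤ h i) :
    v A.det ≤ ((Fintype.card B).factorial : ℝ) * ∏ i, h i := by
  rw [Matrix.det_apply']
  refine (v.sum_le _ _).trans ?_
  refine (Finset.sum_le_sum fun π _ => gl_term v A h hA π).trans (le_of_eq ?_)
  rw [Finset.sum_const, nsmul_eq_mul, Finset.card_univ, Fintype.card_perm]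

private theorem gl_ultra {E : Type} [Field E] (v : AbsoluteValue E ℝ) (hv : IsNonarchimedean v)
    {B : Type} [Fintype B] [DecidableEq B] (A : Matrix B B E) (h : B → ℝ)
    (hA : ∀ i j, v (A i j) ≤ h i) : v A.det ≤ ∏ i, h i := by
  rw [Matrix.det_apply']
  exact gl_sum_le v hv _ _ _ (Finset.prod_nonneg fun i _ => (v.nonneg _).trans (hA i i))
    fun π _ => gl_term v A h hA π

section row

variable {M : Type} [Field M] {n T : ℕ} {LL : Finset ℕ}

private theorem gl_mo (v : AbsoluteValue M ℝ) (y : Fin n → M) (a : Fin n → ℕ) (X : ℕ)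
    (ha : ∀ i, a i ≤ X) : v (mo y a) ≤ ∏ i, (max 1 (v (y i))) ^ X := by
  unfold mo
  rw [map_prod]
  refine Finset.prod_le_prod (fun i _ => v.nonneg _) fun i _ => ?_
  rw [map_pow]
  exact (pow_le_pow_left₀ (v.nonneg _) (le_max_right _ _) _).trans
    (pow_le_pow_right₀ (le_max_left _ _) (ha i))

/-- the bound of a row -/
private noncomputable def bd (v : AbsoluteValue M ℝ) (X : ℕ) (K : ℝ) (y : Fin n → M) :
    TT n T ⊕ LL → ℝ
  | Sum.inl _ => K * ∏ i, (max 1 (v (y i))) ^ X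
  | Sum.inr l => ∏ i, (max 1 (v (y i))) ^ ((l : ℕ) * X)

private theorem gl_row (v : AbsoluteValue M ℝ) (X : ℕ) (K : ℝ) (y : Fin n → M) (a : Fin n → ℕ)
    (ha : ∀ i, a i ≤ X) (hK : ∀ t : TT n T, v ((bc a (tv t) : ℕ) : M) ≤ K) (s : TT n T ⊕ LL) :
    v (row y s a) ≤ bd v X K y s := by
  rcases s with t | l
  · show v (((bc a (tv t) : ℕ) : M) * mo y a) ≤ K * ∏ i, (max 1 (v (y i))) ^ X
    rw [map_mul]
    exact mul_le_mul (hK t) (gl_mo v y a X ha) (v.nonneg _) ((v.nonneg _).trans (hK t))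
  · show v (mo y fun i => (l : ℕ) * a i) ≤ ∏ i, (max 1 (v (y i))) ^ ((l : ℕ) * X)
    exact gl_mo v y _ _ fun i => Nat.mul_le_mul_left _ (ha i)

private theorem gl_prod (v : AbsoluteValue M ℝ) (X : ℕ) (K : ℝ) (y : Fin n → M) :
    ∏ s : TT n T ⊕ LL, bd v X K y s = K ^ Fintype.card (TT n T) *
      ∏ i, (max 1 (v (y i))) ^ (X * (Fintype.card (TT n T) + ∑ l' ∈ LL, l')) := by
  rw [Fintype.prod_sum_type]
  have h1 : ∏ t : TT n T, bd (T := T) (LL := LL) v X K y (Sum.inl t) =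
      K ^ Fintype.card (TT n T) * ∏ i, (max 1 (v (y i))) ^ (X * Fintype.card (TT n T)) := by
    show ∏ _t : TT n T, K * ∏ i, (max 1 (v (y i))) ^ X = _
    rw [Finset.prod_const, Finset.card_univ, mul_pow, ← Finset.prod_pow]
    congr 1
    exact Finset.prod_congr rfl fun i _ => (pow_mul _ _ _).symm
  have h2 : ∏ l : LL, bd (T := T) (LL := LL) v X K y (Sum.inr l) =
      ∏ i, (max 1 (v (y i))) ^ (X * ∑ l' ∈ LL, l') := by
    show ∏ l : LL, ∏ i, (max 1 (v (y i))) ^ ((l : ℕ) * X) = _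
    rw [Finset.prod_comm]
    refine Finset.prod_congr rfl fun i _ => ?_
    rw [Finset.prod_pow_eq_pow_sum, ← Finset.sum_mul, mul_comm X]
    congr 2
    exact Finset.sum_coe_sort LL fun l => l
  rw [h1, h2, mul_assoc, ← Finset.prod_mul_distrib]
  congr 1
  refine Finset.prod_congr rfl fun i _ => ?_
  rw [← pow_add, mul_add]

private theorem gl_bc (a t : Fin n → ℕ) (X : ℕ) (ha : ∀ i, a i ≤ X) (ht : ∑ i, t i ≤ T) :
    bc a t ≤ (X + 1) ^ T := by
  unfold bc
  calc ∏ i, (a i).choose (t i) ≤ ∏ i, (X + 1) ^ t i := by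
        refine Finset.prod_le_prod' fun i _ => ?_
        refine (Nat.choose_le_pow (a i) (t i)).trans ?_
        exact Nat.pow_le_pow_left (by have := ha i; omega) _
    _ = (X + 1) ^ ∑ i, t i := Finset.prod_pow_eq_pow_sum _ _ _
    _ ≤ _ := Nat.pow_le_pow_right (by omega) ht

end row

/-- the fourth power -/
private theorem gl_four {M : Type} [Field M] (v : AbsoluteValue M ℝ) {H : Type} [Fintype H] {n : ℕ}
    (y : H → Fin n → M) (Z : M) (R : ℝ) (hR : 0 ≤ R) (X S T : ℕ)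
    (h : v Z ≤ R * ∏ h, ∏ i, (max 1 (v (y h i))) ^ (X * S)) :
    v (Z ^ 4) ≤ R ^ 4 * ∏ j : H × Fin n, ((max 1 (v (y j.1 j.2))) ^ (4 * X * S + 4 * T) *
      (max 1 (v (y j.1 j.2)⁻¹)) ^ (4 * T)) := by
  rw [map_pow]
  refine (pow_le_pow_left₀ (v.nonneg _) h 4).trans ?_
  rw [mul_pow, Fintype.prod_prod_type, ← Finset.prod_pow]
  refine mul_le_mul_of_nonneg_left ?_ (pow_nonneg hR 4)
  refine Finset.prod_le_prod (fun h _ => pow_nonneg (Finset.prod_nonneg fun i _ =>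
    pow_nonneg (le_trans zero_le_one (le_max_left _ _)) _) _) fun h _ => ?_
  rw [← Finset.prod_pow]
  refine Finset.prod_le_prod (fun i _ => pow_nonneg (pow_nonneg
    (le_trans zero_le_one (le_max_left _ _)) _) _) fun i _ => ?_
  have h1 : (1 : ℝ) ≤ max 1 (v (y h i)) := le_max_left _ _
  have h2 : (1 : ℝ) ≤ max 1 (v (y h i)⁻¹) := le_max_left _ _
  rw [← pow_mul]
  calc (max 1 (v (y h i))) ^ (X * S * 4) ≤ (max 1 (v (y h i))) ^ (4 * X * S + 4 * T) :=
        pow_le_pow_right₀ h1 (by nlinarith)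
    _ ≤ _ := le_mul_of_one_le_right (pow_nonneg (by linarith) _) (one_le_pow₀ h2)

/-- a finite place has values smaller than `1` at one prime at most -/
private theorem gl_one {M : Type} [Field M] (v : AbsoluteValue M ℝ) (hv : IsNonarchimedean v)
    (l l' : ℕ) (hl : l.Prime) (hl' : l'.Prime) (hne : l' ≠ l) (h : v (l : M) < 1) :
    v (l' : M) = 1 := by
  refine le_antisymm hv.apply_natCast_le_one ?_
  by_contra h'
  push Not at h'
  have h1 : IsCoprime (l : ℤ) (l' : ℤ) :=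
    Nat.isCoprime_iff_coprime.2 ((Nat.coprime_primes hl hl').2 hne.symm)
  obtain ⟨a, b, hab⟩ := h1
  have h2 : (a : M) * (l : M) + (b : M) * (l' : M) = 1 := by exact_mod_cast congrArg (Int.cast (R := M)) hab
  have h3 : v ((a : M) * (l : M)) < 1 := by
    rw [map_mul]
    exact lt_of_le_of_lt (mul_le_of_le_one_left (v.nonneg _) hv.apply_intCast_le_one) h
  have h4 : v ((b : M) * (l' : M)) < 1 := by
    rw [map_mul]
    exact lt_of_le_of_lt (mul_le_of_le_one_left (v.nonneg _) hv.apply_intCast_le_one) h'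
  have h5 := hv ((a : M) * (l : M)) ((b : M) * (l' : M))
  rw [h2, map_one] at h5
  exact absurd (lt_of_le_of_lt h5 (max_lt h3 h4)) (lt_irrefl _)

theorem glob_ineq {E M : Type} [Field E] [Field M] [NumberField E] [NumberField M] [IsGalois ℚ M]
    [DecidableEq (E →ₐ[ℚ] M)]
    (hE : Fintype.card (E →ₐ[ℚ] M) = Module.finrank ℚ E) {n : ℕ} (hn : 1 ≤ n)
    (r : Fin n → E) (hr : ∀ i, r i ≠ 0) (T : ℕ) (hT : 1 ≤ T) (LL : Finset ℕ)
    (hLL : ∀ l ∈ LL, l.Prime) (X : ℕ)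
    (col : (E →ₐ[ℚ] M) × (TT n T ⊕ LL) → Fin n → ℕ) (hcol : ∀ j i, col j i ≤ X)
    (hdet : Matrix.det (Matrix.of fun p j : (E →ₐ[ℚ] M) × (TT n T ⊕ LL) =>
        row (fun i => p.1 (r i)) p.2 (col j)) ≠ 0) :
    (T : ℝ) * ∑ l ∈ LL, Real.log l ≤
      4 * ((Fintype.card (TT n T) + LL.card : ℕ) *
          Real.log (Module.finrank ℚ E * (Fintype.card (TT n T) + LL.card) : ℕ)) +
        4 * ((T * Fintype.card (TT n T) : ℕ) * Real.log (X + 1 : ℕ)) +
        (4 * X * (Fintype.card (TT n T) + ∑ l' ∈ LL, l') + 8 * T : ℕ) *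
          ∑ i, absLogHeight₁ (r i) := by
  classical
  obtain ⟨D, hD⟩ : ∃ D, D = Module.finrank ℚ E := ⟨_, rfl⟩
  obtain ⟨S, hS⟩ : ∃ S, S = Fintype.card (TT n T) + ∑ l' ∈ LL, l' := ⟨_, rfl⟩
  obtain ⟨N, hN⟩ : ∃ N, N = Fintype.card (TT n T) := ⟨_, rfl⟩
  obtain ⟨Z, hZ⟩ : ∃ Z : M, Z = Matrix.det (Matrix.of fun p j : (E →ₐ[ℚ] M) × (TT n T ⊕ LL) =>
        row (fun i => p.1 (r i)) p.2 (col j)) := ⟨_, rfl⟩
  have hZ0 : Z ≠ 0 := by
    rw [hZ]
    exact hdet
  have hcH : Fintype.card (E →ₐ[ℚ] M) = D := by rw [hD, hE]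
  have hcard : Fintype.card ((E →ₐ[ℚ] M) × (TT n T ⊕ LL)) = D * (N + LL.card) := by
    rw [Fintype.card_prod, Fintype.card_sum, Fintype.card_coe, hcH, hN]
  obtain ⟨R, hR⟩ : ∃ R : ℕ, R = D * (N + LL.card) := ⟨_, rfl⟩
  -- the product of the bounds of the rows
  have hprod : ∀ (v : AbsoluteValue M ℝ) (K : ℝ),
      ∏ p : (E →ₐ[ℚ] M) × (TT n T ⊕ LL), bd v X K (fun i => p.1 (r i)) p.2 =
        (K ^ N) ^ D * ∏ h : E →ₐ[ℚ] M, ∏ i, (max 1 (v (h (r i)))) ^ (X * S) := by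
    intro v K
    rw [Fintype.prod_prod_type]
    simp only [gl_prod]
    rw [Finset.prod_mul_distrib, Finset.prod_const, Finset.card_univ, hcH, ← hS, ← hN]
  have hK1 : (1 : ℝ) ≤ ((X + 1 : ℕ) : ℝ) ^ T := one_le_pow₀ (by push_cast; linarith [Nat.cast_nonneg (α := ℝ) X])
  have hF1 : (1 : ℝ) ≤ (R.factorial : ℝ) := by
    exact_mod_cast Nat.succ_le_iff.2 (Nat.factorial_pos R)
  have hKN1 : (1 : ℝ) ≤ ((((X + 1 : ℕ) : ℝ) ^ T) ^ N) ^ D := one_le_pow₀ (one_le_pow₀ hK1)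
  obtain ⟨C, hCd⟩ : ∃ C : ℝ, C = ((R.factorial : ℝ) * ((((X + 1 : ℕ) : ℝ) ^ T) ^ N) ^ D) ^ 4 :=
    ⟨_, rfl⟩
  have hC0 : (1 : ℝ) ≤ (R.factorial : ℝ) * ((((X + 1 : ℕ) : ℝ) ^ T) ^ N) ^ D :=
    one_le_mul_of_one_le_of_one_le hF1 hKN1
  have hC : 1 ≤ C := by
    rw [hCd]
    exact one_le_pow₀ hC0
  have htv : ∀ t : TT n T, ∑ i, tv t i ≤ T := fun t => t.2.le
  -- infinite places
  have hinf : ∀ v : InfinitePlace M, v (Z ^ 4) ≤ C * ∏ j : (E →ₐ[ℚ] M) × Fin n,
      ((max 1 (v ((fun j : (E →ₐ[ℚ] M) × Fin n => j.1 (r j.2)) j))) ^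
          ((fun _ : (E →ₐ[ℚ] M) × Fin n => 4 * X * S + 4 * T) j) *
        (max 1 (v ((fun j : (E →ₐ[ℚ] M) × Fin n => (j.1 (r j.2))⁻¹) j))) ^
          ((fun _ : (E →ₐ[ℚ] M) × Fin n => 4 * T) j)) := by
    intro v
    have h1 := gl_arch v.1 (Matrix.of fun p j : (E →ₐ[ℚ] M) × (TT n T ⊕ LL) =>
        row (fun i => p.1 (r i)) p.2 (col j))
      (fun p => bd v.1 X (((X + 1 : ℕ) : ℝ) ^ T) (fun i => p.1 (r i)) p.2) (fun p j =>
        gl_row v.1 X _ _ _ (hcol j) (fun t => by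
          have h2 : v.1 ((bc (col j) (tv t) : ℕ) : M) = ((bc (col j) (tv t) : ℕ) : ℝ) :=
            InfinitePlace.map_natCast v _
          rw [h2]
          exact_mod_cast gl_bc (T := T) (col j) (tv t) X (hcol j) (htv t)) p.2)
    rw [hprod, hcard, ← hR, ← hZ, ← mul_assoc] at h1
    have h3 := gl_four v.1 (fun (h : E →ₐ[ℚ] M) i => h (r i)) Z _ (by linarith) X S T h1
    rw [hCd]
    exact h3
  -- finite places
  have hfin : ∀ w : FinitePlace M, w (Z ^ 4) ≤ (∏ l ∈ LL, w (l : M) ^ (T * D)) *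
      ∏ j : (E →ₐ[ℚ] M) × Fin n,
      ((max 1 (w ((fun j : (E →ₐ[ℚ] M) × Fin n => j.1 (r j.2)) j))) ^
          ((fun _ : (E →ₐ[ℚ] M) × Fin n => 4 * X * S + 4 * T) j) *
        (max 1 (w ((fun j : (E →ₐ[ℚ] M) × Fin n => (j.1 (r j.2))⁻¹) j))) ^
          ((fun _ : (E →ₐ[ℚ] M) × Fin n => 4 * T) j)) := by
    intro w
    have hna : IsNonarchimedean (w.1 : M → ℝ) := fun a b => FinitePlace.add_le w a b
    by_cases hex : ∃ l ∈ LL, w (l : M) < 1
    · obtain ⟨l, hlL, hwl⟩ := hex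
      have h1 : ∏ l' ∈ LL, w (l' : M) ^ (T * D) = w (l : M) ^ (T * D) := by
        refine Finset.prod_eq_single_of_mem l hlL fun l' hl' hne => ?_
        have h2 : w.1 (l' : M) = 1 := gl_one w.1 hna l l' (hLL l hlL) (hLL l' hl') hne hwl
        have h3 : w (l' : M) = 1 := h2
        rw [h3, one_pow]
      have h2 := loc_det hE w hn r hr T hT LL l (hLL l hlL) hlL hwl X col hcol
      rw [← hZ, ← hS, hcH] at h2
      rw [h1, map_pow, Fintype.prod_prod_type]
      exact h2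
    · push Not at hex
      have h1 : ∏ l' ∈ LL, w (l' : M) ^ (T * D) = 1 := by
        refine Finset.prod_eq_one fun l' hl' => ?_
        have h2 : w.1 (l' : M) ≤ 1 := hna.apply_natCast_le_one
        have h3 : w (l' : M) ≤ 1 := h2
        rw [le_antisymm h3 (hex l' hl'), one_pow]
      have h2 := gl_ultra w.1 hna (Matrix.of fun p j : (E →ₐ[ℚ] M) × (TT n T ⊕ LL) =>
        row (fun i => p.1 (r i)) p.2 (col j))
        (fun p => bd w.1 X 1 (fun i => p.1 (r i)) p.2) (fun p j =>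
          gl_row w.1 X _ _ _ (hcol j) (fun t => hna.apply_natCast_le_one) p.2)
      rw [hprod, ← hZ, one_pow] at h2
      have h3 := gl_four w.1 (fun (h : E →ₐ[ℚ] M) i => h (r i)) Z _ (by positivity) X S T h2
      rw [one_pow, one_pow] at h3
      rw [h1]
      exact h3
  have hl0 : ∀ l ∈ LL, (l : M) ≠ 0 := fun l hl => by exact_mod_cast (hLL l hl).ne_zero
  have he0 : ∀ w : FinitePlace M, 0 < ∏ l ∈ LL, w (l : M) ^ (T * D) :=
    fun w => Finset.prod_pos fun l hl => pow_pos (FinitePlace.pos_iff.2 (hl0 l hl)) _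
  have hes0 : ∀ l ∈ LL, (Function.mulSupport fun w : FinitePlace M => w (l : M)).Finite :=
    fun l hl => FinitePlace.hasFiniteMulSupport (K := M) (hl0 l hl)
  have hes1 : ∀ l ∈ LL,
      (Function.mulSupport fun w : FinitePlace M => w (l : M) ^ (T * D)).Finite := by
    intro l hl
    refine (hes0 l hl).subset fun w hw => ?_
    rw [Function.mem_mulSupport] at hw ⊢
    intro h
    exact hw (by rw [h, one_pow])
  have hes : (Function.mulSupport
      fun w : FinitePlace M => ∏ l ∈ LL, w (l : M) ^ (T * D)).Finite := by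
    refine (Set.Finite.biUnion (s := (LL : Set ℕ)) LL.finite_toSet
      (t := fun l => Function.mulSupport fun w : FinitePlace M => w (l : M) ^ (T * D))
      fun l hl => hes1 l hl).subset fun w hw => ?_
    rw [Function.mem_mulSupport] at hw
    by_contra hc
    refine hw (Finset.prod_eq_one fun l hl => ?_)
    by_contra h1
    exact hc (Set.mem_biUnion (Finset.mem_coe.2 hl) (Function.mem_mulSupport.2 h1))
  have key := Pool.Agent.H72.PL.pf_ineq (Z ^ 4) (pow_ne_zero 4 hZ0)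
    (fun j : (E →ₐ[ℚ] M) × Fin n => j.1 (r j.2))
    (fun j : (E →ₐ[ℚ] M) × Fin n => (j.1 (r j.2))⁻¹) (fun _ => 4 * X * S + 4 * T)
    (fun _ => 4 * T) C hC (fun w => ∏ l ∈ LL, w (l : M) ^ (T * D)) he0 hes hinf hfin
  -- the product formula for the primes
  have hpf : ∀ l ∈ LL, ∏ᶠ w : FinitePlace M, w (l : M) ^ (T * D) =
      (((l : ℝ) ^ Module.finrank ℚ M)⁻¹) ^ (T * D) := by
    intro l hl
    have h1 := prod_abs_eq_one (K := M) (hl0 l hl)
    have h2 : ∏ v : InfinitePlace M, v (l : M) ^ v.mult = (l : ℝ) ^ Module.finrank ℚ M := by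
      rw [← InfinitePlace.sum_mult_eq (K := M), ← Finset.prod_pow_eq_pow_sum]
      refine Finset.prod_congr rfl fun v _ => ?_
      rw [InfinitePlace.map_natCast]
    rw [h2] at h1
    have h3 : ∏ᶠ w : FinitePlace M, w (l : M) = ((l : ℝ) ^ Module.finrank ℚ M)⁻¹ :=
      eq_inv_of_mul_eq_one_right h1
    rw [← h3, finprod_pow (hes0 l hl)]
  have hfp : Real.log (∏ᶠ w : FinitePlace M, ∏ l ∈ LL, w (l : M) ^ (T * D)) =
      -((T : ℝ) * D * Module.finrank ℚ M * ∑ l ∈ LL, Real.log l) := by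
    rw [finprod_prod_comm LL _ hes1, Finset.prod_congr rfl hpf, Real.log_prod, Finset.mul_sum,
      ← Finset.sum_neg_distrib]
    · refine Finset.sum_congr rfl fun l _ => ?_
      rw [Real.log_pow, Real.log_inv, Real.log_pow]
      push_cast
      ring
    · intro l hl
      have h1 : (0 : ℝ) < l := by exact_mod_cast (hLL l hl).pos
      positivity
  have hMq : (0 : ℝ) < (Module.finrank ℚ M : ℝ) := by
    exact_mod_cast Module.finrank_pos (R := ℚ) (M := M)
  have hDq : (0 : ℝ) < (D : ℝ) := by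
    rw [hD]
    exact_mod_cast Module.finrank_pos (R := ℚ) (M := E)
  -- heights
  have hht : ∀ (h : E →ₐ[ℚ] M) (i : Fin n), Height.logHeight₁ (h (r i)) =
      (Module.finrank ℚ M : ℝ) * absLogHeight₁ (r i) := by
    intro h i
    have h1 := Pool.Agent.H4.RR.absLogHeight_eq E M (h : E →+* M) (r i)
    have h2 := Pool.Agent.H4.RR.absLogHeight_eq E E (RingHom.id E) (r i)
    have h3 := Pool.Agent.H4.RR.absLogHeight_eq M M (RingHom.id M) (h (r i))
    have h4 : absLogHeight₁ (h (r i)) = Height.logHeight₁ (r i) / Module.finrank ℚ E := h1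
    have h5 : absLogHeight₁ (r i) = Height.logHeight₁ (r i) / Module.finrank ℚ E := h2
    have h6 : absLogHeight₁ (h (r i)) = Height.logHeight₁ (h (r i)) / Module.finrank ℚ M := h3
    rw [h5, ← h4, h6]
    field_simp
  have hsum : ∑ j : (E →ₐ[ℚ] M) × Fin n,
      ((((4 * X * S + 4 * T : ℕ) : ℝ)) * Height.logHeight₁ (j.1 (r j.2)) +
        ((4 * T : ℕ) : ℝ) * Height.logHeight₁ (j.1 (r j.2))⁻¹) =
      (D : ℝ) * (Module.finrank ℚ M : ℝ) *
        ((4 * X * S + 8 * T : ℕ) * ∑ i, absLogHeight₁ (r i)) := by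
    rw [Fintype.sum_prod_type]
    have h1 : ∀ h : E →ₐ[ℚ] M, ∑ i : Fin n,
        ((((4 * X * S + 4 * T : ℕ) : ℝ)) * Height.logHeight₁ (h (r i)) +
        ((4 * T : ℕ) : ℝ) * Height.logHeight₁ (h (r i))⁻¹) =
        (Module.finrank ℚ M : ℝ) * ((4 * X * S + 8 * T : ℕ) * ∑ i, absLogHeight₁ (r i)) := by
      intro h
      rw [Finset.mul_sum, Finset.mul_sum]
      refine Finset.sum_congr rfl fun i _ => ?_
      rw [Height.logHeight₁_inv, hht]
      push_cast
      ring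
    rw [Finset.sum_congr rfl fun h _ => h1 h, Finset.sum_const, Finset.card_univ, hcH,
      nsmul_eq_mul]
    ring
  rw [hfp] at key
  have key2 : 0 ≤ (Module.finrank ℚ M : ℝ) * Real.log C +
      (D : ℝ) * (Module.finrank ℚ M : ℝ) *
        ((4 * X * S + 8 * T : ℕ) * ∑ i, absLogHeight₁ (r i)) +
      -((T : ℝ) * D * Module.finrank ℚ M * ∑ l ∈ LL, Real.log l) := by
    rw [← hsum]
    exact key
  have hlC : Real.log C = 4 * (Real.log (R.factorial) +
      (D : ℝ) * (N * (T * Real.log ((X + 1 : ℕ) : ℝ)))) := by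
    rw [hCd, Real.log_pow, Real.log_mul (by linarith) (by linarith), Real.log_pow, Real.log_pow,
      Real.log_pow]
    push_cast
    ring
  have hlF : Real.log (R.factorial) ≤ (R : ℝ) * Real.log (R : ℝ) := by
    rw [← Real.log_pow]
    refine Real.log_le_log (by linarith) ?_
    exact_mod_cast Nat.factorial_le_pow R
  have hRr : (R : ℝ) = D * ((N + LL.card : ℕ) : ℝ) := by
    rw [hR]
    push_cast
    ring
  rw [hlC] at key2
  have hfinal : ((D : ℝ) * Module.finrank ℚ M) * ((T : ℝ) * ∑ l ∈ LL, Real.log l) ≤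
      ((D : ℝ) * Module.finrank ℚ M) * (4 * ((N + LL.card : ℕ) * Real.log (R : ℝ)) +
        4 * ((T * N : ℕ) * Real.log (X + 1 : ℕ)) +
        (4 * X * S + 8 * T : ℕ) * ∑ i, absLogHeight₁ (r i)) := by
    have h1 : (Module.finrank ℚ M : ℝ) * (4 * Real.log (R.factorial)) ≤
        (Module.finrank ℚ M : ℝ) * (4 * ((R : ℝ) * Real.log (R : ℝ))) :=
      mul_le_mul_of_nonneg_left (by linarith) hMq.le
    rw [show (Module.finrank ℚ M : ℝ) * (4 * ((R : ℝ) * Real.log (R : ℝ))) =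
      ((D : ℝ) * Module.finrank ℚ M) * (4 * ((N + LL.card : ℕ) * Real.log (R : ℝ))) by
        nth_rewrite 1 [hRr]
        ring] at h1
    have h2 : ((T * N : ℕ) : ℝ) = (T : ℝ) * N := by push_cast; ring
    rw [h2]
    linarith
  have h9 := le_of_mul_le_mul_left hfinal (mul_pos hDq hMq)
  rw [hR, hD, hN, hS] at h9
  exact h9

end Pool.Agent.H33.PT
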