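import Pool.Agent.H33.PT.Map

/-!
# The array `i + f (j - i)` is not based on a group (quadrangle criterion)
-/

set_option autoImplicit false

namespace Pool.Agent.H33.PT

open Finset

theorem avoid {F : Type} [Field F] [Fintype F] [DecidableEq F] (S D : Finset F) (h : D.card * S.card < Fintype.card F) :
    ∃ t : F, ∀ d ∈ D, d + t ∉ S := by
  have h1 : (D.biUnion fun d => S.image fun s => s - d).card < (univ : Finset F).card := by
    rw [card_univ]
    refine lt_of_le_of_lt (card_biUnion_le_card_mul _ _ S.card fun d _ => card_image_le) h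
  obtain ⟨t, -, ht⟩ := exists_mem_notMem_of_card_lt_card h1
  refine ⟨t, fun d hd hs => ht ?_⟩
  rw [mem_biUnion]
  exact ⟨d, hd, mem_image.2 ⟨d + t, hs, by ring⟩⟩

theorem not_group {F : Type} [Field F] [Fintype F] [DecidableEq F] (two : (2 : F) = 0) {a : F} (f : F → F) (S : Finset F)
    (hS : ∀ x, x ∉ S → f x = a * x) (h0 : f 0 ≠ 0) (hc : 4 * S.card < Fintype.card F) (G : Type) [Group G]
    (r c s : F ≃ G) (H : ∀ i j, s (i + f (j - i)) = r i * c j) : False := by
  obtain ⟨y, hy⟩ := avoid S {0} (by rw [card_singleton]; omega)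
  have hy := hy 0 (mem_singleton_self _)
  rw [zero_add] at hy
  obtain ⟨x, hx⟩ := avoid S {0, y} (by
    have := card_le_two (a := (0 : F)) (b := y)
    nlinarith)
  have hx0 := hx 0 (by simp)
  have hxy := hx y (by simp)
  rw [zero_add] at hx0
  obtain ⟨t, ht⟩ := avoid S {0, x, y, y + x} (by
    have := card_le_four (a := (0 : F)) (b := x) (c := y) (d := y + x)
    nlinarith)
  have ht0 := ht 0 (by simp)
  have htx := ht x (by simp)
  have hty := ht y (by simp)
  have htxy := ht (y + x) (by simp)
  rw [zero_add] at ht0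
  -- the cells: rows `-x`, `0`, columns `y`, `0`; shift by `(a t, (1 + a) t)`
  have e1 : s (-x + f (y - -x)) = s (-x + a * t + f (y + (1 + a) * t - (-x + a * t))) := by
    congr 1
    have h1 : y - -x = y + x := by ring
    have h2 : y + (1 + a) * t - (-x + a * t) = y + x + t := by ring
    rw [h1, h2, hS _ hxy, hS _ htxy]
    linear_combination (-a * t) * two
  have e2 : s (-x + f (0 - -x)) = s (-x + a * t + f (0 + (1 + a) * t - (-x + a * t))) := by
    congr 1
    have h1 : (0 : F) - -x = x := by ring
    have h2 : 0 + (1 + a) * t - (-x + a * t) = x + t := by ring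
    rw [h1, h2, hS _ hx0, hS _ htx]
    linear_combination (-a * t) * two
  have e3 : s (0 + f (y - 0)) = s (0 + a * t + f (y + (1 + a) * t - (0 + a * t))) := by
    congr 1
    have h1 : y - 0 = y := by ring
    have h2 : y + (1 + a) * t - (0 + a * t) = y + t := by ring
    rw [h1, h2, hS _ hy, hS _ hty]
    linear_combination (-a * t) * two
  rw [H, H] at e1 e2 e3
  have e4 : r 0 * c 0 = r (0 + a * t) * c (0 + (1 + a) * t) := by
    have k1 : r 0 * c 0 = (r 0 * c y) * (r (-x) * c y)⁻¹ * (r (-x) * c 0) := by group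
    have k2 : r (0 + a * t) * c (0 + (1 + a) * t) = (r (0 + a * t) * c (y + (1 + a) * t)) *
        (r (-x + a * t) * c (y + (1 + a) * t))⁻¹ * (r (-x + a * t) * c (0 + (1 + a) * t)) := by group
    rw [k1, k2, e1, e2, e3]
  rw [← H, ← H] at e4
  have e5 := s.injective e4
  have h2 : 0 + (1 + a) * t - (0 + a * t) = t := by ring
  rw [h2, hS _ ht0, sub_zero, zero_add] at e5
  apply h0
  rw [e5]
  linear_combination a * t * two

end Pool.Agent.H33.PT
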