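import Pool.Agent.H33.PT.Bas

/-!
# POINTS THEOREM, Itg: integral coordinates

`coords_int`. PROOF: the minimal polynomial `f` of `x` over `ℚ` splits in `M` with roots among the `h x` (`M` contains the conjugates: the product `∏_h (X - h x)` is the characteristic polynomial, or: every root of `f` in an algebraic
closure is a conjugate, `hE` gives all of them), so its coefficients `c` satisfy `w c ≤ 1` (sums of products of the `h x`, ultrametric), i.e. `l` does not divide the denominator of `c ∈ ℚ` (if it does: `w c > 1`).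
Let `s` be the product of these denominators, `w s = 1`; `s x` is a root of a monic polynomial with integral coefficients (`X^d + ∑ c_k s^(d-k) X^k`), so it is integral, `s x = ∑ m_k θ_k` with `m_k ∈ ℤ`, and `c k := m_k / s`.
-/

set_option autoImplicit false
set_option linter.unusedSectionVars false

open NumberField

namespace Pool.Agent.H33.PT

variable {E M : Type} [Field E] [Field M] [NumberField E] [NumberField M]

private theorem w_int_le (w : FinitePlace M) (n : ℤ) : w (n : M) ≤ 1 := by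
  have h : (n : M) = algebraMap (𝓞 M) M (n : 𝓞 M) := (map_intCast _ _).symm
  rw [h, ← FinitePlace.norm_embedding_eq]
  exact FinitePlace.norm_le_one M w.maximalIdeal (n : 𝓞 M)

private theorem w_nat_le (w : FinitePlace M) (n : ℕ) : w (n : M) ≤ 1 := by
  have := w_int_le w (n : ℤ)
  rwa [Int.cast_natCast] at this

private theorem w_int_one (w : FinitePlace M) (l : ℕ) (hl : l.Prime) (hw : w (l : M) < 1) (n : ℤ)
    (hn : ¬ (l : ℤ) ∣ n) : w (n : M) = 1 := by
  obtain ⟨a, b, hab⟩ := (Nat.prime_iff_prime_int.1 hl).coprime_iff_not_dvd.2 hn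
  refine le_antisymm (w_int_le w n) ?_
  have h1 : (a : M) * (l : M) + (b : M) * (n : M) = 1 := by
    have := congrArg (fun z : ℤ => (z : M)) hab
    push_cast at this
    exact this
  have h2 := FinitePlace.add_le w ((a : M) * (l : M)) ((b : M) * (n : M))
  rw [h1, map_one, map_mul, map_mul] at h2
  have h3 : w (a : M) * w (l : M) < 1 :=
    lt_of_le_of_lt (mul_le_of_le_one_left (apply_nonneg w _) (w_int_le w a)) hw
  have h4 : w (b : M) * w (n : M) ≤ w (n : M) :=
    mul_le_of_le_one_left (apply_nonneg w _) (w_int_le w b)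
  rcases le_max_iff.1 h2 with h | h
  · exact absurd h (not_le.2 h3)
  · exact h.trans h4

private theorem den_not_dvd (w : FinitePlace M) (l : ℕ) (hl : l.Prime) (hw : w (l : M) < 1) (c : ℚ)
    (hc : w (c : M) ≤ 1) : ¬ l ∣ c.den := by
  intro hd
  have hnum : ¬ (l : ℤ) ∣ c.num := by
    intro h
    have h1 : l ∣ c.num.natAbs := Int.natCast_dvd.1 h
    have h2 := Nat.dvd_gcd h1 hd
    rw [c.reduced.gcd_eq_one] at h2
    exact hl.one_lt.ne' (Nat.dvd_one.1 h2)
  have h1 := w_int_one w l hl hw c.num hnum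
  have h2 : (c : M) * (c.den : M) = (c.num : M) := by
    have h3 := Rat.mul_den_eq_num c
    have h4 := congrArg (fun z : ℚ => (z : M)) h3
    push_cast at h4
    exact h4
  rw [← h2, map_mul] at h1
  obtain ⟨t, ht⟩ := hd
  have h3 : w (c.den : M) < 1 := by
    rw [ht]
    push_cast
    rw [map_mul]
    exact lt_of_le_of_lt (mul_le_of_le_one_right (apply_nonneg w _) (w_nat_le w t)) hw
  have h4 : w (c : M) * w (c.den : M) < 1 :=
    lt_of_le_of_lt (mul_le_of_le_one_left (apply_nonneg w _) hc) h3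
  exact absurd h1 h4.ne

open Polynomial in
private theorem coeff_prod_le (w : FinitePlace M) (s : Multiset M) (hs : ∀ y ∈ s, w y ≤ 1) :
    ∀ k, w ((s.map fun y => (X - C y : M[X])).prod.coeff k) ≤ 1 := by
  induction s using Multiset.induction_on with
  | empty =>
    intro k
    rw [Multiset.map_zero, Multiset.prod_zero, coeff_one]
    split
    · rw [map_one]
    · rw [map_zero]
      exact zero_le_one
  | cons a s ih =>
    have ih' := ih fun y hy => hs y (Multiset.mem_cons_of_mem hy)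
    have ha := hs a (Multiset.mem_cons_self a s)
    intro k
    rw [Multiset.map_cons, Multiset.prod_cons, sub_mul, coeff_sub, coeff_C_mul]
    have h2 : w (a * (s.map fun y => (X - C y : M[X])).prod.coeff k) ≤ 1 := by
      rw [map_mul]
      exact mul_le_one₀ ha (apply_nonneg w _) (ih' k)
    have h1 : w ((X * (s.map fun y => (X - C y : M[X])).prod).coeff k) ≤ 1 := by
      cases k with
      | zero =>
        rw [coeff_X_mul_zero, map_zero]
        exact zero_le_one
      | succ k =>
        rw [coeff_X_mul]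
        exact ih' k
    have h3 := FinitePlace.add_le w ((X * (s.map fun y => (X - C y : M[X])).prod).coeff k)
      (-(a * (s.map fun y => (X - C y : M[X])).prod.coeff k))
    rw [← sub_eq_add_neg] at h3
    refine h3.trans (max_le h1 ?_)
    rw [show w (-(a * (s.map fun y => (X - C y : M[X])).prod.coeff k)) =
      w (a * (s.map fun y => (X - C y : M[X])).prod.coeff k) from map_neg_eq_map w _]
    exact h2

open Polynomial in
private theorem minpoly_coeff_le (hE : Fintype.card (E →ₐ[ℚ] M) = Module.finrank ℚ E)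
    (w : FinitePlace M) (x : E) (hx : ∀ h : E →ₐ[ℚ] M, w (h x) ≤ 1) (k : ℕ) :
    w (((minpoly ℚ x).coeff k : ℚ) : M) ≤ 1 := by
  classical
  obtain ⟨ψ₀⟩ : Nonempty (M →+* ℂ) := inferInstance
  let ψ : M →ₐ[ℚ] ℂ := RingHom.toRatAlgHom ψ₀
  have hψ : Function.Injective ψ := ψ.toRingHom.injective
  have hinj : Function.Injective (fun h : E →ₐ[ℚ] M => ψ.comp h) := by
    intro h h' hh
    ext y
    exact hψ (DFunLike.congr_fun hh y)
  have hbij : Function.Bijective (fun h : E →ₐ[ℚ] M => ψ.comp h) := by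
    rw [Fintype.bijective_iff_injective_and_card]
    exact ⟨hinj, by rw [hE, AlgHom.card]⟩
  have hroot : ∀ z ∈ ((minpoly ℚ x).map (algebraMap ℚ ℂ)).roots, ∃ y : M, ψ y = z ∧ w y ≤ 1 := by
    intro z hz
    have h1 : z ∈ (minpoly ℚ x).rootSet ℂ := by
      rw [mem_rootSet']
      rw [mem_roots'] at hz
      refine ⟨hz.1, ?_⟩
      rw [aeval_def, ← eval_map]
      exact hz.2
    rw [← Algebra.IsAlgebraic.range_eval_eq_rootSet_minpoly ℂ x] at h1
    obtain ⟨φ, hφ⟩ := h1
    obtain ⟨h, hh⟩ := hbij.2 φ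
    refine ⟨h x, ?_, hx h⟩
    have h2 := DFunLike.congr_fun hh x
    rw [← hφ]
    exact h2
  choose! g hg1 hg2 using hroot
  have hsp : ((minpoly ℚ x).map (algebraMap ℚ ℂ)) =
      ((((minpoly ℚ x).map (algebraMap ℚ ℂ)).roots).map fun z => (X - C z : ℂ[X])).prod := by
    have hm : ((minpoly ℚ x).map (algebraMap ℚ ℂ)).Monic :=
      (minpoly.monic (Algebra.IsIntegral.isIntegral x)).map _
    exact (IsAlgClosed.splits _).eq_prod_roots_of_monic hm
  have hM : (minpoly ℚ x).map (algebraMap ℚ M) =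
      ((((minpoly ℚ x).map (algebraMap ℚ ℂ)).roots.map g).map fun y => (X - C y : M[X])).prod := by
    apply Polynomial.map_injective (ψ : M →+* ℂ) hψ
    rw [Polynomial.map_map, Polynomial.map_multiset_prod, Multiset.map_map, Multiset.map_map]
    have h3 : (ψ : M →+* ℂ).comp (algebraMap ℚ M) = algebraMap ℚ ℂ := ψ.comp_algebraMap
    rw [h3]
    refine hsp.trans ?_
    congr 1
    refine Multiset.map_congr rfl fun z hz => ?_
    simp only [Function.comp_apply, Polynomial.map_sub, Polynomial.map_X, Polynomial.map_C]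
    have h4 := hg1 z hz
    rw [show (ψ : M →+* ℂ) (g z) = z from h4]
  have h5 : (((minpoly ℚ x).coeff k : ℚ) : M) = ((minpoly ℚ x).map (algebraMap ℚ M)).coeff k := by
    rw [coeff_map]
    rfl
  rw [h5, hM]
  refine coeff_prod_le w _ ?_ k
  intro y hy
  obtain ⟨z, hz, rfl⟩ := Multiset.mem_map.1 hy
  exact hg2 z hz

open Polynomial in
private theorem integral_mul (x : E) (s : ℕ)
    (hs : ∀ k < (minpoly ℚ x).natDegree, ((minpoly ℚ x).coeff k).den ∣ s) :
    IsIntegral ℤ ((s : E) * x) := by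
  have hmon : (minpoly ℚ x).Monic := minpoly.monic (Algebra.IsIntegral.isIntegral x)
  have hp1 : (scaleRoots (minpoly ℚ x) (s : ℚ)).Monic := (monic_scaleRoots_iff (s : ℚ)).2 hmon
  have hlift : scaleRoots (minpoly ℚ x) (s : ℚ) ∈ lifts (algebraMap ℤ ℚ) := by
    rw [lifts_iff_coeff_lifts]
    intro k
    rw [coeff_scaleRoots]
    rcases lt_trichotomy k (minpoly ℚ x).natDegree with hk | hk | hk
    · obtain ⟨t, ht⟩ := hs k hk
      obtain ⟨d, hd⟩ : ∃ d, (minpoly ℚ x).natDegree - k = d + 1 := ⟨_, (Nat.succ_pred_eq_of_pos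
        (Nat.sub_pos_of_lt hk)).symm⟩
      refine ⟨((minpoly ℚ x).coeff k).num * t * s ^ d, ?_⟩
      rw [hd, pow_succ']
      have h1 := Rat.mul_den_eq_num ((minpoly ℚ x).coeff k)
      have h2 : (s : ℚ) = (((minpoly ℚ x).coeff k).den : ℚ) * (t : ℚ) := by
        rw [← Nat.cast_mul, ← ht]
      have h3 : (minpoly ℚ x).coeff k * ((s : ℚ) * (s : ℚ) ^ d) =
          ((minpoly ℚ x).coeff k * (((minpoly ℚ x).coeff k).den : ℚ)) * (t : ℚ) * (s : ℚ) ^ d := by
        nth_rewrite 1 [h2]
        ring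
      rw [h3, h1]
      simp
    · refine ⟨1, ?_⟩
      rw [hk, Nat.sub_self, pow_zero, mul_one, map_one]
      exact hmon.coeff_natDegree.symm
    · refine ⟨0, ?_⟩
      rw [coeff_eq_zero_of_natDegree_lt hk, zero_mul, map_zero]
  obtain ⟨q, hq1, -, hq3⟩ := lifts_and_natDegree_eq_and_monic hlift hp1
  refine ⟨q, hq3, ?_⟩
  have h4 : aeval (algebraMap ℚ E (s : ℚ) * x) (scaleRoots (minpoly ℚ x) (s : ℚ)) = 0 :=
    scaleRoots_aeval_eq_zero (minpoly.aeval ℚ x)
  rw [← hq1, aeval_map_algebraMap, map_natCast] at h4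
  exact h4

theorem coords_int (hE : Fintype.card (E →ₐ[ℚ] M) = Module.finrank ℚ E)
    (θ : (E →ₐ[ℚ] M) → E) (hθ : Tht E M θ) (w : FinitePlace M) (l : ℕ) (hl : l.Prime)
    (hw : w (l : M) < 1) (x : E) (hx : ∀ h : E →ₐ[ℚ] M, w (h x) ≤ 1) :
    ∃ c : (E →ₐ[ℚ] M) → ℚ, x = ∑ k, (c k : E) * θ k ∧ ∀ k, w ((c k : ℚ) : M) ≤ 1 := by
  classical
  set s : ℕ := ∏ k ∈ Finset.range (minpoly ℚ x).natDegree, ((minpoly ℚ x).coeff k).den with hs
  have hls : ¬ l ∣ s := by
    rw [hs, hl.prime.dvd_finsetProd_iff]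
    rintro ⟨k, _, hk⟩
    exact den_not_dvd w l hl hw _ (minpoly_coeff_le hE w x hx k) hk
  have hs0 : s ≠ 0 := by
    rintro h
    rw [h] at hls
    exact hls (dvd_zero l)
  have hws : w (s : M) = 1 := by
    have h1 := w_int_one w l hl hw (s : ℤ) (fun h => hls (Int.natCast_dvd_natCast.1 h))
    rwa [Int.cast_natCast] at h1
  have hint : IsIntegral ℤ ((s : E) * x) := by
    refine integral_mul x s fun k hk => ?_
    rw [hs]
    exact Finset.dvd_prod_of_mem (fun k => ((minpoly ℚ x).coeff k).den) (Finset.mem_range.2 hk)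
  obtain ⟨m, hm⟩ := hθ.span _ hint
  refine ⟨fun k => (m k : ℚ) / (s : ℚ), ?_, fun k => ?_⟩
  · have hs1 : (s : E) ≠ 0 := Nat.cast_ne_zero.2 hs0
    have h2 : x = (s : E)⁻¹ * ∑ k, (m k : E) * θ k := by
      rw [← hm, inv_mul_cancel_left₀ hs1]
    rw [h2, Finset.mul_sum]
    refine Finset.sum_congr rfl fun k _ => ?_
    push_cast
    rw [div_eq_mul_inv]
    ring
  · push_cast
    rw [map_div₀, hws, div_one]
    exact w_int_le w (m k)

end Pool.Agent.H33.PT
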