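import Pool.Agent.H33.PT.Df

/-!
# POINTS THEOREM, Jnv: the matrix of jets and values has full rank on a box

`H` a finite set of points `P h : Fin n → M` (with nonzero coordinates), `hsep`: separators: for every `h₀` polynomials of degree `≤ X` in each variable with value `1` at `P h₀` (or at `(P h₀)^l₀`) and `0` at all other points `P h` and `(P h)^l`, `l ∈ LL`.
`exists_cols`: there are `card` exponents of size `≤ T (X + 1)` such that the square matrix of the `row (P h) s (col j)` is invertible.

PROOF. `Cl := Fin n → Fin (T (X + 1) + 1)`, `A : Matrix (H × (TT n T ⊕ LL)) Cl M`, `A (h, s) a = row (P h) s a`. It suffices that the rows of `A` are linearly independent (then `A` has rank `card`, and there are `card` independent columns: `exists_linearIndependent'`/`Matrix.rank` and `Matrix.exists_..`; model: `minor`-type lemmas in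
`Pool/Agent/H33/TR/Ker.lean`, `Pool/Agent/H11/TS/Dsc.lean`, or `exists_submatrix_rank`). Let `∑ α (h, s) row (P h) s a = 0` for all `a ∈ Cl`. For a polynomial `f = ∑_a f_a x^a ∈ M[x]` of degree `≤ T (X + 1)` in each variable: `∑ α (h, s) Φ_(h,s)(f) = 0` with `Φ_(h, inr l)(f) = f((P h)^l)` (`mo_pow`) and
`Φ_(h, inl t)(f)` = the coefficient of `ε^t` in `f(P h (1 + ε))`, `ε = (ε_1, .., ε_n)` variables (`(1+ε_i)^(a_i) = ∑ (a_i choose t_i) ε_i^(t_i)`). `f ↦ f(P h (1 + ε)) ∈ M[ε]` is a ring homomorphism (`MvPolynomial.eval₂Hom`/`aeval` with `x_i ↦ C (P h i) * (1 + X i)`); let `I` = the polynomials in `ε` all of whose monomials have total degree `≥ T`.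
(1) `α (h₀, inl t) = 0`: `f = s^T g`, `s` the separator for `(h₀, 1)` (`s(P h₀) = 1`, `s = 0` at the other points), `g` of degree `≤ T - 1` (`≤ T`) in each variable. `f((P h)^l) = 0` (`T ≥ 1`); for `h ≠ h₀` `s(P h (1+ε))` has constant term `s(P h) = 0`, so its `T`-th power is in `I`: `Φ_(h, inl t)(f) = 0`.
At `h₀`: `s(P h₀ (1+ε))^T = u` has constant term `1`. Suppose some `α (h₀, inl t) ≠ 0`, choose one with `∑ t_i` maximal (`t₀`): take `g = ∏ (x_i / P h₀ i - 1)^(t₀ i)`: `g(P h₀ (1+ε)) = ε^(t₀)`, `u ε^(t₀) = ε^(t₀) +` terms of larger total degree: `Φ_(h₀, inl t)(f) = 0` for `t ≠ t₀` with `∑ t ≤ ∑ t₀`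
(for `∑ t = ∑ t₀`: coefficient of `ε^t` in `ε^(t₀) u` is `0` unless `t = t₀`), and `α (h₀, inl t) = 0` for `∑ t > ∑ t₀`. So `α (h₀, inl t₀) = 0`, contradiction.
(2) `α (h₀, inr l₀) = 0`: `f = s^T` hmm: `f = s`, `s` the separator for `(h₀, l₀)`: all jets have `α = 0` by (1), `f((P h)^l) = 0` for the other `(h, l)`, `f((P h₀)^l₀) = 1`. (The degree `X ≤ T (X + 1)`.)
Degrees: `s^T g` has degree `≤ T X + T = T (X + 1)` in each variable.
-/

set_option autoImplicit false
set_option linter.unusedSectionVars false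

namespace Pool.Agent.H33.PT

open MvPolynomial

private theorem jnv_cols {L : Type} [Field L] {I J : Type} [Fintype I] [DecidableEq I] [Fintype J]
    (A : Matrix I J L) (h : LinearIndependent L A.row) :
    ∃ col : I → J, (Matrix.of fun i j : I => A i (col j)).det ≠ 0 := by
  have h1 : A.rank = Fintype.card I := by
    rw [Matrix.rank_eq_finrank_span_row, finrank_span_eq_card h]
  rw [Matrix.rank_eq_finrank_span_cols] at h1
  obtain ⟨κ, a, ha, hsp, hli⟩ := exists_linearIndependent' L A.col
  have hκ : Finite κ := Finite.of_injective a ha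
  have := Fintype.ofFinite κ
  rw [← hsp, finrank_span_eq_card hli] at h1
  obtain ⟨e⟩ : Nonempty (I ≃ κ) := ⟨Fintype.equivOfCardEq h1.symm⟩
  refine ⟨a ∘ e, ?_⟩
  have h2 : LinearIndependent L (Matrix.of fun i j : I => A i ((a ∘ e) j)).col :=
    hli.comp e e.injective
  rw [Matrix.linearIndependent_cols_iff_isUnit, Matrix.isUnit_iff_isUnit_det] at h2
  exact h2.ne_zero

/-- the exponent as a finitely supported function -/
private noncomputable def fe {n : ℕ} (t : Fin n → ℕ) : Fin n →₀ ℕ := Finsupp.equivFunOnFinite.symm t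

private theorem fe_apply {n : ℕ} (t : Fin n → ℕ) (i : Fin n) : fe t i = t i := rfl

private theorem fe_inj {n : ℕ} {t t' : Fin n → ℕ} (h : fe t = fe t') : t = t' :=
  Finsupp.equivFunOnFinite.symm.injective h

private theorem fe_coe {n : ℕ} (m : Fin n →₀ ℕ) : fe (m : Fin n → ℕ) = m := by
  ext i
  rfl

private theorem fe_zero {n : ℕ} : fe (0 : Fin n → ℕ) = 0 := by
  ext i
  rfl

private theorem monomial_fe {M : Type} [Field M] {n : ℕ} (t : Fin n → ℕ) (c : M) :
    monomial (fe t) c = C c * ∏ i, (X i : MvPolynomial (Fin n) M) ^ t i := by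
  rw [monomial_eq]
  congr 1
  rw [Finsupp.prod_fintype _ _ (fun i => pow_zero _)]
  rfl

/-- the substitution `x_i ↦ P_i (1 + ε_i)` -/
private noncomputable def sft {M : Type} [Field M] {n : ℕ} (P : Fin n → M) :
    MvPolynomial (Fin n) M →ₐ[M] MvPolynomial (Fin n) M :=
  aeval fun i => C (P i) * (1 + X i)

private theorem coeff_one_add {M : Type} [Field M] {n : ℕ} (a t : Fin n → ℕ) :
    coeff (fe t) (∏ i, (1 + X i : MvPolynomial (Fin n) M) ^ a i) = (bc a t : M) := by
  classical
  have h1 : ∀ i, (1 + X i : MvPolynomial (Fin n) M) ^ a i =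
      ∑ k ∈ Finset.range (a i + 1), C ((a i).choose k : M) * X i ^ k := by
    intro i
    rw [add_comm, add_pow]
    refine Finset.sum_congr rfl fun k _ => ?_
    rw [one_pow, mul_one, mul_comm, C_eq_coe_nat]
  simp_rw [h1]
  rw [Finset.prod_univ_sum, coeff_sum]
  have h2 : ∀ κ : Fin n → ℕ, ∏ i, (C ((a i).choose (κ i) : M) * (X i : MvPolynomial (Fin n) M) ^ κ i) =
      monomial (fe κ) (bc a κ : M) := by
    intro κ
    rw [monomial_fe, Finset.prod_mul_distrib]
    congr 1
    rw [← map_prod]
    unfold bc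
    push_cast
    rfl
  rw [Finset.sum_congr rfl fun κ _ => by rw [h2 κ, coeff_monomial]]
  by_cases ht : t ∈ Fintype.piFinset fun i => Finset.range (a i + 1)
  · rw [Finset.sum_eq_single t]
    · rw [if_pos rfl]
    · intro κ _ hκ
      rw [if_neg fun h => hκ (fe_inj h)]
    · intro h
      exact absurd ht h
  · rw [Finset.sum_eq_zero]
    · rw [Fintype.mem_piFinset] at ht
      push Not at ht
      obtain ⟨i, hi⟩ := ht
      rw [Finset.mem_range, not_lt] at hi
      have h3 : bc a t = 0 := by
        unfold bc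
        exact Finset.prod_eq_zero (Finset.mem_univ i) (Nat.choose_eq_zero_of_lt (by omega))
      rw [h3, Nat.cast_zero]
    · intro κ hκ
      rw [if_neg]
      intro h
      rw [fe_inj h] at hκ
      exact ht hκ

private theorem sft_monomial {M : Type} [Field M] {n : ℕ} (P : Fin n → M) (a : Fin n → ℕ) (c : M) :
    sft P (monomial (fe a) c) = C (c * mo P a) * ∏ i, (1 + X i : MvPolynomial (Fin n) M) ^ a i := by
  unfold sft
  rw [aeval_monomial, Finsupp.prod_fintype _ _ (fun i => pow_zero _)]
  have h1 : ∏ i, (C (P i) * (1 + X i : MvPolynomial (Fin n) M)) ^ (fe a) i =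
      C (mo P a) * ∏ i, (1 + X i : MvPolynomial (Fin n) M) ^ a i := by
    unfold mo
    rw [map_prod, ← Finset.prod_mul_distrib]
    refine Finset.prod_congr rfl fun i _ => ?_
    rw [mul_pow, fe_apply, map_pow]
  rw [h1, map_mul, algebraMap_eq, mul_assoc]

/-- the functional of a row -/
private noncomputable def fnl {M : Type} [Field M] {n T : ℕ} {LL : Finset ℕ} (y : Fin n → M) :
    TT n T ⊕ LL → (MvPolynomial (Fin n) M →ₗ[M] M)
  | Sum.inl t => (lcoeff M (fe (tv t))).comp (sft y).toLinearMap
  | Sum.inr l => (aeval (fun i => y i ^ (l : ℕ)) : MvPolynomial (Fin n) M →ₐ[M] M).toLinearMap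

private theorem fnl_monomial {M : Type} [Field M] {n T : ℕ} {LL : Finset ℕ} (y : Fin n → M)
    (s : TT n T ⊕ LL) (a : Fin n → ℕ) (c : M) :
    fnl y s (monomial (fe a) c) = c * row y s a := by
  cases s with
  | inl t =>
    show coeff (fe (tv t)) (sft y (monomial (fe a) c)) = c * ((bc a (tv t) : M) * mo y a)
    rw [sft_monomial, coeff_C_mul, coeff_one_add]
    ring
  | inr l =>
    show aeval (fun i => y i ^ (l : ℕ)) (monomial (fe a) c) = c * mo y fun i => (l : ℕ) * a i
    rw [aeval_monomial, Finsupp.prod_fintype _ _ (fun i => pow_zero _), mo_pow]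
    rfl

private theorem fnl_kill {M : Type} [Field M] {H : Type} [Fintype H] {n T : ℕ} {LL : Finset ℕ}
    (P : H → Fin n → M) (D : ℕ) (α : H × (TT n T ⊕ LL) → M)
    (hα : ∀ a : Fin n → ℕ, (∀ i, a i ≤ D) → ∑ p, α p * row (P p.1) p.2 a = 0)
    (f : MvPolynomial (Fin n) M) (hf : ∀ i, f.degreeOf i ≤ D) :
    ∑ p, α p * fnl (P p.1) p.2 f = 0 := by
  have h1 : ∀ p : H × (TT n T ⊕ LL), fnl (P p.1) p.2 f =
      ∑ m ∈ f.support, coeff m f * row (P p.1) p.2 (m : Fin n → ℕ) := by
    intro p
    conv_lhs => rw [← support_sum_monomial_coeff f, map_sum]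
    refine Finset.sum_congr rfl fun m _ => ?_
    rw [← fnl_monomial, fe_coe]
  simp_rw [h1, Finset.mul_sum]
  rw [Finset.sum_comm]
  refine Finset.sum_eq_zero fun m hm => ?_
  have h2 := hα (m : Fin n → ℕ) fun i => (monomial_le_degreeOf i hm).trans (hf i)
  have h3 : ∀ p : H × (TT n T ⊕ LL), α p * (coeff m f * row (P p.1) p.2 (m : Fin n → ℕ)) =
      coeff m f * (α p * row (P p.1) p.2 (m : Fin n → ℕ)) := fun p => by ring
  rw [Finset.sum_congr rfl fun p _ => h3 p, ← Finset.mul_sum, h2, mul_zero]

/-- the polynomial of a separator -/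
private noncomputable def spl {M : Type} [Field M] {n X' : ℕ} (c : (Fin n → Fin (X' + 1)) → M) :
    MvPolynomial (Fin n) M := ∑ a, monomial (fe fun i => (a i : ℕ)) (c a)

private theorem spl_aeval {M : Type} [Field M] {n X' : ℕ} (c : (Fin n → Fin (X' + 1)) → M)
    (y : Fin n → M) : aeval y (spl c) = ∑ a, c a * mo y (fun i => (a i : ℕ)) := by
  unfold spl
  rw [map_sum]
  refine Finset.sum_congr rfl fun a _ => ?_
  rw [aeval_monomial, Finsupp.prod_fintype _ _ (fun i => pow_zero _)]
  rfl

private theorem spl_deg {M : Type} [Field M] {n X' : ℕ} (c : (Fin n → Fin (X' + 1)) → M) (i : Fin n) :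
    (spl c).degreeOf i ≤ X' := by
  classical
  unfold spl
  refine (degreeOf_sum_le i _ _).trans ?_
  refine Finset.sup_le fun a _ => ?_
  by_cases hc : c a = 0
  · rw [hc, monomial_zero, degreeOf_zero]
    exact Nat.zero_le _
  · rw [degreeOf_monomial_eq _ _ hc, fe_apply]
    exact Nat.le_of_lt_succ (a i).2

/-- all monomials have total degree at least `k` -/
private def Ord {M : Type} [Field M] {n : ℕ} (k : ℕ) (u : MvPolynomial (Fin n) M) : Prop :=
  ∀ m : Fin n →₀ ℕ, ∑ i, m i < k → coeff m u = 0

private theorem ord_mul {M : Type} [Field M] {n : ℕ} {k k' : ℕ} {u v : MvPolynomial (Fin n) M}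
    (hu : Ord k u) (hv : Ord k' v) : Ord (k + k') (u * v) := by
  classical
  intro m hm
  rw [coeff_mul]
  refine Finset.sum_eq_zero fun x hx => ?_
  have h1 : x.1 + x.2 = m := Finset.HasAntidiagonal.mem_antidiagonal.1 hx
  have h2 : ∑ i, x.1 i + ∑ i, x.2 i = ∑ i, m i := by
    rw [← Finset.sum_add_distrib, ← h1]
    rfl
  rcases lt_or_ge (∑ i, x.1 i) k with h | h
  · rw [hu _ h, zero_mul]
  · rw [hv _ (by omega), mul_zero]

private theorem ord_pow {M : Type} [Field M] {n : ℕ} {u : MvPolynomial (Fin n) M}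
    (hu : Ord 1 u) (k : ℕ) : Ord k (u ^ k) := by
  induction k with
  | zero =>
    intro m hm
    exact absurd hm (Nat.not_lt_zero _)
  | succ k ih =>
    rw [pow_succ]
    exact ord_mul ih hu

private theorem ord_zero {M : Type} [Field M] {n : ℕ} (u : MvPolynomial (Fin n) M) : Ord 0 u :=
  fun _ hm => absurd hm (Nat.not_lt_zero _)

private theorem coeff_zero_sft {M : Type} [Field M] {n : ℕ} (P : Fin n → M)
    (f : MvPolynomial (Fin n) M) : constantCoeff (sft P f) = aeval P f := by
  have h : (constantCoeff : MvPolynomial (Fin n) M →+* M).comp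
      (sft P : MvPolynomial (Fin n) M →+* MvPolynomial (Fin n) M) =
      ((aeval P : MvPolynomial (Fin n) M →ₐ[M] M) : MvPolynomial (Fin n) M →+* M) := by
    apply ringHom_ext
    · intro r
      simp [sft]
    · intro i
      simp [sft]
  exact DFunLike.congr_fun h f

private theorem ord_one_iff {M : Type} [Field M] {n : ℕ} {u : MvPolynomial (Fin n) M}
    (h : constantCoeff u = 0) : Ord 1 u := by
  intro m hm
  have h1 : m = 0 := by
    ext i
    have h2 : m i ≤ ∑ i, m i := Finset.single_le_sum (fun _ _ => Nat.zero_le _) (Finset.mem_univ i)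
    rw [Finsupp.coe_zero, Pi.zero_apply]
    omega
  rw [h1]
  exact h

private theorem tv_inj {n T : ℕ} {t t' : TT n T} (h : tv t = tv t') : t = t' := by
  apply Subtype.ext
  funext i
  exact Fin.ext (congrFun h i)

theorem exists_cols {M : Type} [Field M] {H : Type} [Fintype H] [DecidableEq H] {n : ℕ}
    (P : H → Fin n → M) (hP : ∀ h i, P h i ≠ 0) (T : ℕ) (hT : 1 ≤ T) (LL : Finset ℕ) (X : ℕ)
    (hsep1 : ∀ h₀ : H, ∃ c : (Fin n → Fin (X + 1)) → M,
      ∑ a, c a * mo (P h₀) (fun i => (a i : ℕ)) = 1 ∧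
      (∀ h, h ≠ h₀ → ∑ a, c a * mo (P h) (fun i => (a i : ℕ)) = 0) ∧
      ∀ h, ∀ l ∈ LL, ∑ a, c a * mo (fun i => P h i ^ l) (fun i => (a i : ℕ)) = 0)
    (hsep2 : ∀ h₀ : H, ∀ l₀ ∈ LL, ∃ c : (Fin n → Fin (X + 1)) → M,
      ∑ a, c a * mo (fun i => P h₀ i ^ l₀) (fun i => (a i : ℕ)) = 1 ∧
      ∀ h, ∀ l ∈ LL, (h ≠ h₀ ∨ l ≠ l₀) →
        ∑ a, c a * mo (fun i => P h i ^ l) (fun i => (a i : ℕ)) = 0) :
    ∃ col : H × (TT n T ⊕ LL) → Fin n → ℕ, (∀ j i, col j i ≤ T * (X + 1)) ∧
      Matrix.det (Matrix.of fun p j : H × (TT n T ⊕ LL) => row (P p.1) p.2 (col j)) ≠ 0 := by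
  classical
  set D := T * (X + 1) with hD
  have hmain : ∀ α : H × (TT n T ⊕ LL) → M,
      (∀ a : Fin n → ℕ, (∀ i, a i ≤ D) → ∑ p, α p * row (P p.1) p.2 a = 0) → ∀ p, α p = 0 := by
    intro α hα
    have hk := fnl_kill P D α hα
    -- the jets
    have hjet : ∀ (h₀ : H) (t : TT n T), α (h₀, Sum.inl t) = 0 := by
      intro h₀
      by_contra hcon
      push Not at hcon
      obtain ⟨t₁, ht₁⟩ := hcon
      obtain ⟨t₀, ht₀, hmax⟩ := (Finset.univ.filter fun t : TT n T => α (h₀, Sum.inl t) ≠ 0).exists_max_image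
        (fun t => ∑ i, tv t i) ⟨t₁, Finset.mem_filter.2 ⟨Finset.mem_univ _, ht₁⟩⟩
      obtain ⟨c, hc1, hc2, hc3⟩ := hsep1 h₀
      set s := spl c with hs
      set g : MvPolynomial (Fin n) M := ∏ i, (C (P h₀ i)⁻¹ * MvPolynomial.X i - 1) ^ tv t₀ i with hg
      have hdeg : ∀ i, (s ^ T * g).degreeOf i ≤ D := by
        intro i
        refine (degreeOf_mul_le i _ _).trans ?_
        have h1 : (s ^ T).degreeOf i ≤ T * X :=
          (degreeOf_pow_le i _ _).trans (Nat.mul_le_mul_left T (spl_deg c i))
        have h2 : g.degreeOf i ≤ T := by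
          refine (degreeOf_prod_le i _ _).trans ?_
          have h3 : ∀ j : Fin n, ((C (P h₀ j)⁻¹ * MvPolynomial.X j - 1 : MvPolynomial (Fin n) M) ^
              tv t₀ j).degreeOf i ≤ if j = i then T else 0 := by
            intro j
            refine (degreeOf_pow_le i _ _).trans ?_
            have h4 : (C (P h₀ j)⁻¹ * MvPolynomial.X j - 1 : MvPolynomial (Fin n) M).degreeOf i ≤
                if j = i then 1 else 0 := by
              rw [sub_eq_add_neg]
              refine (degreeOf_add_le i _ _).trans (max_le ?_ ?_)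
              · refine (degreeOf_C_mul_le _ i _).trans ?_
                rw [degreeOf_X]
                by_cases hij : i = j
                · rw [if_pos hij, if_pos hij.symm]
                · rw [if_neg hij, if_neg fun h => hij h.symm]
              · have h5 : (-1 : MvPolynomial (Fin n) M) = C (-1) := by simp
                rw [h5, degreeOf_C]
                exact Nat.zero_le _
            have h6 : tv t₀ j ≤ T := (t₀.1 j).2.le
            by_cases hji : j = i
            · rw [if_pos hji] at h4 ⊢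
              calc tv t₀ j * _ ≤ tv t₀ j * 1 := Nat.mul_le_mul_left _ h4
                _ ≤ T := by rw [mul_one]; exact h6
            · rw [if_neg hji] at h4 ⊢
              rw [Nat.le_zero.1 h4, mul_zero]
          refine (Finset.sum_le_sum fun j _ => h3 j).trans ?_
          rw [Finset.sum_ite_eq' Finset.univ i, if_pos (Finset.mem_univ i)]
        calc (s ^ T).degreeOf i + g.degreeOf i ≤ T * X + T := Nat.add_le_add h1 h2
          _ = D := by rw [hD]; ring
      have h0 := hk (s ^ T * g) hdeg
      -- values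
      have hval : ∀ (h : H) (l : LL), fnl (P h) (Sum.inr l : TT n T ⊕ LL) (s ^ T * g) = 0 := by
        intro h l
        show aeval (fun i => P h i ^ (l : ℕ)) (s ^ T * g) = 0
        rw [map_mul, map_pow, hs, spl_aeval, hc3 h l l.2, zero_pow (by omega), zero_mul]
      -- jets at other points
      have hoth : ∀ h, h ≠ h₀ → ∀ t : TT n T,
          fnl (P h) (Sum.inl t : TT n T ⊕ LL) (s ^ T * g) = 0 := by
        intro h hh t
        show coeff (fe (tv t)) (sft (P h) (s ^ T * g)) = 0
        rw [map_mul, map_pow]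
        have h1 : Ord 1 (sft (P h) s) := by
          apply ord_one_iff
          rw [coeff_zero_sft, hs, spl_aeval]
          exact hc2 h hh
        have h2 := ord_mul (ord_pow h1 T) (ord_zero (sft (P h) g))
        rw [add_zero] at h2
        exact h2 _ t.2
      -- jets at `P h₀`
      have hgs : sft (P h₀) g = monomial (fe (tv t₀)) 1 := by
        rw [hg, map_prod, monomial_fe, map_one, one_mul]
        refine Finset.prod_congr rfl fun i _ => ?_
        rw [map_pow]
        congr 1
        unfold sft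
        rw [map_sub, map_mul, aeval_X, map_one, aeval_C, algebraMap_eq, ← mul_assoc, ← map_mul,
          inv_mul_cancel₀ (hP h₀ i), map_one, one_mul]
        ring
      have hu : constantCoeff (sft (P h₀) (s ^ T)) = 1 := by
        rw [coeff_zero_sft, map_pow, hs, spl_aeval, hc1, one_pow]
      have hown : ∀ t : TT n T, α (h₀, Sum.inl t) * fnl (P h₀) (Sum.inl t : TT n T ⊕ LL) (s ^ T * g) =
          if t = t₀ then α (h₀, Sum.inl t₀) else 0 := by
        intro t
        by_cases hαt : α (h₀, Sum.inl t) = 0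
        · rw [hαt, zero_mul]
          split
          · rename_i h
            rw [← h, hαt]
          · rfl
        have h1 : fnl (P h₀) (Sum.inl t : TT n T ⊕ LL) (s ^ T * g) =
            coeff (fe (tv t)) (sft (P h₀) (s ^ T) * monomial (fe (tv t₀)) 1) := by
          rw [← hgs, ← map_mul]
          rfl
        rw [h1, coeff_mul_monomial']
        by_cases hle : fe (tv t₀) ≤ fe (tv t)
        · have h2 : ∑ i, tv t i ≤ ∑ i, tv t₀ i :=
            hmax t (Finset.mem_filter.2 ⟨Finset.mem_univ _, hαt⟩)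
          have h3 : ∀ i ∈ Finset.univ, tv t₀ i ≤ tv t i := fun i _ => hle i
          have h4 := (Finset.sum_eq_sum_iff_of_le h3).1 (le_antisymm (Finset.sum_le_sum h3) h2)
          have h5 : t = t₀ := tv_inj (funext fun i => (h4 i (Finset.mem_univ i)).symm)
          rw [if_pos hle, if_pos h5, h5, tsub_self, mul_one]
          rw [show coeff 0 (sft (P h₀) (s ^ T)) = 1 from hu, mul_one]
        · rw [if_neg hle, mul_zero, if_neg]
          intro h5
          rw [h5] at hle
          exact hle le_rfl
      rw [Fintype.sum_prod_type] at h0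
      rw [Finset.sum_eq_single h₀] at h0
      · rw [Fintype.sum_sum_type] at h0
        rw [Finset.sum_congr rfl fun t _ => hown t] at h0
        rw [Finset.sum_ite_eq' Finset.univ t₀, if_pos (Finset.mem_univ _)] at h0
        rw [Finset.sum_eq_zero (s := (Finset.univ : Finset LL)) fun l _ => by
          rw [hval h₀ l, mul_zero], add_zero] at h0
        exact (Finset.mem_filter.1 ht₀).2 h0
      · intro h _ hh
        rw [Fintype.sum_sum_type]
        rw [Finset.sum_eq_zero fun t _ => by rw [hoth h hh t, mul_zero],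
          Finset.sum_eq_zero fun l _ => by rw [hval h l, mul_zero], add_zero]
      · intro h
        exact absurd (Finset.mem_univ _) h
    -- the values
    rintro ⟨h₀, (t | l₀)⟩
    · exact hjet h₀ t
    · obtain ⟨c, hc1, hc2⟩ := hsep2 h₀ l₀ l₀.2
      have hdeg : ∀ i, (spl c).degreeOf i ≤ D := by
        intro i
        refine (spl_deg c i).trans ?_
        rw [hD]
        calc X ≤ 1 * (X + 1) := by omega
          _ ≤ T * (X + 1) := Nat.mul_le_mul_right _ hT
      have h0 := hk (spl c) hdeg
      have hv : ∀ (h : H) (l : LL), fnl (P h) (Sum.inr l : TT n T ⊕ LL) (spl c) =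
          ∑ a, c a * mo (fun i => P h i ^ (l : ℕ)) (fun i => (a i : ℕ)) := fun h l => spl_aeval c _
      rw [Finset.sum_eq_single (h₀, Sum.inr l₀)] at h0
      · rw [hv, hc1, mul_one] at h0
        exact h0
      · rintro ⟨h, (t | l)⟩ _ hne
        · rw [hjet h t, zero_mul]
        · show α (h, Sum.inr l) * fnl (P h) (Sum.inr l : TT n T ⊕ LL) (spl c) = 0
          rw [hv, hc2 h l l.2, mul_zero]
          by_contra hcon
          push Not at hcon
          exact hne (by rw [hcon.1, Subtype.ext hcon.2])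
      · intro h
        exact absurd (Finset.mem_univ _) h
  -- the matrix
  let A : Matrix (H × (TT n T ⊕ LL)) (Fin n → Fin (D + 1)) M :=
    Matrix.of fun p a => row (P p.1) p.2 fun i => (a i : ℕ)
  have hA : LinearIndependent M A.row := by
    rw [Fintype.linearIndependent_iff]
    intro α hα
    apply hmain α
    intro a ha
    have h1 := congrFun hα fun i => ⟨a i, Nat.lt_succ_of_le (ha i)⟩
    rw [Finset.sum_apply] at h1
    exact h1
  obtain ⟨col, hcol⟩ := jnv_cols A hA
  exact ⟨fun j i => (col j i : ℕ), fun j i => Nat.le_of_lt_succ (col j i).2, hcol⟩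

end Pool.Agent.H33.PT
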