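import Pool.Agent.H33.PT.Fro

/-!
# POINTS THEOREM, Ram: the number of ramified embeddings and the discriminant

PROOF. `Q := w.maximalIdeal.asIdeal`, for `h : E →ₐ[ℚ] M` let `P_h := Q.comap (𝓞 E → 𝓞 M induced by h)`, a prime of `𝓞 E` over `(l)`, `e_P`, `f_P` the ramification
index and the inertia degree of `P` over `(l)`.
(1) If `e(P_h) = 1` then `h` is unramified in the sense of the statement: let `x ∈ E`, `w (h x) < 1`. `l 𝓞 E = P 𝔞` with `P ∤ 𝔞`; choose `a ∈ 𝔞`, `a ∉ P`. `x = c / d`, `c, d ∈ 𝓞 E`, `d ∉ P` (because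
`w (h x) ≤ 1`), `c ∈ P`; `a c ∈ P 𝔞 = l 𝓞 E`, so `w (h (a c)) ≤ w l`, `w (h a) = w (h d) = 1` (`a, d ∉ P_h`, so `h a, h d ∉ Q`): `w (h x) ≤ w l`.
(2) `#{h | P_h = P} = e_P f_P` for every prime `P` over `l` (only `≤` is needed, or only `≥`, since `∑_P e_P f_P = finrank ℚ E` (`Ideal.sum_ramification_inertia`) `= ` number of all `h`).
Proof: fix `h₀ : E → M` (there is one, `hE`), every `h` is `g ∘ h₀` for exactly `[M : h₀ E]` elements `g ∈ G = Gal(M/ℚ)` (`AlgEquiv.liftNormal`; `M` normal). `P_(g h₀) = P` iff the prime `g⁻¹ Q` of `M` lies over `P`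
(`𝓞 E → 𝓞 M` by `h₀`). The primes of `M` over `l` are permuted transitively by `G`, the stabilizer of `Q` has order `e(Q) f(Q)` (`Ideal.card_stabilizer_eq` in Mathlib/NumberTheory/RamificationInertia/Galois.lean), so
`#{g | g⁻¹ Q over P} = #(primes of M over P) e(Q) f(Q)`, and `#(primes of M over P) e(Q|P) f(Q|P) = [M : E]` (`M / E` Galois, `ncard_primesOver_mul_ramificationIdxIn_mul_inertiaDegIn`),
`e(Q) = e(Q|P) e_P`, `f(Q) = f(Q|P) f_P`: `#{h | P_h = P} [M : E] = e_P f_P [M : E]`.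
(3) `P^(e_P - 1)` divides the different of `𝓞 E` (`pow_sub_one_dvd_differentIdeal`, Mathlib/RingTheory/DedekindDomain/Different.lean, `A = ℤ`, `p = (l)`), so the product over `P | l` of these
pairwise coprime ideals does, and its norm `l^(∑ (e_P - 1) f_P)` divides `|discr E| = absNorm (different)` (`NumberField.absNorm_differentIdeal`). `c := ∑_(P | l) (e_P - 1) f_P`.
(4) the number of the `h` which are not unramified is at most `∑_(e_P ≥ 2) e_P f_P ≤ 2 ∑ (e_P - 1) f_P = 2 c`.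
-/

set_option autoImplicit false
set_option linter.unusedSectionVars false

open NumberField

namespace Pool.Agent.H33.PT

open UniqueFactorizationMonoid

/-- `h` is unramified at `w` over `l` -/
def Unr {E M : Type} [Field E] [Field M] [NumberField E] [NumberField M] (w : FinitePlace M) (l : ℕ)
    (h : E →ₐ[ℚ] M) : Prop := ∀ x : E, w (h x) < 1 → w (h x) ≤ w (l : M)

section

variable {E : Type} [Field E] [NumberField E]

/-- the ideal `l 𝓞_E` -/
private noncomputable def II (E : Type) [Field E] [NumberField E] (l : ℕ) : Ideal (𝓞 E) :=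
  Ideal.span {(l : 𝓞 E)}

private theorem II_ne (l : ℕ) (hl : l.Prime) : II E l ≠ ⊥ := by
  unfold II
  rw [Ne, Ideal.span_singleton_eq_bot]
  exact_mod_cast hl.ne_zero

private theorem norm_II (l : ℕ) : Ideal.absNorm (II E l) = l ^ Module.finrank ℚ E := by
  unfold II
  rw [Ideal.absNorm_span_natCast, RingOfIntegers.rank]

/-- the exponent of `P` -/
private noncomputable def ee (l : ℕ) (P : Ideal (𝓞 E)) : ℕ :=
  @Multiset.count _ (Classical.decEq _) P (normalizedFactors (II E l))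

/-- the primes above `l` -/
private noncomputable def SS (E : Type) [Field E] [NumberField E] (l : ℕ) : Finset (Ideal (𝓞 E)) :=
  @Multiset.toFinset _ (Classical.decEq _) (normalizedFactors (II E l))

private theorem mem_SS (l : ℕ) (hl : l.Prime) (P : Ideal (𝓞 E)) :
    P ∈ SS E l ↔ P.IsPrime ∧ (l : 𝓞 E) ∈ P := by
  classical
  unfold SS
  rw [Multiset.mem_toFinset, Ideal.mem_normalizedFactors_iff (II_ne l hl)]
  unfold II
  rw [Ideal.span_singleton_le_iff_mem]

private theorem II_prod (l : ℕ) (hl : l.Prime) : II E l = ∏ P ∈ SS E l, P ^ ee l P := by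
  classical
  have h := Ideal.prod_normalizedFactors_eq_self (II_ne (E := E) l hl)
  conv_lhs => rw [← h]
  unfold SS ee
  rw [Finset.prod_multiset_count]
  refine Finset.prod_congr (by congr) fun P _ => by congr

private theorem ee_pos (l : ℕ) (P : Ideal (𝓞 E)) (hP : P ∈ SS E l) : 1 ≤ ee l P := by
  classical
  unfold SS at hP
  unfold ee
  rw [Multiset.mem_toFinset] at hP
  exact Multiset.one_le_count_iff_mem.2 hP

/-- the inertia degree -/
private noncomputable def ff (l : ℕ) (P : Ideal (𝓞 E)) : ℕ := Nat.log l (Ideal.absNorm P)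

private theorem norm_P (l : ℕ) (hl : l.Prime) (P : Ideal (𝓞 E)) (hP : P ∈ SS E l) :
    Ideal.absNorm P = l ^ ff l P := by
  have h1 : P ∣ II E l := by
    rw [Ideal.dvd_iff_le]
    unfold II
    rw [Ideal.span_singleton_le_iff_mem]
    exact ((mem_SS l hl P).1 hP).2
  have h2 : Ideal.absNorm P ∣ l ^ Module.finrank ℚ E := by
    rw [← norm_II (E := E) l]
    exact map_dvd Ideal.absNorm h1
  obtain ⟨m, -, hm⟩ := (Nat.dvd_prime_pow hl).1 h2
  unfold ff
  rw [hm, Nat.log_pow hl.one_lt]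

private theorem sum_ef (l : ℕ) (hl : l.Prime) :
    ∑ P ∈ SS E l, ee l P * ff l P = Module.finrank ℚ E := by
  have h1 := norm_II (E := E) l
  rw [II_prod l hl, map_prod] at h1
  have h2 : ∏ P ∈ SS E l, Ideal.absNorm (P ^ ee l P) = l ^ ∑ P ∈ SS E l, ee l P * ff l P := by
    rw [← Finset.prod_pow_eq_pow_sum]
    refine Finset.prod_congr rfl fun P hP => ?_
    rw [map_pow, norm_P l hl P hP, ← pow_mul, mul_comm]
  rw [h2] at h1
  exact Nat.pow_right_injective hl.two_le h1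

private theorem coprime_SS (l : ℕ) (hl : l.Prime) (P Q : Ideal (𝓞 E)) (hP : P ∈ SS E l)
    (hQ : Q ∈ SS E l) (hPQ : P ≠ Q) : IsCoprime P Q := by
  obtain ⟨hP1, hP2⟩ := (mem_SS l hl P).1 hP
  obtain ⟨hQ1, hQ2⟩ := (mem_SS l hl Q).1 hQ
  have hl0 : (l : 𝓞 E) ≠ 0 := by exact_mod_cast hl.ne_zero
  have hP0 : P ≠ ⊥ := fun h => hl0 (by rw [h] at hP2; exact (Submodule.mem_bot _).1 hP2)
  have hQ0 : Q ≠ ⊥ := fun h => hl0 (by rw [h] at hQ2; exact (Submodule.mem_bot _).1 hQ2)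
  have hPm := hP1.isMaximal hP0
  have hQm := hQ1.isMaximal hQ0
  rw [Ideal.isCoprime_iff_sup_eq]
  exact Ideal.IsMaximal.coprime_of_ne hPm hQm hPQ

private theorem dvd_disc (l : ℕ) (hl : l.Prime) :
    (l : ℤ) ^ (∑ P ∈ SS E l, (ee l P - 1) * ff l P) ∣ discr E := by
  classical
  have hp : (Ideal.span {(l : ℤ)}).IsMaximal := by
    have hf : Fact l.Prime := ⟨hl⟩
    exact Int.ideal_span_isMaximal_of_prime l
  have hp0 : (Ideal.span {(l : ℤ)}) ≠ ⊥ := by
    rw [Ne, Ideal.span_singleton_eq_bot]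
    exact_mod_cast hl.ne_zero
  have hmap : (Ideal.span {(l : ℤ)}).map (algebraMap ℤ (𝓞 E)) = II E l := by
    rw [Ideal.map_span, Set.image_singleton]
    unfold II
    simp
  have h1 : ∏ P ∈ SS E l, P ^ (ee l P - 1) ∣ differentIdeal ℤ (𝓞 E) := by
    refine Finset.prod_dvd_of_coprime ?_ ?_
    · intro P hP Q hQ hPQ
      exact (coprime_SS l hl P Q hP hQ hPQ).pow
    · intro P hP
      refine pow_sub_one_dvd_differentIdeal ℤ P (ee l P) hp0 ?_
      rw [hmap, II_prod l hl]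
      exact Finset.dvd_prod_of_mem (fun P => P ^ ee l P) hP
  have h2 := map_dvd Ideal.absNorm h1
  rw [absNorm_differentIdeal (K := E), map_prod] at h2
  have h3 : ∏ P ∈ SS E l, Ideal.absNorm (P ^ (ee l P - 1)) =
      l ^ ∑ P ∈ SS E l, (ee l P - 1) * ff l P := by
    rw [← Finset.prod_pow_eq_pow_sum]
    refine Finset.prod_congr rfl fun P hP => ?_
    rw [map_pow, norm_P l hl P hP, ← pow_mul, mul_comm]
  rw [h3] at h2
  have h4 := Int.natCast_dvd.2 h2
  exact_mod_cast h4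

end

section

variable {E M : Type} [Field E] [Field M] [NumberField E] [NumberField M]

private theorem w_int (w : FinitePlace M) (y : 𝓞 M) : w (y : M) ≤ 1 := by
  rw [← FinitePlace.norm_embedding_eq]
  exact FinitePlace.norm_le_one _ _ y

private theorem w_lt_iff (w : FinitePlace M) (y : 𝓞 M) :
    w (y : M) < 1 ↔ y ∈ w.maximalIdeal.asIdeal := by
  rw [← FinitePlace.norm_embedding_eq]
  exact FinitePlace.norm_lt_one_iff_mem _ _ y

/-- the prime of `𝓞_E` induced by `h` -/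
private noncomputable def ph (w : FinitePlace M) (h : E →ₐ[ℚ] M) : Ideal (𝓞 E) :=
  w.maximalIdeal.asIdeal.comap (RingOfIntegers.mapRingHom (h : E →+* M))

private theorem mem_ph (w : FinitePlace M) (h : E →ₐ[ℚ] M) (y : 𝓞 E) :
    y ∈ ph w h ↔ w (h (y : E)) < 1 := by
  unfold ph
  rw [Ideal.mem_comap, ← w_lt_iff]
  rfl

private theorem w_h_int (w : FinitePlace M) (h : E →ₐ[ℚ] M) (y : 𝓞 E) : w (h (y : E)) ≤ 1 :=
  w_int w (RingOfIntegers.mapRingHom (h : E →+* M) y)

private theorem ph_mem (w : FinitePlace M) (l : ℕ) (hl : l.Prime) (hw : w (l : M) < 1)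
    (h : E →ₐ[ℚ] M) : ph w h ∈ SS E l := by
  rw [mem_SS l hl]
  refine ⟨?_, ?_⟩
  · unfold ph
    have := w.maximalIdeal.isPrime
    exact Ideal.comap_isPrime _ _
  · rw [mem_ph]
    have e : h (((l : 𝓞 E) : E)) = (l : M) := by
      have e1 : (((l : 𝓞 E) : E)) = (l : E) := by simp
      rw [e1, map_natCast]
    rw [e]
    exact hw

private theorem unr_of_one (w : FinitePlace M) (l : ℕ) (hl : l.Prime) (hw : w (l : M) < 1)
    (h : E →ₐ[ℚ] M) (he : ee l (ph w h) = 1) : Unr w l h := by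
  classical
  intro x hx
  have hmem := ph_mem w l hl hw h
  obtain ⟨hP1, hP2⟩ := (mem_SS l hl _).1 hmem
  have hl0 : (l : 𝓞 E) ≠ 0 := by exact_mod_cast hl.ne_zero
  have hP0 : ph w h ≠ ⊥ := fun hh => hl0 (by rw [hh] at hP2; exact (Submodule.mem_bot _).1 hP2)
  have hPm := hP1.isMaximal hP0
  obtain ⟨Q, hQ1, hQ2⟩ := Ideal.eq_prime_pow_mul_coprime (II_ne (E := E) l hl) (ph w h)
  have he' : Multiset.count (ph w h) (normalizedFactors (II E l)) = 1 := by
    rw [← he]
    unfold ee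
    congr
  rw [he', pow_one] at hQ2
  obtain ⟨p, hp, a, ha, hpa⟩ := Submodule.mem_sup.1 (show (1 : 𝓞 E) ∈ ph w h ⊔ Q by
    rw [hQ1]; exact Submodule.mem_top)
  have haP : a ∉ ph w h := by
    intro hh
    apply hP1.ne_top
    rw [Ideal.eq_top_iff_one, ← hpa]
    exact Ideal.add_mem _ hp hh
  have hwa : w (h (a : E)) = 1 :=
    le_antisymm (w_h_int w h a) (not_lt.1 fun hh => haP ((mem_ph w h a).2 hh))
  let v : IsDedekindDomain.HeightOneSpectrum (𝓞 E) := ⟨ph w h, hP1, hP0⟩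
  obtain ⟨n, d, hnd⟩ := IsDedekindDomain.HeightOneSpectrum.exists_primeCompl_mul_eq_or_mul_eq v x
  have hd : w (h ((d : 𝓞 E) : E)) = 1 :=
    le_antisymm (w_h_int w h _) (not_lt.1 fun hh => d.2 ((mem_ph w h _).2 hh))
  have hn1 := w_h_int w h n
  rcases hnd with hnd | hnd
  · have h1 : w (h x) = w (h (n : E)) := by
      have h2 := congrArg (fun t => w (h t)) hnd
      simp only [map_mul] at h2
      have h3 : w (h x) * w (h ((d : 𝓞 E) : E)) = w (h (n : E)) := h2
      rw [hd, mul_one] at h3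
      exact h3
    have hnP : n ∈ ph w h := by
      rw [mem_ph, ← h1]
      exact hx
    have h4 : n * a ∈ II E l := by
      rw [hQ2]
      exact Ideal.mul_mem_mul hnP ha
    unfold II at h4
    obtain ⟨m, hm⟩ := Ideal.mem_span_singleton'.1 h4
    have h5 : w (h (n : E)) * w (h (a : E)) = w (h (m : E)) * w (l : M) := by
      have h6 := congrArg (fun t : 𝓞 E => w (h (t : E))) hm
      have e1 : (((m * (l : 𝓞 E) : 𝓞 E)) : E) = (m : E) * (l : E) := by simp
      have e2 : (((n * a : 𝓞 E)) : E) = (n : E) * (a : E) := by simp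
      simp only [e1, e2, map_mul, map_natCast] at h6
      exact h6.symm
    rw [hwa, mul_one] at h5
    rw [h1, h5]
    calc w (h (m : E)) * w (l : M) ≤ 1 * w (l : M) :=
          mul_le_mul_of_nonneg_right (w_h_int w h m) (apply_nonneg _ _)
      _ = w (l : M) := one_mul _
  · exfalso
    have h2 := congrArg (fun t => w (h t)) hnd
    simp only [map_mul] at h2
    have h3 : w (h x) * w (h (n : E)) = w (h ((d : 𝓞 E) : E)) := h2
    rw [hd] at h3
    have h4 : w (h x) * w (h (n : E)) ≤ w (h x) * 1 :=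
      mul_le_mul_of_nonneg_left hn1 (apply_nonneg _ _)
    linarith

private theorem lies (l : ℕ) (hl : l.Prime) (Q : Ideal (𝓞 M)) [hQ : Q.IsPrime] (h : (l : 𝓞 M) ∈ Q) :
    Q.LiesOver (Ideal.span {(l : ℤ)}) := by
  have hp : (Ideal.span {(l : ℤ)}).IsMaximal := by
    have hf : Fact l.Prime := ⟨hl⟩
    exact Int.ideal_span_isMaximal_of_prime l
  rw [Ideal.liesOver_iff]
  refine hp.eq_of_le (Ideal.IsPrime.under ℤ Q).ne_top ?_
  rw [Ideal.span_singleton_le_iff_mem]
  show algebraMap ℤ (𝓞 M) (l : ℤ) ∈ Q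
  simpa using h

private theorem surj [IsGalois ℚ M] (w : FinitePlace M) (l : ℕ) (hl : l.Prime) (hw : w (l : M) < 1)
    (h₀ : E →ₐ[ℚ] M) (P : Ideal (𝓞 E)) (hP : P ∈ SS E l) : ∃ h : E →ₐ[ℚ] M, ph w h = P := by
  obtain ⟨hP1, hP2⟩ := (mem_SS l hl _).1 hP
  letI : Algebra E M := h₀.toRingHom.toAlgebra
  have hinj : Function.Injective (algebraMap (𝓞 E) (𝓞 M)) := FaithfulSMul.algebraMap_injective _ _
  obtain ⟨Q', hQ', hcomap⟩ := Ideal.exists_ideal_over_prime_of_isIntegral_of_isDomain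
    (R := 𝓞 E) (S := 𝓞 M) P (by
      rw [(RingHom.injective_iff_ker_eq_bot _).1 hinj]
      exact bot_le)
  have hlQ' : (l : 𝓞 M) ∈ Q' := by
    have h1 : (l : 𝓞 E) ∈ Q'.comap (algebraMap (𝓞 E) (𝓞 M)) := by
      rw [hcomap]
      exact hP2
    rw [Ideal.mem_comap, map_natCast] at h1
    exact h1
  have hQ := w.maximalIdeal.isPrime
  have hlQ : (l : 𝓞 M) ∈ w.maximalIdeal.asIdeal := by
    rw [← w_lt_iff]
    have e1 : (((l : 𝓞 M) : M)) = (l : M) := by simp
    rw [e1]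
    exact hw
  have i1 := lies l hl Q' hlQ'
  have i2 := lies l hl w.maximalIdeal.asIdeal hlQ
  obtain ⟨σ, hσ⟩ := Ideal.exists_smul_eq_of_isGaloisGroup (Ideal.span {(l : ℤ)}) Q'
    w.maximalIdeal.asIdeal (M ≃ₐ[ℚ] M)
  refine ⟨(σ : M →ₐ[ℚ] M).comp h₀, ?_⟩
  ext y
  have e1 : y ∈ ph w ((σ : M →ₐ[ℚ] M).comp h₀) ↔
      σ • (algebraMap (𝓞 E) (𝓞 M) y) ∈ w.maximalIdeal.asIdeal := Iff.rfl
  rw [e1, ← hσ, Ideal.smul_mem_pointwise_smul_iff, ← hcomap]
  rfl

private theorem iter (w : FinitePlace M) (l : ℕ) (g : M ≃ₐ[ℚ] M) (hg : ∀ x, w (g x) = w x)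
    (hg2 : ∀ x, w x ≤ 1 → w (g x - x ^ l) < 1) (d : ℕ) :
    (∀ x, w ((g ^ d) x) = w x) ∧ ∀ x, w x ≤ 1 → w ((g ^ d) x - x ^ l ^ d) < 1 := by
  induction d with
  | zero =>
    refine ⟨fun x => by rw [pow_zero]; rfl, fun x _ => ?_⟩
    rw [pow_zero, pow_zero, pow_one]
    show w (x - x) < 1
    rw [sub_self, map_zero]
    exact one_pos
  | succ d ih =>
    have e : ∀ x, (g ^ (d + 1)) x = g ((g ^ d) x) := fun x => by rw [pow_succ']; rfl
    refine ⟨fun x => by rw [e, hg, ih.1], fun x hx => ?_⟩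
    rw [e]
    have e2 : g ((g ^ d) x) - x ^ l ^ (d + 1) =
        g ((g ^ d) x - x ^ l ^ d) + (g (x ^ l ^ d) - (x ^ l ^ d) ^ l) := by
      rw [map_sub, ← pow_mul, ← pow_succ]
      ring
    rw [e2]
    refine lt_of_le_of_lt (w.add_le _ _) (max_lt ?_ ?_)
    · rw [hg]
      exact ih.2 x hx
    · refine hg2 _ ?_
      rw [map_pow]
      exact pow_le_one₀ (apply_nonneg _ _) hx

private theorem card_le (l : ℕ) (hl : l.Prime) (P : Ideal (𝓞 E)) (hP : P ∈ SS E l) (d : ℕ)
    (hd : 1 ≤ d) (h : ∀ y : 𝓞 E, y - y ^ l ^ d ∈ P) : ff l P ≤ d := by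
  classical
  obtain ⟨hP1, hP2⟩ := (mem_SS l hl _).1 hP
  have hl0 : (l : 𝓞 E) ≠ 0 := by exact_mod_cast hl.ne_zero
  have hP0 : P ≠ ⊥ := fun hh => hl0 (by rw [hh] at hP2; exact (Submodule.mem_bot _).1 hP2)
  have hPm := hP1.isMaximal hP0
  letI := Ideal.Quotient.field P
  have hcard : Nat.card (𝓞 E ⧸ P) = l ^ ff l P := by
    rw [← norm_P l hl P hP]
    rfl
  have hfin : Finite (𝓞 E ⧸ P) := by
    refine Nat.finite_of_card_ne_zero ?_
    rw [hcard]
    exact pow_ne_zero _ hl.ne_zero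
  have hft : Fintype (𝓞 E ⧸ P) := Fintype.ofFinite _
  have hdeg := FiniteField.X_pow_card_pow_sub_X_natDegree_eq (𝓞 E ⧸ P) (p := l) (n := d)
    (by omega) hl.one_lt
  have hne : (Polynomial.X ^ l ^ d - Polynomial.X : Polynomial (𝓞 E ⧸ P)) ≠ 0 := by
    intro h0
    rw [h0, Polynomial.natDegree_zero] at hdeg
    exact (pow_ne_zero d hl.ne_zero) hdeg.symm
  have h1 : (Finset.univ : Finset (𝓞 E ⧸ P)).card ≤
      (Polynomial.X ^ l ^ d - Polynomial.X : Polynomial (𝓞 E ⧸ P)).natDegree := by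
    refine Polynomial.card_le_degree_of_subset_roots fun z _ => ?_
    rw [Polynomial.mem_roots hne, Polynomial.IsRoot.def]
    obtain ⟨y, rfl⟩ := Ideal.Quotient.mk_surjective z
    have h2 := Ideal.Quotient.eq_zero_iff_mem.2 (h y)
    rw [map_sub, map_pow] at h2
    simp only [Polynomial.eval_sub, Polynomial.eval_pow, Polynomial.eval_X]
    linear_combination -h2
  rw [hdeg, Finset.card_univ, ← Nat.card_eq_fintype_card, hcard] at h1
  exact (Nat.pow_le_pow_iff_right hl.one_lt).1 h1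

private theorem many [IsGalois ℚ M] (w : FinitePlace M) (l : ℕ) (hl : l.Prime)
    (hw : w (l : M) < 1) (h₀ : E →ₐ[ℚ] M) (P : Ideal (𝓞 E)) (hP : P ∈ SS E l) :
    ∃ F : Finset (E →ₐ[ℚ] M), (∀ h ∈ F, ph w h = P) ∧ F.card = ff l P := by
  classical
  obtain ⟨h, hh⟩ := surj w l hl hw h₀ P hP
  obtain ⟨g, hg, hg2⟩ := frob_place w l hl hw
  have key : ∀ i j : ℕ, i < j → j < ff l P →
      ((g ^ i : M ≃ₐ[ℚ] M) : M →ₐ[ℚ] M).comp h ≠ ((g ^ j : M ≃ₐ[ℚ] M) : M →ₐ[ℚ] M).comp h := by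
    intro i j hij hj heq
    obtain ⟨d, rfl⟩ : ∃ d, j = i + d := ⟨j - i, by omega⟩
    have hd : 1 ≤ d := by omega
    have h1 : ff l P ≤ d := by
      refine card_le l hl P hP d hd fun y => ?_
      rw [← hh, mem_ph]
      have h2 := DFunLike.congr_fun heq (y : E)
      have h3 : (g ^ i) (h (y : E)) = (g ^ (i + d)) (h (y : E)) := h2
      have h4 : (g ^ (i + d)) (h (y : E)) = (g ^ i) ((g ^ d) (h (y : E))) := by
        rw [pow_add]
        rfl
      rw [h4] at h3
      have h5 := (g ^ i).injective h3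
      have h6 := (iter w l g hg hg2 d).2 (h (y : E)) (w_h_int w h y)
      rw [← h5] at h6
      have e1 : h (((y - y ^ l ^ d : 𝓞 E)) : E) = h (y : E) - h (y : E) ^ l ^ d := by
        have e2 : (((y - y ^ l ^ d : 𝓞 E)) : E) = (y : E) - (y : E) ^ l ^ d := by simp
        rw [e2, map_sub, map_pow]
      rw [e1]
      exact h6
    omega
  let φ : ℕ → (E →ₐ[ℚ] M) := fun i => ((g ^ i : M ≃ₐ[ℚ] M) : M →ₐ[ℚ] M).comp h
  refine ⟨(Finset.range (ff l P)).image φ, ?_, ?_⟩
  · intro h' hh'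
    obtain ⟨i, -, rfl⟩ := Finset.mem_image.1 hh'
    ext y
    rw [mem_ph, ← hh, mem_ph]
    have e : w (φ i (y : E)) = w (h (y : E)) := (iter w l g hg hg2 i).1 (h (y : E))
    rw [e]
  · rw [Finset.card_image_of_injOn, Finset.card_range]
    intro i hi j hj hij
    have hi' : i < ff l P := Finset.mem_range.1 hi
    have hj' : j < ff l P := Finset.mem_range.1 hj
    rcases lt_trichotomy i j with h1 | h1 | h1
    · exact absurd hij (key i j h1 hj')
    · exact h1
    · exact absurd hij.symm (key j i h1 hi')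

end

theorem ram_count {E M : Type} [Field E] [Field M] [NumberField E] [NumberField M] [IsGalois ℚ M]
    (hE : Fintype.card (E →ₐ[ℚ] M) = Module.finrank ℚ E) (w : FinitePlace M) (l : ℕ) (hl : l.Prime)
    (hw : w (l : M) < 1) :
    ∃ c : ℕ, ((l : ℤ) ^ c ∣ discr E) ∧ {h : E →ₐ[ℚ] M | ¬ Unr w l h}.ncard ≤ 2 * c := by
  classical
  have hpos : 0 < Fintype.card (E →ₐ[ℚ] M) := by
    rw [hE]
    exact Module.finrank_pos
  obtain ⟨h₀⟩ := Fintype.card_pos_iff.1 hpos
  refine ⟨_, dvd_disc l hl, ?_⟩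
  let fib : Ideal (𝓞 E) → ℕ := fun P => (Finset.univ.filter fun h : E →ₐ[ℚ] M => ph w h = P).card
  have hfib : ∀ P ∈ SS E l, ff l P ≤ fib P := by
    intro P hP
    obtain ⟨F, hF1, hF2⟩ := many w l hl hw h₀ P hP
    rw [← hF2]
    exact Finset.card_le_card fun h hh => Finset.mem_filter.2 ⟨Finset.mem_univ _, hF1 h hh⟩
  have htot : ∑ P ∈ SS E l, fib P = ∑ P ∈ SS E l, ee l P * ff l P := by
    rw [sum_ef l hl, ← hE, ← Finset.card_univ]
    exact (Finset.card_eq_sum_card_fiberwise fun h _ => ph_mem w l hl hw h).symm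
  have hbad : {h : E →ₐ[ℚ] M | ¬ Unr w l h}.ncard ≤
      ∑ P ∈ (SS E l).filter (fun P => ee l P ≠ 1), fib P := by
    have h1 : {h : E →ₐ[ℚ] M | ¬ Unr w l h} ⊆
        ((Finset.univ.filter fun h : E →ₐ[ℚ] M => ee l (ph w h) ≠ 1 : Finset _) : Set _) := by
      intro h hh
      rw [Finset.mem_coe, Finset.mem_filter]
      exact ⟨Finset.mem_univ _, fun he => hh (unr_of_one w l hl hw h he)⟩
    refine (Set.ncard_le_ncard h1 (Finset.finite_toSet _)).trans ?_
    rw [Set.ncard_coe_finset]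
    rw [Finset.card_eq_sum_card_fiberwise (f := fun h => ph w h)
      (t := (SS E l).filter (fun P => ee l P ≠ 1))]
    · refine Finset.sum_le_sum fun P _ => Finset.card_le_card ?_
      intro h hh
      rw [Finset.mem_filter] at hh ⊢
      exact ⟨Finset.mem_univ _, hh.2⟩
    · intro h hh
      have := (Finset.mem_filter.1 hh).2
      exact Finset.mem_coe.2 (Finset.mem_filter.2 ⟨ph_mem w l hl hw h, this⟩)
  have hsplit := Finset.sum_filter_add_sum_filter_not (SS E l) (fun P => ee l P ≠ 1) fib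
  have hsplit2 := Finset.sum_filter_add_sum_filter_not (SS E l) (fun P => ee l P ≠ 1)
    (fun P => ee l P * ff l P)
  have h1 : ∑ P ∈ (SS E l).filter (fun P => ¬ ee l P ≠ 1), ee l P * ff l P ≤
      ∑ P ∈ (SS E l).filter (fun P => ¬ ee l P ≠ 1), fib P := by
    refine Finset.sum_le_sum fun P hP => ?_
    obtain ⟨hP1, hP2⟩ := Finset.mem_filter.1 hP
    rw [not_not.1 hP2, one_mul]
    exact hfib P hP1
  have h2 : ∑ P ∈ (SS E l).filter (fun P => ee l P ≠ 1), ee l P * ff l P ≤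
      2 * ∑ P ∈ SS E l, (ee l P - 1) * ff l P := by
    rw [Finset.mul_sum]
    refine (Finset.sum_le_sum (g := fun P => 2 * ((ee l P - 1) * ff l P)) fun P hP => ?_).trans
      (Finset.sum_le_sum_of_subset (Finset.filter_subset _ _))
    obtain ⟨hP1, hP2⟩ := Finset.mem_filter.1 hP
    have hp := ee_pos l P hP1
    rw [← mul_assoc]
    refine Nat.mul_le_mul_right _ ?_
    omega
  omega

end Pool.Agent.H33.PT
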