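import Pool.Agent.H33.PT.Df

/-!
# POINTS THEOREM, Scl: an element with given absolute values

PROOF. `𝒫` := the set of the prime ideals `P_h := Q.comap h`, `h : E →ₐ[ℚ] M`, `Q = w.maximalIdeal.asIdeal` (`h` induces `𝓞 E → 𝓞 M`), finitely many maximal ideals of `𝓞 E`. Let `𝒜` be the subset of the `P_h` with `w (h r) > 1`: this depends only on `P_h`:
if `P_h = P_(h')` and `w (h r) ≤ 1` then `r = a / d` with `a, d ∈ 𝓞 E`, `d ∉ P_h`, so `w (h' r) = w (h' a) ≤ 1` (`w (h' d) = 1`). (Model for `r = a / d`: the header of `Fro.lean`, (2); the absolute value `w ∘ h` of `E` is a finite place up to a power.)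
Chinese remainder theorem: `c ∈ 𝓞 E` with `c - 1 ∈ P` for `P ∈ 𝒜` and `c ∈ P` for `P ∈ 𝒫`, `P ∉ 𝒜` (distinct maximal ideals are coprime; `Ideal.exists_forall_sub_mem_ideal`/`IsDedekindDomain.exists_forall_sub_mem_ideal`, or induction). `b := 1 + c r`.
If `w (h r) > 1`: `w (h c) = 1` (`c - 1 ∈ P_h`: `w (h c - 1) < 1`), `w (h (c r)) = w (h r) > 1`, so `w (h b) = w (h r)`. If `w (h r) ≤ 1`: `w (h c) < 1`, `w (h (c r)) < 1`, `w (h b) = 1`. `b ≠ 0` since `w (h b) > 0` for one `h` (`hne`).
-/

set_option autoImplicit false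
set_option linter.unusedSectionVars false

open NumberField

namespace Pool.Agent.H33.PT

open IsDedekindDomain

section

variable {E M : Type} [Field E] [Field M] [NumberField E] [NumberField M]

/-- the image of an integer of `E` in the integers of `M` -/
private noncomputable def iH (h : E →ₐ[ℚ] M) : 𝓞 E →+* 𝓞 M := RingOfIntegers.mapRingHom (h : E →+* M)

private theorem iH_coe (h : E →ₐ[ℚ] M) (a : 𝓞 E) : ((iH h a : 𝓞 M) : M) = h (a : E) := rfl

/-- the prime of `E` below `w` for the embedding `h` -/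
private noncomputable def pH (w : FinitePlace M) (h : E →ₐ[ℚ] M) : HeightOneSpectrum (𝓞 E) where
  asIdeal := w.maximalIdeal.asIdeal.comap (iH h)
  isPrime := by
    have := w.maximalIdeal.isPrime
    exact Ideal.comap_isPrime _ _
  ne_bot := by
    intro hb
    have h1 : ((Ideal.absNorm w.maximalIdeal.asIdeal : ℕ) : 𝓞 E) ∈
        w.maximalIdeal.asIdeal.comap (iH h) := by
      rw [Ideal.mem_comap, map_natCast]
      exact Ideal.absNorm_mem _
    rw [hb, Ideal.mem_bot, Nat.cast_eq_zero] at h1
    have h2 := NumberField.HeightOneSpectrum.one_lt_absNorm w.maximalIdeal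
    omega

private theorem w_le_one (w : FinitePlace M) (x : 𝓞 M) : w (x : M) ≤ 1 := by
  rw [← FinitePlace.norm_embedding_eq w]
  exact FinitePlace.norm_le_one M w.maximalIdeal x

private theorem w_lt_one_iff (w : FinitePlace M) (x : 𝓞 M) :
    w (x : M) < 1 ↔ x ∈ w.maximalIdeal.asIdeal := by
  rw [← FinitePlace.norm_embedding_eq w]
  exact FinitePlace.norm_lt_one_iff_mem M w.maximalIdeal x

private theorem w_add_right (w : FinitePlace M) {x y : M} (hxy : w x < w y) : w (x + y) = w y := by
  apply le_antisymm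
  · have := FinitePlace.add_le w x y
    rwa [max_eq_right hxy.le] at this
  · by_contra hlt
    rw [not_le] at hlt
    have h1 := FinitePlace.add_le w (x + y) (-x)
    rw [map_neg_eq_map, add_neg_cancel_comm] at h1
    rcases le_max_iff.1 h1 with h | h <;> linarith

private theorem w_lt_iff (w : FinitePlace M) (h : E →ₐ[ℚ] M) (a : 𝓞 E) :
    w (h (a : E)) < 1 ↔ a ∈ (pH w h).asIdeal := by
  rw [← iH_coe, w_lt_one_iff]
  exact Iff.rfl

private theorem w_eq_one (w : FinitePlace M) (h : E →ₐ[ℚ] M) (a : 𝓞 E)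
    (ha : a ∉ (pH w h).asIdeal) : w (h (a : E)) = 1 := by
  rw [← w_lt_iff, not_lt] at ha
  exact le_antisymm (by rw [← iH_coe]; exact w_le_one w _) ha

/-- `w ∘ h` and the valuation of `pH w h` have the same valuation ring -/
private theorem w_le_iff (w : FinitePlace M) (h : E →ₐ[ℚ] M) (x : E) :
    (pH w h).valuation E x ≤ 1 ↔ w (h x) ≤ 1 := by
  constructor
  · intro hx
    obtain ⟨n, d, hnd⟩ := (pH w h).exists_primeCompl_mul_eq_of_integer x hx
    have hd := w_eq_one w h (d : 𝓞 E) d.2
    have h1 : w (h x) * w (h ((d : 𝓞 E) : E)) = w (h (n : E)) := by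
      rw [← map_mul, ← map_mul]
      exact congrArg (fun z => w (h z)) hnd
    rw [hd, mul_one] at h1
    rw [h1, ← iH_coe]
    exact w_le_one w _
  · intro hx
    by_contra hlt
    rw [not_le] at hlt
    have hx0 : x ≠ 0 := by
      rintro rfl
      rw [map_zero] at hlt
      exact absurd hlt (by simp)
    have hinv : (pH w h).valuation E x⁻¹ < 1 := by
      rw [map_inv₀]
      exact inv_lt_one_of_one_lt₀ hlt
    obtain ⟨n, d, hnd⟩ := (pH w h).exists_primeCompl_mul_eq_of_integer x⁻¹ hinv.le
    have hd := w_eq_one w h (d : 𝓞 E) d.2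
    have h1 : w (h x⁻¹) * w (h ((d : 𝓞 E) : E)) = w (h (n : E)) := by
      rw [← map_mul, ← map_mul]
      exact congrArg (fun z => w (h z)) hnd
    rw [hd, mul_one] at h1
    have hn : n ∈ (pH w h).asIdeal := by
      have h2 := congrArg ((pH w h).valuation E) hnd
      rw [map_mul, ((pH w h).valuation_eq_one_iff_notMem (K := E)).2 d.2, mul_one] at h2
      rw [← HeightOneSpectrum.valuation_lt_one_iff_mem (K := E), ← h2]
      exact hinv
    rw [← w_lt_iff, ← h1, map_inv₀, map_inv₀] at hn
    have hpos : 0 < w (h x) := FinitePlace.pos_iff.2 (by rwa [ne_eq, map_eq_zero])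
    have := (inv_lt_one₀ hpos).1 hn
    linarith

end

theorem exists_scale {E M : Type} [Field E] [Field M] [NumberField E] [NumberField M]
    (hne : Nonempty (E →ₐ[ℚ] M)) (w : FinitePlace M) (r : E) :
    ∃ b : E, b ≠ 0 ∧ ∀ h : E →ₐ[ℚ] M, w (h b) = max 1 (w (h r)) := by
  classical
  obtain ⟨c, hc⟩ := IsDedekindDomain.exists_forall_sub_mem_ideal
    (s := Finset.univ.image fun h : E →ₐ[ℚ] M => pH w h)
    (fun P : HeightOneSpectrum (𝓞 E) => P.asIdeal) (fun _ => 1)
    (fun P _ => P.prime) (fun P _ P' _ hne hP => hne (HeightOneSpectrum.ext hP))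
    (fun P => if P.1.valuation E r ≤ 1 then 0 else 1)
  have key : ∀ h : E →ₐ[ℚ] M, w (h (1 + (c : E) * r)) = max 1 (w (h r)) := by
    intro h
    have h1 := hc (pH w h) (Finset.mem_image_of_mem _ (Finset.mem_univ h))
    simp only [pow_one] at h1
    by_cases hr : (pH w h).valuation E r ≤ 1
    · rw [if_pos hr, sub_zero, ← w_lt_iff] at h1
      have hr' := (w_le_iff w h r).1 hr
      have h2 : w (h c * h r) < 1 := by
        rw [map_mul]
        calc w (h c) * w (h r) ≤ w (h c) * 1 := mul_le_mul_of_nonneg_left hr' (apply_nonneg w _)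
          _ < 1 := by rw [mul_one]; exact h1
      rw [map_add, map_one, map_mul, max_eq_left hr', add_comm,
        w_add_right w (by rwa [map_one]), map_one]
    · rw [if_neg hr, ← w_lt_iff] at h1
      have hr' : 1 < w (h r) := by
        rw [← not_le, ← w_le_iff]
        exact hr
      have h3 : w (h c) = 1 := by
        have h4 : w (h ((c - 1 : 𝓞 E) : E)) < w 1 := by rwa [map_one]
        have h5 := w_add_right w h4
        rw [map_one] at h5
        rw [← h5]
        congr 1
        push_cast
        rw [map_sub, map_one, sub_add_cancel]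
      have h6 : w (h c * h r) = w (h r) := by rw [map_mul, h3, one_mul]
      rw [map_add, map_one, map_mul, max_eq_right hr'.le,
        w_add_right w (by rw [h6, map_one]; exact hr'), h6]
  obtain ⟨h₀⟩ := hne
  refine ⟨1 + (c : E) * r, ?_, key⟩
  intro h0
  have h1 := key h₀
  rw [h0, map_zero, map_zero] at h1
  have h2 : (1 : ℝ) ≤ max 1 (w (h₀ r)) := le_max_left _ _
  linarith

end Pool.Agent.H33.PT
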