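import Pool.Agent.H33.PT.Df

/-!
# POINTS THEOREM, Tay: the Taylor expansion modulo `l^T`

PROOF. `u i := z i / y i - 1`, `v (u i) ≤ v l` (`v (y i) = 1`). `z i = y i (1 + u i)`, `z i ^ a i = y i ^ a i * ∑_(s ≤ a i) (a i choose s) u i ^ s`
(`add_pow`), the product over `i` (`Finset.prod_univ_sum`): `mo z a = mo y a * ∑_(s : ∀ i, Fin (a i + 1)) bc a s * mo u s`. The terms with
`∑ s i ≥ T`: `v ≤ v l ^ (∑ s i) ≤ v l ^ T` (`v (mo y a) = 1`, `v` of natural numbers `≤ 1`). The terms with `∑ s i < T` are those of `TT n T`: for `t ∈ TT n T`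
with some `t i > a i` the binomial `bc a (tv t)` is `0`; the others correspond to the `s` with `∑ s i < T`. Ultrametric sum (`IsNonarchimedean.finset_image_add`
or a private lemma `sum_le` as in `Pool/Agent/H11/TS/Prd.lean`).
-/

set_option autoImplicit false
set_option linter.unusedSectionVars false

namespace Pool.Agent.H33.PT

private theorem sum_le {E : Type} [Field E] (v : AbsoluteValue E ℝ) (hv : IsNonarchimedean v) {I : Type}
    (s : Finset I) (f : I → E) (r : ℝ) (hr : 0 ≤ r) (h : ∀ i ∈ s, v (f i) ≤ r) : v (∑ i ∈ s, f i) ≤ r := by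
  rcases s.eq_empty_or_nonempty with rfl | hs
  · rw [Finset.sum_empty, map_zero]
    exact hr
  · obtain ⟨i, hi, hle⟩ := hv.finset_image_add_of_nonempty f hs
    exact hle.trans (h i hi)

private theorem nat_le {E : Type} [Field E] (v : AbsoluteValue E ℝ) (hv : IsNonarchimedean v) (m : ℕ) :
    v (m : E) ≤ 1 := by
  have h := sum_le v hv (Finset.range m) (fun _ => (1 : E)) 1 zero_le_one (fun _ _ => by rw [map_one])
  simpa using h

private theorem pow_exp {M : Type} [Field M] (y u : M) (a N : ℕ) (hN : a < N) :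
    (y * (1 + u)) ^ a = ∑ s ∈ Finset.range N, ((a.choose s : M) * u ^ s) * y ^ a := by
  rw [mul_pow, add_comm 1 u, add_pow, Finset.mul_sum]
  have h1 : Finset.range (a + 1) ⊆ Finset.range N := Finset.range_subset_range.2 hN
  rw [← Finset.sum_subset h1]
  · refine Finset.sum_congr rfl fun s _ => ?_
    rw [one_pow]
    ring
  · intro s _ hs
    rw [Finset.mem_range] at hs
    rw [Nat.choose_eq_zero_of_lt (by omega)]
    simp

private theorem mo_exp {M : Type} [Field M] {n : ℕ} (y u : Fin n → M) (a : Fin n → ℕ) (N : ℕ)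
    (hN : ∀ i, a i < N) :
    mo (fun i => y i * (1 + u i)) a =
      ∑ s ∈ Fintype.piFinset (fun _ : Fin n => Finset.range N), mo u s * ((bc a s : M) * mo y a) := by
  have h1 : mo (fun i => y i * (1 + u i)) a =
      ∏ i, ∑ s ∈ Finset.range N, (((a i).choose s : M) * u i ^ s) * y i ^ a i :=
    Finset.prod_congr rfl fun i _ => pow_exp (y i) (u i) (a i) N (hN i)
  rw [h1, Finset.prod_univ_sum]
  refine Finset.sum_congr rfl fun s _ => ?_
  unfold mo bc
  rw [Nat.cast_prod, Finset.prod_mul_distrib, Finset.prod_mul_distrib]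
  ring

theorem taylor {M : Type} [Field M] (v : AbsoluteValue M ℝ) (hv : IsNonarchimedean v) (l : ℕ)
    (hl : v (l : M) ≤ 1) {n : ℕ} (y z : Fin n → M) (hy : ∀ i, v (y i) = 1)
    (hz : ∀ i, v (z i - y i) ≤ v (l : M)) (T : ℕ) (a : Fin n → ℕ) :
    v (mo z a - ∑ t : TT n T, mo (fun i => z i / y i - 1) (tv t) * ((bc a (tv t) : M) * mo y a)) ≤
      v (l : M) ^ T := by
  classical
  have hy0 : ∀ i, y i ≠ 0 := by
    intro i h
    have := hy i
    rw [h, map_zero] at this
    exact zero_ne_one this
  set u : Fin n → M := fun i => z i / y i - 1 with hu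
  have hu1 : ∀ i, v (u i) ≤ v (l : M) := by
    intro i
    have h1 : u i = (z i - y i) / y i := by
      have := hy0 i
      simp only [hu]
      field_simp
    rw [h1, map_div₀, hy i, div_one]
    exact hz i
  have hzz : z = fun i => y i * (1 + u i) := by
    funext i
    have := hy0 i
    simp only [hu]
    field_simp
    ring
  have hN : ∀ i, a i < T + ∑ i, a i + 1 := by
    intro i
    have := Finset.single_le_sum (f := a) (fun j _ => Nat.zero_le (a j)) (Finset.mem_univ i)
    omega
  have key : mo z a = ∑ s ∈ Fintype.piFinset (fun _ : Fin n => Finset.range (T + ∑ i, a i + 1)),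
      mo u s * ((bc a s : M) * mo y a) := by
    conv_lhs => rw [hzz]
    exact mo_exp y u a _ hN
  have hT : ∑ t : TT n T, mo u (tv t) * ((bc a (tv t) : M) * mo y a) =
      ∑ s ∈ (Fintype.piFinset (fun _ : Fin n => Finset.range (T + ∑ i, a i + 1))).filter
        (fun s => ∑ i, s i < T), mo u s * ((bc a s : M) * mo y a) := by
    refine Finset.sum_bij (fun t _ => tv t) ?_ ?_ ?_ ?_
    · intro t _
      rw [Finset.mem_filter, Fintype.mem_piFinset]
      refine ⟨fun i => ?_, t.2⟩
      rw [Finset.mem_range]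
      have h : tv t i < T := (t.1 i).2
      omega
    · intro t _ t' _ h
      apply Subtype.ext
      funext i
      exact Fin.ext (congrFun h i)
    · intro s hs
      rw [Finset.mem_filter] at hs
      have h1 : ∀ i, s i < T := fun i =>
        lt_of_le_of_lt (Finset.single_le_sum (f := s) (fun j _ => Nat.zero_le (s j)) (Finset.mem_univ i)) hs.2
      exact ⟨⟨fun i => ⟨s i, h1 i⟩, hs.2⟩, Finset.mem_univ _, rfl⟩
    · intro t _
      rfl
  rw [key, hT, ← Finset.sum_filter_add_sum_filter_not
    (Fintype.piFinset (fun _ : Fin n => Finset.range (T + ∑ i, a i + 1))) (fun s => ∑ i, s i < T),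
    add_sub_cancel_left]
  refine sum_le v hv _ _ _ (pow_nonneg (v.nonneg _) _) fun s hs => ?_
  rw [Finset.mem_filter, not_lt] at hs
  have h1 : v (mo y a) = 1 := by
    unfold mo
    rw [map_prod]
    refine Finset.prod_eq_one fun i _ => ?_
    rw [map_pow, hy i, one_pow]
  have h2 : v (mo u s) ≤ v (l : M) ^ (∑ i, s i) := by
    unfold mo
    rw [map_prod, ← Finset.prod_pow_eq_pow_sum]
    refine Finset.prod_le_prod (fun i _ => v.nonneg _) fun i _ => ?_
    rw [map_pow]
    exact pow_le_pow_left₀ (v.nonneg _) (hu1 i) _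
  have h3 : v (mo u s) ≤ v (l : M) ^ T := h2.trans (pow_le_pow_of_le_one (v.nonneg _) hl hs.2)
  rw [map_mul, map_mul, h1, mul_one]
  exact (mul_le_of_le_one_right (v.nonneg _) (nat_le v hv _)).trans h3

/-- the coefficients are integral -/
theorem taylor_coef {M : Type} [Field M] (v : AbsoluteValue M ℝ) (l : ℕ)
    (hl : v (l : M) ≤ 1) {n : ℕ} (y z : Fin n → M) (hy : ∀ i, v (y i) = 1)
    (hz : ∀ i, v (z i - y i) ≤ v (l : M)) (t : Fin n → ℕ) :
    v (mo (fun i => z i / y i - 1) t) ≤ 1 := by
  unfold mo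
  rw [map_prod]
  refine Finset.prod_le_one (fun i _ => v.nonneg _) fun i _ => ?_
  rw [map_pow]
  refine pow_le_one₀ (v.nonneg _) ?_
  have h0 : y i ≠ 0 := by
    intro h
    have := hy i
    rw [h, map_zero] at this
    exact zero_ne_one this
  have h1 : z i / y i - 1 = (z i - y i) / y i := by field_simp
  show v (z i / y i - 1) ≤ 1
  rw [h1, map_div₀, hy i, div_one]
  exact (hz i).trans hl

end Pool.Agent.H33.PT
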