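import Pool.Agent.H33.PT.Fro
import Pool.Agent.H33.PT.Cng
import Pool.Agent.H33.PT.Tay
import Pool.Agent.H33.PT.Ram
import Pool.Agent.H33.PT.Bas
import Pool.Agent.H33.PT.Itg
import Pool.Agent.H33.PT.Scl

/-!
# POINTS THEOREM, Loc: the local estimate of the determinant at a place over `l ∈ LL`

`H := E →ₐ[ℚ] M` (finite, `D = card H`), `Rw := H × (TT n T ⊕ LL)` (rows and columns), `A p j = row (h ∘ r) s (col j)` for `p = (h, s)`. Claim:
`w (det A)^4 ≤ w l^(T D) ∏_h ∏_i max 1 (w (h r_i))^(4 X S + 4 T) max 1 (w (h r_i)⁻¹)^(4 T)`, `S = #TT + ∑_(l' ∈ LL) l'`.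

PROOF. Write `v = w`, `mx h := ∏_i max 1 (v (h r_i))`. `exists_scale` for each `r i`: `b_i`; `b := ∏ b_i^X`, `v (h b) = mx h ^ X`. `θ` from `exists_theta`. For `t ∈ TT`, a column `j`: `x := (bc (col j) t : E) * mo r (col j) / b` satisfies `v (h x) ≤ 1` for all `h`
(`v (h (mo r a)) ≤ mx h ^ X` as `a i ≤ X`), so `coords_int`: `x = ∑_k c_(t,k,j) θ_k`, `v c ≤ 1`.
(1) FACTORIZATION. Let `Pm : Matrix Rw Rw M`, `Pm (h, inl t) (k, inl t') = if t = t' then h b * h (θ k) else 0`, `Pm (h, inr l) (k, inr l') = if h = k ∧ l = l' then 1 else 0`, the other entries `0`; `A' : Matrix Rw Rw M`, `A' (k, inl t) j = c_(t,k,j)`,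
`A' (h, inr l) j = A (h, inr l) j`. `A = Pm * A'` (`h (mo r a) = mo (h ∘ r) a`: `mo_map`). `det Pm = ± (∏_h h b * det (h θ_k))^(#TT)` (reindex `Rw ≃ (H × TT) ⊕ (H × LL)`, `Matrix.det_fromBlocks_zero₂₁`, `Matrix.det_blockDiagonal`/`det_kronecker`; only `v (det Pm)` matters). With `ram_count`: `v (det (h θ_k))^2 = v (discr E) ≤ v l ^ c`.
(2) ROW OPERATIONS. `g` from `frob_place` for `l₀` (the prime of the statement). Call `h ∈ H` good if `Unr v l₀ h` and `v (h r_i) = 1` for all `i`. For good `h`: `y := (g ∘ h) r`, `z := (h r)^l₀` (coordinatewise): `v (y i) = 1`, `v (z i - y i) ≤ v l₀` by `frob_cong` (`S` = range of `h`, `f` = order of `g`).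
`taylor`: the row `A (h, inr l₀)` (`mo z a`, `mo_pow`) minus `∑_t u_t * A (g ∘ h, inl t)`, `v u_t ≤ 1` (`taylor_coef`), has entries `≤ v l₀ ^ T`; and `A (g∘h, inl t) j = ∑_k (g h)(b θ_k) c_(t,k,j)` with `v ((g h)(b θ_k)) ≤ 1` (`v (g h b) = mx (g∘h)^X = 1`, `θ_k` integral).
So `A'' := U * A'`, `U = 1 +` (a matrix with nonzero entries only in the rows `(h, inr l₀)`, `h` good, and the columns `(k, inl t)`), `det U = 1` (block triangular), has the rows `(h, inr l₀)`, `h` good, with entries of size `≤ v l₀ ^ T`.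
(3) ULTRAMETRIC BOUND `v (det A'') ≤ ∏_rows max_j v(entry)` : rows `(k, inl t)`: `1`; rows `(h, inr l₀)`, `h` good: `v l₀ ^ T`; the others `(h, inr l')`: `mx h ^ (l' X)`.
(4) `v (det A) ≤ (∏_h mx h)^(X #TT) v(det θ)^(#TT) (v l₀^T)^(#good) ∏_h mx h ^ (X ∑ l')`. Fourth power: `v(det θ)^(4 #TT) ≤ v l₀^(2 c #TT) ≤ v l₀^(T #ram)` (`#ram ≤ 2 c`, `T ≤ #TT`: `card_TT_ge`), `#ram` = number of `h` with `¬ Unr`.
For the unramified `h` that are not good: some `i` with `v (h r_i) ≠ 1`, so `max 1 (v (h r_i)) * max 1 (v (h r_i)⁻¹) ≥ 1 / v l₀` (`Unr` for `r_i` or `r_i⁻¹`), so `1 ≤ v l₀^(4T) ∏_i (max 1 (v (h r_i)) max 1 (v (h r_i)⁻¹))^(4T)`; `v l₀^(4T) ≤ v l₀^T`.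
Total exponent of `v l₀`: `≥ T (#ram + #unramified not good + #good) = T D`.
-/

set_option autoImplicit false
set_option linter.unusedSectionVars false

open NumberField

namespace Pool.Agent.H33.PT

private theorem loc_sum {M I : Type} [Field M] (v : AbsoluteValue M ℝ) (hv : IsNonarchimedean v)
    (s : Finset I) (f : I → M) (C : ℝ) (hC : 0 ≤ C) (h : ∀ i ∈ s, v (f i) ≤ C) :
    v (∑ i ∈ s, f i) ≤ C := by
  classical
  induction s using Finset.induction_on with
  | empty =>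
    rw [Finset.sum_empty, map_zero]
    exact hC
  | insert i s hi ih =>
    rw [Finset.sum_insert hi]
    refine (hv _ _).trans (max_le (h i (Finset.mem_insert_self i s)) (ih fun j hj => ?_))
    exact h j (Finset.mem_insert_of_mem hj)

/-- the ultrametric bound of a determinant -/
private theorem loc_hadamard {M R : Type} [Field M] [Fintype R] [DecidableEq R]
    (v : AbsoluteValue M ℝ) (hv : IsNonarchimedean v) (B : Matrix R R M) (ρ : R → ℝ)
    (h0 : ∀ p, 0 ≤ ρ p) (h : ∀ p j, v (B p j) ≤ ρ p) : v B.det ≤ ∏ p, ρ p := by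
  rw [Matrix.det_apply]
  refine loc_sum v hv _ _ _ (Finset.prod_nonneg fun p _ => h0 p) fun σ _ => ?_
  have h1 : v (Equiv.Perm.sign σ • ∏ i, B (σ i) i) = ∏ i, v (B (σ i) i) := by
    rcases Int.units_eq_one_or (Equiv.Perm.sign σ) with h2 | h2
    · rw [h2, one_smul, map_prod]
    · rw [h2, Units.neg_smul, one_smul, v.map_neg, map_prod]
  rw [h1, ← Equiv.prod_comp σ ρ]
  exact Finset.prod_le_prod (fun i _ => v.nonneg _) fun i _ => h _ _

/-- the size of a monomial -/
private theorem loc_mo {M : Type} [Field M] (v : AbsoluteValue M ℝ) {n : ℕ} (y : Fin n → M)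
    (a : Fin n → ℕ) (X : ℕ) (ha : ∀ i, a i ≤ X) : v (mo y a) ≤ ∏ i, max 1 (v (y i)) ^ X := by
  unfold mo
  rw [map_prod]
  refine Finset.prod_le_prod (fun i _ => v.nonneg _) fun i _ => ?_
  rw [map_pow]
  calc v (y i) ^ a i ≤ max 1 (v (y i)) ^ a i := pow_le_pow_left₀ (v.nonneg _) (le_max_right _ _) _
    _ ≤ max 1 (v (y i)) ^ X := pow_le_pow_right₀ (le_max_left _ _) (ha i)

section fact

variable {E M : Type} [Field E] [Field M] {n T : ℕ} {LL : Finset ℕ} {H : Type} [Fintype H]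
  [DecidableEq H]

/-- the factorization -/
private theorem loc_fact (φ : H → E →+* M) (r : Fin n → E) (b : E) (θ : H → E)
    (col : H × (TT n T ⊕ LL) → Fin n → ℕ) (c : TT n T → H × (TT n T ⊕ LL) → H → M)
    (hc : ∀ (ψ : E →+* M) (t : TT n T) (j : H × (TT n T ⊕ LL)), (∃ h : H, ψ = φ h) →
      (bc (col j) (tv t) : M) * mo (fun i => ψ (r i)) (col j) = ∑ k, ψ b * ψ (θ k) * c t j k)
    (W : H × LL → H × TT n T → M) :
    Matrix.det (Matrix.of fun p j : H × (TT n T ⊕ LL) => row (fun i => φ p.1 (r i)) p.2 (col j)) =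
      ((∏ h, φ h b) * Matrix.det (Matrix.of fun h k : H => φ h (θ k))) ^ Fintype.card (TT n T) *
      Matrix.det (Matrix.of fun p j : H × (TT n T ⊕ LL) => Sum.elim (fun t => c t j p.1)
        (fun l => row (fun i => φ p.1 (r i)) (Sum.inr l : TT n T ⊕ LL) (col j) -
          ∑ q : H × TT n T, W (p.1, l) q * c q.2 j q.1) p.2) := by
  let e : H × (TT n T ⊕ LL) ≃ (H × TT n T) ⊕ (H × LL) := Equiv.prodSumDistrib _ _ _
  let P1 : Matrix (H × TT n T) (H × TT n T) M :=
    Matrix.blockDiagonal fun _ : TT n T => Matrix.of fun h k => φ h b * φ h (θ k)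
  let W' : Matrix (H × LL) (H × TT n T) M := Matrix.of W
  let Q : Matrix ((H × TT n T) ⊕ (H × LL)) ((H × TT n T) ⊕ (H × LL)) M :=
    Matrix.fromBlocks P1 0 W' 1
  have hQ : Q.det = ((∏ h, φ h b) * Matrix.det (Matrix.of fun h k : H => φ h (θ k))) ^
      Fintype.card (TT n T) := by
    show (Matrix.fromBlocks P1 0 W' 1).det = _
    rw [Matrix.det_fromBlocks_zero₁₂, Matrix.det_one, mul_one, Matrix.det_blockDiagonal,
      Finset.prod_const, Finset.card_univ]
    congr 1
    exact Matrix.det_mul_column (fun h => φ h b) (Matrix.of fun h k : H => φ h (θ k))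
  rw [← hQ, ← Matrix.det_submatrix_equiv_self e Q, ← Matrix.det_mul]
  congr 1
  ext p j
  rw [Matrix.mul_apply, ← Equiv.sum_comp e.symm, Fintype.sum_sum_type]
  have hs1 : ∀ q : H × TT n T, e (e.symm (Sum.inl q)) = Sum.inl q := fun q => e.apply_symm_apply _
  have hs2 : ∀ q : H × LL, e (e.symm (Sum.inr q)) = Sum.inr q := fun q => e.apply_symm_apply _
  have hi1 : ∀ q : H × TT n T, e.symm (Sum.inl q) = (q.1, Sum.inl q.2) := fun q => rfl
  have hi2 : ∀ q : H × LL, e.symm (Sum.inr q) = (q.1, Sum.inr q.2) := fun q => rfl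
  simp only [Matrix.submatrix_apply, hs1, hs2, Matrix.of_apply]
  simp only [hi1, hi2, Sum.elim_inl, Sum.elim_inr]
  rcases p with ⟨h, t | l⟩
  · have he : e (h, Sum.inl t) = Sum.inl (h, t) := rfl
    rw [he]
    have h1 : ∀ q : H × TT n T, Q (Sum.inl (h, t)) (Sum.inl q) =
        if t = q.2 then φ h b * φ h (θ q.1) else 0 := fun q => rfl
    have h2 : ∀ q : H × LL, Q (Sum.inl (h, t)) (Sum.inr q) = 0 := fun q => rfl
    simp only [h1, h2, zero_mul, Finset.sum_const_zero, add_zero]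
    show (bc (col j) (tv t) : M) * mo (fun i => φ h (r i)) (col j) = _
    rw [hc (φ h) t j ⟨h, rfl⟩, Fintype.sum_prod_type]
    refine Finset.sum_congr rfl fun k _ => ?_
    rw [Finset.sum_eq_single t]
    · rw [if_pos rfl]
    · intro t' _ ht
      rw [if_neg fun h3 => ht h3.symm, zero_mul]
    · intro h3
      exact absurd (Finset.mem_univ t) h3
  · have he : e (h, Sum.inr l) = Sum.inr (h, l) := rfl
    rw [he]
    have h1 : ∀ q : H × TT n T, Q (Sum.inr (h, l)) (Sum.inl q) = W (h, l) q := fun q => rfl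
    have h2 : ∀ q : H × LL, Q (Sum.inr (h, l)) (Sum.inr q) = if (h, l) = q then 1 else 0 :=
      fun q => Matrix.one_apply
    simp only [h1, h2]
    rw [Finset.sum_eq_single (h, l) (f := fun q : H × LL => (if (h, l) = q then (1 : M) else 0) * _)]
    · rw [if_pos rfl, one_mul]
      abel
    · intro q _ hq
      rw [if_neg fun h3 => hq h3.symm, zero_mul]
    · intro h3
      exact absurd (Finset.mem_univ _) h3

end fact

private theorem loc_one {I : Type} (s : Finset I) (f : I → ℝ) (h : ∀ i, 1 ≤ f i) :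
    1 ≤ ∏ i ∈ s, f i := by
  have h1 := Finset.prod_le_prod (s := s) (f := fun _ => (1 : ℝ)) (g := f)
    (fun _ _ => zero_le_one) fun i _ => h i
  rwa [Finset.prod_const_one] at h1

private theorem loc_single {I : Type} [Fintype I] [DecidableEq I] (f : I → ℝ) (h : ∀ i, 1 ≤ f i)
    (i : I) : f i ≤ ∏ j, f j := by
  rw [← Finset.mul_prod_erase Finset.univ f (Finset.mem_univ i)]
  exact le_mul_of_one_le_right (zero_le_one.trans (h i)) (loc_one _ f h)

/-- the final inequality -/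
private theorem loc_num {H : Type} [Fintype H] (lam : ℝ) (h0 : 0 ≤ lam) (h1 : lam ≤ 1) (T X S Sg c : ℕ)
    (hTS : T ≤ S) (mx mi : H → ℝ) (hmx : ∀ h, 1 ≤ mx h) (hmi : ∀ h, 1 ≤ mi h) (ram good : H → Prop)
    [DecidablePred ram] [DecidablePred good]
    (hram : (Finset.univ.filter ram).card ≤ 2 * c) (hgr : ∀ h, good h → ¬ram h)
    (hbad : ∀ h, ¬ram h → ¬good h → 1 ≤ lam * (mx h * mi h)) (dθ D : ℝ)
    (hD0 : 0 ≤ D) (hdθ : dθ ^ 2 ≤ lam ^ c)
    (hD : D ≤ ((∏ h, mx h ^ X) * dθ) ^ S * ∏ h, (mx h ^ (X * Sg) * if good h then lam ^ T else 1)) :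
    D ^ 4 ≤ lam ^ (T * Fintype.card H) *
      ∏ h, (mx h ^ (4 * X * (S + Sg) + 4 * T) * mi h ^ (4 * T)) := by
  have hmx0 : ∀ h, 0 ≤ mx h := fun h => zero_le_one.trans (hmx h)
  have hmi0 : ∀ h, 0 ≤ mi h := fun h => zero_le_one.trans (hmi h)
  have e1 : dθ ^ (4 * S) ≤ ∏ h, (if ram h then lam ^ T else 1) := by
    have h2 : (∏ h, (if ram h then lam ^ T else (1 : ℝ))) = lam ^ (T * (Finset.univ.filter ram).card) := by
      rw [Finset.prod_ite, Finset.prod_const, Finset.prod_const_one, mul_one, ← pow_mul]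
    rw [h2]
    calc dθ ^ (4 * S) = (dθ ^ 2) ^ (2 * S) := by
          rw [← pow_mul]
          congr 1
          ring
      _ ≤ (lam ^ c) ^ (2 * S) := pow_le_pow_left₀ (by positivity) hdθ _
      _ = lam ^ (c * (2 * S)) := by rw [← pow_mul]
      _ ≤ lam ^ (T * (Finset.univ.filter ram).card) := by
          refine pow_le_pow_of_le_one h0 h1 ?_
          calc T * (Finset.univ.filter ram).card ≤ S * (2 * c) := Nat.mul_le_mul hTS hram
            _ = c * (2 * S) := by ring
  have hR0 : 0 ≤ ((∏ h, mx h ^ X) * dθ) ^ S *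
      ∏ h, (mx h ^ (X * Sg) * if good h then lam ^ T else 1) := hD0.trans hD
  have e2 : (((∏ h, mx h ^ X) * dθ) ^ S *
      ∏ h, (mx h ^ (X * Sg) * if good h then lam ^ T else 1)) ^ 4 =
      dθ ^ (4 * S) * ∏ h, (mx h ^ (4 * X * (S + Sg)) * (if good h then lam ^ T else 1) ^ 4) := by
    have h2 : ∀ h, mx h ^ (4 * X * (S + Sg)) * (if good h then lam ^ T else (1 : ℝ)) ^ 4 =
        (mx h ^ X) ^ (S * 4) * (mx h ^ (X * Sg) * (if good h then lam ^ T else 1)) ^ 4 := by
      intro h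
      rw [mul_pow, ← pow_mul, ← pow_mul, ← mul_assoc, ← pow_add]
      congr 2
      ring
    have h3 : ∏ h, (mx h ^ (4 * X * (S + Sg)) * (if good h then lam ^ T else (1 : ℝ)) ^ 4) =
        (∏ h, mx h ^ X) ^ (S * 4) *
          (∏ h, (mx h ^ (X * Sg) * if good h then lam ^ T else 1)) ^ 4 := by
      rw [← Finset.prod_pow, ← Finset.prod_pow, ← Finset.prod_mul_distrib]
      exact Finset.prod_congr rfl fun h _ => h2 h
    rw [h3]
    ring
  have e3 : lam ^ (T * Fintype.card H) *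
      ∏ h, (mx h ^ (4 * X * (S + Sg) + 4 * T) * mi h ^ (4 * T)) =
      ∏ h, (mx h ^ (4 * X * (S + Sg)) * (lam ^ T * (mx h * mi h) ^ (4 * T))) := by
    rw [pow_mul, ← Finset.card_univ, ← Finset.prod_const, ← Finset.prod_mul_distrib]
    refine Finset.prod_congr rfl fun h _ => ?_
    rw [pow_add, mul_pow]
    ring
  calc D ^ 4 ≤ (((∏ h, mx h ^ X) * dθ) ^ S *
      ∏ h, (mx h ^ (X * Sg) * if good h then lam ^ T else 1)) ^ 4 := pow_le_pow_left₀ hD0 hD 4
    _ = dθ ^ (4 * S) * ∏ h, (mx h ^ (4 * X * (S + Sg)) * (if good h then lam ^ T else 1) ^ 4) := e2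
    _ ≤ (∏ h, (if ram h then lam ^ T else 1)) *
        ∏ h, (mx h ^ (4 * X * (S + Sg)) * (if good h then lam ^ T else 1) ^ 4) := by
        refine mul_le_mul_of_nonneg_right e1 (Finset.prod_nonneg fun h _ => ?_)
        have := hmx0 h
        split_ifs <;> positivity
    _ = ∏ h, (mx h ^ (4 * X * (S + Sg)) *
        ((if ram h then lam ^ T else 1) * (if good h then lam ^ T else 1) ^ 4)) := by
        rw [← Finset.prod_mul_distrib]
        refine Finset.prod_congr rfl fun h _ => ?_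
        ring
    _ ≤ ∏ h, (mx h ^ (4 * X * (S + Sg)) * (lam ^ T * (mx h * mi h) ^ (4 * T))) := by
        refine Finset.prod_le_prod (fun h _ => ?_) fun h _ => ?_
        · have := hmx0 h
          split_ifs <;> positivity
        · refine mul_le_mul_of_nonneg_left ?_ (pow_nonneg (hmx0 h) _)
          have hmm : 1 ≤ mx h * mi h := one_le_mul_of_one_le_of_one_le (hmx h) (hmi h)
          have hmmT : 1 ≤ (mx h * mi h) ^ (4 * T) := one_le_pow₀ hmm
          have hl : 0 ≤ lam ^ T := pow_nonneg h0 _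
          by_cases hr : ram h
          · have hg : ¬good h := fun hg => hgr h hg hr
            rw [if_pos hr, if_neg hg, one_pow, mul_one]
            exact le_mul_of_one_le_right hl hmmT
          · rw [if_neg hr, one_mul]
            by_cases hg : good h
            · rw [if_pos hg]
              calc (lam ^ T) ^ 4 ≤ lam ^ T := by
                    rw [← pow_mul]
                    exact pow_le_pow_of_le_one h0 h1 (by omega)
                _ ≤ lam ^ T * (mx h * mi h) ^ (4 * T) := le_mul_of_one_le_right hl hmmT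
            · rw [if_neg hg, one_pow]
              have h2 := hbad h hr hg
              calc (1 : ℝ) ≤ (lam * (mx h * mi h)) ^ (4 * T) := one_le_pow₀ h2
                _ = lam ^ (4 * T) * (mx h * mi h) ^ (4 * T) := mul_pow _ _ _
                _ ≤ lam ^ T * (mx h * mi h) ^ (4 * T) :=
                    mul_le_mul_of_nonneg_right (pow_le_pow_of_le_one h0 h1 (by omega))
                      (zero_le_one.trans hmmT)
    _ = _ := e3.symm

theorem loc_det {E M : Type} [Field E] [Field M] [NumberField E] [NumberField M] [IsGalois ℚ M]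
    [DecidableEq (E →ₐ[ℚ] M)]
    (hE : Fintype.card (E →ₐ[ℚ] M) = Module.finrank ℚ E) (w : FinitePlace M) {n : ℕ} (hn : 1 ≤ n)
    (r : Fin n → E) (hr : ∀ i, r i ≠ 0) (T : ℕ) (hT : 1 ≤ T) (LL : Finset ℕ) (l : ℕ) (hl : l.Prime)
    (hlL : l ∈ LL) (hw : w (l : M) < 1) (X : ℕ)
    (col : (E →ₐ[ℚ] M) × (TT n T ⊕ LL) → Fin n → ℕ) (hcol : ∀ j i, col j i ≤ X) :
    w (Matrix.det (Matrix.of fun p j : (E →ₐ[ℚ] M) × (TT n T ⊕ LL) =>
        row (fun i => p.1 (r i)) p.2 (col j))) ^ 4 ≤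
      w (l : M) ^ (T * Fintype.card (E →ₐ[ℚ] M)) *
        ∏ h : E →ₐ[ℚ] M, ∏ i, ((max 1 (w (h (r i)))) ^
            (4 * X * (Fintype.card (TT n T) + ∑ l' ∈ LL, l') + 4 * T) *
          (max 1 (w (h (r i))⁻¹)) ^ (4 * T)) := by
  classical
  have _ := hT
  obtain ⟨v, hvw⟩ : ∃ v : AbsoluteValue M ℝ, v = w.1 := ⟨_, rfl⟩
  have hvx : ∀ x, w x = v x := fun x => by
    rw [hvw]
    rfl
  have hv : IsNonarchimedean v := fun x y => by
    rw [← hvx, ← hvx, ← hvx]
    exact FinitePlace.add_le w x y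
  have hnat : ∀ m : ℕ, v (m : M) ≤ 1 := fun m => hv.apply_natCast_le_one
  have hint : ∀ m : ℤ, v (m : M) ≤ 1 := fun m => hv.apply_intCast_le_one
  have hl1 : v (l : M) < 1 := by
    rw [← hvx]
    exact hw
  have hl0 : 0 < v (l : M) := by
    rw [v.pos_iff]
    exact Nat.cast_ne_zero.2 hl.ne_zero
  have hne : Nonempty (E →ₐ[ℚ] M) := by
    rw [← Fintype.card_pos_iff, hE]
    exact Module.finrank_pos
  -- the scale
  choose bb hbb0 hbb using fun i => exists_scale hne w (r i)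
  obtain ⟨b, hb⟩ : ∃ b : E, b = ∏ i, bb i ^ X := ⟨_, rfl⟩
  have hb0 : b ≠ 0 := by
    rw [hb]
    exact Finset.prod_ne_zero_iff.2 fun i _ => pow_ne_zero _ (hbb0 i)
  have hbv : ∀ h : E →ₐ[ℚ] M, v (h b) = ∏ i, max 1 (v (h (r i))) ^ X := by
    intro h
    rw [hb, map_prod, map_prod]
    refine Finset.prod_congr rfl fun i _ => ?_
    rw [map_pow, map_pow, ← hvx, ← hvx, hbb i h]
  -- the coordinates
  obtain ⟨θ, hθ⟩ := exists_theta (E := E) (M := M) hE
  have hco : ∀ (t : TT n T) (j : (E →ₐ[ℚ] M) × (TT n T ⊕ LL)), ∃ c : (E →ₐ[ℚ] M) → ℚ,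
      ((bc (col j) (tv t) : E) * mo r (col j)) / b = ∑ k, (c k : E) * θ k ∧
        ∀ k, w ((c k : ℚ) : M) ≤ 1 := by
    intro t j
    refine coords_int hE θ hθ w l hl hw _ fun h => ?_
    rw [hvx, map_div₀, map_mul, map_natCast, map_div₀, map_mul, hbv]
    have h1 : v (h (mo r (col j))) ≤ ∏ i, max 1 (v (h (r i))) ^ X := by
      have h2 : h (mo r (col j)) = mo (fun i => h (r i)) (col j) :=
        mo_map (h : E →+* M) r (col j)
      rw [h2]
      exact loc_mo v _ _ X (hcol j)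
    have h3 : 0 < ∏ i, max 1 (v (h (r i))) ^ X :=
      Finset.prod_pos fun i _ => pow_pos (lt_of_lt_of_le zero_lt_one (le_max_left _ _)) _
    rw [div_le_one h3]
    calc v (bc (col j) (tv t) : M) * v (h (mo r (col j))) ≤ 1 * v (h (mo r (col j))) :=
          mul_le_mul_of_nonneg_right (hnat _) (v.nonneg _)
      _ ≤ _ := by
          rw [one_mul]
          exact h1
  choose c hc1 hc2 using hco
  -- the Frobenius
  obtain ⟨g, hg1, hg2⟩ := frob_place w l hl hw
  have hkey : ∀ (ψ : E →+* M) (t : TT n T) (j : (E →ₐ[ℚ] M) × (TT n T ⊕ LL)),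
      (bc (col j) (tv t) : M) * mo (fun i => ψ (r i)) (col j) =
        ∑ k, ψ b * ψ (θ k) * ((c t j k : ℚ) : M) := by
    intro ψ t j
    have h1 : (bc (col j) (tv t) : E) * mo r (col j) = b * ∑ k, (c t j k : E) * θ k := by
      rw [← hc1 t j, mul_div_cancel₀ _ hb0]
    have h2 := congrArg ψ h1
    rw [map_mul, map_natCast, mo_map, map_mul, map_sum] at h2
    rw [h2, Finset.mul_sum]
    refine Finset.sum_congr rfl fun k _ => ?_
    rw [map_mul, map_ratCast]
    ring
  -- the good embeddings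
  obtain ⟨good, hgood⟩ : ∃ good : (E →ₐ[ℚ] M) → Prop,
      good = fun h => Unr w l h ∧ ∀ i, v (h (r i)) = 1 := ⟨_, rfl⟩
  obtain ⟨u, hu⟩ : ∃ u : (E →ₐ[ℚ] M) → TT n T → M, u = fun h t =>
      mo (fun i => h (r i) ^ l / g (h (r i)) - 1) (tv t) := ⟨_, rfl⟩
  obtain ⟨W, hW⟩ : ∃ W : (E →ₐ[ℚ] M) × LL → (E →ₐ[ℚ] M) × TT n T → M, W = fun p q =>
      if (p.2 : ℕ) = l ∧ good p.1 then u p.1 q.2 * (g (p.1 b) * g (p.1 (θ q.1))) else 0 := ⟨_, rfl⟩
  have hdet := loc_fact (T := T) (LL := LL) (fun h : E →ₐ[ℚ] M => (h : E →+* M)) r b θ col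
    (fun t j k => ((c t j k : ℚ) : M)) (fun ψ t j _ => hkey ψ t j) W
  obtain ⟨B, hB⟩ : ∃ B : Matrix ((E →ₐ[ℚ] M) × (TT n T ⊕ LL)) ((E →ₐ[ℚ] M) × (TT n T ⊕ LL)) M,
      B = Matrix.of fun p j : (E →ₐ[ℚ] M) × (TT n T ⊕ LL) => Sum.elim
        (fun t => ((c t j p.1 : ℚ) : M))
        (fun l => row (fun i => p.1 (r i)) (Sum.inr l : TT n T ⊕ LL) (col j) -
          ∑ q : (E →ₐ[ℚ] M) × TT n T, W (p.1, l) q * ((c q.2 j q.1 : ℚ) : M)) p.2 := ⟨_, rfl⟩
  obtain ⟨ρ, hρ⟩ : ∃ ρ : (E →ₐ[ℚ] M) × (TT n T ⊕ LL) → ℝ, ρ = fun p => Sum.elim (fun _ => 1)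
      (fun l' : LL => if (l' : ℕ) = l ∧ good p.1 then v (l : M) ^ T else
        ∏ i, max 1 (v (p.1 (r i))) ^ ((l' : ℕ) * X)) p.2 := ⟨_, rfl⟩
  have hone : ∀ (h : E →ₐ[ℚ] M) (k : ℕ), 1 ≤ ∏ i, max 1 (v (h (r i))) ^ k := fun h k =>
    loc_one _ _ fun i => one_le_pow₀ (le_max_left _ _)
  have hρ0 : ∀ p, 0 ≤ ρ p := by
    rintro ⟨h, t | l'⟩
    · rw [hρ]
      exact zero_le_one
    · rw [hρ]
      show (0 : ℝ) ≤ if (l' : ℕ) = l ∧ good h then v (l : M) ^ T else _
      split_ifs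
      · exact pow_nonneg hl0.le _
      · exact zero_le_one.trans (hone h _)
  have hBρ : ∀ p j, v (B p j) ≤ ρ p := by
    rintro ⟨h, t | l'⟩ j
    · rw [hB, hρ]
      show v ((c t j h : ℚ) : M) ≤ 1
      rw [← hvx]
      exact hc2 t j h
    · rw [hB, hρ]
      show v (mo (fun i => h (r i)) (fun i => (l' : ℕ) * col j i) -
        ∑ q : (E →ₐ[ℚ] M) × TT n T, W (h, l') q * ((c q.2 j q.1 : ℚ) : M)) ≤
          if (l' : ℕ) = l ∧ good h then v (l : M) ^ T else
            ∏ i, max 1 (v (h (r i))) ^ ((l' : ℕ) * X)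
      by_cases hlg : (l' : ℕ) = l ∧ good h
      · rw [if_pos hlg]
        obtain ⟨hll, hgo⟩ := hlg
        have hgo' := hgo
        rw [hgood] at hgo'
        obtain ⟨hunr, hr1⟩ := hgo'
        have h1 : ∀ q : (E →ₐ[ℚ] M) × TT n T, W (h, l') q =
            u h q.2 * (g (h b) * g (h (θ q.1))) := by
          intro q
          rw [hW]
          exact if_pos ⟨hll, hgo⟩
        have h2 : ∑ q : (E →ₐ[ℚ] M) × TT n T, W (h, l') q * ((c q.2 j q.1 : ℚ) : M) =
            ∑ t : TT n T, mo (fun i => h (r i) ^ l / g (h (r i)) - 1) (tv t) *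
              ((bc (col j) (tv t) : M) * mo (fun i => g (h (r i))) (col j)) := by
          rw [Fintype.sum_prod_type_right]
          refine Finset.sum_congr rfl fun t _ => ?_
          have h3 := hkey ((g : M →+* M).comp (h : E →+* M)) t j
          have h4 : (fun i => ((g : M →+* M).comp (h : E →+* M)) (r i)) = fun i => g (h (r i)) := rfl
          rw [h4] at h3
          rw [h3, Finset.mul_sum]
          refine Finset.sum_congr rfl fun k _ => ?_
          rw [h1, hu]
          show _ * (g (h b) * g (h (θ k))) * _ = _ * (g (h b) * g (h (θ k)) * _)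
          ring
        rw [h2, hll, mo_pow]
        have hgv : ∀ x, v (g x) = v x := fun x => by
          rw [← hvx, ← hvx]
          exact hg1 x
        refine taylor v hv l hl1.le (fun i => g (h (r i))) (fun i => h (r i) ^ l)
          (fun i => by
            show v (g (h (r i))) = 1
            rw [hgv, hr1 i]) (fun i => ?_) T (col j)
        have h5 := frob_cong v hv l hl hl0 hl1 (g : M ≃+* M) (orderOf g) (orderOf_pos g)
          (fun x => ?_) hgv (fun x hx => ?_) ((h : E →+* M).range) (fun x hx hx1 => ?_) (h (r i))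
          ⟨r i, rfl⟩ (hr1 i).le
        · rw [v.map_sub]
          exact h5
        · have h6 : ∀ (k : ℕ) (x : M), ((g : M ≃+* M) : M → M)^[k] x = (g ^ k) x := by
            intro k
            induction k with
            | zero =>
              intro x
              rfl
            | succ k ih =>
              intro x
              rw [Function.iterate_succ_apply', ih, pow_succ']
              rfl
          rw [h6, pow_orderOf_eq_one]
          rfl
        · rw [← hvx] at hx ⊢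
          exact hg2 x hx
        · obtain ⟨y, rfl⟩ := hx
          have h7 := hunr y
          rw [hvx, hvx] at h7
          exact h7 hx1
      · rw [if_neg hlg]
        have h1 : ∑ q : (E →ₐ[ℚ] M) × TT n T, W (h, l') q * ((c q.2 j q.1 : ℚ) : M) = 0 := by
          refine Finset.sum_eq_zero fun q _ => ?_
          rw [hW]
          show (if (l' : ℕ) = l ∧ good h then _ else 0) * _ = (0 : M)
          rw [if_neg hlg, zero_mul]
        rw [h1, sub_zero]
        exact loc_mo v _ _ _ fun i => Nat.mul_le_mul_left _ (hcol j i)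
  have hdetB := loc_hadamard v hv B ρ hρ0 hBρ
  -- the product of the bounds of the rows
  have hprod : ∏ p, ρ p ≤ ∏ h : E →ₐ[ℚ] M, ((∏ i, max 1 (v (h (r i)))) ^ (X * ∑ l' ∈ LL, l') *
      if good h then v (l : M) ^ T else 1) := by
    rw [Fintype.prod_prod_type]
    refine Finset.prod_le_prod (fun h _ => Finset.prod_nonneg fun s _ => hρ0 _) fun h _ => ?_
    rw [Fintype.prod_sum_type]
    have h1 : ∏ t : TT n T, ρ (h, Sum.inl t) = 1 := by
      refine Finset.prod_eq_one fun t _ => ?_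
      rw [hρ]
      rfl
    have h2 : ∀ l' : LL, ρ (h, Sum.inr l') ≤ (∏ i, max 1 (v (h (r i)))) ^ ((l' : ℕ) * X) *
        (if (l' : ℕ) = l ∧ good h then v (l : M) ^ T else 1) := by
      intro l'
      rw [hρ]
      show (if (l' : ℕ) = l ∧ good h then v (l : M) ^ T else
        ∏ i, max 1 (v (h (r i))) ^ ((l' : ℕ) * X)) ≤ _
      rw [← Finset.prod_pow]
      split_ifs
      · exact le_mul_of_one_le_left (pow_nonneg hl0.le _) (hone h _)
      · rw [mul_one]
    have h3 : ∏ l' : LL, (if (l' : ℕ) = l ∧ good h then v (l : M) ^ T else (1 : ℝ)) =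
        if good h then v (l : M) ^ T else 1 := by
      rw [Fintype.prod_eq_single (⟨l, hlL⟩ : LL)]
      · by_cases hg : good h
        · rw [if_pos ⟨rfl, hg⟩, if_pos hg]
        · rw [if_neg fun h4 => hg h4.2, if_neg hg]
      · intro l' hl'
        rw [if_neg]
        rintro ⟨h4, -⟩
        exact hl' (Subtype.ext h4)
    have h4 : ∏ l' : LL, (∏ i, max 1 (v (h (r i)))) ^ ((l' : ℕ) * X) =
        (∏ i, max 1 (v (h (r i)))) ^ (X * ∑ l' ∈ LL, l') := by
      rw [Finset.prod_pow_eq_pow_sum, ← Finset.sum_mul, mul_comm]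
      congr 2
      exact Finset.sum_coe_sort LL fun x => x
    rw [h1, one_mul]
    calc ∏ l' : LL, ρ (h, Sum.inr l') ≤ ∏ l' : LL, ((∏ i, max 1 (v (h (r i)))) ^ ((l' : ℕ) * X) *
        (if (l' : ℕ) = l ∧ good h then v (l : M) ^ T else 1)) :=
          Finset.prod_le_prod (fun l' _ => hρ0 _) fun l' _ => h2 l'
      _ = _ := by rw [Finset.prod_mul_distrib, h3, h4]
  -- the determinant of the basis
  obtain ⟨cr, hcr1, hcr2⟩ := ram_count hE w l hl hw
  obtain ⟨dθ, hdθ⟩ : ∃ dθ : ℝ, dθ = v (Matrix.det (Matrix.of fun h k : E →ₐ[ℚ] M => h (θ k))) :=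
    ⟨_, rfl⟩
  have hdθ2 : dθ ^ 2 ≤ v (l : M) ^ cr := by
    rw [hdθ, ← map_pow, hθ.det]
    obtain ⟨m, hm⟩ := hcr1
    rw [hm]
    push_cast
    rw [map_mul, map_pow]
    calc v (l : M) ^ cr * v (m : M) ≤ v (l : M) ^ cr * 1 :=
          mul_le_mul_of_nonneg_left (hint m) (pow_nonneg hl0.le _)
      _ = _ := mul_one _
  have hmx1 : ∀ h : E →ₐ[ℚ] M, 1 ≤ ∏ i, max 1 (v (h (r i))) := fun h =>
    loc_one _ _ fun i => le_max_left _ _
  have hmi1 : ∀ h : E →ₐ[ℚ] M, 1 ≤ ∏ i, max 1 (v (h (r i)))⁻¹ := fun h =>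
    loc_one _ _ fun i => le_max_left _ _
  have hbad : ∀ h : E →ₐ[ℚ] M, ¬¬Unr w l h → ¬good h →
      1 ≤ v (l : M) * ((∏ i, max 1 (v (h (r i)))) * ∏ i, max 1 (v (h (r i)))⁻¹) := by
    intro h hun hg
    have hun := not_not.1 hun
    have hex : ∃ i, v (h (r i)) ≠ 1 := by
      by_contra h1
      push Not at h1
      apply hg
      rw [hgood]
      exact ⟨hun, h1⟩
    obtain ⟨i, hi⟩ := hex
    have hri : h (r i) ≠ 0 := (map_ne_zero h).2 (hr i)
    have hpos : 0 < v (h (r i)) := v.pos hri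
    have h1 : 1 ≤ v (l : M) * (max 1 (v (h (r i))) * max 1 (v (h (r i)))⁻¹) := by
      rcases lt_or_gt_of_ne hi with h2 | h2
      · have h3 := hun (r i)
        rw [hvx, hvx] at h3
        have h4 := h3 h2
        have h5 : 1 ≤ v (l : M) * (v (h (r i)))⁻¹ := by
          rw [← div_eq_mul_inv, le_div_iff₀ hpos, one_mul]
          exact h4
        refine h5.trans (mul_le_mul_of_nonneg_left ?_ hl0.le)
        calc (v (h (r i)))⁻¹ ≤ max 1 (v (h (r i)))⁻¹ := le_max_right _ _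
          _ ≤ _ := le_mul_of_one_le_left (zero_le_one.trans (le_max_left _ _)) (le_max_left _ _)
      · have h3 := hun (r i)⁻¹
        rw [hvx, hvx, map_inv₀, map_inv₀] at h3
        have h4 := h3 (inv_lt_one_of_one_lt₀ h2)
        have h5 : 1 ≤ v (l : M) * v (h (r i)) := by
          rw [inv_le_iff_one_le_mul₀ hpos] at h4
          exact h4
        refine h5.trans (mul_le_mul_of_nonneg_left ?_ hl0.le)
        calc v (h (r i)) ≤ max 1 (v (h (r i))) := le_max_right _ _
          _ ≤ _ := le_mul_of_one_le_right (zero_le_one.trans (le_max_left _ _)) (le_max_left _ _)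
    refine h1.trans (mul_le_mul_of_nonneg_left ?_ hl0.le)
    rw [← Finset.prod_mul_distrib]
    exact loc_single (fun i => max 1 (v (h (r i))) * max 1 (v (h (r i)))⁻¹)
      (fun j => one_le_mul_of_one_le_of_one_le (le_max_left _ _) (le_max_left _ _)) i
  have hfin := loc_num (v (l : M)) hl0.le hl1.le T X (Fintype.card (TT n T)) (∑ l' ∈ LL, l') cr
    (card_TT_ge n T hn) (fun h : E →ₐ[ℚ] M => ∏ i, max 1 (v (h (r i))))
    (fun h => ∏ i, max 1 (v (h (r i)))⁻¹) hmx1 hmi1 (fun h => ¬Unr w l h) good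
    (by
      rw [← Set.ncard_coe_finset]
      refine le_trans (le_of_eq ?_) hcr2
      congr 1
      ext h
      simp) (fun h hg => by
      rw [hgood] at hg
      exact not_not.2 hg.1) hbad dθ
    (v (Matrix.det (Matrix.of fun p j : (E →ₐ[ℚ] M) × (TT n T ⊕ LL) =>
        row (fun i => p.1 (r i)) p.2 (col j)))) (v.nonneg _) hdθ2 ?_
  · have h1 : ∀ h : E →ₐ[ℚ] M, ∏ i, ((max 1 (w (h (r i)))) ^
            (4 * X * (Fintype.card (TT n T) + ∑ l' ∈ LL, l') + 4 * T) *
          (max 1 (w (h (r i))⁻¹)) ^ (4 * T)) = (∏ i, max 1 (v (h (r i)))) ^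
            (4 * X * (Fintype.card (TT n T) + ∑ l' ∈ LL, l') + 4 * T) *
          (∏ i, max 1 (v (h (r i)))⁻¹) ^ (4 * T) := by
      intro h
      rw [Finset.prod_mul_distrib, Finset.prod_pow, Finset.prod_pow]
      simp only [hvx, map_inv₀]
    rw [Finset.prod_congr rfl fun h _ => h1 h, hvx, hvx]
    exact hfin
  · have h1 : Matrix.det (Matrix.of fun p j : (E →ₐ[ℚ] M) × (TT n T ⊕ LL) =>
        row (fun i => p.1 (r i)) p.2 (col j)) = ((∏ h : E →ₐ[ℚ] M, h b) *
          Matrix.det (Matrix.of fun h k : E →ₐ[ℚ] M => h (θ k))) ^ Fintype.card (TT n T) *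
            B.det := by
      rw [hB]
      exact hdet
    rw [h1, map_mul, map_pow, map_mul, map_prod, ← hdθ]
    have h2 : ∏ h : E →ₐ[ℚ] M, v (h b) = ∏ h : E →ₐ[ℚ] M, (∏ i, max 1 (v (h (r i)))) ^ X := by
      refine Finset.prod_congr rfl fun h _ => ?_
      rw [hbv, Finset.prod_pow]
    rw [h2]
    refine mul_le_mul_of_nonneg_left (hdetB.trans hprod) (pow_nonneg (mul_nonneg ?_ ?_) _)
    · exact Finset.prod_nonneg fun h _ => pow_nonneg (zero_le_one.trans (hmx1 h)) _
    · rw [hdθ]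
      exact v.nonneg _

end Pool.Agent.H33.PT
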