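import Mathlib

/-!
# POINTS THEOREM, Num: the choice of the parameters

PROOF. `A := 2 c₁ + 2 n + e + 2`, `T := 24 A`, `N := 100 T^(n+1)`, `X₁ := 3 (N + 1) (2 (Z^n Z^(c₁))^2 max 1 M₁)`, `X := T (X₁ + 1)`. All the constants `τ ≤ T^n, T, N, n` are at most powers of `Z^(1/10)`: `K₀` so large that `Z ≥ K₀` implies `(100 T (N+1) (T^n + N) n)^2 ≤ Z` and `1 ≤ log Z`.
(1) `∑ log l ≥ N (log Z) / 3` (`Z ≤ l^3`). (2) `log (D (τ + N)) ≤ (e + 1) log Z ≤ A log Z` (`D ≤ Z^e`, `τ + N ≤ Z`; `D ≥ 1`). (3) `M₁ ≤ M₁^n ≤ D ≤ Z^e` (`n ≥ 1`), `X + 1 ≤ Z^(2n + 2c₁ + e + 1) ≤ Z^A`: `log (X + 1) ≤ A log Z`.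
(4) `(max 1 M₁ * h)^n ≤ D h^n ≤ Z^(-n(2c₁+2n+3))` (`M₁^n ≤ D`, `1 ≤ D`), so `max 1 M₁ * h ≤ Z^(-(2c₁+2n+3))`; `4 X (τ + ∑ l) + 8 T ≤ Z * Z * Z^(2n+2c₁) * max 1 M₁` (constants `≤ Z`, `∑ l ≤ N Z`), hence the last summand `≤ n Z^(-1) ≤ 1 ≤ log Z`: with the constants: choose `K₀` with `n ≤ Z`.
Together: right side `≤ (4 (τ + N) A + 4 T τ A + 1) log Z`, `4 N A = N T / 6`, and `N T / 6 > 4 τ A + 4 T τ A + 1` since `τ ≤ T^n`, `N = 100 T^(n+1)`: `4 τ A (1 + T) + 1 ≤ 4 A T^n (T + 1) + 1 ≤ 8 A T^(n+1) + 1 < 16 A T^(n+1) * 25 = N T / 6 `. Strict.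
-/

set_option autoImplicit false

namespace Pool.Agent.H33.PT

theorem num_key (n e c₁ : ℕ) (hn : 1 ≤ n) : ∃ T N K₀ : ℕ, 1 ≤ T ∧ 1 ≤ K₀ ∧ ∀ Z : ℕ, K₀ ≤ Z →
    ∀ (D M₁ τ : ℕ) (h : ℝ) (LL : Finset ℕ), LL.card = N → (∀ l ∈ LL, Z ≤ l ^ 3 ∧ l ≤ Z) →
      1 ≤ D → D ≤ Z ^ e → M₁ ^ n ≤ D → τ ≤ T ^ n → 0 ≤ h →
      (Z : ℝ) ^ (n * (2 * c₁ + 2 * n + 3)) * ((D : ℝ) * h ^ n) ≤ 1 → ∀ X : ℕ,
      X = T * (3 * (N + 1) * (2 * (Z ^ n * Z ^ c₁) ^ 2 * max 1 M₁) + 1) →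
      4 * ((τ + LL.card : ℕ) * Real.log (D * (τ + LL.card) : ℕ)) +
        4 * ((T * τ : ℕ) * Real.log (X + 1 : ℕ)) +
        (4 * X * (τ + ∑ l' ∈ LL, l') + 8 * T : ℕ) * (n * h) < (T : ℝ) * ∑ l ∈ LL, Real.log l := by
  obtain ⟨A, hA⟩ : ∃ A : ℕ, A = 2 * c₁ + 2 * n + e + 2 := ⟨_, rfl⟩
  obtain ⟨T, hT⟩ : ∃ T : ℕ, T = 24 * A := ⟨_, rfl⟩
  obtain ⟨N, hN⟩ : ∃ N : ℕ, N = 100 * T ^ (n + 1) := ⟨_, rfl⟩
  obtain ⟨K₁, hK₁⟩ : ∃ K₁ : ℕ, K₁ = 6 * T * (N + 1) + T := ⟨_, rfl⟩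
  obtain ⟨K₂, hK₂⟩ : ∃ K₂ : ℕ, K₂ = T ^ n + N := ⟨_, rfl⟩
  obtain ⟨K₃, hK₃⟩ : ∃ K₃ : ℕ, K₃ = n * (4 * K₁ * K₂ + 8 * T) := ⟨_, rfl⟩
  have hA1 : 1 ≤ A := by omega
  have hT1 : 1 ≤ T := by omega
  have hP1 : 1 ≤ T ^ n := Nat.one_le_pow _ _ hT1
  have hN1 : 1 ≤ N := by
    rw [hN]
    have := Nat.one_le_pow (n + 1) _ hT1
    omega
  refine ⟨T, N, K₁ + K₂ + K₃ + 3, hT1, by omega, fun Z hZ D M₁ τ h LL hc hl hD1 hDe hMD hτ hh0 hh X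
    hX => ?_⟩
  have hZ3 : 3 ≤ Z := by omega
  have hZ1 : 1 ≤ Z := by omega
  have hZa : K₁ + 1 ≤ Z := by omega
  have hZb : K₂ ≤ Z := by omega
  have hZc : K₃ ≤ Z := by omega
  obtain ⟨m, hm⟩ : ∃ m, m = max 1 M₁ := ⟨_, rfl⟩
  have hm1 : 1 ≤ m := by
    rw [hm]
    exact le_max_left _ _
  have hmn : m ^ n ≤ D := by
    rcases le_total 1 M₁ with h1 | h1
    · rw [hm, max_eq_right h1]
      exact hMD
    · rw [hm, max_eq_left h1, one_pow]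
      exact hD1
  have hme : m ≤ Z ^ e := (Nat.le_self_pow (by omega) m).trans (hmn.trans hDe)
  obtain ⟨W, hW⟩ : ∃ W : ℕ, W = Z ^ (2 * n + 2 * c₁) := ⟨_, rfl⟩
  have hW1 : 1 ≤ W := by
    rw [hW]
    exact Nat.one_le_pow _ _ hZ1
  have hWm1 : 1 ≤ W * m := Nat.one_le_iff_ne_zero.2 (Nat.mul_ne_zero (by omega) (by omega))
  have hX0 : X = T * (3 * (N + 1) * (2 * W * m) + 1) := by
    rw [hX, hW, ← hm, pow_add, mul_pow, ← pow_mul, ← pow_mul, mul_comm n 2, mul_comm c₁ 2]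
  have hX1 : X ≤ K₁ * (W * m) := by
    rw [hX0, hK₁]
    nlinarith
  have hX2 : X + 1 ≤ Z ^ A := by
    calc X + 1 ≤ (K₁ + 1) * (W * m) := by nlinarith
      _ ≤ Z * (W * Z ^ e) := Nat.mul_le_mul hZa (Nat.mul_le_mul_left _ hme)
      _ = Z ^ (1 + (2 * n + 2 * c₁ + e)) := by
          rw [hW, ← pow_add]
          ring
      _ ≤ Z ^ A := Nat.pow_le_pow_right hZ1 (by omega)
  have hτN : τ + N ≤ Z := by omega
  have hDN : D * (τ + N) ≤ Z ^ (e + 1) := by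
    rw [pow_succ]
    exact Nat.mul_le_mul hDe hτN
  have hsl : ∑ l' ∈ LL, l' ≤ N * Z := by
    refine (Finset.sum_le_card_nsmul _ _ Z fun l hl' => (hl l hl').2).trans ?_
    rw [hc, smul_eq_mul]
  have hb3 : 4 * X * (τ + ∑ l' ∈ LL, l') + 8 * T ≤ (4 * K₁ * K₂ + 8 * T) * (W * Z * m) := by
    have h1 : τ + ∑ l' ∈ LL, l' ≤ K₂ * Z := by
      rw [hK₂]
      nlinarith
    have h2 : 1 ≤ W * Z * m :=
      Nat.one_le_iff_ne_zero.2 (Nat.mul_ne_zero (Nat.mul_ne_zero (by omega) (by omega)) (by omega))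
    calc 4 * X * (τ + ∑ l' ∈ LL, l') + 8 * T ≤ 4 * (K₁ * (W * m)) * (K₂ * Z) + 8 * T * 1 :=
          Nat.add_le_add (Nat.mul_le_mul (Nat.mul_le_mul_left _ hX1) h1) (by omega)
      _ ≤ 4 * (K₁ * (W * m)) * (K₂ * Z) + 8 * T * (W * Z * m) :=
          Nat.add_le_add_left (Nat.mul_le_mul_left _ h2) _
      _ = _ := by ring
  -- real numbers
  have hZr : (1 : ℝ) ≤ (Z : ℝ) := by exact_mod_cast hZ1
  have hZ0 : (0 : ℝ) < (Z : ℝ) := by linarith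
  have hL1 : 1 ≤ Real.log Z := by
    rw [Real.le_log_iff_exp_le hZ0]
    have h1 := Real.exp_one_lt_d9
    have h2 : (3 : ℝ) ≤ (Z : ℝ) := by exact_mod_cast hZ3
    linarith
  have hnr : (1 : ℝ) ≤ (n : ℝ) := by exact_mod_cast hn
  -- the last summand
  have hmh : (Z : ℝ) ^ (2 * c₁ + 2 * n + 3) * ((m : ℝ) * h) ≤ 1 := by
    have hmr : (0 : ℝ) ≤ (m : ℝ) := Nat.cast_nonneg _
    have h1 : ((Z : ℝ) ^ (2 * c₁ + 2 * n + 3) * ((m : ℝ) * h)) ^ n ≤ 1 := by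
      refine le_trans ?_ hh
      rw [mul_pow, ← pow_mul, mul_comm (2 * c₁ + 2 * n + 3) n, mul_pow]
      refine mul_le_mul_of_nonneg_left (mul_le_mul_of_nonneg_right ?_ (pow_nonneg hh0 _))
        (pow_nonneg hZ0.le _)
      exact_mod_cast hmn
    exact (pow_le_one_iff_of_nonneg (mul_nonneg (pow_nonneg hZ0.le _) (mul_nonneg hmr hh0))
      (by omega)).1 h1
  have h3 : ((4 * X * (τ + ∑ l' ∈ LL, l') + 8 * T : ℕ) : ℝ) * (n * h) ≤ 1 := by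
    have hnh : 0 ≤ (n : ℝ) * h := mul_nonneg (by linarith) hh0
    have hmh0 : 0 ≤ (m : ℝ) * h := mul_nonneg (Nat.cast_nonneg _) hh0
    calc ((4 * X * (τ + ∑ l' ∈ LL, l') + 8 * T : ℕ) : ℝ) * (n * h)
        ≤ (((4 * K₁ * K₂ + 8 * T) * (W * Z * m) : ℕ) : ℝ) * (n * h) :=
          mul_le_mul_of_nonneg_right (by exact_mod_cast hb3) hnh
      _ = (K₃ : ℝ) * ((W : ℝ) * Z * (m * h)) := by
          rw [hK₃]
          push_cast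
          ring
      _ ≤ (Z : ℝ) * ((W : ℝ) * Z * (m * h)) := by
          refine mul_le_mul_of_nonneg_right (by exact_mod_cast hZc) ?_
          exact mul_nonneg (mul_nonneg (Nat.cast_nonneg _) hZ0.le) hmh0
      _ = (Z : ℝ) ^ (2 * n + 2 * c₁ + 2) * (m * h) := by
          rw [hW]
          push_cast
          ring
      _ ≤ (Z : ℝ) ^ (2 * c₁ + 2 * n + 3) * (m * h) :=
          mul_le_mul_of_nonneg_right (pow_le_pow_right₀ hZr (by omega)) hmh0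
      _ ≤ 1 := hmh
  have h1 : Real.log (D * (τ + LL.card) : ℕ) ≤ (A : ℝ) * Real.log Z := by
    rw [hc]
    have h4 : (0 : ℝ) < ((D * (τ + N) : ℕ) : ℝ) := by
      have : 0 < D * (τ + N) := Nat.mul_pos hD1 (by omega)
      exact_mod_cast this
    calc Real.log ((D * (τ + N) : ℕ) : ℝ) ≤ Real.log ((Z : ℝ) ^ (e + 1)) :=
          Real.log_le_log h4 (by exact_mod_cast hDN)
      _ = ((e + 1 : ℕ) : ℝ) * Real.log Z := Real.log_pow _ _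
      _ ≤ _ := by
          refine mul_le_mul_of_nonneg_right ?_ (by linarith)
          exact_mod_cast (by omega : e + 1 ≤ A)
  have h2 : Real.log ((X + 1 : ℕ) : ℝ) ≤ (A : ℝ) * Real.log Z := by
    have h4 : (0 : ℝ) < ((X + 1 : ℕ) : ℝ) := by exact_mod_cast Nat.succ_pos X
    calc Real.log ((X + 1 : ℕ) : ℝ) ≤ Real.log ((Z : ℝ) ^ A) :=
          Real.log_le_log h4 (by exact_mod_cast hX2)
      _ = _ := Real.log_pow _ _
  have h4 : (N : ℝ) * (Real.log Z / 3) ≤ ∑ l ∈ LL, Real.log l := by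
    have h5 : ∀ l ∈ LL, Real.log Z / 3 ≤ Real.log l := by
      intro l hl'
      have h6 : (Z : ℝ) ≤ (l : ℝ) ^ 3 := by exact_mod_cast (hl l hl').1
      have h7 := Real.log_le_log hZ0 h6
      rw [Real.log_pow] at h7
      push_cast at h7
      linarith
    have h8 := Finset.card_nsmul_le_sum LL (fun l => Real.log (l : ℝ)) _ h5
    rw [hc, nsmul_eq_mul] at h8
    exact h8
  -- assembly
  have hTr : (T : ℝ) = 24 * A := by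
    rw [hT]
    push_cast
    ring
  have hAr : (1 : ℝ) ≤ (A : ℝ) := by exact_mod_cast hA1
  have hTr1 : (1 : ℝ) ≤ (T : ℝ) := by exact_mod_cast hT1
  have hPr : (1 : ℝ) ≤ (T : ℝ) ^ n := one_le_pow₀ hTr1
  have hNr : (N : ℝ) = 100 * ((T : ℝ) * (T : ℝ) ^ n) := by
    rw [hN]
    push_cast
    ring
  have hτr : (τ : ℝ) ≤ (T : ℝ) ^ n := by exact_mod_cast hτ
  have hτ0 : (0 : ℝ) ≤ (τ : ℝ) := Nat.cast_nonneg _
  have hN0 : (0 : ℝ) ≤ (N : ℝ) := Nat.cast_nonneg _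
  have e1 : 4 * (((τ + LL.card : ℕ) : ℝ) * Real.log (D * (τ + LL.card) : ℕ)) ≤
      4 * (((τ : ℝ) + N) * (A * Real.log Z)) := by
    have h5 : ((τ + LL.card : ℕ) : ℝ) = (τ : ℝ) + N := by
      rw [hc]
      push_cast
      ring
    rw [h5]
    exact mul_le_mul_of_nonneg_left (mul_le_mul_of_nonneg_left h1 (by linarith)) (by norm_num)
  have e2 : 4 * (((T * τ : ℕ) : ℝ) * Real.log ((X + 1 : ℕ) : ℝ)) ≤
      4 * (((T : ℝ) * τ) * (A * Real.log Z)) := by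
    have h5 : ((T * τ : ℕ) : ℝ) = (T : ℝ) * τ := by push_cast; ring
    rw [h5]
    exact mul_le_mul_of_nonneg_left (mul_le_mul_of_nonneg_left h2
      (mul_nonneg (by linarith) hτ0)) (by norm_num)
  have e3 : (T : ℝ) * ((N : ℝ) * (Real.log Z / 3)) ≤ (T : ℝ) * ∑ l ∈ LL, Real.log l :=
    mul_le_mul_of_nonneg_left h4 (by linarith)
  have e4 : 4 * (τ : ℝ) * A + 4 * T * τ * A + 1 < 4 * A * N := by
    have hTP : (1 : ℝ) ≤ (T : ℝ) * (T : ℝ) ^ n := one_le_mul_of_one_le_of_one_le hTr1 hPr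
    have hPT : (T : ℝ) ^ n ≤ (T : ℝ) * (T : ℝ) ^ n := le_mul_of_one_le_left (by linarith) hTr1
    have g1 : 4 * (τ : ℝ) * A ≤ 4 * ((T : ℝ) * (T : ℝ) ^ n) * A :=
      mul_le_mul_of_nonneg_right (by linarith) (by linarith)
    have g2 : 4 * (T : ℝ) * τ * A ≤ 4 * ((T : ℝ) * (T : ℝ) ^ n) * A := by
      refine mul_le_mul_of_nonneg_right ?_ (by linarith)
      have := mul_le_mul_of_nonneg_left hτr (by linarith : (0 : ℝ) ≤ (T : ℝ))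
      linarith
    have g3 : (1 : ℝ) ≤ ((T : ℝ) * (T : ℝ) ^ n) * A := one_le_mul_of_one_le_of_one_le hTP hAr
    rw [hNr]
    nlinarith
  have e5 : (4 * (τ : ℝ) * A + 4 * T * τ * A + 1) * Real.log Z < 4 * A * N * Real.log Z :=
    mul_lt_mul_of_pos_right e4 (by linarith)
  have e6 : (T : ℝ) * ((N : ℝ) * (Real.log Z / 3)) = 8 * A * N * Real.log Z := by
    rw [hTr]
    ring
  rw [e6] at e3
  have e7 : 4 * (((τ : ℝ) + N) * (A * Real.log Z)) + 4 * (((T : ℝ) * τ) * (A * Real.log Z)) +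
      Real.log Z = (4 * (τ : ℝ) * A + 4 * T * τ * A + 1) * Real.log Z +
        4 * A * N * Real.log Z := by ring
  linarith

end Pool.Agent.H33.PT
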