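import Pool.Agent.H33.PT.Reg

/-!
# POINTS THEOREM, Rpw: a box which is regular for all powers `g^q`, `1 ≤ q ≤ Z`

PROOF. `m := ⌊M₁ / q⌋` (natural division), `m' := max 1 m`. The monomials `(g^q)^a = g^(q a)`, `a ∈ [0, m]^n`, are among the `g^b`, `b ∈ [0, M₁]^n` (different `b` for different `a`), so they are independent over `k`: `finrank (sp k (g^q) m') ≥ finrank (sp k (g^q) m) = (m + 1)^n`,
and `M₁ + 1 ≤ q (m + 1) ≤ Z (m + 1)`. `finrank (adjoin k (g^q)) ≤ finrank (adjoin k g) = D ≤ (M₁ + 1)^n B ≤ Z^n B (m + 1)^n ≤ (Z^n B) finrank (sp k (g^q) m')`. `reg_box` with `A = Z^n B` and the constant function `m'`; `m' ≤ max 1 M₁`; `sp_mono` and `sp_le` give the equality for the larger box `(2 (Z^n B)^2) max 1 M₁`.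
-/

set_option autoImplicit false
set_option linter.unusedSectionVars false

namespace Pool.Agent.H33.PT

theorem reg_pow {k F : Type} [Field k] [Infinite k] [Field F] [Algebra k F] {n : ℕ} (g : Fin n → F)
    (hfin : FiniteDimensional k (IntermediateField.adjoin k (Set.range g))) (M₁ B Z q : ℕ)
    (hq : 1 ≤ q) (hqZ : q ≤ Z)
    (hli : LinearIndependent k fun a : Fin n → Fin (M₁ + 1) => mo g (fun i => (a i : ℕ)))
    (hD : Module.finrank k (IntermediateField.adjoin k (Set.range g)) ≤ (M₁ + 1) ^ n * B) :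
    sp k (fun i => g i ^ q) (fun _ => 2 * (Z ^ n * B) ^ 2 * max 1 M₁) =
      Subalgebra.toSubmodule
        (IntermediateField.adjoin k (Set.range fun i => g i ^ q)).toSubalgebra := by
  classical
  obtain ⟨m, hm⟩ : ∃ m, m = M₁ / q := ⟨_, rfl⟩
  have hqm : q * m ≤ M₁ := by
    rw [hm]
    exact Nat.mul_div_le M₁ q
  have hM : M₁ + 1 ≤ q * (m + 1) := by
    rw [hm]
    exact Nat.lt_mul_div_succ M₁ hq
  have hadj : IntermediateField.adjoin k (Set.range fun i => g i ^ q) ≤
      IntermediateField.adjoin k (Set.range g) := by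
    rw [IntermediateField.adjoin_le_iff]
    rintro _ ⟨i, rfl⟩
    exact pow_mem (IntermediateField.subset_adjoin k (Set.range g) ⟨i, rfl⟩) q
  have hadj' : Subalgebra.toSubmodule
      (IntermediateField.adjoin k (Set.range fun i => g i ^ q)).toSubalgebra ≤
      Subalgebra.toSubmodule (IntermediateField.adjoin k (Set.range g)).toSubalgebra :=
    fun x hx => hadj hx
  have hfin1 : FiniteDimensional k
      (Subalgebra.toSubmodule (IntermediateField.adjoin k (Set.range g)).toSubalgebra) := hfin
  have hfin2 : FiniteDimensional k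
      (Subalgebra.toSubmodule
        (IntermediateField.adjoin k (Set.range fun i => g i ^ q)).toSubalgebra) :=
    Submodule.finiteDimensional_of_le hadj'
  have hfin3 : FiniteDimensional k
      (IntermediateField.adjoin k (Set.range fun i => g i ^ q)) := hfin2
  have hrk : Module.finrank k (IntermediateField.adjoin k (Set.range fun i => g i ^ q)) ≤
      Module.finrank k (IntermediateField.adjoin k (Set.range g)) :=
    Submodule.finrank_mono hadj'
  have hli2 : LinearIndependent k fun a : Fin n → Fin (m + 1) =>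
      mo (fun i => g i ^ q) (fun i => (a i : ℕ)) := by
    have hlt : ∀ (a : Fin n → Fin (m + 1)) (i : Fin n), q * (a i : ℕ) < M₁ + 1 := by
      intro a i
      have h1 : (a i : ℕ) ≤ m := Nat.lt_succ_iff.1 (a i).2
      have h2 : q * (a i : ℕ) ≤ q * m := Nat.mul_le_mul_left q h1
      omega
    let e : (Fin n → Fin (m + 1)) → (Fin n → Fin (M₁ + 1)) := fun a i => ⟨q * (a i : ℕ), hlt a i⟩
    have he : Function.Injective e := by
      intro a a' h
      funext i
      have h1 : (e a i : ℕ) = (e a' i : ℕ) := by rw [h]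
      have h2 : q * (a i : ℕ) = q * (a' i : ℕ) := h1
      exact Fin.ext (Nat.eq_of_mul_eq_mul_left hq h2)
    have h3 := hli.comp e he
    have h4 : (fun a : Fin n → Fin (m + 1) => mo (fun i => g i ^ q) (fun i => (a i : ℕ))) =
        (fun a : Fin n → Fin (M₁ + 1) => mo g (fun i => (a i : ℕ))) ∘ e := by
      funext a
      exact (mo_pow g q fun i => (a i : ℕ)).symm
    rw [h4]
    exact h3
  have hsp : (m + 1) ^ n ≤ Module.finrank k (sp k (fun i => g i ^ q) (fun _ => max 1 m)) := by
    have h1 := finrank_span_eq_card hli2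
    rw [Fintype.card_fun, Fintype.card_fin, Fintype.card_fin] at h1
    rw [← h1]
    have := sp_fin k (fun i => g i ^ q) (fun _ => max 1 m)
    refine Submodule.finrank_mono ?_
    rw [Submodule.span_le]
    rintro _ ⟨a, rfl⟩
    refine Submodule.subset_span ⟨fun i => (a i : ℕ), fun i => ?_, rfl⟩
    have h2 : (a i : ℕ) ≤ m := Nat.lt_succ_iff.1 (a i).2
    exact h2.trans (le_max_right _ _)
  have hbox := reg_box (fun i => g i ^ q) (fun _ => max 1 m) (fun _ => le_max_left _ _) hfin3
    (Z ^ n * B) (by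
      calc Module.finrank k (IntermediateField.adjoin k (Set.range fun i => g i ^ q))
          ≤ (M₁ + 1) ^ n * B := hrk.trans hD
        _ ≤ (Z * (m + 1)) ^ n * B :=
            Nat.mul_le_mul_right _ (Nat.pow_le_pow_left (hM.trans (Nat.mul_le_mul_right _ hqZ)) n)
        _ = Z ^ n * B * (m + 1) ^ n := by
            rw [mul_pow]
            ring
        _ ≤ Z ^ n * B * Module.finrank k (sp k (fun i => g i ^ q) (fun _ => max 1 m)) :=
            Nat.mul_le_mul_left _ hsp)
  refine le_antisymm (sp_le k _ _) ?_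
  rw [← hbox]
  refine sp_mono k _ fun i => ?_
  show 2 * (Z ^ n * B) ^ 2 * max 1 m ≤ 2 * (Z ^ n * B) ^ 2 * max 1 M₁
  refine Nat.mul_le_mul_left _ (max_le_max le_rfl ?_)
  rw [hm]
  exact Nat.div_le_self M₁ q

end Pool.Agent.H33.PT
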