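import Pool.Agent.H33.PT.Reg
import Pool.Agent.H84.PT2.Sep3

/-!
# POINTS THEOREM, Sep: the union of the orbits is regular

PROOF. Write `ev j : MvPolynomial or: sp` ... For `j ≠ j'` let `V ⊆ E × E` be the span of the pairs `(mo (y j) a, mo (y j') a)`, `a ≤ X` (`= sp k (fun i => (y j i, y j' i)) X`, the monomials of the tuple of `E × E`; the projections are ring homomorphisms, so they map it onto
`sp k (y j) X = ⊤` and `sp k (y j') X = ⊤`). `sep3` (H84/PT2/Sep3): an automorphism `φ` with `v.1 = φ v.2` on `V` would give `y j i = φ (y j' i)` (`X i ≥ 1`), excluded by `hno`. So `(c, 0) ∈ V V V = sp k (..) (3 X)` (`sp_mul`) for all `c`.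
Let `R := sp k (fun i j => y j i) : Submodule k (ι → E)`, the coordinate projections `π_j : (ι → E) → E` and `π_(jj') : (ι → E) → E × E` map `sp` to `sp` (`mo` of a map of rings, `mo_map`, `Submodule.map_span`). So for `j ≠ j'` there is `u_(jj') ∈ sp k Y (3 X)` (`Y i j = y j i`) with
`u j = 1`, `u j' = 0`. For `j`: `u := ∏_(j' ≠ j) u_(jj') ∈ sp k Y (3 (card ι - 1) X)` (`Finset.prod` and `sp_mul`), `u j = 1`, `u j' = 0` for `j' ≠ j`. For `c : E` there is `w ∈ sp k Y X` with `w j = c` (`hsp j`); `u w ∈ sp k Y ((3 (card ι - 1) + 1) X) ≤ sp k Y (3 card ι X)` is `c` at `j` and `0` elsewhere. Sum over `j`.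
-/

set_option autoImplicit false
set_option linter.unusedSectionVars false

namespace Pool.Agent.H33.PT

open Pool.Agent.H84.PT2

/-- the image of the span of the monomials under a map of algebras -/
theorem sp_map {k A B : Type} [Field k] [CommRing A] [Algebra k A] [CommRing B] [Algebra k B]
    (f : A →ₐ[k] B) {n : ℕ} (g : Fin n → A) (m : Fin n → ℕ) :
    (sp k g m).map f.toLinearMap = sp k (fun i => f (g i)) m := by
  unfold sp
  rw [Submodule.map_span, Set.image_image]
  congr 1
  refine Set.image_congr fun a _ => ?_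
  exact mo_map (f : A →+* B) g a

/-- every element of the span of the monomials of the image is the image of an element -/
theorem sp_lift {k A B : Type} [Field k] [CommRing A] [Algebra k A] [CommRing B] [Algebra k B]
    (f : A →ₐ[k] B) {n : ℕ} (g : Fin n → A) (m : Fin n → ℕ) {b : B}
    (hb : b ∈ sp k (fun i => f (g i)) m) : ∃ a ∈ sp k g m, f a = b := by
  rw [← sp_map f g m] at hb
  obtain ⟨a, ha, h⟩ := Submodule.mem_map.1 hb
  exact ⟨a, ha, h⟩

/-- the generators are in the span -/
theorem gen_mem_sp (k : Type) {A : Type} [Field k] [CommRing A] [Algebra k A] {n : ℕ} (g : Fin n → A)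
    (m : Fin n → ℕ) (i : Fin n) (h : 1 ≤ m i) : g i ∈ sp k g m := by
  classical
  refine Submodule.subset_span ⟨Pi.single i 1, fun i' => ?_, ?_⟩
  · by_cases hi : i' = i
    · subst hi
      simpa using h
    · simp [Pi.single_eq_of_ne hi]
  · unfold mo
    rw [Finset.prod_eq_single i]
    · simp
    · intro b _ hb
      simp [Pi.single_eq_of_ne hb]
    · intro h
      exact absurd (Finset.mem_univ i) h

theorem sep_all {k E : Type} [Field k] [Field E] [Algebra k E] {ι : Type} [Fintype ι] [Nonempty ι]
    {n : ℕ} (y : ι → Fin n → E) (X : ℕ) (hX : 1 ≤ X) (hsp : ∀ j, sp k (y j) (fun _ => X) = ⊤)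
    (hno : ∀ j j', j ≠ j' → ¬ ∃ φ : E ≃ₐ[k] E, ∀ i, y j i = φ (y j' i)) :
    sp k (fun i => (fun j => y j i : ι → E)) (fun _ => 3 * Fintype.card ι * X) = ⊤ := by
  classical
  -- two coordinates
  have h2 : ∀ j j', j ≠ j' → ∀ x : E,
      ((x, 0) : E × E) ∈ sp k (fun i => ((y j i, y j' i) : E × E)) (fun _ => 3 * X) := by
    intro j j' hj x
    have h := sep3 (sp k (fun i => ((y j i, y j' i) : E × E)) (fun _ => X)) (one_mem_sp k _ _) ?_ ?_
    · rcases h with ⟨φ, hφ⟩ | h
      · exact absurd ⟨φ, fun i => hφ _ (gen_mem_sp k (fun i => ((y j i, y j' i) : E × E)) _ i hX)⟩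
          (hno j j' hj)
      · have h3 := h x
        rw [sp_mul, sp_mul] at h3
        refine sp_mono k _ ?_ h3
        intro i
        simp only [Pi.add_apply]
        omega
    · intro a
      have ha : a ∈ sp k (fun i => (AlgHom.fst k E E) ((y j i, y j' i) : E × E)) (fun _ => X) := by
        have := hsp j
        have h0 : (fun i => (AlgHom.fst k E E) ((y j i, y j' i) : E × E)) = y j := rfl
        rw [h0, this]
        trivial
      obtain ⟨v, hv, h⟩ := sp_lift _ _ _ ha
      refine ⟨v.2, ?_⟩
      have h0 : v = (a, v.2) := Prod.ext h rfl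
      rwa [← h0]
    · intro a
      have ha : a ∈ sp k (fun i => (AlgHom.snd k E E) ((y j i, y j' i) : E × E)) (fun _ => X) := by
        have := hsp j'
        have h0 : (fun i => (AlgHom.snd k E E) ((y j i, y j' i) : E × E)) = y j' := rfl
        rw [h0, this]
        trivial
      obtain ⟨v, hv, h⟩ := sp_lift _ _ _ ha
      refine ⟨v.1, ?_⟩
      have h0 : v = (v.1, a) := Prod.ext rfl h
      rwa [← h0]
  -- lift to all coordinates
  have h3 : ∀ j j', j ≠ j' → ∃ u ∈ sp k (fun i => (fun j => y j i : ι → E)) (fun _ => 3 * X),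
      u j = 1 ∧ u j' = 0 := by
    intro j j' hj
    obtain ⟨u, hu, h⟩ := sp_lift
      ((Pi.evalAlgHom k (fun _ : ι => E) j).prod (Pi.evalAlgHom k (fun _ : ι => E) j'))
      (fun i => (fun j => y j i : ι → E)) (fun _ => 3 * X) (b := ((1, 0) : E × E)) (h2 j j' hj 1)
    exact ⟨u, hu, congrArg Prod.fst h, congrArg Prod.snd h⟩
  -- one coordinate against a finite set of coordinates
  have h4 : ∀ (j : ι) (s : Finset ι), j ∉ s →
      ∃ u ∈ sp k (fun i => (fun j => y j i : ι → E)) (fun _ => 3 * s.card * X),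
        u j = 1 ∧ ∀ j' ∈ s, u j' = 0 := by
    intro j s
    induction s using Finset.induction_on with
    | empty => exact fun _ => ⟨1, one_mem_sp k _ _, rfl, fun _ h => absurd h (Finset.notMem_empty _)⟩
    | insert a s ha ih =>
      intro hj
      rw [Finset.mem_insert, not_or] at hj
      obtain ⟨u, hu, hu1, hu0⟩ := ih hj.2
      obtain ⟨v, hv, hv1, hv0⟩ := h3 j a hj.1
      refine ⟨u * v, ?_, ?_, ?_⟩
      · have h5 := Submodule.mul_mem_mul hu hv
        rw [sp_mul] at h5
        refine sp_mono k _ ?_ h5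
        intro i
        rw [Finset.card_insert_of_notMem ha]
        simp only [Pi.add_apply]
        apply le_of_eq
        ring
      · rw [Pi.mul_apply, hu1, hv1, one_mul]
      · intro j' hj'
        rw [Pi.mul_apply]
        rcases Finset.mem_insert.1 hj' with rfl | h
        · rw [hv0, mul_zero]
        · rw [hu0 j' h, zero_mul]
  -- one coordinate
  have h5 : ∀ (j : ι) (c : E), (Pi.single j c : ι → E) ∈
      sp k (fun i => (fun j => y j i : ι → E)) (fun _ => 3 * Fintype.card ι * X) := by
    intro j c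
    obtain ⟨u, hu, hu1, hu0⟩ := h4 j (Finset.univ.erase j) (Finset.notMem_erase j _)
    have hc : c ∈ sp k (fun i => (Pi.evalAlgHom k (fun _ : ι => E) j) (fun j => y j i))
        (fun _ => X) := by
      have := hsp j
      have h0 : (fun i => (Pi.evalAlgHom k (fun _ : ι => E) j) (fun j => y j i)) = y j := rfl
      rw [h0, this]
      trivial
    obtain ⟨w, hw, h⟩ := sp_lift _ _ _ hc
    have h6 := Submodule.mul_mem_mul hu hw
    rw [sp_mul] at h6
    have h7 : u * w = Pi.single j c := by
      funext j'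
      by_cases hj : j' = j
      · subst hj
        rw [Pi.mul_apply, hu1, one_mul, Pi.single_eq_same]
        exact h
      · rw [Pi.mul_apply, hu0 j' (Finset.mem_erase.2 ⟨hj, Finset.mem_univ _⟩), zero_mul,
          Pi.single_eq_of_ne hj]
    rw [h7] at h6
    refine sp_mono k _ ?_ h6
    intro i
    have h8 : 1 ≤ Fintype.card ι := Fintype.card_pos
    rw [Finset.card_erase_of_mem (Finset.mem_univ j), Finset.card_univ]
    simp only [Pi.add_apply]
    obtain ⟨c', hc'⟩ : ∃ c', Fintype.card ι = c' + 1 := ⟨Fintype.card ι - 1, by omega⟩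
    rw [hc', Nat.add_sub_cancel]
    nlinarith [Nat.zero_le X]
  rw [eq_top_iff]
  intro z _
  have h6 : z = ∑ j, Pi.single j (z j) := (Finset.univ_sum_single z).symm
  rw [h6]
  exact Submodule.sum_mem _ fun j _ => h5 j (z j)

end Pool.Agent.H33.PT
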