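import Pool.Agent.H33.PT.Glb
import Pool.Agent.H33.PT.Gp
import Pool.Agent.H33.PT.Rpw
import Pool.Agent.H33.PT.Sep
import Pool.Agent.H33.PT.Bch
import Pool.Agent.H33.PT.Jnv
import Pool.Agent.H33.PT.Exq
import Pool.Agent.H33.PT.Chs
import Pool.Agent.H33.PT.Emb
import Pool.Agent.H33.PT.Num

/-!
# POINTS THEOREM, Mai: the theorem over `ℚ` in dimension `n`, from the dimensions below

PROOF. `L := ⊥ : IntermediateField ℚ Ω`, `Λ := ⊥`, `c₁ := 10 n^3 + 1`, `c₀ := 10 n^3 + 10 n`, `C := max c₀ (n (2 c₁ + 2 n + 3))`. Given `e`: `K₀` = the maximum of the constants of `gp n e`, `num_key n e c₁` (gives `T`, `N`), `choose_primes e N`, and `1`.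
Let `Z ≥ K₀`, `γ`, `h` and suppose `Z^C (D h^n) ≤ 1`, `D := degP ⊥ γ`. `h ≥ 0` (`n ≥ 1`, `absLogHeight₁ ≥ 0`). So also `Z^(c₀) (D h^n) ≤ 1` and the hypothesis of `num_key`. `D ≥ 1` (finite-dimensional as `Ω` is algebraic over `ℚ`: `IsGalois ℚ Ω`).
`M₁` := the largest natural number with `M₁^n Z^(c₁) ≤ D` or `M₁ = 0`; precisely `M₁` = largest with `M₁^n * Z^(c₁) ≤ D` (`0` qualifies since `n ≥ 1`; `Nat.findGreatest` with bound `D`), so `D < (M₁ + 1)^n Z^(c₁)`, `M₁^n ≤ D` (`Z ≥ 1`).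
`gp` gives the independence of the monomials `γ^a`, `a ∈ [0, M₁]^n`, over `⊥`, hence over `ℚ` (`LinearIndependent.restrict_scalars'`, or `iff` through the surjectivity of `ℚ → ⊥`).
`E := adjoin ℚ (range γ)` (number field: finite-dimensional), `r i := ⟨γ i, _⟩ : E`. `adjoin ℚ (range r) = ⊤` in `E` (`IntermediateField.adjoin_self..`/`restrictScalars`, or the map `IntermediateField.map E.val`), `finrank ℚ E = D` (`degP_bot`). Independence of `mo r a` over `ℚ` (`E.val` injective).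
Exceptional primes: `Bx :=` the primes `l ∈ range (Z + 1)` with `adjoin ⊥ (range (γ^l)) ≠ adjoin ⊥ (range γ)`; `exc_deg`: `2^(card Bx) ≤ D ≤ Z^e`; `choose_primes`: `LL`, `LL.card = N`, primes `l ≤ Z ≤ l^3`, `l ∉ Bx`, so `adjoin ℚ (range (r^l)) = ⊤` in `E`.
`reg_pow` (`k = ℚ`, `F = E`, `g = r`, `B = Z^(c₁)`, `q ∈ {1} ∪ LL`): `sp ℚ (r^q) X₀ = ⊤`, `X₀ = 2 (Z^n Z^(c₁))^2 max 1 M₁`.
`ι := {q // q ∈ insert 1 LL}` (`1 ∉ LL`: primes), `card ι = N + 1`, `y q i := r i ^ q`. `sep_all` (`hno`: `no_auto` for one `i : Fin n`, `n ≥ 1`; `r i` is not a root of unity: `IndM ⊥ γ` with `a = Pi.single i 1` and `m`): `sp ℚ Y (3 (N + 1) X₀) = ⊤`. `X₁ := 3 (N+1) X₀`.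
`M` from `emb_field`, `[NumberField M]`, `[IsGalois ℚ M]`, `Fintype (E →ₐ[ℚ] M)` with `Fintype.card = finrank ℚ E`. `H := E →ₐ[ℚ] M`, `P h i := h (r i)` (`≠ 0`). `separators` (`k = ℚ`) at `(h₀, 1)` gives `hsep1` (`h (r i ^ 1) = P h i`, `h (r i ^ l) = P h i ^ l`), at `(h₀, l₀)` gives `hsep2`.
`exists_cols` with `X = X₁`: `col`, entries `≤ X := T (X₁ + 1)`, determinant `≠ 0`. `glob_ineq` with this `X`; `∑_i h(r_i) ≤ n h` (`absLogHeight₁ (r i) = absLogHeight₁ (γ i : Ω)`: `absLogHeight₁` of an element of an intermediate field: the lemma used in H33/TR, H72/PB for subfields). `τ := card (TT n T) ≤ T^n` (`card_TT_le`). Contradiction with `num_key`.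
-/

set_option autoImplicit false
set_option linter.unusedSectionVars false

open NumberField

namespace Pool.Agent.H33.PT

open Pool.Agent.H11.TS

private theorem ht_sub {Ω : Type} [Field Ω] [CharZero Ω] (E : IntermediateField ℚ Ω)
    [NumberField E] (x : E) : absLogHeight₁ x = absLogHeight₁ (x : Ω) := by
  have h1 := Pool.Agent.H4.RR.absLogHeight_eq E Ω (E.val : E →+* Ω) x
  have h2 := Pool.Agent.H4.RR.absLogHeight_eq E E (RingHom.id E) x
  have h3 : absLogHeight₁ (x : Ω) = Height.logHeight₁ x / Module.finrank ℚ E := h1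
  have h4 : absLogHeight₁ x = Height.logHeight₁ x / Module.finrank ℚ E := h2
  rw [h3, h4]

private theorem top_gen {k F Ω : Type} [Field k] [Field F] [Field Ω] [Algebra k F] [Algebra k Ω]
    (f : F →ₐ[k] Ω) {n : ℕ} (r : Fin n → F)
    (h : ∀ x : F, f x ∈ IntermediateField.adjoin k (Set.range fun i => f (r i))) :
    IntermediateField.adjoin k (Set.range r) = ⊤ := by
  rw [eq_top_iff]
  intro x _
  have h1 := h x
  have h2 : (IntermediateField.adjoin k (Set.range r)).map f =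
      IntermediateField.adjoin k (Set.range fun i => f (r i)) := by
    rw [IntermediateField.adjoin_map]
    congr 1
    rw [← Set.range_comp]
    rfl
  rw [← h2] at h1
  obtain ⟨y, hy, hyx⟩ := h1
  have h3 : y = x := f.injective hyx
  rw [← h3]
  exact hy

private theorem top_of_map {Ω : Type} [Field Ω] [CharZero Ω] (E : IntermediateField ℚ Ω) {n : ℕ}
    (r : Fin n → E)
    (h : ∀ x : Ω, x ∈ E → x ∈ IntermediateField.adjoin ℚ (Set.range fun i => (r i : Ω))) :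
    IntermediateField.adjoin ℚ (Set.range r) = ⊤ :=
  top_gen (RingHom.toRatAlgHom (algebraMap E Ω)) r fun x => h (x : Ω) x.2

private theorem m1_ex (n : ℕ) (hn : 1 ≤ n) (D W : ℕ) (hW : 1 ≤ W) :
    ∃ M₁ : ℕ, M₁ ^ n * W ≤ D ∧ D < (M₁ + 1) ^ n * W := by
  obtain ⟨M₁, hM₁⟩ : ∃ M₁, M₁ = Nat.findGreatest (fun m => m ^ n * W ≤ D) D := ⟨_, rfl⟩
  have h0 : (fun m => m ^ n * W ≤ D) 0 := by
    change 0 ^ n * W ≤ D
    rw [zero_pow (by omega), zero_mul]
    exact Nat.zero_le _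
  refine ⟨M₁, ?_, ?_⟩
  · rw [hM₁]
    exact Nat.findGreatest_spec (P := fun m => m ^ n * W ≤ D) (Nat.zero_le D) h0
  · by_contra hcon
    have hle : (M₁ + 1) ^ n * W ≤ D := by omega
    have h1 : M₁ + 1 ≤ D := by
      calc M₁ + 1 ≤ (M₁ + 1) ^ n := Nat.le_self_pow (by omega) _
        _ ≤ (M₁ + 1) ^ n * W := Nat.le_mul_of_pos_right _ hW
        _ ≤ D := hle
    exact Nat.findGreatest_is_greatest (P := fun m => m ^ n * W ≤ D)
      (show Nat.findGreatest (fun m => m ^ n * W ≤ D) D < M₁ + 1 by rw [← hM₁]; omega) h1 hle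

/-- the columns and the global inequality, for a regular family of powers -/
private theorem main_ineq {Ω : Type} [Field Ω] [CharZero Ω] [IsAlgClosed Ω]
    (E : IntermediateField ℚ Ω) [NumberField E] {n : ℕ} (hn : 1 ≤ n) (r : Fin n → E)
    (hr : ∀ i, r i ≠ 0) (hroot : ∀ i, ∀ m : ℕ, 1 ≤ m → r i ^ m ≠ 1) (T : ℕ) (hT : 1 ≤ T)
    (LL : Finset ℕ) (hLL : ∀ l ∈ LL, l.Prime) (X₀ : ℕ) (hX₀ : 1 ≤ X₀)
    (hsp : ∀ q : ℕ, q = 1 ∨ q ∈ LL → sp ℚ (fun i => r i ^ q) (fun _ => X₀) = ⊤) (X : ℕ)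
    (hX : X = T * (3 * (LL.card + 1) * X₀ + 1)) :
    (T : ℝ) * ∑ l ∈ LL, Real.log l ≤
      4 * ((Fintype.card (TT n T) + LL.card : ℕ) *
          Real.log (Module.finrank ℚ E * (Fintype.card (TT n T) + LL.card) : ℕ)) +
        4 * ((T * Fintype.card (TT n T) : ℕ) * Real.log (X + 1 : ℕ)) +
        (4 * X * (Fintype.card (TT n T) + ∑ l' ∈ LL, l') + 8 * T : ℕ) *
          ∑ i, absLogHeight₁ (r i) := by
  classical
  obtain ⟨M, hMf, hMg, hMc⟩ := emb_field E inferInstance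
  haveI : NumberField M := ⟨⟩
  have h1LL : 1 ∉ LL := fun h => Nat.not_prime_one (hLL 1 h)
  obtain ⟨S, hS⟩ : ∃ S : Finset ℕ, S = insert 1 LL := ⟨_, rfl⟩
  let ι : Type := {q : ℕ // q ∈ S}
  have hιc : Fintype.card ι = LL.card + 1 := by
    rw [Fintype.card_coe, hS, Finset.card_insert_of_notMem h1LL]
  have h1S : 1 ∈ S := by
    rw [hS]
    exact Finset.mem_insert_self _ _
  have hlS : ∀ l ∈ LL, l ∈ S := fun l hl => by
    rw [hS]
    exact Finset.mem_insert_of_mem hl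
  let j1 : ι := ⟨1, h1S⟩
  haveI : Nonempty ι := ⟨j1⟩
  let y : ι → Fin n → E := fun q i => r i ^ (q : ℕ)
  have hSm : ∀ q : ℕ, q ∈ S → q = 1 ∨ q ∈ LL := fun q hq => by
    rw [hS] at hq
    exact Finset.mem_insert.mp hq
  have hιor : ∀ q : ι, (q : ℕ) = 1 ∨ (q : ℕ) ∈ LL := fun q => hSm q.1 q.2
  have hall := sep_all y X₀ hX₀ (fun q => hsp q (hιor q)) (by
    rintro j j' hjj ⟨φ, hφ⟩
    exact no_auto (r ⟨0, hn⟩) (hr _) (hroot _) j j' (fun h => hjj (Subtype.ext h)) φ (hφ ⟨0, hn⟩))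
  rw [hιc] at hall
  obtain ⟨X₁, hX₁⟩ : ∃ X₁, X₁ = 3 * (LL.card + 1) * X₀ := ⟨_, rfl⟩
  rw [← hX₁] at hall hX
  have hsepa := fun (h₀ : E →ₐ[ℚ] M) (j₀ : ι) => separators (M := M) y X₁ hall h₀ j₀
  have hone : ∀ h : E →ₐ[ℚ] M, (fun i => h (y j1 i)) = fun i => h (r i) := by
    intro h
    funext i
    change h (r i ^ 1) = h (r i)
    rw [pow_one]
  have hpw : ∀ (h : E →ₐ[ℚ] M) (l : ℕ) (hl : l ∈ LL),
      (fun i => h (y ⟨l, hlS l hl⟩ i)) = fun i => h (r i) ^ l := by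
    intro h l hl
    funext i
    exact map_pow h (r i) l
  obtain ⟨col, hcol, hdet⟩ := exists_cols (fun (h : E →ₐ[ℚ] M) i => h (r i))
    (fun h i => (map_ne_zero h).mpr (hr i)) T hT LL X₁ (by
      intro h₀
      obtain ⟨c, hc1, hc2⟩ := hsepa h₀ j1
      refine ⟨c, ?_, ?_, ?_⟩
      · rw [hone] at hc1
        exact hc1
      · intro h hh
        have h3 := hc2 h j1 (Or.inl hh)
        rw [hone] at h3
        exact h3
      · intro h l hl
        have h3 := hc2 h ⟨l, hlS l hl⟩ (Or.inr (fun h4 => h1LL (by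
          have h5 : l = 1 := congrArg Subtype.val h4
          rw [← h5]
          exact hl)))
        rw [hpw h l hl] at h3
        exact h3) (by
      intro h₀ l₀ hl₀
      obtain ⟨c, hc1, hc2⟩ := hsepa h₀ ⟨l₀, hlS l₀ hl₀⟩
      refine ⟨c, ?_, ?_⟩
      · rw [hpw h₀ l₀ hl₀] at hc1
        exact hc1
      · intro h l hl hor
        have h3 := hc2 h ⟨l, hlS l hl⟩
          (hor.imp id fun h4 h5 => h4 (congrArg Subtype.val h5))
        rw [hpw h l hl] at h3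
        exact h3)
  refine glob_ineq (E := E) (M := M) ?_ hn r hr T hT LL hLL X col ?_ hdet
  · rw [← Nat.card_eq_fintype_card]
    exact hMc
  · intro j i
    rw [hX]
    exact hcol j i

theorem pu (n : ℕ) (hn : 1 ≤ n) {Ω : Type} [Field Ω] [CharZero Ω] [IsAlgClosed Ω] [IsGalois ℚ Ω]
    (hlow : ∀ j : ℕ, 1 ≤ j → j < n → ∀ ε : ℝ, 0 < ε →
      ∃ c : ℝ, 0 < c ∧ PtB (⊥ : IntermediateField ℚ Ω) (⊥ : Subgroup Ωˣ) j (1 + ε) c) :
    ∃ C : ℕ, ∀ e : ℕ, ∃ K₀ : ℕ, ∀ Z : ℕ, K₀ ≤ Z → ∀ γ : Fin n → Ωˣ, IndM (⊥ : Subgroup Ωˣ) γ →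
      degP (⊥ : IntermediateField ℚ Ω) γ ≤ Z ^ e → ∀ h : ℝ, (∀ i, absLogHeight₁ (γ i : Ω) ≤ h) →
      1 < (Z : ℝ) ^ C * ((degP (⊥ : IntermediateField ℚ Ω) γ : ℝ) * h ^ n) := by
  classical
  obtain ⟨c₁, hc₁⟩ : ∃ c₁ : ℕ, c₁ = 10 * n ^ 3 + 1 := ⟨_, rfl⟩
  refine ⟨max (10 * n ^ 3 + 10 * n) (n * (2 * c₁ + 2 * n + 3)), fun e => ?_⟩
  obtain ⟨K₁, hgp⟩ := gp n e hn (K := ℚ) (⊥ : IntermediateField ℚ Ω) (⊥ : Subgroup Ωˣ) hlow
  obtain ⟨T, N, K₂, hT, hK₂, hnum⟩ := num_key n e c₁ hn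
  obtain ⟨K₃, hcp⟩ := choose_primes e N
  refine ⟨max (max K₁ K₂) (max K₃ 1), fun Z hZ γ hγ hdeg h hh => ?_⟩
  have hZ1 : K₁ ≤ Z := (le_max_left _ _).trans ((le_max_left _ _).trans hZ)
  have hZ2 : K₂ ≤ Z := (le_max_right _ _).trans ((le_max_left _ _).trans hZ)
  have hZ3 : K₃ ≤ Z := (le_max_left _ _).trans ((le_max_right _ _).trans hZ)
  have hZ4 : 1 ≤ Z := (le_max_right _ _).trans ((le_max_right _ _).trans hZ)
  by_contra hcon
  rw [not_lt] at hcon
  obtain ⟨D, hD⟩ : ∃ D, D = degP (⊥ : IntermediateField ℚ Ω) γ := ⟨_, rfl⟩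
  have hh0 : 0 ≤ h := (Pool.Agent.H72.PB.ht_nonneg _).trans (hh ⟨0, hn⟩)
  have hZr : (1 : ℝ) ≤ (Z : ℝ) := by exact_mod_cast hZ4
  have hDh : 0 ≤ (degP (⊥ : IntermediateField ℚ Ω) γ : ℝ) * h ^ n := by positivity
  have hcA : (Z : ℝ) ^ (10 * n ^ 3 + 10 * n) *
      ((degP (⊥ : IntermediateField ℚ Ω) γ : ℝ) * h ^ n) ≤ 1 :=
    (mul_le_mul_of_nonneg_right (pow_le_pow_right₀ hZr (le_max_left _ _)) hDh).trans hcon
  have hcB : (Z : ℝ) ^ (n * (2 * c₁ + 2 * n + 3)) *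
      ((degP (⊥ : IntermediateField ℚ Ω) γ : ℝ) * h ^ n) ≤ 1 :=
    (mul_le_mul_of_nonneg_right (pow_le_pow_right₀ hZr (le_max_right _ _)) hDh).trans hcon
  -- the field
  obtain ⟨E, hE⟩ : ∃ E : IntermediateField ℚ Ω,
      E = IntermediateField.adjoin ℚ (Set.range fun i => (γ i : Ω)) := ⟨_, rfl⟩
  have hEf : FiniteDimensional ℚ E := by
    rw [hE]
    exact IntermediateField.finiteDimensional_adjoin fun x _ =>
      Algebra.IsIntegral.isIntegral (R := ℚ) x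
  haveI : NumberField E := ⟨⟩
  have hDE : D = Module.finrank ℚ E := by
    rw [hD, degP_bot, hE]
  have hD1 : 1 ≤ D := by
    rw [hDE]
    exact Module.finrank_pos
  let r : Fin n → E := fun i => ⟨(γ i : Ω), by
    rw [hE]
    exact IntermediateField.subset_adjoin _ _ ⟨i, rfl⟩⟩
  have hr : ∀ i, r i ≠ 0 := by
    intro i h0
    exact (γ i).ne_zero (congrArg Subtype.val h0)
  have hroot : ∀ i, ∀ m : ℕ, 1 ≤ m → r i ^ m ≠ 1 := by
    intro i m hm h1
    have h2 : (γ i : Ω) ^ m = 1 := congrArg Subtype.val h1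
    have h3 : γ i ^ m = 1 := by
      apply Units.ext
      rw [Units.val_pow_eq_pow_val, h2, Units.val_one]
    refine hγ (Pi.single i 1) ?_ m hm ?_
    · intro h4
      have h5 := congrFun h4 i
      rw [Pi.single_eq_same] at h5
      exact one_ne_zero h5
    · rw [Finset.prod_eq_single i]
      · rw [Pi.single_eq_same, zpow_one, h3]
        exact Subgroup.one_mem _
      · intro j _ hj
        rw [Pi.single_eq_of_ne hj, zpow_zero]
      · intro hi
        exact absurd (Finset.mem_univ i) hi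
  have hW : 1 ≤ Z ^ c₁ := Nat.one_le_pow _ _ hZ4
  obtain ⟨M₁, hM₁, hM₁'⟩ := m1_ex n hn D (Z ^ c₁) hW
  have hli := hgp Z hZ1 γ hγ hdeg h hh hcA M₁ (by rw [← hc₁, ← hD]; exact hM₁)
  have hliQ : LinearIndependent ℚ fun a : Fin n → Fin (M₁ + 1) =>
      mo (fun i => (γ i : Ω)) (fun i => (a i : ℕ)) := by
    refine LinearIndependent.restrict_scalars (K := (⊥ : IntermediateField ℚ Ω)) ?_ hli
    intro x y hxy
    have h1 : algebraMap ℚ (⊥ : IntermediateField ℚ Ω) x =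
        algebraMap ℚ (⊥ : IntermediateField ℚ Ω) y := by
      simpa [Algebra.smul_def] using hxy
    exact (algebraMap ℚ (⊥ : IntermediateField ℚ Ω)).injective h1
  have hliE : LinearIndependent ℚ fun a : Fin n → Fin (M₁ + 1) =>
      mo r (fun i => (a i : ℕ)) := by
    refine LinearIndependent.of_comp E.val.toLinearMap ?_
    have h1 : (E.val.toLinearMap ∘ fun a : Fin n → Fin (M₁ + 1) => mo r (fun i => (a i : ℕ))) =
        fun a : Fin n → Fin (M₁ + 1) => mo (fun i => (γ i : Ω)) (fun i => (a i : ℕ)) := by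
      funext a
      exact mo_map (E.val : E →+* Ω) r _
    rw [h1]
    exact hliQ
  -- the exceptional primes
  obtain ⟨Bx, hBx⟩ : ∃ Bx : Finset ℕ, Bx = (Finset.range (Z + 1)).filter (fun l => l.Prime ∧
      IntermediateField.adjoin (⊥ : IntermediateField ℚ Ω) (Set.range fun i => (γ i : Ω) ^ l) ≠
      IntermediateField.adjoin (⊥ : IntermediateField ℚ Ω) (Set.range fun i => (γ i : Ω))) :=
    ⟨_, rfl⟩
  have hBc : 2 ^ Bx.card ≤ Z ^ e := by
    refine (exc_deg (K := ℚ) (⊥ : IntermediateField ℚ Ω) γ Bx ?_ ?_).trans hdeg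
    · intro l hl
      rw [hBx, Finset.mem_filter] at hl
      exact hl.2.1
    · intro l hl
      rw [hBx, Finset.mem_filter] at hl
      exact hl.2.2
  obtain ⟨LL, hLLc, hLL⟩ := hcp Z hZ3 Bx hBc
  have hadj : ∀ q : ℕ, q = 1 ∨ q ∈ LL →
      IntermediateField.adjoin ℚ (Set.range fun i => r i ^ q) = ⊤ := by
    intro q hq
    apply top_of_map
    intro x hx
    rcases hq with rfl | hq
    · have h1 : (fun i => ((r i ^ 1 : E) : Ω)) = fun i => (γ i : Ω) := by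
        funext i
        rw [pow_one]
      rw [h1, ← hE]
      exact hx
    · obtain ⟨h1, h2, h3, h4⟩ := hLL q hq
      have h5 : IntermediateField.adjoin (⊥ : IntermediateField ℚ Ω)
          (Set.range fun i => (γ i : Ω) ^ q) =
          IntermediateField.adjoin (⊥ : IntermediateField ℚ Ω)
          (Set.range fun i => (γ i : Ω)) := by
        by_contra hne
        apply h2
        rw [hBx, Finset.mem_filter, Finset.mem_range]
        exact ⟨by omega, h1, hne⟩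
      rw [hE] at hx
      have h6 := (adj_bot (K := ℚ) (Set.range fun i => (γ i : Ω)) x).mpr hx
      rw [← h5] at h6
      exact (adj_bot (K := ℚ) _ x).mp h6
  have hq1 : ∀ q : ℕ, q = 1 ∨ q ∈ LL → 1 ≤ q ∧ q ≤ Z := by
    rintro q (rfl | hq)
    · exact ⟨le_rfl, hZ4⟩
    · obtain ⟨h1, h2, h3, h4⟩ := hLL q hq
      exact ⟨h1.one_lt.le, h4⟩
  have hsp : ∀ q : ℕ, q = 1 ∨ q ∈ LL → sp ℚ (fun i => r i ^ q)
      (fun _ => 2 * (Z ^ n * Z ^ c₁) ^ 2 * max 1 M₁) = ⊤ := by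
    intro q hq
    rw [reg_pow r inferInstance M₁ (Z ^ c₁) Z q (hq1 q hq).1 (hq1 q hq).2 hliE (by
      have h1 : IntermediateField.adjoin ℚ (Set.range r) = ⊤ := by
        have h2 := hadj 1 (Or.inl rfl)
        simpa using h2
      rw [h1, IntermediateField.finrank_top', ← hDE]
      exact hM₁'.le), hadj q hq]
    rfl
  have key := main_ineq E hn r hr hroot T hT LL (fun l hl => (hLL l hl).1)
    (2 * (Z ^ n * Z ^ c₁) ^ 2 * max 1 M₁) (by
      have h1 : 1 ≤ Z ^ n := Nat.one_le_pow _ _ hZ4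
      have h2 : 1 ≤ (Z ^ n * Z ^ c₁) ^ 2 := Nat.one_le_pow _ _ (Nat.mul_pos h1 hW)
      have h3 : 1 ≤ max 1 M₁ := le_max_left _ _
      calc 1 ≤ 2 * (Z ^ n * Z ^ c₁) ^ 2 := by omega
        _ ≤ _ := Nat.le_mul_of_pos_right _ h3) hsp _ rfl
  have hnk := hnum Z hZ2 D M₁ (Fintype.card (TT n T)) h LL hLLc
    (fun l hl => ⟨(hLL l hl).2.2.1, (hLL l hl).2.2.2⟩) hD1 (by rw [hD]; exact hdeg)
    ((Nat.le_mul_of_pos_right _ hW).trans hM₁) (card_TT_le n T) hh0 (by rw [hD]; exact hcB) _ rfl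
  rw [hLLc] at key hnk
  rw [← hDE] at key
  have hsum : ∑ i, absLogHeight₁ (r i) ≤ n * h := by
    have h1 : ∀ i, absLogHeight₁ (r i) ≤ h := fun i => by
      rw [ht_sub]
      exact hh i
    refine (Finset.sum_le_sum fun i _ => h1 i).trans ?_
    rw [Finset.sum_const, Finset.card_univ, Fintype.card_fin, nsmul_eq_mul]
  refine absurd (lt_of_le_of_lt key (lt_of_le_of_lt ?_ hnk)) (lt_irrefl _)
  refine add_le_add_right ?_ _
  exact mul_le_mul_of_nonneg_left hsum (Nat.cast_nonneg _)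

end Pool.Agent.H33.PT
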