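import Pool.Agent.H33.PT.Grp

/-!
# D-type latin squares of order `2 ^ k`, `k ≥ 6`, whose square is latin (MP_2f0703_co; idea of helper90 and helper41)
-/

set_option autoImplicit false

namespace Pool.Agent.H33.PT

open Finset

theorem of_map {F : Type} [Field F] [Fintype F] (two : (2 : F) = 0) {n : ℕ} (hcard : Fintype.card F = n) (f : F → F)
    (hf : Function.Injective f) (h1 : Function.Injective (fun x => f x + x))
    (h2 : Function.Injective (fun x => f (f x) + x)) (c0 : F) (hfix : ∀ x, f x = x ↔ x = c0)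
    (hcyc : ∀ x y, x ≠ c0 → y ≠ c0 → ∃ k : ℕ, f^[k] x = y)
    (hng : ∀ (G : Type) [Group G] (r c s : F ≃ G), (∀ i j, s (i + f (j - i)) = r i * c j) → False) :
    ∃ L : Fin n → Equiv.Perm (Fin n),
      (∀ j : Fin n, Function.Injective (fun i => L i j)) ∧
      (∀ i : Fin n, (∃! x, L i x = x) ∧ ∀ x y, L i x ≠ x → L i y ≠ y → ∃ k : ℕ, ((L i) ^ k) x = y) ∧
      (¬ ∃ (G : Type) (_ : Group G) (r c s : Fin n ≃ G), ∀ i j, s (L i j) = r i * c j) ∧
      ∀ j : Fin n, Function.Injective (fun i => (L i * L i) j) := by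
  classical
  let ε : F ≃ Fin n := Fintype.equivFinOfCardEq hcard
  let P : Equiv.Perm F := Equiv.ofBijective f (Finite.injective_iff_bijective.1 hf)
  have hP : ∀ x, P x = f x := fun x => rfl
  have hPk : ∀ (k : ℕ) (x : F), (P ^ k) x = f^[k] x := by
    intro k
    induction k with
    | zero => intro x; rfl
    | succ k ih =>
      intro x
      rw [pow_succ, Equiv.Perm.mul_apply, ih, Function.iterate_succ_apply, hP]
  let row : F → Equiv.Perm F := fun i => (Equiv.subRight i).trans (P.trans (Equiv.addLeft i))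
  let L : Fin n → Equiv.Perm (Fin n) := fun i => (ε.symm.trans (row (ε.symm i))).trans ε
  have hL : ∀ i x, L i x = ε (ε.symm i + f (ε.symm x - ε.symm i)) := fun i x => rfl
  have hpow : ∀ (i : Fin n) (l : ℕ) (x : Fin n), ((L i) ^ l) x = ε (ε.symm i + (P ^ l) (ε.symm x - ε.symm i)) := by
    intro i l
    induction l with
    | zero => intro x; simp
    | succ n ih =>
      intro x
      rw [pow_succ, Equiv.Perm.mul_apply, ih, hL, Equiv.symm_apply_apply, pow_succ, Equiv.Perm.mul_apply, hP,
        add_sub_cancel_left]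
  refine ⟨L, ?_, ?_, ?_, ?_⟩
  · intro j i i' hij
    have k1 : L i j = L i' j := hij
    rw [hL, hL] at k1
    have k3 := ε.injective k1
    have k4 : f (ε.symm j - ε.symm i) + (ε.symm j - ε.symm i) =
        f (ε.symm j - ε.symm i') + (ε.symm j - ε.symm i') := by
      linear_combination k3 - (ε.symm i - ε.symm i') * two
    have k5 := h1 k4
    exact ε.symm.injective (sub_right_injective k5)
  · intro i
    have fix : ∀ x, L i x = x ↔ ε.symm x - ε.symm i = c0 := by
      intro x
      rw [hL, ← hfix]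
      constructor
      · intro hx
        have k1 : ε.symm i + f (ε.symm x - ε.symm i) = ε.symm x := by
          apply ε.injective; rw [hx, Equiv.apply_symm_apply]
        linear_combination k1
      · intro hx
        rw [hx, add_sub_cancel, Equiv.apply_symm_apply]
    refine ⟨⟨ε (ε.symm i + c0), ?_, ?_⟩, ?_⟩
    · show L i (ε (ε.symm i + c0)) = ε (ε.symm i + c0)
      rw [fix, Equiv.symm_apply_apply, add_sub_cancel_left]
    · intro x hx
      have k1 := (fix x).1 hx
      rw [← k1, add_sub_cancel, Equiv.apply_symm_apply]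
    intro x y hx hy
    have hx' : ε.symm x - ε.symm i ≠ c0 := fun h0 => hx ((fix x).2 h0)
    have hy' : ε.symm y - ε.symm i ≠ c0 := fun h0 => hy ((fix y).2 h0)
    obtain ⟨k, hk⟩ := hcyc _ _ hx' hy'
    refine ⟨k, ?_⟩
    rw [hpow, hPk, hk, add_sub_cancel, Equiv.apply_symm_apply]
  · rintro ⟨G, hG, r, c', s, H⟩
    refine hng G (ε.trans r) (ε.trans c') (ε.trans s) fun i j => ?_
    have k1 := H (ε i) (ε j)
    rw [hL, Equiv.symm_apply_apply, Equiv.symm_apply_apply] at k1
    exact k1
  · intro j i i' hij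
    have k1 : ((L i) ^ 2) j = ((L i') ^ 2) j := by
      rw [pow_two, pow_two]; exact hij
    rw [hpow, hpow] at k1
    have k3 := ε.injective k1
    rw [hPk, hPk] at k3
    have k4 : f (f (ε.symm j - ε.symm i)) + (ε.symm j - ε.symm i) =
        f (f (ε.symm j - ε.symm i')) + (ε.symm j - ε.symm i') := by
      have k6 : ∀ x, f^[2] x = f (f x) := fun x => rfl
      rw [k6, k6] at k3
      linear_combination k3 - (ε.symm i - ε.symm i') * two
    have k5 := h2 k4
    exact ε.symm.injective (sub_right_injective k5)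

/-- the exceptional set -/
def ex {F : Type} [Field F] [DecidableEq F] (a : F) : Finset F :=
  ((univ : Finset (Bool × Bool × Bool × Bool)).filter (fun p => p.1 = false ∨ p.2.2.2 = false)).image
    (fun p => (if p.1 then 1 else 0) + (if p.2.1 then 1 else 0) * a + (if p.2.2.1 then 1 else 0) * a ^ 2 +
      (if p.2.2.2 then 1 else 0) * a ^ 3)

theorem ex_card {F : Type} [Field F] [DecidableEq F] (a : F) : (ex a).card ≤ 12 := by
  refine card_image_le.trans ?_
  decide

private theorem bit_of {F : Type} [Field F] {α : F} (h : α = 0 ∨ α = 1) : ∃ b : Bool, (if b then (1 : F) else 0) = α := by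
  rcases h with rfl | rfl
  · exact ⟨false, rfl⟩
  · exact ⟨true, rfl⟩

theorem ex_of_vs {F : Type} [Field F] [DecidableEq F] {a x : F} (h : x ∈ vs a) : x ∈ ex a := by
  rw [mem_vs] at h
  obtain ⟨α, β, γ, h1, h2, h3, rfl⟩ := h
  obtain ⟨b1, rfl⟩ := bit_of h1
  obtain ⟨b2, rfl⟩ := bit_of h2
  obtain ⟨b3, rfl⟩ := bit_of h3
  unfold ex
  rw [mem_image]
  refine ⟨(false, b1, b2, b3), mem_filter.2 ⟨mem_univ _, Or.inl rfl⟩, ?_⟩
  simp

theorem ex_of_mul {F : Type} [Field F] [DecidableEq F] {a x : F} (ha : a ≠ 0) (h : a * x ∈ vs a) : x ∈ ex a := by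
  rw [mem_vs] at h
  obtain ⟨α, β, γ, h1, h2, h3, h4⟩ := h
  obtain ⟨b1, rfl⟩ := bit_of h1
  obtain ⟨b2, rfl⟩ := bit_of h2
  obtain ⟨b3, rfl⟩ := bit_of h3
  unfold ex
  rw [mem_image]
  refine ⟨(b1, b2, b3, false), mem_filter.2 ⟨mem_univ _, Or.inr rfl⟩, ?_⟩
  apply mul_left_cancel₀ ha
  rw [← h4]
  simp only [Bool.false_eq_true, if_false, zero_mul, add_zero]
  ring

theorem fm_off {F : Type} [Field F] [DecidableEq F] {a x : F} (ha : a ≠ 0) (h : x ∉ ex a) : fm a x = a * x := by
  have h1 : ind a x = 0 := if_neg fun h' => h (ex_of_vs h')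
  have h2 : ind a (a * x) = 0 := if_neg fun h' => h (ex_of_mul ha h')
  unfold fm th
  rw [h1, mul_zero, add_zero, h2, mul_zero, add_zero]

theorem main {k : ℕ} (hk : 6 ≤ k) : ∃ L : Fin (2 ^ k) → Equiv.Perm (Fin (2 ^ k)),
      (∀ j : Fin (2 ^ k), Function.Injective (fun i => L i j)) ∧
      (∀ i : Fin (2 ^ k), (∃! x, L i x = x) ∧ ∀ x y, L i x ≠ x → L i y ≠ y → ∃ k : ℕ, ((L i) ^ k) x = y) ∧
      (¬ ∃ (G : Type) (_ : Group G) (r c s : Fin (2 ^ k) ≃ G), ∀ i j, s (L i j) = r i * c j) ∧
      ∀ j : Fin (2 ^ k), Function.Injective (fun i => (L i * L i) j) := by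
  classical
  have : Fact (Nat.Prime 2) := ⟨Nat.prime_two⟩
  have hum : k ≠ 0 := by omega
  let F := GaloisField 2 k
  let _ : Fintype F := Fintype.ofFinite F
  have hcard : Fintype.card F = 2 ^ k := by
    rw [← Nat.card_eq_fintype_card]
    exact GaloisField.card 2 k hum
  have two : (2 : F) = 0 := by
    have := CharP.cast_eq_zero F 2
    exact_mod_cast this
  have hq : 64 ≤ Fintype.card F := by
    rw [hcard]
    calc 64 = 2 ^ 6 := by norm_num
      _ ≤ 2 ^ k := Nat.pow_le_pow_right (by norm_num) hk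
  obtain ⟨g, hg⟩ := IsCyclic.exists_generator (α := Fˣ)
  obtain ⟨a, ha⟩ : ∃ a : F, a = (g : F) := ⟨_, rfl⟩
  have ha0 : a ≠ 0 := by rw [ha]; exact g.ne_zero
  have hgen : ∀ z w : F, z ≠ 0 → w ≠ 0 → ∃ n : ℕ, a ^ n * z = w := by
    intro z w hz hw
    have h1 := hg (Units.mk0 w hw * (Units.mk0 z hz)⁻¹)
    rw [← mem_powers_iff_mem_zpowers] at h1
    obtain ⟨n, hn⟩ := h1
    refine ⟨n, ?_⟩
    have h2 := congrArg (fun u : Fˣ => (u : F)) hn
    simp only [Units.val_pow_eq_pow_val, Units.val_mul, Units.val_mk0, Units.val_inv_eq_inv_val] at h2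
    rw [ha, h2]
    exact inv_mul_cancel_right₀ hz w
  have ha1 : a + 1 ≠ 0 := by
    intro h
    have h1 : a = 1 := by linear_combination h - two
    have h2 : (univ : Finset F) ⊆ {0, 1} := by
      intro x _
      rw [mem_insert, mem_singleton]
      by_cases hx : x = 0
      · exact Or.inl hx
      · obtain ⟨n, hn⟩ := hgen 1 x one_ne_zero hx
        rw [h1, one_pow, one_mul] at hn
        exact Or.inr hn.symm
    have h3 := card_le_card h2
    rw [card_univ] at h3
    have h4 : ({0, 1} : Finset F).card ≤ 2 := card_le_two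
    omega
  refine of_map two hcard (fm a) (fm_inj two ha0) (fm_add_inj two ha1) (fm2_add_inj two ha1) (th a 0)
    (fm_fix two ha1) ?_ ?_
  · intro x y hx hy
    have hx' : th a x ≠ 0 := fun h => hx (by rw [← h, th_th two])
    have hy' : th a y ≠ 0 := fun h => hy (by rw [← h, th_th two])
    obtain ⟨n, hn⟩ := hgen _ _ hx' hy'
    refine ⟨n, ?_⟩
    have h1 := fm_iter two a (th a x) n
    rw [th_th two, hn, th_th two] at h1
    exact h1
  · intro G _ r c s H
    refine not_group two (a := a) (fm a) (ex a) (fun x hx => fm_off ha0 hx) ?_ ?_ G r c s H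
    · intro h
      have h1 := congrArg (th a) h
      unfold fm at h1
      rw [th_th two] at h1
      have h2 : th a 0 = a ^ 3 + a := by
        unfold th ind
        rw [if_pos (vs_0 a), mul_one, zero_add]
      rw [h2] at h1
      have h3 : (a + 1) * ((a + 1) * (a + 1) * a) = 0 := by
        linear_combination h1 + (a ^ 3 + a ^ 3 + a ^ 2 + a) * two
      have h4 := mul_ne_zero ha1 (mul_ne_zero (mul_ne_zero ha1 ha1) ha0)
      exact h4 h3
    · have := ex_card a
      omega

end Pool.Agent.H33.PT
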