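import Mathlib

/-!
# The patched multiplication `x ↦ θ (a θ x)` on a field of characteristic two (MP_2f0703_co; idea of helper90 and helper41)
-/

set_option autoImplicit false

namespace Pool.Agent.H33.PT

open Finset

section
variable {F : Type} [Field F] [DecidableEq F]

/-- the span of `a`, `a ^ 2`, `a ^ 3` -/
def vs (a : F) : Finset F :=
  (({0, 1} : Finset F) ×ˢ (({0, 1} : Finset F) ×ˢ ({0, 1} : Finset F))).image
    (fun p => p.1 * a + p.2.1 * a ^ 2 + p.2.2 * a ^ 3)

theorem vs_card (a : F) : (vs a).card ≤ 8 := by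
  refine card_image_le.trans ?_
  rw [card_product, card_product]
  have h : ({0, 1} : Finset F).card ≤ 2 := card_le_two
  calc ({0, 1} : Finset F).card * (({0, 1} : Finset F).card * ({0, 1} : Finset F).card) ≤ 2 * (2 * 2) := by gcongr
    _ = 8 := by norm_num

theorem mem_vs {a x : F} : x ∈ vs a ↔ ∃ α β γ : F, (α = 0 ∨ α = 1) ∧ (β = 0 ∨ β = 1) ∧ (γ = 0 ∨ γ = 1) ∧
    α * a + β * a ^ 2 + γ * a ^ 3 = x := by
  unfold vs
  rw [mem_image]
  constructor
  · rintro ⟨⟨α, β, γ⟩, h, rfl⟩
    rw [mem_product, mem_product] at h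
    simp only [mem_insert, mem_singleton] at h
    exact ⟨α, β, γ, h.1, h.2.1, h.2.2, rfl⟩
  · rintro ⟨α, β, γ, h1, h2, h3, rfl⟩
    refine ⟨(α, β, γ), ?_, rfl⟩
    rw [mem_product, mem_product]
    simp only [mem_insert, mem_singleton]
    exact ⟨h1, h2, h3⟩

omit [DecidableEq F] in
theorem bit_add (two : (2 : F) = 0) {α β : F} (h1 : α = 0 ∨ α = 1) (h2 : β = 0 ∨ β = 1) : α + β = 0 ∨ α + β = 1 := by
  rcases h1 with rfl | rfl <;> rcases h2 with rfl | rfl
  · left; ring
  · right; ring
  · right; ring
  · left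
    rw [one_add_one_eq_two, two]

theorem vs_add (two : (2 : F) = 0) {a x y : F} (hx : x ∈ vs a) (hy : y ∈ vs a) : x + y ∈ vs a := by
  rw [mem_vs] at hx hy ⊢
  obtain ⟨α, β, γ, h1, h2, h3, rfl⟩ := hx
  obtain ⟨α', β', γ', h1', h2', h3', rfl⟩ := hy
  exact ⟨α + α', β + β', γ + γ', bit_add two h1 h1', bit_add two h2 h2', bit_add two h3 h3', by ring⟩

theorem vs_add_iff (two : (2 : F) = 0) {a x y : F} (hy : y ∈ vs a) : x + y ∈ vs a ↔ x ∈ vs a := by
  constructor
  · intro h
    have h1 := vs_add two h hy
    have h2 : x + y + y = x := by linear_combination y * two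
    rwa [h2] at h1
  · intro h
    exact vs_add two h hy

theorem vs_0 (a : F) : (0 : F) ∈ vs a := mem_vs.2 ⟨0, 0, 0, Or.inl rfl, Or.inl rfl, Or.inl rfl, by ring⟩
theorem vs_1 (a : F) : a ∈ vs a := mem_vs.2 ⟨1, 0, 0, Or.inr rfl, Or.inl rfl, Or.inl rfl, by ring⟩
theorem vs_2 (a : F) : a ^ 2 ∈ vs a := mem_vs.2 ⟨0, 1, 0, Or.inl rfl, Or.inr rfl, Or.inl rfl, by ring⟩
theorem vs_3 (a : F) : a ^ 3 ∈ vs a := mem_vs.2 ⟨0, 0, 1, Or.inl rfl, Or.inl rfl, Or.inr rfl, by ring⟩

/-- the indicator of `vs a` -/
def ind (a x : F) : F := if x ∈ vs a then 1 else 0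

theorem ind_bit (a x : F) : ind a x = 0 ∨ ind a x = 1 := by
  unfold ind
  split_ifs
  · exact Or.inr rfl
  · exact Or.inl rfl

theorem ind_add (two : (2 : F) = 0) {a x y : F} (hy : y ∈ vs a) : ind a (x + y) = ind a x := by
  unfold ind
  simp only [vs_add_iff two hy]

/-- the involution -/
def th (a x : F) : F := x + (a ^ 3 + a) * ind a x

theorem th_th (two : (2 : F) = 0) (a x : F) : th a (th a x) = x := by
  have hc : (a ^ 3 + a) * ind a x ∈ vs a := by
    rcases ind_bit a x with h | h
    · rw [h, mul_zero]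
      exact vs_0 a
    · rw [h, mul_one]
      exact vs_add two (vs_3 a) (vs_1 a)
  have h1 : ind a (th a x) = ind a x := by
    unfold th
    exact ind_add two hc
  have h2 : th a (th a x) = th a x + (a ^ 3 + a) * ind a (th a x) := rfl
  rw [h2, h1]
  unfold th
  linear_combination (a ^ 3 + a) * ind a x * two

/-- the patched multiplication by `a` -/
def fm (a x : F) : F := th a (a * th a x)

theorem fm_th (two : (2 : F) = 0) (a z : F) : fm a (th a z) = th a (a * z) := by
  unfold fm
  rw [th_th two]

theorem fm_iter (two : (2 : F) = 0) (a z : F) (n : ℕ) : (fm a)^[n] (th a z) = th a (a ^ n * z) := by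
  induction n with
  | zero => rw [Function.iterate_zero, id_eq, pow_zero, one_mul]
  | succ n ih =>
    rw [Function.iterate_succ_apply', ih, fm_th two]
    congr 1
    ring

omit [DecidableEq F] in
theorem key_inj (two : (2 : F) = 0) {b v z w : F} (hb : b ≠ 0) (U : F → F) (hU : ∀ x, U x = 0 ∨ U x = 1)
    (hv : ∀ x, U (x + v) = U x) (h : b * z + b * v * U z = b * w + b * v * U w) : z = w := by
  have h1 : z + v * U z = w + v * U w := by
    apply mul_left_cancel₀ hb
    linear_combination h
  have h2 : z = w + v * (U z + U w) := by linear_combination h1 - v * U z * two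
  rcases bit_add two (hU z) (hU w) with h3 | h3
  · rw [h2, h3, mul_zero, add_zero]
  · rw [h3, mul_one] at h2
    have h4 := hv w
    rw [← h2] at h4
    rw [h4] at h3
    exfalso
    have h5 : (1 : F) = 0 := by linear_combination -h3 + U w * two
    exact one_ne_zero h5

theorem fm_inj (two : (2 : F) = 0) {a : F} (ha : a ≠ 0) : Function.Injective (fm a) := by
  intro x y h
  have h1 := congrArg (th a) h
  unfold fm at h1
  rw [th_th two, th_th two] at h1
  have h2 := congrArg (th a) (mul_left_cancel₀ ha h1)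
  rwa [th_th two, th_th two] at h2

theorem fm_add_inj (two : (2 : F) = 0) {a : F} (h1 : a + 1 ≠ 0) : Function.Injective (fun x => fm a x + x) := by
  intro x y h
  simp only at h
  rw [← th_th two a x, ← th_th two a y, fm_th two, fm_th two] at h
  have h2 : th a x = th a y := by
    apply key_inj two h1 (v := a ^ 2 + a) (fun z => ind a (a * z) + ind a z)
    · intro z
      exact bit_add two (ind_bit a _) (ind_bit a _)
    · intro z
      rw [ind_add two (vs_add two (vs_2 a) (vs_1 a)), mul_add, ind_add two]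
      have : a * (a ^ 2 + a) = a ^ 3 + a ^ 2 := by ring
      rw [this]
      exact vs_add two (vs_3 a) (vs_2 a)
    · unfold th at h ⊢
      have e : (a + 1) * (a ^ 2 + a) = a ^ 3 + a := by linear_combination a ^ 2 * two
      rw [e]
      linear_combination h
  have h3 := congrArg (th a) h2
  rwa [th_th two, th_th two] at h3

theorem fm2_add_inj (two : (2 : F) = 0) {a : F} (h1 : a + 1 ≠ 0) : Function.Injective (fun x => fm a (fm a x) + x) := by
  intro x y h
  simp only at h
  rw [← th_th two a x, ← th_th two a y, fm_th two, fm_th two, fm_th two, fm_th two] at h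
  have h2 : th a x = th a y := by
    apply key_inj two (mul_ne_zero h1 h1) (v := a) (fun z => ind a (a * (a * z)) + ind a z)
    · intro z
      exact bit_add two (ind_bit a _) (ind_bit a _)
    · intro z
      rw [ind_add two (vs_1 a), mul_add, mul_add, ind_add two]
      have : a * (a * a) = a ^ 3 := by ring
      rw [this]
      exact vs_3 a
    · unfold th at h ⊢
      have e : (a + 1) * (a + 1) * a = a ^ 3 + a := by linear_combination a ^ 2 * two
      rw [e]
      linear_combination h + (a * (x + (a ^ 3 + a) * ind a x) - a * (y + (a ^ 3 + a) * ind a y)) * two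
  have h3 := congrArg (th a) h2
  rwa [th_th two, th_th two] at h3

theorem fm_fix (two : (2 : F) = 0) {a : F} (h1 : a + 1 ≠ 0) (x : F) : fm a x = x ↔ x = th a 0 := by
  constructor
  · intro h
    have h2 := congrArg (th a) h
    unfold fm at h2
    rw [th_th two] at h2
    have h3 : (a + 1) * th a x = 0 := by linear_combination h2 + th a x * two
    rcases mul_eq_zero.1 h3 with h4 | h4
    · exact absurd h4 h1
    · rw [← h4, th_th two]
  · rintro rfl
    rw [fm_th two, mul_zero]

end

end Pool.Agent.H33.PT
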