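import Pool.Agent.H11.TS.Asm
import Pool.Agent.H33.PS.FinP

/-!
# POINTS THEOREM, Red: reduction to multiplicatively independent saturated elements `b` of a number field

`hNS` is the points theorem over the fields `NS Ω b S` (all number fields `K₁`, saturated `b`). PROOF: as `poly_O`, `poly_S`, `poly_lehmer` in `Pool/Agent/H33/PS/FinP.lean` (copy the private lemmas `fo_prod`, `fo_dec`, `fo_sg`, `fo_div`, `srad_sg`). `K₀` the field generated over `K` by `Λ`, a number field, `Λ₀ ≤ K₀ˣ` with image `Λ`,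
`Λ'` its saturation in `K₀ˣ` (`sat_fg`), `b` a basis of `Λ'` modulo torsion (`sat_basis`); `ind_all` is the saturation hypothesis. `N₀ K Λ S ≤ adjoin K (SG T S)`, contained in `NS Ω b S` (as sets). So `degP (NS Ω b S) γ ≤ degP (N₀ K Λ S) γ`: `degP_mono` (H11/TS/Asm) for `(NS Ω b S).restrictScalars K`, and `degP` of the restriction of scalars is
the same number (the same field; `rfl`, or an isomorphism of the `adjoin`s). `h ≥ 0` (heights; `k ≥ 1`), `Real.rpow_le_rpow`. `IndM Λ γ` gives: no nontrivial product `∏ γ_i^(a_i)` is in `DivG Ω b` (`fo_div`, `DG T`: `x ∈ DG T` iff a power of `x` is in `Λ`).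
-/

set_option autoImplicit false
set_option linter.unusedSectionVars false

open NumberField IntermediateField

namespace Pool.Agent.H33.PT

open Pool.Agent.H72.RM Pool.Agent.H92.SR Pool.Agent.H11.TH Pool.Agent.H11.TS

section

variable {K Ω : Type} [Field K] [NumberField K] [Field Ω] [CharZero Ω] [IsAlgClosed Ω]
  [Algebra K Ω] [IsGalois K Ω]

private theorem fo_prod {r : ℕ} (b : Fin r → Kˣ) (m : Fin r → ℤ) :
    algebraMap K Ω (((∏ i, b i ^ (m i) : Kˣ)) : K) =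
      ∏ i, (algebraMap K Ω ((b i : Kˣ) : K)) ^ (m i) := by
  rw [Units.coe_prod, map_prod]
  refine Finset.prod_congr rfl fun i _ => ?_
  rw [Units.val_zpow_eq_zpow_val, map_zpow₀]

private theorem fo_dec {r : ℕ} (Λ Λ' : Subgroup Kˣ)
    (hΛ' : ∀ x : Kˣ, x ∈ Λ' ↔ ∃ N : ℕ, 1 ≤ N ∧ x ^ N ∈ Λ) (b : Fin r → Kˣ)
    (hgen : ∀ x ∈ Λ', ∃ m : Fin r → ℤ, IsOfFinOrder (x * (∏ i, b i ^ (m i))⁻¹))
    {u : Kˣ} (hu : u ∈ Λ) :
    ∃ (m : Fin r → ℤ) (w : Ω) (k : ℕ), 1 ≤ k ∧ w ^ k = 1 ∧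
      algebraMap K Ω ((u : Kˣ) : K) = w * ∏ i, (algebraMap K Ω ((b i : Kˣ) : K)) ^ (m i) := by
  have hu' : u ∈ Λ' := (hΛ' u).2 ⟨1, le_rfl, by rwa [pow_one]⟩
  obtain ⟨m, hm⟩ := hgen u hu'
  obtain ⟨k, hk, hk1⟩ := isOfFinOrder_iff_pow_eq_one.1 hm
  obtain ⟨v, hv⟩ : ∃ v, v = u * (∏ i, b i ^ (m i))⁻¹ := ⟨_, rfl⟩
  rw [← hv] at hk1
  have huv : u = v * ∏ i, b i ^ (m i) := by
    rw [hv, inv_mul_cancel_right]
  refine ⟨m, algebraMap K Ω ((v : Kˣ) : K), k, hk, ?_, ?_⟩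
  · rw [← map_pow, ← Units.val_pow_eq_pow_val, hk1, Units.val_one, map_one]
  · rw [← fo_prod, ← map_mul, ← Units.val_mul, ← huv]

private theorem fo_sg {r : ℕ} (Λ Λ' : Subgroup Kˣ)
    (hΛ' : ∀ x : Kˣ, x ∈ Λ' ↔ ∃ N : ℕ, 1 ≤ N ∧ x ^ N ∈ Λ) (b : Fin r → Kˣ)
    (hgen : ∀ x ∈ Λ', ∃ m : Fin r → ℤ, IsOfFinOrder (x * (∏ i, b i ^ (m i))⁻¹))
    (S : Finset ℕ) (T : Set Ω)
    (hT : T = {x : Ω | ∃ u ∈ Λ, x = algebraMap K Ω ((u : Kˣ) : K)}) :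
    SG T S ⊆ GammaS Ω (fun i => ((b i : Kˣ) : K)) (S : Set ℕ) := by
  rintro x ⟨N, hN, hNS, t, ⟨n, hn, htn⟩, hx⟩
  rw [hT] at hx
  obtain ⟨u, hu, hxu⟩ := hx
  obtain ⟨m, w, k, hk, hw, huw⟩ := fo_dec (Ω := Ω) Λ Λ' hΛ' b hgen hu
  have hw0 : w ≠ 0 := by
    rintro rfl
    rw [zero_pow (by omega)] at hw
    exact zero_ne_one hw
  refine ⟨N, hN, hNS, t * w⁻¹, ⟨n * k, Nat.mul_pos hn hk, ?_⟩, m, ?_⟩
  · rw [mul_pow, pow_mul, htn, one_pow, one_mul, inv_pow, mul_comm n k, pow_mul, hw, one_pow,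
      inv_one]
  · rw [← mul_assoc, hxu, huw, mul_comm w, mul_inv_cancel_right₀ hw0]

private theorem fo_div {r : ℕ} (Λ Λ' : Subgroup Kˣ)
    (hΛ' : ∀ x : Kˣ, x ∈ Λ' ↔ ∃ N : ℕ, 1 ≤ N ∧ x ^ N ∈ Λ) (b : Fin r → Kˣ)
    (hb : ∀ i, b i ∈ Λ')
    (T : Set Ω) (hT : T = {x : Ω | ∃ u ∈ Λ, x = algebraMap K Ω ((u : Kˣ) : K)}) :
    DivG Ω (fun i => ((b i : Kˣ) : K)) ⊆ DG T := by
  rintro x ⟨N, hN, m, hx⟩
  have h1 : ∏ i, b i ^ (m i) ∈ Λ' := Subgroup.prod_mem _ fun i _ => Subgroup.zpow_mem _ (hb i) _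
  obtain ⟨M, hM, hM1⟩ := (hΛ' _).1 h1
  refine ⟨N * M, Nat.mul_pos hN hM, ?_⟩
  rw [hT]
  refine ⟨_, hM1, ?_⟩
  rw [pow_mul, hx, Units.val_pow_eq_pow_val, map_pow, fo_prod]

private theorem srad_sg (Λ : Subgroup Ωˣ) (S : Finset ℕ) (x : Ωˣ) (hx : x ∈ SRad Λ S) :
    (x : Ω) ∈ SG {y : Ω | ∃ u ∈ Λ, y = ((u : Ωˣ) : Ω)} S := by
  obtain ⟨N, hN, hNS, t, ⟨k, hk, hkt⟩, h⟩ := hx
  refine ⟨N, hN, hNS, (t : Ω), ⟨k, hk, ?_⟩, ⟨_, h, ?_⟩⟩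
  · rw [← Units.val_pow_eq_pow_val, hkt, Units.val_one]
  · rw [Units.val_mul, Units.val_pow_eq_pow_val]

end

theorem red {K Ω : Type} [Field K] [NumberField K] [Field Ω] [CharZero Ω] [IsAlgClosed Ω]
    [Algebra K Ω] [IsGalois K Ω] (Λ : Subgroup Ωˣ) (hΛ : Λ.FG) (S : Finset ℕ)
    (hS : ∀ p ∈ S, p.Prime) (k : ℕ) (hk : 1 ≤ k) (δ : ℝ) (hδ : 0 < δ)
    (hNS : ∀ (K₁ : Type) [Field K₁] [NumberField K₁] [Algebra K₁ Ω] [IsGalois K₁ Ω] (r : ℕ)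
      (b : Fin r → K₁), (∀ i, b i ≠ 0) →
      (∀ N : ℕ, 1 ≤ N → ∀ (m : Fin r → ℤ) (y : K₁), y ^ N = ∏ i, (b i) ^ (m i) →
        ∀ i, (N : ℤ) ∣ m i) →
      ∃ c : ℝ, 0 < c ∧ ∀ γ : Fin k → Ωˣ,
        (∀ a : Fin k → ℤ, a ≠ 0 → ((∏ i, γ i ^ a i : Ωˣ) : Ω) ∉ DivG Ω b) → ∀ h : ℝ,
        (∀ i, absLogHeight₁ (γ i : Ω) ≤ h) →
        c ≤ (degP (NS Ω b S) γ : ℝ) ^ (1 / (k : ℝ) + δ) * h) :
    ∃ c : ℝ, 0 < c ∧ ∀ γ : Fin k → Ωˣ, IndM Λ γ → ∀ h : ℝ,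
      (∀ i, absLogHeight₁ (γ i : Ω) ≤ h) →
      c ≤ (degP (N₀ K Λ S) γ : ℝ) ^ (1 / (k : ℝ) + δ) * h := by
  classical
  obtain ⟨T, hT⟩ : ∃ T : Set Ω, T = {x : Ω | ∃ u ∈ Λ, x = ((u : Ωˣ) : Ω)} := ⟨_, rfl⟩
  obtain ⟨T₁, hT₁⟩ := hΛ
  -- the field generated by `Λ`
  let K₀ : IntermediateField K Ω :=
    IntermediateField.adjoin K ((fun x : Ωˣ => (x : Ω)) '' (T₁ : Set Ωˣ))
  have hfin : FiniteDimensional K K₀ := by
    have : Finite ((fun x : Ωˣ => (x : Ω)) '' (T₁ : Set Ωˣ)) := by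
      have h1 : ((fun x : Ωˣ => (x : Ω)) '' (T₁ : Set Ωˣ)).Finite :=
        (Finset.finite_toSet T₁).image _
      exact h1.to_subtype
    exact IntermediateField.finiteDimensional_adjoin fun x _ => Algebra.IsIntegral.isIntegral x
  have hfinQ : FiniteDimensional ℚ K₀ := Module.Finite.trans K K₀
  have hNF : NumberField K₀ := { to_charZero := inferInstance, to_finiteDimensional := hfinQ }
  have hmem : ∀ x ∈ T₁, (x : Ω) ∈ K₀ := fun x hx =>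
    IntermediateField.subset_adjoin K _ ⟨x, hx, rfl⟩
  let f : K₀ˣ →* Ωˣ := Units.map (algebraMap K₀ Ω).toMonoidHom
  let lft : {y : Ωˣ // y ∈ T₁} → K₀ˣ := fun x =>
    Units.mk0 (⟨(x.1 : Ω), hmem x.1 x.2⟩ : K₀) (by
      intro h
      exact x.1.ne_zero (congrArg (fun z : K₀ => (z : Ω)) h))
  have hlft : ∀ x, f (lft x) = x.1 := by
    intro x
    apply Units.ext
    rfl
  let T₀ : Finset K₀ˣ := T₁.attach.image lft
  let Λ₀ : Subgroup K₀ˣ := Subgroup.closure (T₀ : Set K₀ˣ)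
  have hΛ₀ : Λ₀.FG := ⟨T₀, rfl⟩
  have himg : f '' (T₀ : Set K₀ˣ) = (T₁ : Set Ωˣ) := by
    ext y
    constructor
    · rintro ⟨x, hx, rfl⟩
      obtain ⟨z, -, rfl⟩ := Finset.mem_image.1 (Finset.mem_coe.1 hx)
      rw [hlft]
      exact z.2
    · intro hy
      refine ⟨lft ⟨y, hy⟩, ?_, hlft _⟩
      exact Finset.mem_coe.2 (Finset.mem_image.2 ⟨⟨y, hy⟩, Finset.mem_attach _ _, rfl⟩)
  have hmap : Λ₀.map f = Λ := by
    rw [MonoidHom.map_closure, himg, hT₁]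
  have hT' : T = {x : Ω | ∃ u ∈ Λ₀, x = algebraMap K₀ Ω ((u : K₀ˣ) : K₀)} := by
    rw [hT]
    ext x
    constructor
    · rintro ⟨u, hu, rfl⟩
      rw [← hmap] at hu
      obtain ⟨v, hv, rfl⟩ := hu
      exact ⟨v, hv, rfl⟩
    · rintro ⟨v, hv, rfl⟩
      refine ⟨f v, ?_, rfl⟩
      rw [← hmap]
      exact ⟨v, hv, rfl⟩
  obtain ⟨Λ', hΛ'fg, hΛ'⟩ := sat_fg K₀ Λ₀ hΛ₀
  obtain ⟨r, b, hb, hgen, hind⟩ := sat_basis Λ' hΛ'fg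
  have hb0 : ∀ i, (fun i => ((b i : K₀ˣ) : K₀)) i ≠ 0 := fun i => (b i).ne_zero
  obtain ⟨c, hc, hmain⟩ := hNS K₀ r (fun i => ((b i : K₀ˣ) : K₀)) hb0
    (fun N hN m y hy i => Pool.Agent.H72.RG.ind_all Λ₀ Λ' hΛ' b hb hgen hind N hN m y hy i)
  refine ⟨c, hc, fun γ hγ h hh => ?_⟩
  have hnd : ∀ a : Fin k → ℤ, a ≠ 0 →
      ((∏ i, γ i ^ a i : Ωˣ) : Ω) ∉ DivG Ω (fun i => ((b i : K₀ˣ) : K₀)) := by
    intro a ha hmem
    obtain ⟨m, hm, hmT⟩ := fo_div Λ₀ Λ' hΛ' b hb T hT' hmem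
    rw [hT] at hmT
    obtain ⟨u, hu, hum⟩ := hmT
    have h1 : (∏ i, γ i ^ a i) ^ m = u := by
      apply Units.ext
      rw [Units.val_pow_eq_pow_val, hum]
    apply hγ a ha m hm
    rw [h1]
    exact hu
  refine (hmain γ hnd h hh).trans ?_
  have hh0 : 0 ≤ h := (Pool.Agent.H72.PB.ht_nonneg _).trans (hh ⟨0, hk⟩)
  have hle : N₀ K Λ S ≤ (NS Ω (fun i => ((b i : K₀ˣ) : K₀)) S).restrictScalars K := by
    unfold N₀ fld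
    rw [IntermediateField.adjoin_le_iff]
    rintro y ⟨x, hx, rfl⟩
    have h1 := srad_sg Λ S x hx
    rw [← hT] at h1
    exact IntermediateField.subset_adjoin K₀ _ (fo_sg Λ₀ Λ' hΛ' b hgen S T hT' h1)
  have hdeg : degP (NS Ω (fun i => ((b i : K₀ˣ) : K₀)) S) γ ≤ degP (N₀ K Λ S) γ :=
    degP_mono hle γ
  refine mul_le_mul_of_nonneg_right ?_ hh0
  refine Real.rpow_le_rpow (Nat.cast_nonneg _) (by exact_mod_cast hdeg) ?_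
  have : (0 : ℝ) ≤ 1 / (k : ℝ) := by positivity
  linarith

end Pool.Agent.H33.PT
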