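import Pool.Agent.H33.PT.Spu
import Pool.Agent.H28.PT4.RtL
import Pool.Agent.H11.TSL.Asl

/-!
# POINTS THEOREM, LOG VERSION, Spl: sparse hypersurfaces and points, with powers of logarithms
-/

set_option autoImplicit false
set_option linter.unusedSectionVars false

open NumberField MvPolynomial

namespace Pool.Agent.H33.PT

open Pool.Agent.H72.PB Pool.Agent.H11.TH Pool.Agent.H11.TS Pool.Agent.H28.PT4

variable {K Ω : Type} [Field K] [NumberField K] [Field Ω] [CharZero Ω] [IsAlgClosed Ω]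
  [Algebra K Ω] [IsGalois K Ω]

private theorem degP_one {K Ω : Type} [Field K] [Field Ω] [Algebra K Ω]
    [Algebra.IsAlgebraic K Ω] (L : IntermediateField K Ω) {k : ℕ} (γ : Fin k → Ωˣ) :
    1 ≤ degP L γ := by
  have halg : Algebra.IsAlgebraic L Ω := Algebra.IsAlgebraic.tower_top (K := K) L
  have hfin : FiniteDimensional L (IntermediateField.adjoin L (Set.range fun i => (γ i : Ω))) :=
    IntermediateField.finiteDimensional_adjoin fun x _ => Algebra.IsIntegral.isIntegral x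
  exact Module.finrank_pos

/-- the product form for points with split logarithms -/
theorem point_l (Λ : Subgroup Ωˣ) (L₀ : ℕ → IntermediateField K Ω)
    (hPT : ∀ k : ℕ, 1 ≤ k → ∃ (C : ℕ) (c : ℝ), 0 < c ∧ ∀ m : ℕ, 1 ≤ m →
      LogH (L₀ m) Λ k m C c) (k : ℕ) :
    ∃ (C : ℕ) (c : ℝ), 0 < c ∧ ∀ m : ℕ, 1 ≤ m → ∀ γ : Fin k → Ωˣ, IndM Λ γ →
      c ≤ (1 + Real.log m) ^ C * ((degP (L₀ m) γ : ℝ) * (1 + Real.log (degP (L₀ m) γ)) ^ C *
        ∏ i, absLogHeight₁ (γ i : Ω)) := by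
  have halg : Algebra.IsAlgebraic K Ω := inferInstance
  rcases Nat.eq_zero_or_pos k with rfl | hk
  · refine ⟨0, 1, one_pos, fun m _ γ _ => ?_⟩
    rw [Finset.univ_eq_empty, Finset.prod_empty, pow_zero, pow_zero, mul_one, mul_one, one_mul]
    exact_mod_cast degP_one (L₀ m) γ
  obtain ⟨C₁, c₁, hc₁, h1⟩ := hPT 1 le_rfl
  obtain ⟨C₂, c₂, hc₂, h2⟩ := hPT k hk
  obtain ⟨C, c, hc, h⟩ := root_trickL k hk (max C₁ C₂) (min c₁ c₂) (lt_min hc₁ hc₂)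
  refine ⟨C, c / 2 ^ C, by positivity, fun m hm γ hγ => ?_⟩
  have h3 := h K Ω (L₀ m) Λ m hm
    (logH_mono le_rfl hm (le_max_left _ _) (min_le_left _ _) (h1 m hm))
    (logH_mono hk hm (le_max_right _ _) (min_le_right _ _) (h2 m hm)) γ hγ
  have hm1 : (1 : ℝ) ≤ m := by exact_mod_cast hm
  have hD1 : (1 : ℝ) ≤ degP (L₀ m) γ := by exact_mod_cast degP_one (L₀ m) γ
  have h4 := Pool.Agent.H11.TSL.log_split m (degP (L₀ m) γ) hm1 hD1
  have h5 : 0 ≤ Real.log (3 * m * degP (L₀ m) γ) := by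
    refine Real.log_nonneg ?_
    nlinarith
  have h6 : (0 : ℝ) ≤ ∏ i, absLogHeight₁ (γ i : Ω) := Finset.prod_nonneg fun i _ => ht_nonneg _
  rw [div_le_iff₀ (by positivity)]
  calc c ≤ (degP (L₀ m) γ : ℝ) * Real.log (3 * m * degP (L₀ m) γ) ^ C *
        ∏ i, absLogHeight₁ (γ i : Ω) := h3
    _ ≤ (degP (L₀ m) γ : ℝ) * (2 * ((1 + Real.log m) * (1 + Real.log (degP (L₀ m) γ)))) ^ C *
        ∏ i, absLogHeight₁ (γ i : Ω) := by gcongr
    _ = _ := by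
        rw [mul_pow, mul_pow]
        ring

/-- the sparse bound with a power of the logarithm of the level -/
theorem sparse_l (Λ : Subgroup Ωˣ) (L₀ : ℕ → IntermediateField K Ω)
    (hPT : ∀ k : ℕ, 1 ≤ k → ∃ (C : ℕ) (c : ℝ), 0 < c ∧ ∀ m : ℕ, 1 ≤ m →
      LogH (L₀ m) Λ k m C c) :
    ∃ C : ℕ, ∀ N d : ℕ, ∃ c : ℝ, 0 < c ∧ ∀ l : ℕ, 1 ≤ l → ∀ (n : ℕ) (Γ : Subgroup (Tor Ω n)),
      (∀ x : Tor Ω n, (∀ l, x l ∈ Λ) → x ∈ Γ) →
      ∀ V : Set (Tor Ω n), (idl V).IsPrime → Transv K Γ V →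
      ∀ (D : ℕ) (m : Fin N → Fin n → ℕ) (g : Fin N → Ω), (∀ j l, m j l ≤ D) →
      (∀ j, dg (L₀ l) (g j) ≤ d) →
      (∑ j, term (m j) (g j)) ≠ 0 → (∑ j, term (m j) (g j)) ∈ idl V →
      ∀ θ : ℝ, idl {x | x ∈ V ∧ ht x ≤ θ} ≤ idl V → c ≤ (1 + Real.log l) ^ C * (D * θ) := by
  have halg : Algebra.IsAlgebraic K Ω := inferInstance
  obtain ⟨C, c, hc, h⟩ := point_l Λ L₀ hPT 1
  refine ⟨C, fun N d => sparse_g Λ L₀ (fun m => (1 + Real.log m) ^ C) (fun m hm => ?_) ?_ N d⟩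
  · refine one_le_pow₀ ?_
    have := Real.log_nonneg (by exact_mod_cast hm : (1 : ℝ) ≤ m)
    linarith
  intro E
  have hE1 : (1 : ℝ) ≤ ((E + 1 : ℕ) : ℝ) := by exact_mod_cast Nat.le_add_left 1 E
  have hlE : 0 ≤ Real.log ((E + 1 : ℕ) : ℝ) := Real.log_nonneg hE1
  have hC0 : (0 : ℝ) < ((E + 1 : ℕ) : ℝ) * (1 + Real.log ((E + 1 : ℕ) : ℝ)) ^ C := by positivity
  refine ⟨c / (((E + 1 : ℕ) : ℝ) * (1 + Real.log ((E + 1 : ℕ) : ℝ)) ^ C), by positivity,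
    fun m hm γ hγ hd => ?_⟩
  have hind : IndM Λ (fun _ : Fin 1 => γ) := by
    intro a ha k hk hmem
    rw [Fin.prod_univ_one, ← zpow_natCast, ← zpow_mul] at hmem
    have ha0 : a 0 * (k : ℤ) ≠ 0 := by
      refine mul_ne_zero ?_ (by exact_mod_cast (by omega : k ≠ 0))
      intro h0
      apply ha
      funext i
      rw [Subsingleton.elim i 0]
      exact h0
    rcases Int.natAbs_eq (a 0 * (k : ℤ)) with h1 | h1
    · rw [h1, zpow_natCast] at hmem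
      exact hγ _ (Int.natAbs_pos.2 ha0) hmem
    · rw [h1, zpow_neg, zpow_natCast] at hmem
      exact hγ _ (Int.natAbs_pos.2 ha0) ((Subgroup.inv_mem_iff Λ).1 hmem)
  have h2 := h m hm (fun _ => γ) hind
  rw [Fin.prod_univ_one] at h2
  have hm1 : (1 : ℝ) ≤ m := by exact_mod_cast hm
  have hlm : 0 ≤ Real.log (m : ℝ) := Real.log_nonneg hm1
  have h3 : degP (L₀ m) (fun _ : Fin 1 => γ) ≤ E + 1 :=
    (degP_one_le (L := L₀ m) γ).trans (hd.trans (Nat.le_succ _))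
  have h3' : (degP (L₀ m) (fun _ : Fin 1 => γ) : ℝ) ≤ ((E + 1 : ℕ) : ℝ) := by exact_mod_cast h3
  have h4 : (1 : ℝ) ≤ degP (L₀ m) (fun _ : Fin 1 => γ) := by exact_mod_cast degP_one (L₀ m) _
  have h5 : 0 ≤ Real.log (degP (L₀ m) (fun _ : Fin 1 => γ)) := Real.log_nonneg h4
  have h6 : Real.log (degP (L₀ m) (fun _ : Fin 1 => γ)) ≤ Real.log ((E + 1 : ℕ) : ℝ) :=
    Real.log_le_log (by linarith) h3'
  have hh : 0 ≤ absLogHeight₁ (γ : Ω) := ht_nonneg _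
  rw [div_le_iff₀ hC0]
  calc c ≤ (1 + Real.log m) ^ C * ((degP (L₀ m) (fun _ : Fin 1 => γ) : ℝ) *
        (1 + Real.log (degP (L₀ m) (fun _ : Fin 1 => γ))) ^ C * absLogHeight₁ (γ : Ω)) := h2
    _ ≤ (1 + Real.log m) ^ C * (((E + 1 : ℕ) : ℝ) *
        (1 + Real.log ((E + 1 : ℕ) : ℝ)) ^ C * absLogHeight₁ (γ : Ω)) := by gcongr
    _ = _ := by ring

end Pool.Agent.H33.PT
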